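import Mathlib

/-!
# Sums and numbers of elements with a property
-/

namespace Pool.Agent.EXA

open Finset

section

variable {α β : Type} [Fintype α] [Fintype β] {P Q R : α → Prop} {f g : α → ℕ}

open Classical in
/-- The sum of `f` over the elements with the property `P`. -/
noncomputable def sm (P : α → Prop) (f : α → ℕ) : ℕ := ∑ a ∈ univ.filter P, f a

/-- The number of elements with the property `P`. -/
noncomputable def nc (P : α → Prop) : ℕ := sm P (fun _ => 1)

theorem sm_def [DecidablePred P] : sm P f = ∑ a ∈ univ.filter P, f a := by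
  unfold sm
  congr!

theorem sm_ite [DecidablePred P] : sm P f = ∑ a, if P a then f a else 0 := by
  rw [sm_def, Finset.sum_filter]

theorem sm_congr (hP : ∀ a, P a ↔ Q a) (hf : ∀ a, P a → f a = g a) : sm P f = sm Q g := by
  classical
  have h : P = Q := funext fun a => propext (hP a)
  subst h
  rw [sm_def, sm_def]
  exact Finset.sum_congr rfl fun a ha => hf a (Finset.mem_filter.1 ha).2

theorem sm_mono (hP : ∀ a, P a → Q a) (hf : ∀ a, P a → f a ≤ g a) : sm P f ≤ sm Q g := by
  classical
  rw [sm_def, sm_def]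
  calc ∑ a ∈ univ.filter P, f a ≤ ∑ a ∈ univ.filter P, g a :=
        Finset.sum_le_sum fun a ha => hf a (Finset.mem_filter.1 ha).2
    _ ≤ ∑ a ∈ univ.filter Q, g a :=
        Finset.sum_le_sum_of_subset fun a ha => by
          rw [Finset.mem_filter] at ha ⊢
          exact ⟨ha.1, hP a ha.2⟩

theorem sm_add : sm P (fun a => f a + g a) = sm P f + sm P g := by
  classical
  rw [sm_def, sm_def, sm_def, Finset.sum_add_distrib]

theorem sm_mul (k : ℕ) : sm P (fun a => k * f a) = k * sm P f := by
  classical
  rw [sm_def, sm_def, Finset.mul_sum]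

theorem sm_mul' (k : ℕ) : sm P (fun a => f a * k) = sm P f * k := by
  classical
  rw [sm_def, sm_def, Finset.sum_mul]

theorem sm_const (k : ℕ) : sm P (fun _ => k) = nc P * k := by
  have h := sm_mul' (P := P) (f := fun _ => 1) k
  rw [← nc] at h
  rw [← h]
  exact sm_congr (fun _ => Iff.rfl) fun a _ => by rw [one_mul]

theorem sm_none (h : ∀ a, ¬ P a) : sm P f = 0 := by
  classical
  rw [sm_def]
  refine Finset.sum_eq_zero fun a ha => absurd (Finset.mem_filter.1 ha).2 (h a)

theorem sm_zero (h : ∀ a, P a → f a = 0) : sm P f = 0 := by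
  classical
  rw [sm_def]
  exact Finset.sum_eq_zero fun a ha => h a (Finset.mem_filter.1 ha).2

theorem sm_single {b : α} (h : ∀ a, P a ↔ a = b) : sm P f = f b := by
  classical
  rw [sm_def]
  have : univ.filter P = {b} := by
    ext a
    simp [h]
  rw [this, Finset.sum_singleton]

theorem sm_or (h : ∀ a, P a → ¬ Q a) : sm (fun a => P a ∨ Q a) f = sm P f + sm Q f := by
  classical
  rw [sm_def, sm_def, sm_def, Finset.filter_or, Finset.sum_union]
  rw [Finset.disjoint_left]
  intro a h1 h2
  exact h a (Finset.mem_filter.1 h1).2 (Finset.mem_filter.1 h2).2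

theorem sm_split (Q : α → Prop) : sm P f = sm (fun a => P a ∧ Q a) f + sm (fun a => P a ∧ ¬ Q a) f := by
  rw [← sm_or (fun a h1 h2 => h2.2 h1.2)]
  exact sm_congr (fun a => by tauto) fun _ _ => rfl

theorem sm_pos : 0 < sm P f ↔ ∃ a, P a ∧ 0 < f a := by
  classical
  rw [sm_def, Finset.sum_pos_iff]
  simp only [Finset.mem_filter, Finset.mem_univ, true_and]

theorem le_sm {a : α} (h : P a) : f a ≤ sm P f := by
  classical
  rw [sm_def]
  exact Finset.single_le_sum (f := f) (fun _ _ => Nat.zero_le _) (Finset.mem_filter.2 ⟨Finset.mem_univ _, h⟩)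

theorem sm_prod {P' : α → Prop} {Q' : α → β → Prop} {F : α × β → ℕ} :
    sm (fun p : α × β => P' p.1 ∧ Q' p.1 p.2) F = sm P' (fun a => sm (Q' a) (fun b => F (a, b))) := by
  classical
  rw [sm_ite, Fintype.sum_prod_type, sm_ite]
  refine Finset.sum_congr rfl fun a _ => ?_
  by_cases h : P' a
  · rw [if_pos h, sm_ite]
    refine Finset.sum_congr rfl fun b _ => ?_
    simp only [h, true_and]
  · rw [if_neg h]
    refine Finset.sum_eq_zero fun b _ => ?_
    simp only [h, false_and, if_false]

/-- Exchange of two sums. -/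
theorem sm_comm {P' : α → Prop} {Q' : α → β → Prop} {P'' : β → Prop} {Q'' : β → α → Prop} {F : α → β → ℕ}
    (h : ∀ a b, (P' a ∧ Q' a b) ↔ (P'' b ∧ Q'' b a)) :
    sm P' (fun a => sm (Q' a) (fun b => F a b)) = sm P'' (fun b => sm (Q'' b) (fun a => F a b)) := by
  classical
  have h1 : ∀ (a : α), (if P' a then sm (Q' a) (fun b => F a b) else 0) = ∑ b, if P' a ∧ Q' a b then F a b else 0 := by
    intro a
    by_cases ha : P' a
    · simp only [ha, if_true, true_and]
      exact sm_ite
    · simp [ha]
  have h2 : ∀ (b : β), (if P'' b then sm (Q'' b) (fun a => F a b) else 0) = ∑ a, if P'' b ∧ Q'' b a then F a b else 0 := by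
    intro b
    by_cases hb : P'' b
    · simp only [hb, if_true, true_and]
      exact sm_ite
    · simp [hb]
  rw [sm_ite, sm_ite, Finset.sum_congr rfl fun a _ => h1 a, Finset.sum_congr rfl fun b _ => h2 b, Finset.sum_comm]
  refine Finset.sum_congr rfl fun b _ => Finset.sum_congr rfl fun a _ => ?_
  exact if_congr (h a b) rfl rfl

theorem nc_def [DecidablePred P] : nc P = (univ.filter P).card := by
  rw [nc, sm_def, Finset.card_eq_sum_ones]

theorem nc_congr (h : ∀ a, P a ↔ Q a) : nc P = nc Q := sm_congr h fun _ _ => rfl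

theorem nc_mono (h : ∀ a, P a → Q a) : nc P ≤ nc Q := sm_mono h fun _ _ => le_rfl

theorem nc_le : nc P ≤ Fintype.card α := by
  classical
  rw [nc_def]
  exact Finset.card_le_univ _

theorem nc_univ : nc (fun _ : α => True) = Fintype.card α := by
  classical
  rw [nc_def, Finset.filter_true_of_mem (fun _ _ => trivial), Finset.card_univ]

theorem nc_ncard : nc P = {a | P a}.ncard := by
  classical
  rw [nc_def, Set.ncard_eq_toFinset_card', Set.toFinset_ofPred]

theorem nc_natCard : nc P = Nat.card {a // P a} := by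
  rw [nc_ncard]
  rfl

theorem nc_pos : 0 < nc P ↔ ∃ a, P a := by
  rw [nc, sm_pos]
  simp

theorem nc_zero (h : ∀ a, ¬ P a) : nc P = 0 := sm_none h

theorem nc_inj (e : α → β) {P' : β → Prop} (h : ∀ a, P a → P' (e a)) (hi : ∀ a a', P a → P a' → e a = e a' → a = a') : nc P ≤ nc P' := by
  classical
  rw [nc_def, nc_def]
  refine Finset.card_le_card_of_injOn e (fun a ha => ?_) (fun a ha a' ha' => ?_)
  · have := h a (by simpa using ha)
    simpa using this
  · exact hi a a' (by simpa using ha) (by simpa using ha')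

theorem sm_le_const {k : ℕ} (h : ∀ a, P a → f a ≤ k) : sm P f ≤ nc P * k := by
  rw [← sm_const]
  exact sm_mono (fun _ => id) h

end

/-- `D` together with `v`. -/
def ins {V : Type} (D : V → Prop) (v w : V) : Prop := D w ∨ w = v

end Pool.Agent.EXA
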