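import Pool.Agent.Lib.MP_0087d5_lc.EXA.DNet
import Pool.Agent.Lib.MP_0087d5_lc.SUB.LSteps
import Pool.Agent.Lib.MP_0087d5_lc.SUB.KStat

/-!
# From formulas to programs

Jobs BRA (`cx_rv`, `pnX_cx`), BRB (`brK_eq`, `q_br`), BRC (`ctx_ncp`, `q_Ch`), BRD (`lt_def`, `q_lt`), BRE (`q_OwE`), BRF (`q_rE`).
-/

set_option linter.all false

namespace Pool.Agent.EXA

open Relation Pool.Agent.PMNC Pool.Agent.AUG Pool.Agent.UPM Pool.Agent.SUB

variable {n : ℕ} {nd : Fin n → Prop} {le up : Fin n → Fin n → Prop} {rt : Fin n → Prop} {br : Fin n → Fin n → Prop} {c d c' d' e : ℕ}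

/-- The values of the relation variables. -/
def cx (nd : Fin n → Prop) (le up : Fin n → Fin n → Prop) (rt : Fin n → Prop) (br : Fin n → Fin n → Prop) : Ctx n
  | 0 => fun l => ∃ b, l = [b] ∧ nd b
  | 1 => fun l => ∃ b c, l = [b, c] ∧ le b c
  | 2 => fun l => ∃ b c, l = [b, c] ∧ up b c
  | 3 => fun l => ∃ b, l = [b] ∧ rt b
  | 4 => fun l => ∃ b c, l = [b, c] ∧ br b c
  | _ => fun _ => False

private theorem bra_code1 (b : Fin n) : code (S := fun n => Fin n) b = [b] := by
  rfl

private theorem bra_code2 (b c : Fin n) : code (S := fun n => Fin n × Fin n) (b, c) = [b, c] := by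
  rfl

private theorem bra_ex1 (P : Fin n → Prop) (b : Fin n) : (∃ b', code (S := fun n => Fin n) b = [b'] ∧ P b') ↔ P b := by
  rw [bra_code1]
  constructor
  · rintro ⟨b', h, h'⟩
    rw [List.cons.injEq] at h
    rw [h.1]
    exact h'
  · intro h
    exact ⟨b, rfl, h⟩

private theorem bra_ex2 (P : Fin n → Fin n → Prop) (b c : Fin n) :
    (∃ b' c', code (S := fun n => Fin n × Fin n) (b, c) = [b', c'] ∧ P b' c') ↔ P b c := by
  rw [bra_code2]
  constructor
  · rintro ⟨b', c', h, h'⟩
    rw [List.cons.injEq, List.cons.injEq] at h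
    rw [h.1, h.2.1]
    exact h'
  · intro h
    exact ⟨b, c, rfl, h⟩

/-- Job BRA. (`code b = [b]`, `code (b, c) = [b, c]`.) -/
theorem pnX_cx : pnX (cx nd le up rt br) = pnet nd le up rt br := by
  have h0 : (fun b => PMNC.rv (S := fun n => Fin n) (cx nd le up rt br) 0 b) = nd := by
    funext b
    exact propext (bra_ex1 nd b)
  have h1 : (fun b c => PMNC.rv (S := fun n => Fin n × Fin n) (cx nd le up rt br) 1 (b, c)) = le := by
    funext b c
    exact propext (bra_ex2 le b c)
  have h2 : (fun b c => PMNC.rv (S := fun n => Fin n × Fin n) (cx nd le up rt br) 2 (b, c)) = up := by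
    funext b c
    exact propext (bra_ex2 up b c)
  have h3 : (fun b => PMNC.rv (S := fun n => Fin n) (cx nd le up rt br) 3 b) = rt := by
    funext b
    exact propext (bra_ex1 rt b)
  have h4 : (fun b c => PMNC.rv (S := fun n => Fin n × Fin n) (cx nd le up rt br) 4 (b, c)) = br := by
    funext b c
    exact propext (bra_ex2 br b c)
  unfold pnX
  rw [h0, h1, h2, h3, h4]

/-- Bridges as computed. -/
def brK (n : ℕ) (s : GS2 n) (p q : Fin n) : Prop :=
  ∃ x y i j k : Fin n, claK n s p x ∧ claK n s q y ∧ s.1.Adj x y ∧ mt s.2 x ≠ y ∧ lvK n s x i ∧ lvK n s y j ∧ lamK n s k ∧ (i : ℕ) + j = k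

/-- Job BRB. (`claK_eq`, `lvK_iff`, `lamK_iff`; if `lv x + lv y = lam + 2` then both are less than `ZZ` by `th_lt`, so `lvK_exists` applies.) -/
theorem brK_eq {G M : SimpleGraph (Fin n)} (h : IsMat G M) (hn : ¬ Mxl G (mt M)) : brK n (G, M) = Brr G (mt M) := by
  have hm : Mate G (mt M) := (mt_mate h).1
  have hz := th_lt hm hn
  have hl := lam_lt hm hn
  funext p q
  apply propext
  unfold brK Brr
  rw [claK_eq h hn]
  constructor
  · rintro ⟨x, y, i, j, k, hx, hy, hxy, hne, hi, hj, hk, hs⟩
    refine ⟨x, y, hx, hy, hxy, hne, ?_⟩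
    rw [(lvK_iff h).1 hi, (lvK_iff h).1 hj, ((lamK_iff h).1 hk).2]
    omega
  · rintro ⟨x, y, hx, hy, hxy, hne, hs⟩
    obtain ⟨i, hi, hi'⟩ := lvK_exists (x := x) h (by omega)
    obtain ⟨j, hj, hj'⟩ := lvK_exists (x := y) h (by omega)
    have hkn : lam G (mt M) < n := by omega
    refine ⟨x, y, i, j, ⟨lam G (mt M), hkn⟩, hx, hy, hxy, hne, hi, hj, (lamK_iff h).2 ⟨hn, rfl⟩, ?_⟩
    show (i : ℕ) + j = lam G (mt M)
    omega

private theorem brb_fst {ι : Type} (hι : Finite ι) (i j : ι) :
    NCP GS2 GB2 ι (fun _ s x => s.1.Adj (x i) (x j)) :=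
  NCP.comap hι ![i, j] (NCP.base inferInstance GB2.fst)

private theorem brb_cla {ι : Type} (hι : Finite ι) (i j : ι) :
    NCP GS2 GB2 ι (fun n s x => claK n s (x i) (x j)) :=
  NCP.comap hι ![i, j] q_cla

private theorem brb_lv {ι : Type} (hι : Finite ι) (i j : ι) :
    NCP GS2 GB2 ι (fun n s x => lvK n s (x i) (x j)) :=
  NCP.comap hι ![i, j] q_lv

private theorem brb_lam {ι : Type} (hι : Finite ι) (i : ι) :
    NCP GS2 GB2 ι (fun n s x => lamK n s (x i)) :=
  NCP.comap hι ![i] q_lam

/-- Job BRB. (`q_cla`, `q_lv`, `q_lam`, `fa_mt`.) -/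
theorem q_br : NCP GS2 GB2 (Fin 2) (fun n s x => brK n s (x 0) (x 1)) := by
  have h : NCP GS2 GB2 (Fin 2) (fun n s x => ∃ u v i j k : Fin n, claK n s (x 0) u ∧ claK n s (x 1) v ∧ s.1.Adj u v ∧
      ¬ (mt s.2 u = v) ∧ lvK n s u i ∧ lvK n s v j ∧ lamK n s k ∧ (i : ℕ) + j = k) := by
    refine NCP.ex1 (NCP.ex1 (NCP.ex1 (NCP.ex1 (NCP.ex1 ?_))))
    exact NCP.and (brb_cla (ι := Option (Option (Option (Option (Option (Fin 2)))))) inferInstance
        (some (some (some (some (some 0))))) (some (some (some (some none)))))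
      (NCP.and (brb_cla inferInstance (some (some (some (some (some 1))))) (some (some (some none))))
      (NCP.and (brb_fst inferInstance (some (some (some (some none)))) (some (some (some none))))
      (NCP.and (NCP.not (fa_mt inferInstance (some (some (some (some none)))) (some (some (some none)))))
      (NCP.and (brb_lv inferInstance (some (some (some (some none)))) (some (some none)))
      (NCP.and (brb_lv inferInstance (some (some (some none))) (some none))
      (NCP.and (brb_lam inferInstance none) (NCP.add inferInstance (some (some none)) (some none) none)))))))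
  exact h

private theorem brc_un {S : ℕ → Type} {B : Readers S} {R : ∀ n, S n → Fin n → Prop}
    (h : NCP S B (Fin 1) (fun n s x => R n s (x 0))) (r : ℕ) :
    NCP S B (Empty ⊕ Fin r) (fun n s x => ∃ b, (List.ofFn fun j => x (Sum.inr j)) = [b] ∧ R n s b) := by
  by_cases hr : r = 1
  · subst hr
    refine (NCP.comap (κ := Empty ⊕ Fin 1) inferInstance (fun _ => Sum.inr 0) h).congr fun n s x => ?_
    have e : (List.ofFn fun j : Fin 1 => x (Sum.inr j)) = [x (Sum.inr 0)] := by simp
    rw [e]
    constructor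
    · intro hh
      exact ⟨_, rfl, hh⟩
    · rintro ⟨b, hb, hh⟩
      rw [List.cons.inj hb |>.1]
      exact hh
  · refine (NCP.const inferInstance False).congr fun n s x => ?_
    constructor
    · exact False.elim
    · rintro ⟨b, hb, -⟩
      apply hr
      have := congrArg List.length hb
      simpa using this

private theorem brc_bi {S : ℕ → Type} {B : Readers S} {R : ∀ n, S n → Fin n → Fin n → Prop}
    (h : NCP S B (Fin 2) (fun n s x => R n s (x 0) (x 1))) (r : ℕ) :
    NCP S B (Empty ⊕ Fin r) (fun n s x => ∃ b c, (List.ofFn fun j => x (Sum.inr j)) = [b, c] ∧ R n s b c) := by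
  by_cases hr : r = 2
  · subst hr
    refine (NCP.comap (κ := Empty ⊕ Fin 2) inferInstance (fun j => Sum.inr j) h).congr fun n s x => ?_
    have e : (List.ofFn fun j : Fin 2 => x (Sum.inr j)) = [x (Sum.inr 0), x (Sum.inr 1)] := by
      simp [List.ofFn_succ]
    rw [e]
    constructor
    · intro hh
      exact ⟨_, _, rfl, hh⟩
    · rintro ⟨b, c, hb, hh⟩
      have h1 := List.cons.inj hb
      have h2 := List.cons.inj h1.2
      change R n s (x (Sum.inr 0)) (x (Sum.inr 1))
      rw [h1.1, h2.1]
      exact hh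
  · refine (NCP.const inferInstance False).congr fun n s x => ?_
    constructor
    · exact False.elim
    · rintro ⟨b, c, hb, -⟩
      apply hr
      have := congrArg List.length hb
      simpa using this

/-- Job BRC. A definable relation, evaluated for relations given by programs, is a program. (`Br.br` for the formula of `DefP`, `S = GS2`, the graph `s.1`, the context `cx …` (for `ι = Empty`); the argument `hX`: for the relation variable `i` and `r` arguments: `NCP.comap` of `q_nd`, `q_le`, … if `r` fits, otherwise `False`.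
The variables: `vec n (b, r) = ![b, r]`.) -/
theorem ncp_of_def {P : ∀ n : ℕ, SimpleGraph (Fin n) → Ctx n → Fin n × Fin n → Prop} (hP : DefP (E := fun n => Fin n × Fin n) P) :
    NCP GS2 GB2 (Fin 2) (fun n s x => P n s.1 (cx (ndK n s) (leK' n s) (upK n s) (fun x => mt s.2 x = x) (brK n s)) (x 0, x 1)) := by
  obtain ⟨φ, hφ⟩ := hP
  have hG : NCP GS2 GB2 (Fin 2) (fun n s x => s.1.Adj (x 0) (x 1)) := NCP.base inferInstance GB2.fst
  have h := Br.br φ GS2 GB2 Empty inferInstance (fun n s => s.1)
    (fun n s _ => cx (ndK n s) (leK' n s) (upK n s) (fun x => mt s.2 x = x) (brK n s)) hG (by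
      intro i r
      match i with
      | 0 => exact brc_un (S := GS2) (B := GB2) (R := fun n s b => ndK n s b) q_nd r
      | 1 => exact brc_bi (S := GS2) (B := GB2) (R := fun n s b c => leK' n s b c) q_le r
      | 2 => exact brc_bi (S := GS2) (B := GB2) (R := fun n s b c => upK n s b c) q_up r
      | 3 => exact brc_un (S := GS2) (B := GB2) (R := fun n s b => mt s.2 b = b) (fa_mt (ι := Fin 1) inferInstance 0 0) r
      | 4 => exact brc_bi (S := GS2) (B := GB2) (R := fun n s b c => brK n s b c) q_br r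
      | i + 5 => exact NCP.const inferInstance False)
  refine (NCP.comap (κ := Fin 2) inferInstance
    (Sum.elim Empty.elim (fun j : Fin (1 + 1) => (j : Fin 2))) h).congr fun n s x => ?_
  rw [← hφ n s.1 _ (x 0, x 1)]
  have e : (fun j : Fin (1 + 1) => x (Sum.elim Empty.elim (fun j : Fin (1 + 1) => (j : Fin 2)) (Sum.inr j))) =
      vec (E := fun n => Fin n × Fin n) n (x 0, x 1) := by
    rw [vec_pair]
    funext j
    refine Fin.addCases (fun j => ?_) (fun j => ?_) j
    · refine Eq.trans ?_ (Fin.append_left (vec (E := fun n => Fin n) n (x 0)) (vec (E := fun n => Fin n) n (x 1)) j).symm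
      have hj : j = 0 := Subsingleton.elim (α := Fin 1) _ _
      subst hj
      rfl
    · refine Eq.trans ?_ (Fin.append_right (vec (E := fun n => Fin n) n (x 0)) (vec (E := fun n => Fin n) n (x 1)) j).symm
      have hj : j = 0 := Subsingleton.elim (α := Fin 1) _ _
      subst hj
      rfl
  exact iff_of_eq (congrArg (fun v => φ.eval s.1
    (cx (ndK n s) (leK' n s) (upK n s) (fun x => mt s.2 x = x) (brK n s)) v) e)

/-- The net of pairs for a graph and a matching. -/
abbrev netK (n : ℕ) (s : GS2 n) : Net (SS n) (Fin n) := pnet (ndK n s) (leK' n s) (upK n s) (fun x => mt s.2 x = x) (brK n s)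

/-- Job BRC. (`Ch_def`, `pnX_def`, `pnX_cx`.) -/
theorem q_Ch (he : EOk c d c' d' e) : NCP GS2 GB2 (Fin 2) (fun n s x => Ch (netK n s) (JJ c d n) (JJ c' d' n) e (x 0) (x 1)) := by
  refine (ncp_of_def (Ch_def pnX_def he)).congr fun n s x => ?_
  rw [pnX_cx]

/-- one step: zero and the successors -/
private def brd_st (n : ℕ) (R : Fin n → Prop) (s : Fin n) : Prop :=
  nv (S := fun n => Fin n) s = 0 ∨ ∃ t : Fin n, R t ∧ nv (S := fun n => Fin n) s = nv (S := fun n => Fin n) t + 1

private theorem brd_it (n m : ℕ) (s : Fin n) : ((brd_st n)^[m] (fun _ => False)) s ↔ (s : ℕ) < m := by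
  induction m generalizing s with
  | zero => simp
  | succ m ih =>
    rw [Function.iterate_succ_apply']
    change (nv (S := fun n => Fin n) s = 0 ∨ ∃ t : Fin n, ((brd_st n)^[m] (fun _ => False)) t ∧
      nv (S := fun n => Fin n) s = nv (S := fun n => Fin n) t + 1) ↔ _
    rw [nv_fin]
    constructor
    · rintro (h | ⟨t, ht, h⟩)
      · omega
      · rw [nv_fin] at h
        have := (ih t).1 ht
        omega
    · intro h
      rcases Nat.eq_zero_or_pos (s : ℕ) with h0 | h0
      · exact Or.inl h0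
      · right
        have hlt : (s : ℕ) - 1 < n := by have := s.2; omega
        refine ⟨⟨(s : ℕ) - 1, hlt⟩, (ih _).2 ?_, ?_⟩
        · change (s : ℕ) - 1 < m; omega
        · rw [nv_fin]; change (s : ℕ) = (s : ℕ) - 1 + 1; omega

/-- Job BRD. The numbers less than `JJ c d n`: `iterX'` of the operator `R ↦ {x | x = 0 or x = y + 1 for some y in R}` (`DefP.nZero`, `DefP.nSucc`). -/
theorem lt_def (c d : ℕ) : DefP (E := fun n => Fin n) (fun n G X x => (x : ℕ) < JJ c d n) := by
  have h := iterX' (E := fun _ => Unit) (S := fun n => Fin n) c d (I := fun n G X _ _ => False)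
    (Φ := fun n G X _ R s => brd_st n R s) (DefP.const False) (by
      unfold brd_st
      refine DefP.or (DefP.nZero (F := fun n => Fin n) ?_) (DefP.exFin (DefP.and ?_ (DefP.nSucc (F := fun n => Fin n) (H := fun n => Fin n) ?_ ?_)))
      all_goals (repeat' (first
        | apply DefP.rv | exact Tm.id | apply Tm.fst | apply Tm.snd)))
  have h2 := DefP.comp (E := fun n => Fin n) (F := fun n => Unit × Fin n) h (f := fun n x => ((), x))
    (Tm.pair (F := fun _ => Unit) (H := fun n => Fin n) Tm.unit Tm.id)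
  refine h2.congr fun n G X x => ?_
  exact brd_it n (JJ c d n) x

/-- Job BRD. (`lt_def`, `Br.br` as in `ncp_of_def`.) -/
theorem q_lt (c d : ℕ) : NCP GS2 GB2 (Fin 1) (fun n s x => (x 0 : ℕ) < JJ c d n) := by
  obtain ⟨φ, hφ⟩ := lt_def c d
  have h1 := Br.br φ GS2 GB2 Empty inferInstance (fun n s => s.1) (fun n s _ => fun _ _ => False)
    (NCP.base inferInstance GB2.fst) (fun i r => NCP.const inferInstance False)
  have h2 := NCP.comap (κ := Fin 1) inferInstance
    (fun o : Empty ⊕ Fin 1 => match o with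
      | Sum.inl j => j.elim
      | Sum.inr j => j) h1
  refine h2.congr fun n s x => ?_
  refine Iff.trans ?_ (hφ n s.1 (fun _ _ => False) (x 0))
  have e : (fun j : Fin 1 => x j) = vec (E := fun n => Fin n) n (x 0) := by
    funext j
    rw [vec_fin, Subsingleton.elim j 0]
  change φ.eval s.1 _ (fun j : Fin 1 => x j) ↔ _
  rw [e]

/-- The ownership relation: the trivial chains and, if `lam < JJ a b n`, the chosen chains. -/
def OwE (a b e n : ℕ) (s : GS2 n) (x r : Fin n) : Prop :=
  (x = r ∧ mt s.2 r = r) ∨ ((∃ k : Fin n, lamK n s k ∧ (k : ℕ) < JJ a b n) ∧ Ch (netK n s) (JJ (4 * a) b n) (JJ (8 * a) (b + 1) n) e x r)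

/-- Job BRE. -/
theorem q_OwE {a b : ℕ} (he : EOk (4 * a) b (8 * a) (b + 1) e) : NCP GS2 GB2 (Fin 2) (fun n s x => OwE a b e n s (x 0) (x 1)) := by
  have h1 : NCP GS2 GB2 (Fin 2) (fun n s x => x 0 = x 1 ∧ mt s.2 (x 1) = x 1) :=
    NCP.and (NCP.eq inferInstance 0 1) (fa_mt inferInstance 1 1)
  have h2 : NCP GS2 GB2 (Fin 2) (fun n s x => ∃ k : Fin n, lamK n s k ∧ (k : ℕ) < JJ a b n) :=
    NCP.ex1 (S := GS2) (R := fun n s x k => lamK n s k ∧ (k : ℕ) < JJ a b n)
      (NCP.and (NCP.comap (ι := Fin 1) (κ := Option (Fin 2)) inferInstance ![none] q_lam)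
        (NCP.comap (ι := Fin 1) (κ := Option (Fin 2)) inferInstance ![none] (q_lt a b)))
  exact NCP.or h1 (NCP.and h2 (q_Ch he))

/-- One round. -/
def rE (a b e n : ℕ) (G M : SimpleGraph (Fin n)) : SimpleGraph (Fin n) := finG mx0 n (G, M) (OwE a b e n (G, M))

/-- Job BRF, auxiliary. The input of `fFin`. -/
private def brf_f (a b e n : ℕ) (s : GS2 n) : XS n := (s.1, en n s.2 (OwE a b e n s, fun _ => False))

/-- Job BRF, auxiliary. The readers of the state are programs. -/
private theorem brf_readers {a b : ℕ} (he : EOk (4 * a) b (8 * a) (b + 1) e) (ι : Type) (hι : Finite ι) (P : RF XS ι) (hP : XB ι P) :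
    NCP GS2 GB2 ι (fun n s x => P n (brf_f a b e n s) x) := by
  cases hP with
  | old h =>
    cases h with
    | adj => exact NCP.base hι GB2.fst
  | new g =>
    have h0 : NCP GS2 GB2 (Fin 2) (fun n s x => s.2.Adj (x 0) (x 1)) := NCP.base hι GB2.snd
    have h1 := q_OwE he
    by_cases hg0 : g = 0
    · refine NCP.congr h0 (fun n s x => ?_)
      show s.2.Adj (x 0) (x 1) ↔ en n s.2 (OwE a b e n s, fun _ => False) g x
      unfold en
      rw [if_pos hg0]
    · by_cases hg1 : g = 1
      · refine NCP.congr h1 (fun n s x => ?_)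
        show OwE a b e n s (x 0) (x 1) ↔ en n s.2 (OwE a b e n s, fun _ => False) g x
        unfold en
        rw [if_neg hg0, if_pos hg1]
      · refine NCP.congr (NCP.const (S := GS2) (B := GB2) (ι := Fin 2) hι False) (fun n s x => ?_)
        show False ↔ en n s.2 (OwE a b e n s, fun _ => False) g x
        unfold en
        rw [if_neg hg0, if_neg hg1]
        exact ⟨fun h => h.elim, fun h => h.2⟩

/-- Job BRF. `NCP.pull` of `st_fin 0` for `f n s = (s.1, en n s.2 (OwE a b e n s, fun _ => False))`, `dM_en`, `dS_en`. -/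
theorem q_rE {a b : ℕ} (he : EOk (4 * a) b (8 * a) (b + 1) e) : NCP GS2 GB2 (Fin 2) (fun n s x => (rE a b e n s.1 s.2).Adj (x 0) (x 1)) := by
  have h := NCP.pull (S := XS) (B := XB) (S' := GS2) (B' := GB2) (brf_f a b e) (brf_readers he) (st_fin 0)
  refine NCP.congr h (fun n s x => ?_)
  show en n (finG mx0 n ((brf_f a b e n s).1, dM n (brf_f a b e n s).2) (dS n (brf_f a b e n s).2).1) (dS n (brf_f a b e n s).2) 0 x ↔ _
  have e1 : dM n (brf_f a b e n s).2 = s.2 := dM_en n s.2 _
  have e2 : dS n (brf_f a b e n s).2 = (OwE a b e n s, fun _ => False) := dS_en n s.2 _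
  rw [e1, e2]
  unfold en
  rw [if_pos rfl]
  exact Iff.rfl

end Pool.Agent.EXA
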