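import Pool.Agent.Lib.MP_0087d5_lc.EXA.Tok

/-!
# Congestion

Every vertex is visited by few tokens. Jobs CGA (`cg_sum`), CGB (`al_cnt`), CGC (`cg_vertex`), CGD (`cg_conf`), CGE (`cg_tot`).
-/

namespace Pool.Agent.EXA

open Finset

variable {S V T U : Type} [Fintype S] [Fintype V] [Fintype T] [Fintype U]
variable {N : Net S V} {c kz : S → ℕ} {ky : T → ℕ} {alv : T → Prop} {so : T → S} {A : T × S → Prop} {D : V → Prop} {τ τ' : T} {y y' z z' : S} {rk : S → ℕ} {v : V} {j J B : ℕ}


private theorem cga_mvn_num (y z : S) : mvn N c kz ky A y z ≤ num A y :=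
  nc_mono fun _ h => h.1

open Classical in
private theorem cga_key (h : TK N c kz ky alv so A rk) {g : S → ℕ} (hg : ∀ z, 0 < c z → g z = (if N.oc z v then c z else 0) + (if ¬ N.tm z then sm (N.mv z) g else 0))
    {q : S → ℚ} (q0 : ∀ z, 0 ≤ q z) (cq : ∀ z, (c z : ℚ) * q z = g z) (y : S) :
    (if N.oc y v then (num A y : ℚ) else 0) ≤ num A y * q y - ∑ z, (mvn N c kz ky A y z : ℚ) * q z + ∑ z, (if N.mv y z then q z else 0) := by
  have s0 : 0 ≤ ∑ z, (if N.mv y z then q z else 0) := Finset.sum_nonneg fun z _ => by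
    split_ifs
    · exact q0 z
    · exact le_rfl
  rcases Nat.eq_zero_or_pos (num A y) with hn | hn
  · have h1 : ∀ z, mvn N c kz ky A y z = 0 := fun z => Nat.le_zero.1 (hn ▸ cga_mvn_num y z)
    simp only [hn, h1, Nat.cast_zero, zero_mul, Finset.sum_const_zero, sub_zero, ite_self, zero_add]
    exact s0
  · obtain ⟨τ, hτ⟩ := nc_pos.1 hn
    have hc : 0 < c y := (tk_pos h hτ).2
    have hcQ : (0 : ℚ) < c y := by exact_mod_cast hc
    have hgy := hg y hc
    by_cases ht : N.tm y
    · have h1 : ∀ z, mvn N c kz ky A y z = 0 := fun z => mvn_zero (Or.inl ht)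
      simp only [ht, not_true_eq_false, if_false, add_zero] at hgy
      have h2 : (if N.oc y v then (num A y : ℚ) else 0) = num A y * q y := by
        by_cases ho : N.oc y v
        · rw [if_pos ho] at hgy ⊢
          have h3 := cq y
          rw [hgy] at h3
          have h4 : q y = 1 := by
            have h5 : (c y : ℚ) * q y = c y * 1 := by rw [h3, mul_one]
            exact mul_left_cancel₀ hcQ.ne' h5
          rw [h4, mul_one]
        · rw [if_neg ho] at hgy ⊢
          have h3 := cq y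
          rw [hgy, Nat.cast_zero] at h3
          have h4 : q y = 0 := by
            rcases mul_eq_zero.1 h3 with h5 | h5
            · exact absurd h5 hcQ.ne'
            · exact h5
          rw [h4, mul_zero]
      simp only [h1, Nat.cast_zero, zero_mul, Finset.sum_const_zero, sub_zero]
      rw [h2]
      linarith
    · simp only [ht, not_false_eq_true, if_true] at hgy
      have h1 : ∀ z, (mvn N c kz ky A y z : ℚ) * q z ≤ (if N.mv y z then (num A y : ℚ) * g z / c y else 0) + (if N.mv y z then q z else 0) := by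
        intro z
        by_cases hm : N.mv y z
        · rw [if_pos hm, if_pos hm]
          have h2 : (mvn N c kz ky A y z : ℚ) * c y ≤ num A y * c z + c y := by exact_mod_cast mvn_le h
          have h3 : (mvn N c kz ky A y z : ℚ) ≤ num A y * c z / c y + 1 := by
            rw [div_add_one hcQ.ne', le_div_iff₀ hcQ]
            exact h2
          calc (mvn N c kz ky A y z : ℚ) * q z ≤ (num A y * c z / c y + 1) * q z := mul_le_mul_of_nonneg_right h3 (q0 z)
            _ = num A y * (c z * q z) / c y + q z := by ring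
            _ = num A y * g z / c y + q z := by rw [cq z]
        · rw [if_neg hm, if_neg hm, mvn_zero (Or.inr hm)]
          simp
      have h2 : ∑ z, (mvn N c kz ky A y z : ℚ) * q z ≤ (num A y : ℚ) * (sm (N.mv y) g : ℕ) / c y + ∑ z, (if N.mv y z then q z else 0) := by
        refine (Finset.sum_le_sum fun z _ => h1 z).trans (le_of_eq ?_)
        rw [Finset.sum_add_distrib]
        congr 1
        rw [sm_ite, Nat.cast_sum, Finset.mul_sum, Finset.sum_div]
        refine Finset.sum_congr rfl fun z _ => ?_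
        split_ifs <;> simp
      have h3 : (num A y : ℚ) * q y = (if N.oc y v then (num A y : ℚ) else 0) + (num A y : ℚ) * (sm (N.mv y) g : ℕ) / c y := by
        have h4 : q y = (g y : ℚ) / c y := by
          rw [eq_div_iff hcQ.ne', mul_comm]
          exact cq y
        rw [h4, hgy]
        split_ifs
        · push_cast
          field_simp
        · push_cast
          ring
      linarith

open Classical in
/-- Job CGA. **Summation by parts.** `g z` = the number of visits of `v` by the runs from `z`, `h z = g z / c z` the average number. Multiply `mvn_le` by `h z / c y` and sum over `z`: for `y` not final and visited, `Σ_z mvn y z * h z ≤ num A y * (Σ_z g z) / c y + Σ_{z, mv y z} h z` and `Σ_z g z = g y - [oc y v] * c y`; so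
`num A y * [oc y v] ≤ num A y * h y - Σ_z mvn y z * h z + Σ_{z, mv y z} h z` (also for final `y`: `h y = [oc y v]`, and if `num A y = 0` then `mvn y z = 0`; `num A y > 0` implies `0 < c y`, `tk_pos`). Sum over `y` and use `tk_num`: `Σ_y num A y * h y - Σ_z Σ_y mvn y z * h z = Σ_z (number of starts at z) * h z`. -/
theorem cg_sum (h : TK N c kz ky alv so A rk) {g : S → ℕ} (hg : ∀ z, 0 < c z → g z = (if N.oc z v then c z else 0) + (if ¬ N.tm z then sm (N.mv z) g else 0))
    (hg0 : ∀ z, c z = 0 → g z = 0) :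
    (sm (fun z => N.oc z v) (num A) : ℚ) ≤ ∑ z, (nc (fun τ : T => alv τ ∧ so τ = z) : ℚ) * ((g z : ℚ) / c z) + ∑ y, ∑ z, (if N.mv y z then (g z : ℚ) / c z else 0) := by

  set q : S → ℚ := fun z => (g z : ℚ) / c z with hq
  have q0 : ∀ z, 0 ≤ q z := fun z => by positivity
  have cq : ∀ z, (c z : ℚ) * q z = g z := by
    intro z
    rcases Nat.eq_zero_or_pos (c z) with h0 | h0
    · rw [h0, hg0 z h0]
      simp
    · have h1 : (c z : ℚ) ≠ 0 := by positivity
      simp only [hq]
      field_simp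
  have key : ∀ y, (if N.oc y v then (num A y : ℚ) else 0) ≤ num A y * q y - ∑ z, (mvn N c kz ky A y z : ℚ) * q z
      + ∑ z, (if N.mv y z then q z else 0) := fun y => cga_key h hg q0 cq y
  have e1 : (sm (fun z => N.oc z v) (num A) : ℚ) = ∑ y, (if N.oc y v then (num A y : ℚ) else 0) := by
    rw [sm_ite]
    push_cast
    rfl
  have e2 : ∀ z, (num A z : ℚ) = nc (fun τ : T => alv τ ∧ so τ = z) + ∑ y, (mvn N c kz ky A y z : ℚ) := by
    intro z
    rw [tk_num h z, sm_ite]
    push_cast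
    simp
  rw [e1]
  calc ∑ y, (if N.oc y v then (num A y : ℚ) else 0)
      ≤ ∑ y, (num A y * q y - ∑ z, (mvn N c kz ky A y z : ℚ) * q z + ∑ z, (if N.mv y z then q z else 0)) :=
        Finset.sum_le_sum fun y _ => key y
    _ = ∑ y, (num A y : ℚ) * q y - ∑ y, ∑ z, (mvn N c kz ky A y z : ℚ) * q z + ∑ y, ∑ z, (if N.mv y z then q z else 0) := by
        rw [Finset.sum_add_distrib, Finset.sum_sub_distrib]
    _ = ∑ z, (nc (fun τ : T => alv τ ∧ so τ = z) : ℚ) * q z + ∑ y, ∑ z, (if N.mv y z then q z else 0) := by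
        rw [Finset.sum_comm (f := fun y z => (mvn N c kz ky A y z : ℚ) * q z)]
        congr 1
        rw [← Finset.sum_sub_distrib]
        refine Finset.sum_congr rfl fun z _ => ?_
        rw [e2 z, add_mul, Finset.sum_mul]
        ring

/-! ### The tokens `(z, u)`, `u` a number less than `B` -/

/-- The used tokens for the set `D`. -/
def Net.us (N : Net S V) (J : ℕ) (ku : U → ℕ) (B : ℕ) (D : V → Prop) (τ : S × U) : Prop :=
  N.st τ.1 ∧ ∀ w, ku τ.2 * N.tot D J < B * N.cnt D J τ.1 + ku τ.2 * N.tot (ins D w) J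

/-- `h` is the largest number of runs through a vertex. -/
def Net.IsMx (N : Net S V) (J : ℕ) (D : V → Prop) (h : ℕ) : Prop :=
  (∀ w, N.tot D J ≤ N.tot (ins D w) J + h) ∧ ∃ w, N.tot D J = N.tot (ins D w) J + h

omit [Fintype U] in
/-- Job CGB. -/
theorem ismx_exists (hV : Nonempty V) (D : V → Prop) : ∃ h, N.IsMx J D h := by

  obtain ⟨w, _, hw⟩ := Finset.exists_min_image (Finset.univ : Finset V) (fun w => N.tot (ins D w) J) ⟨hV.some, Finset.mem_univ _⟩
  have h1 : N.tot (ins D w) J ≤ N.tot D J := tot_anti fun v hv => Or.inl hv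
  refine ⟨N.tot D J - N.tot (ins D w) J, fun w' => ?_, w, by omega⟩
  have h2 := hw w' (Finset.mem_univ _)
  omega

/-- Job CGB. The token `(z, u)` is used iff `z` is a start state and `ku u * h < B * cnt z`. -/
theorem al_iff {ku : U → ℕ} {h : ℕ} (hh : N.IsMx J D h) (z : S) (u : U) : N.us J ku B D (z, u) ↔ N.st z ∧ ku u * h < B * N.cnt D J z := by

  unfold Net.us
  simp only
  refine and_congr_right fun _ => ⟨fun h1 => ?_, fun h1 w => ?_⟩
  · obtain ⟨w, hw⟩ := hh.2
    have h2 := h1 w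
    rw [hw, mul_add] at h2
    omega
  · have h2 : ku u * N.tot D J ≤ ku u * (N.tot (ins D w) J + h) := Nat.mul_le_mul_left _ (hh.1 w)
    rw [mul_add] at h2
    omega

/-- Job CGB. The number of used tokens at `z`: the numbers `k < B` with `k * h < B * c`, where `c ≤ h` for the lower bound. (`ku` is a bijection from `U` to the numbers less than `B`.) If `c = 0`: none. -/
theorem al_cnt {ku : U → ℕ} (hk : Function.Injective ku) (hk1 : ∀ u, ku u < B) (hk2 : ∀ k < B, ∃ u, ku u = k) {h : ℕ} (hh : N.IsMx J D h) (hz : N.st z) :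
    nc (fun τ : S × U => N.us J ku B D τ ∧ τ.1 = z) * h ≤ B * N.cnt D J z + h ∧ (N.cnt D J z = 0 → nc (fun τ : S × U => N.us J ku B D τ ∧ τ.1 = z) = 0) ∧
      (N.cnt D J z ≤ h → B * N.cnt D J z ≤ nc (fun τ : S × U => N.us J ku B D τ ∧ τ.1 = z) * h) := by

  classical
  obtain ⟨K, hK⟩ : ∃ K : Finset ℕ, K = (Finset.range B).filter (fun k => k * h < B * N.cnt D J z) := ⟨_, rfl⟩
  have hM : nc (fun τ : S × U => N.us J ku B D τ ∧ τ.1 = z) = K.card := by
    rw [nc_def, hK]
    refine Finset.card_nbij (fun τ => ku τ.2) ?_ ?_ ?_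
    · rintro ⟨y, u⟩ hy
      simp only [Finset.coe_filter, Finset.mem_univ, true_and, Set.mem_ofPred_eq] at hy
      obtain ⟨h1, rfl⟩ := hy
      simp only [Finset.coe_filter, Finset.mem_range, Set.mem_ofPred_eq]
      exact ⟨hk1 u, ((al_iff hh y u).1 h1).2⟩
    · rintro ⟨y, u⟩ hy ⟨y', u'⟩ hy' he
      simp only [Finset.coe_filter, Finset.mem_univ, true_and, Set.mem_ofPred_eq] at hy hy'
      have h1 : u = u' := hk he
      rw [h1, hy.2, hy'.2]
    · intro k hk3
      simp only [Finset.coe_filter, Finset.mem_range, Set.mem_ofPred_eq] at hk3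
      obtain ⟨u, hu⟩ := hk2 k hk3.1
      refine ⟨(z, u), ?_, hu⟩
      simp only [Finset.coe_filter, Finset.mem_univ, true_and, Set.mem_ofPred_eq, and_true]
      exact (al_iff hh z u).2 ⟨hz, by rw [hu]; exact hk3.2⟩
  have m1 : ∀ k, k ∈ K ↔ k < B ∧ k * h < B * N.cnt D J z := fun k => by
    rw [hK, Finset.mem_filter, Finset.mem_range]
  have m2 : K.card ≤ B := by
    have h1 : K ⊆ Finset.range B := fun k hk3 => Finset.mem_range.2 ((m1 k).1 hk3).1
    have h2 := Finset.card_le_card h1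
    rwa [Finset.card_range] at h2
  rw [hM]
  refine ⟨?_, fun h0 => ?_, fun hc => ?_⟩
  · rcases Nat.eq_zero_or_pos K.card with h0 | h0
    · rw [h0]
      omega
    · have h1 : (K.card - 1) * h < B * N.cnt D J z := by
        by_contra hn
        have h2 : K ⊆ Finset.range (K.card - 1) := by
          intro k hk3
          rw [Finset.mem_range]
          by_contra h3
          have h4 := ((m1 k).1 hk3).2
          have h5 : (K.card - 1) * h ≤ k * h := Nat.mul_le_mul_right _ (by omega)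
          omega
        have h3 := Finset.card_le_card h2
        rw [Finset.card_range] at h3
        omega
      obtain ⟨m, hm⟩ : ∃ m, K.card = m + 1 := ⟨K.card - 1, by omega⟩
      rw [hm] at h1 ⊢
      simp only [Nat.add_sub_cancel] at h1
      rw [add_mul, one_mul]
      omega
  · rw [Finset.card_eq_zero, Finset.eq_empty_iff_forall_notMem]
    intro k hk3
    have h1 := ((m1 k).1 hk3).2
    rw [h0, mul_zero] at h1
    omega
  · rcases Nat.lt_or_ge K.card B with h1 | h1
    · by_contra hn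
      have h2 : Finset.range (K.card + 1) ⊆ K := by
        intro k hk3
        rw [Finset.mem_range] at hk3
        refine (m1 k).2 ⟨by omega, ?_⟩
        have h5 : k * h ≤ K.card * h := Nat.mul_le_mul_right _ (by omega)
        omega
      have h3 := Finset.card_le_card h2
      rw [Finset.card_range] at h3
      omega
    · have h2 : K.card = B := le_antisymm m2 h1
      rw [h2]
      exact Nat.mul_le_mul_left _ hc

/-- Job CGE. The number of runs from a start state is at most `h`: all of them visit a vertex `w` of `z`, `cnt (ins D w) J z = 0`. -/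
theorem cnt_le_mx {h : ℕ} (hh : N.IsMx J D h) (h1 : ∃ v, N.oc z v) (hz : N.st z) : N.cnt D J z ≤ h := by

  obtain ⟨v, hv⟩ := h1
  have h2 : N.cnt (ins D v) J z = 0 := by
    by_contra hn
    exact cnt_al (Nat.pos_of_ne_zero hn) v hv (Or.inr rfl)
  have h3 := hh.1 v
  have h4 : N.tot (ins D v) J + N.cnt D J z ≤ N.tot D J := by
    unfold Net.tot
    rw [sm_split (P := N.st) (f := N.cnt (ins D v) J) (fun y => y = z), sm_split (P := N.st) (f := N.cnt D J) (fun y => y = z)]
    have e1 : sm (fun y => N.st y ∧ y = z) (N.cnt (ins D v) J) = 0 := sm_zero fun y hy => by rw [hy.2, h2]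
    have e2 : sm (fun y => N.st y ∧ y = z) (N.cnt D J) = N.cnt D J z :=
      sm_single fun y => ⟨fun hy => hy.2, fun hy => ⟨hy ▸ hz, hy⟩⟩
    have e3 : sm (fun y => N.st y ∧ ¬ y = z) (N.cnt (ins D v) J) ≤ sm (fun y => N.st y ∧ ¬ y = z) (N.cnt D J) :=
      sm_mono (fun _ => id) fun y _ => cnt_anti fun w hw => Or.inl hw
    omega
  omega

/-- Job CGE. The number of used tokens. (Sum of `al_cnt` over the start states.) -/
theorem cg_tot {ku : U → ℕ} (hk : Function.Injective ku) (hk1 : ∀ u, ku u < B) (hk2 : ∀ k < B, ∃ u, ku u = k) {h : ℕ} (hh : N.IsMx J D h)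
    (h1 : ∀ z, ∃ v, N.oc z v) : B * N.tot D J ≤ nc (N.us J ku B D) * h := by

  have e1 : nc (N.us J ku B D) = sm N.st (fun z => nc (fun τ : S × U => N.us J ku B D τ ∧ τ.1 = z)) := by
    have e2 : nc (N.us J ku B D) = sm (N.us J ku B D) (fun τ => sm (fun z => z = τ.1) (fun _ => 1)) :=
      sm_congr (fun _ => Iff.rfl) fun τ _ => (sm_single (f := fun _ => 1) fun z => Iff.rfl).symm
    rw [e2]
    refine sm_comm fun τ z => ⟨fun hp => ?_, fun hp => ⟨hp.2.1, hp.2.2.symm⟩⟩
    obtain ⟨hp1, hp2⟩ := hp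
    subst hp2
    exact ⟨hp1.1, hp1, rfl⟩
  rw [e1, ← sm_mul']
  unfold Net.tot
  rw [← sm_mul]
  exact sm_mono (fun _ => id) fun z hz => (al_cnt hk hk1 hk2 hh hz).2.2 (cnt_le_mx hh (h1 z) hz)

/-- The hypotheses for the tokens `S × U`. -/
structure TH (N : Net S V) (J : ℕ) (kz : S → ℕ) (ky : S × U → ℕ) (ku : U → ℕ) (B : ℕ) (rk : S → ℕ) : Prop where
  rkd : ∀ z z', N.mv z z' → rk z' < rk z
  rkJ : ∀ z, rk z < J
  hkz : Function.Injective kz
  hky : Function.Injective ky
  hku : Function.Injective ku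
  ku1 : ∀ u, ku u < B
  ku2 : ∀ k < B, ∃ u, ku u = k
  hB : Fintype.card S + Fintype.card S ^ 2 ≤ B
  oc1 : ∀ z, ∃ v, N.oc z v
  oc2 : ∀ z, nc (N.oc z) ≤ 2

/-- The visits of the tokens. -/
def Net.vt (N : Net S V) (J : ℕ) (kz : S → ℕ) (ky : S × U → ℕ) (ku : U → ℕ) (B : ℕ) (D : V → Prop) : (S × U) × S → Prop :=
  (N.phi (N.cnt D J) kz ky (N.us J ku B D) (fun τ => τ.1))^[J] (fun _ => False)

/-- Job CGC. (`vt_fix`, `cnt_sum`; a used token `(z, u)` has `0 < cnt z` since `ku u * tot D < B * cnt z + ku u * tot (ins D w)` and `tot (ins D w) ≤ tot D`.) -/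
theorem th_tk {kz : S → ℕ} {ky : S × U → ℕ} {ku : U → ℕ} (h : TH N J kz ky ku B rk) (D : V → Prop) (hV : Nonempty V) :
    TK N (N.cnt D J) kz ky (N.us J ku B D) (fun τ => τ.1) (N.vt J kz ky ku B D) rk := by

  refine ⟨h.rkd, h.hkz, h.hky, fun z hz ht => cnt_sum h.rkd h.rkJ hz ht, fun τ hτ => ?_, fun p => vt_fix h.rkd h.rkJ p⟩
  obtain ⟨w⟩ := hV
  have h1 := hτ.2 w
  have h2 : N.tot (ins D w) J ≤ N.tot D J := tot_anti fun v hv => Or.inl hv
  have h3 : ku τ.2 * N.tot (ins D w) J ≤ ku τ.2 * N.tot D J := Nat.mul_le_mul_left _ h2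
  rcases Nat.eq_zero_or_pos (N.cnt D J τ.1) with h0 | h0
  · rw [h0, mul_zero] at h1
    omega
  · exact h0

/-- Job CGC. **Every vertex is visited by at most `2 J B` tokens.** Every token which visits `v` is counted in `sm (oc · v) (num A)`. `cg_sum` for `g = vis D J v` (`vis_fix`; `vis ≤ J * cnt` by `vis_le`, so the averages are at most `J`). The first sum: for a start state `z` with `0 < cnt z`: `(number of starts) * vis z / cnt z ≤ (B * cnt z / h + 1) * vis z / cnt z ≤ B * vis z / h + J`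
(`al_cnt`; if `h = 0` then `tot D = 0`, all `cnt z = 0` for start states), and `Σ vis z ≤ J * (tot D - tot (ins D v)) ≤ J * h` (`vis_tot`). The second sum is at most `card S ^ 2 * J`. -/
theorem cg_vertex {kz : S → ℕ} {ky : S × U → ℕ} {ku : U → ℕ} (h : TH N J kz ky ku B rk) (D : V → Prop) (v : V) :
    nc (fun τ : S × U => ∃ z, N.vt J kz ky ku B D (τ, z) ∧ N.oc z v) ≤ 2 * J * B := by

  classical
  have hV : Nonempty V := ⟨v⟩
  have tk := th_tk h D hV
  obtain ⟨m, hm⟩ := ismx_exists (N := N) (J := J) hV D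
  obtain ⟨A, hA⟩ : ∃ A, A = N.vt J kz ky ku B D := ⟨_, rfl⟩
  rw [← hA] at tk
  have s1 : nc (fun τ : S × U => ∃ z, A (τ, z) ∧ N.oc z v) ≤ sm (fun z => N.oc z v) (num A) := by
    have e1 : nc (fun τ : S × U => ∃ z, A (τ, z) ∧ N.oc z v) ≤
        sm (fun τ : S × U => ∃ z, A (τ, z) ∧ N.oc z v) (fun τ => sm (fun z => A (τ, z) ∧ N.oc z v) (fun _ => 1)) := by
      refine sm_mono (fun _ => id) fun τ hτ => ?_
      obtain ⟨z, hz⟩ := hτ
      exact Nat.succ_le_of_lt (sm_pos.2 ⟨z, hz, Nat.one_pos⟩)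
    refine e1.trans (le_of_eq ?_)
    refine sm_comm (Q'' := fun z τ => A (τ, z)) fun τ z => ⟨fun hp => ⟨hp.2.2, hp.2.1⟩, fun hp => ⟨⟨z, hp.2, hp.1⟩, hp.2, hp.1⟩⟩
  have v0 : ∀ z, N.cnt D J z = 0 → N.vis D J v z = 0 := by
    intro z hz
    have h1 := vis_le (N := N) (D := D) (v := v) (z := z) h.rkd h.rkJ
    rw [hz, mul_zero] at h1
    omega
  have s2 := cg_sum (v := v) tk (g := N.vis D J v) (fun z hz => by
    rw [vis_fix h.rkd h.rkJ]
    have h1 : N.al D z := cnt_al hz
    congr 1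
    by_cases ht : N.tm z
    · simp [ht]
    · simp [ht, h1]) v0
  have s3 : ∀ z, (N.vis D J v z : ℚ) / N.cnt D J z ≤ J := by
    intro z
    rcases Nat.eq_zero_or_pos (N.cnt D J z) with h0 | h0
    · rw [h0]
      simp
    · have h1 := vis_le (N := N) (D := D) (v := v) (z := z) h.rkd h.rkJ
      have h2 : (N.vis D J v z : ℚ) ≤ J * N.cnt D J z := by
        have h3 : N.vis D J v z ≤ J * N.cnt D J z := by omega
        exact_mod_cast h3
      have h4 : (0 : ℚ) < N.cnt D J z := by exact_mod_cast h0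
      rw [div_le_iff₀ h4]
      exact h2
  have s4 : ∑ y : S, ∑ z : S, (if N.mv y z then (N.vis D J v z : ℚ) / N.cnt D J z else 0) ≤ (Fintype.card S : ℚ) ^ 2 * J := by
    have e1 : ∀ y z : S, (if N.mv y z then (N.vis D J v z : ℚ) / N.cnt D J z else 0) ≤ J := by
      intro y z
      split_ifs
      · exact s3 z
      · positivity
    calc ∑ y : S, ∑ z : S, (if N.mv y z then (N.vis D J v z : ℚ) / N.cnt D J z else 0)
        ≤ ∑ y : S, ∑ z : S, (J : ℚ) := Finset.sum_le_sum fun y _ => Finset.sum_le_sum fun z _ => e1 y z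
      _ = (Fintype.card S : ℚ) ^ 2 * J := by
          simp only [Finset.sum_const, Finset.card_univ, nsmul_eq_mul]
          ring
  have s5 : ∑ z : S, (nc (fun τ : S × U => N.us J ku B D τ ∧ τ.1 = z) : ℚ) * ((N.vis D J v z : ℚ) / N.cnt D J z) ≤
      B * J + (Fintype.card S : ℚ) * J := by
    have n0 : ∀ z, ¬ N.st z → nc (fun τ : S × U => N.us J ku B D τ ∧ τ.1 = z) = 0 := by
      intro z hz
      refine nc_zero fun τ hτ => hz ?_
      rw [← hτ.2]
      exact hτ.1.1
    rcases Nat.eq_zero_or_pos m with h0 | h0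
    · have e1 : ∀ z ∈ (Finset.univ : Finset S), (nc (fun τ : S × U => N.us J ku B D τ ∧ τ.1 = z) : ℚ) * ((N.vis D J v z : ℚ) / N.cnt D J z) = 0 := by
        intro z _
        by_cases hz : N.st z
        · have h1 := cnt_le_mx hm (h.oc1 z) hz
          have h2 : N.cnt D J z = 0 := by omega
          rw [h2, Nat.cast_zero, div_zero, mul_zero]
        · rw [n0 z hz, Nat.cast_zero, zero_mul]
      rw [Finset.sum_eq_zero e1]
      positivity
    · have hmQ : (0 : ℚ) < m := by exact_mod_cast h0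
      have e1 : ∀ z, (nc (fun τ : S × U => N.us J ku B D τ ∧ τ.1 = z) : ℚ) * ((N.vis D J v z : ℚ) / N.cnt D J z) ≤
          (B / m : ℚ) * (if N.st z then (N.vis D J v z : ℚ) else 0) + J := by
        intro z
        by_cases hz : N.st z
        · rw [if_pos hz]
          rcases Nat.eq_zero_or_pos (N.cnt D J z) with hc | hc
          · rw [hc, Nat.cast_zero, div_zero, mul_zero]
            positivity
          · have hcQ : (0 : ℚ) < N.cnt D J z := by exact_mod_cast hc
            have h1 : (nc (fun τ : S × U => N.us J ku B D τ ∧ τ.1 = z) : ℚ) * m ≤ B * N.cnt D J z + m := by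
              exact_mod_cast (al_cnt h.hku h.ku1 h.ku2 hm hz).1
            have h2 : (nc (fun τ : S × U => N.us J ku B D τ ∧ τ.1 = z) : ℚ) ≤ B * N.cnt D J z / m + 1 := by
              rw [div_add_one hmQ.ne', le_div_iff₀ hmQ]
              exact h1
            have h3 : (0 : ℚ) ≤ (N.vis D J v z : ℚ) / N.cnt D J z := by positivity
            calc (nc (fun τ : S × U => N.us J ku B D τ ∧ τ.1 = z) : ℚ) * ((N.vis D J v z : ℚ) / N.cnt D J z)
                ≤ (B * N.cnt D J z / m + 1) * ((N.vis D J v z : ℚ) / N.cnt D J z) := mul_le_mul_of_nonneg_right h2 h3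
              _ = (B / m : ℚ) * (N.vis D J v z : ℚ) + (N.vis D J v z : ℚ) / N.cnt D J z := by
                  field_simp
              _ ≤ (B / m : ℚ) * (N.vis D J v z : ℚ) + J := by
                  have := s3 z
                  linarith
        · rw [n0 z hz, Nat.cast_zero, zero_mul, if_neg hz, mul_zero]
          positivity
      have e2 : (sm N.st (N.vis D J v) : ℚ) ≤ J * m := by
        have h1 := vis_tot (N := N) (D := D) (v := v) h.rkd h.rkJ
        have h2 : J * N.tot D J ≤ J * (N.tot (ins D v) J + m) := Nat.mul_le_mul_left _ (hm.1 v)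
        rw [mul_add] at h2
        have h3 : sm N.st (N.vis D J v) ≤ J * m := by omega
        exact_mod_cast h3
      calc ∑ z : S, (nc (fun τ : S × U => N.us J ku B D τ ∧ τ.1 = z) : ℚ) * ((N.vis D J v z : ℚ) / N.cnt D J z)
          ≤ ∑ z : S, ((B / m : ℚ) * (if N.st z then (N.vis D J v z : ℚ) else 0) + J) := Finset.sum_le_sum fun z _ => e1 z
        _ = (B / m : ℚ) * (sm N.st (N.vis D J v) : ℕ) + (Fintype.card S : ℚ) * J := by
            rw [Finset.sum_add_distrib, ← Finset.mul_sum, sm_ite]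
            simp only [Finset.sum_const, Finset.card_univ, nsmul_eq_mul]
            push_cast
            rfl
        _ ≤ (B / m : ℚ) * (J * m) + (Fintype.card S : ℚ) * J := by
            have h1 : (0 : ℚ) ≤ B / m := by positivity
            have h2 := mul_le_mul_of_nonneg_left e2 h1
            linarith
        _ = B * J + (Fintype.card S : ℚ) * J := by
            field_simp
  have s6 : (nc (fun τ : S × U => ∃ z, A (τ, z) ∧ N.oc z v) : ℚ) ≤ 2 * J * B := by
    have h1 : (nc (fun τ : S × U => ∃ z, A (τ, z) ∧ N.oc z v) : ℚ) ≤ (sm (fun z => N.oc z v) (num A) : ℕ) := by exact_mod_cast s1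
    have h2 : ((Fintype.card S : ℚ) + (Fintype.card S : ℚ) ^ 2) * J ≤ B * J := by
      have h3 : ((Fintype.card S + Fintype.card S ^ 2) * J : ℕ) ≤ B * J := Nat.mul_le_mul_right _ h.hB
      exact_mod_cast h3
    nlinarith [s2, s4, s5, h1, h2]
  rw [← hA]
  exact_mod_cast s6

/-- Two tokens are in conflict. -/
def cnf (N : Net S V) (A : T × S → Prop) (τ τ' : T) : Prop := ∃ z z' v, A (τ, z) ∧ A (τ', z') ∧ N.oc z v ∧ N.oc z' v


private theorem cgd_len (h2 : ∀ z, nc (N.oc z) ≤ 2) (l : List S) : nc (fun v => ∃ z ∈ l, N.oc z v) ≤ 2 * l.length := by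
  induction l with
  | nil =>
    rw [nc_zero (fun v hv => by obtain ⟨z, hz, _⟩ := hv; exact absurd hz List.not_mem_nil)]
    exact Nat.zero_le _
  | cons x l ih =>
    have h3 : nc (fun v => ∃ z ∈ x :: l, N.oc z v) ≤ nc (N.oc x) + nc (fun v => ∃ z ∈ l, N.oc z v) := by
      have e1 : nc (fun v => ∃ z ∈ x :: l, N.oc z v) = sm (fun v => N.oc x v ∨ ((∃ z ∈ l, N.oc z v) ∧ ¬ N.oc x v)) (fun _ => 1) := by
        refine sm_congr (fun v => ?_) fun _ _ => rfl
        simp only [List.mem_cons, exists_eq_or_imp]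
        tauto
      rw [e1, sm_or (fun v h4 h5 => h5.2 h4)]
      exact Nat.add_le_add_left (nc_mono fun v hv => hv.1) _
    have h4 := h2 x
    rw [List.length_cons]
    omega

/-- Job CGD. The number of conflicts: `Σ_v W_v ^ 2 ≤ 2 J B Σ_v W_v` with `W_v` from `cg_vertex`, and `Σ_v W_v` = the sum over the used tokens of the numbers of vertices visited by them, at most `2 J` each (`tk_run`, `run_length`). -/
theorem cg_conf {kz : S → ℕ} {ky : S × U → ℕ} {ku : U → ℕ} (h : TH N J kz ky ku B rk) (D : V → Prop) :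
    nc (fun p : (S × U) × (S × U) => N.us J ku B D p.1 ∧ N.us J ku B D p.2 ∧ ky p.1 < ky p.2 ∧ cnf N (N.vt J kz ky ku B D) p.1 p.2) ≤
      4 * J ^ 2 * B * nc (N.us J ku B D) := by

  classical
  rcases isEmpty_or_nonempty V with hV | hV
  · have h0 : nc (fun p : (S × U) × (S × U) => N.us J ku B D p.1 ∧ N.us J ku B D p.2 ∧ ky p.1 < ky p.2 ∧ cnf N (N.vt J kz ky ku B D) p.1 p.2) = 0 := by
      refine nc_zero fun p hp => ?_
      obtain ⟨z, z', v, _⟩ := hp.2.2.2
      exact hV.elim v
    rw [h0]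
    exact Nat.zero_le _
  have tk := th_tk h D hV
  have hcv := cg_vertex h D
  obtain ⟨A, hA⟩ : ∃ A, A = N.vt J kz ky ku B D := ⟨_, rfl⟩
  rw [← hA] at tk hcv ⊢
  obtain ⟨al, hal⟩ : ∃ al, al = N.us J ku B D := ⟨_, rfl⟩
  rw [← hal] at tk ⊢
  obtain ⟨W, hW⟩ : ∃ W : V → ℕ, W = fun v => nc (fun τ : S × U => al τ ∧ ∃ z, A (τ, z) ∧ N.oc z v) := ⟨_, rfl⟩
  have w1 : ∀ v, W v ≤ 2 * J * B := by
    intro v
    rw [hW]
    exact (nc_mono fun τ hτ => hτ.2).trans (hcv v)
  have w2 : sm (fun _ : V => True) W ≤ nc al * (2 * J) := by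
    have e1 : sm (fun _ : V => True) W = sm al (fun τ => sm (fun v => ∃ z, A (τ, z) ∧ N.oc z v) (fun _ => 1)) := by
      rw [hW]
      refine sm_comm (Q' := fun v τ => al τ ∧ ∃ z, A (τ, z) ∧ N.oc z v) (Q'' := fun τ v => ∃ z, A (τ, z) ∧ N.oc z v) fun v τ => ?_
      tauto
    rw [e1]
    refine sm_le_const fun τ hτ => ?_
    obtain ⟨l, hl, hl2⟩ := tk_run (D := D) tk (fun z hz => cnt_al hz) hτ
    have h1 : l.length ≤ J := (run_length h.rkd hl).trans (h.rkJ _)
    have h2 := cgd_len (N := N) h.oc2 l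
    have h3 : sm (fun v => ∃ z, A (τ, z) ∧ N.oc z v) (fun _ => 1) = nc (fun v => ∃ z ∈ l, N.oc z v) := by
      refine sm_congr (fun v => ?_) fun _ _ => rfl
      refine exists_congr fun z => ?_
      rw [hl2 z]
    rw [h3]
    exact h2.trans (Nat.mul_le_mul_left _ h1)
  have w3 : nc (fun p : (S × U) × (S × U) => al p.1 ∧ al p.2 ∧ ky p.1 < ky p.2 ∧ cnf N A p.1 p.2) ≤
      sm (fun _ : V => True) (fun v => W v * W v) := by
    have e1 : nc (fun p : (S × U) × (S × U) => al p.1 ∧ al p.2 ∧ ky p.1 < ky p.2 ∧ cnf N A p.1 p.2) ≤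
        sm (fun p : (S × U) × (S × U) => al p.1 ∧ al p.2)
          (fun p => sm (fun v => (∃ z, A (p.1, z) ∧ N.oc z v) ∧ ∃ z, A (p.2, z) ∧ N.oc z v) (fun _ => 1)) := by
      refine sm_mono (fun p hp => ⟨hp.1, hp.2.1⟩) fun p hp => ?_
      obtain ⟨z, z', v, h1, h2, h3, h4⟩ := hp.2.2.2
      exact Nat.succ_le_of_lt (sm_pos.2 ⟨v, ⟨⟨z, h1, h3⟩, z', h2, h4⟩, Nat.one_pos⟩)
    have e2 : sm (fun p : (S × U) × (S × U) => al p.1 ∧ al p.2)
          (fun p => sm (fun v => (∃ z, A (p.1, z) ∧ N.oc z v) ∧ ∃ z, A (p.2, z) ∧ N.oc z v) (fun _ => 1)) =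
        sm (fun _ : V => True) (fun v => sm (fun p : (S × U) × (S × U) =>
          (al p.1 ∧ ∃ z, A (p.1, z) ∧ N.oc z v) ∧ (al p.2 ∧ ∃ z, A (p.2, z) ∧ N.oc z v)) (fun _ => 1)) := by
      refine sm_comm (Q'' := fun v (p : (S × U) × (S × U)) => (al p.1 ∧ ∃ z, A (p.1, z) ∧ N.oc z v) ∧ (al p.2 ∧ ∃ z, A (p.2, z) ∧ N.oc z v)) fun p v => ?_
      tauto
    rw [e2] at e1
    refine e1.trans (le_of_eq (sm_congr (fun _ => Iff.rfl) fun v _ => ?_))
    have e3 := sm_prod (P' := fun τ : S × U => al τ ∧ ∃ z, A (τ, z) ∧ N.oc z v) (Q' := fun _ τ => al τ ∧ ∃ z, A (τ, z) ∧ N.oc z v)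
      (F := fun _ : (S × U) × (S × U) => 1)
    rw [e3, hW]
    exact sm_const _
  calc nc (fun p : (S × U) × (S × U) => al p.1 ∧ al p.2 ∧ ky p.1 < ky p.2 ∧ cnf N A p.1 p.2)
      ≤ sm (fun _ : V => True) (fun v => W v * W v) := w3
    _ ≤ sm (fun _ : V => True) (fun v => (2 * J * B) * W v) := sm_mono (fun _ => id) fun v _ => Nat.mul_le_mul_right _ (w1 v)
    _ = (2 * J * B) * sm (fun _ : V => True) W := sm_mul _
    _ ≤ (2 * J * B) * (nc al * (2 * J)) := Nat.mul_le_mul_left _ w2
    _ = 4 * J ^ 2 * B * nc al := by ring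

end Pool.Agent.EXA
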