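import Pool.Agent.Lib.MP_0087d5_lc.EXA.Sel
import Pool.Agent.Lib.MP_0087d5_lc.SUB.Grow

/-!
# Pairs of disjoint chains as runs of a net

States: pairs of nodes; the higher one moves down (`le z.2 z.1`: the first one is moved). Final: both are roots. Start: a bridge. Jobs PRA (`pn_rk`, `pn_oc`), PRB (`chains_run`), PRC (`run_chains`), PRD (`Ch_iff`, `ch_inv`), PRE (`ch_many`).
-/

namespace Pool.Agent.EXA

open Finset Pool.Agent.PMNC
open Pool.Agent.SUB (Chn GInv St)

variable {n : ℕ}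

/-- A pair of different nodes. -/
def okS (nd : Fin n → Prop) (z : SS n) : Prop := nd z.1 ∧ nd z.2 ∧ z.1 ≠ z.2

/-- The net of pairs. -/
def pnet (nd : Fin n → Prop) (le up : Fin n → Fin n → Prop) (rt : Fin n → Prop) (br : Fin n → Fin n → Prop) : Net (SS n) (Fin n) where
  st z := okS nd z ∧ br z.1 z.2
  mv z z' := okS nd z ∧ okS nd z' ∧ ((le z.2 z.1 ∧ up z'.1 z.1 ∧ z'.2 = z.2) ∨ (¬ le z.2 z.1 ∧ up z'.2 z.2 ∧ z'.1 = z.1))
  tm z := rt z.1 ∧ rt z.2
  oc z v := v = z.1 ∨ v = z.2

/-- The hypotheses on the data. -/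
structure PD (nd : Fin n → Prop) (lvl : Fin n → ℕ) (le up : Fin n → Fin n → Prop) (rt : Fin n → Prop) (B : ℕ) : Prop where
  le_iff : ∀ b c, nd b → nd c → (le b c ↔ lvl b ≤ lvl c)
  lt : ∀ b c, nd b → up b c → lvl b < lvl c
  pos : ∀ b, nd b → 1 ≤ lvl b
  rt1 : ∀ b, nd b → (rt b ↔ lvl b = 1)
  bd : ∀ b, nd b → lvl b ≤ B

variable {nd : Fin n → Prop} {lvl : Fin n → ℕ} {le up : Fin n → Fin n → Prop} {rt : Fin n → Prop} {br : Fin n → Fin n → Prop} {B J I e : ℕ}
  {r t p q : Fin n} {A A' : List (Fin n)} {z : SS n} {l : List (SS n)} {D : Fin n → Prop}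

open Classical in
/-- The rank of a state. -/
noncomputable def prk (nd : Fin n → Prop) (lvl : Fin n → ℕ) (z : SS n) : ℕ := if okS nd z then lvl z.1 + lvl z.2 else 0

/-- Job PRA. -/
theorem pn_nh (h2 : 2 ≤ n) (h : PD nd lvl le up rt B) (hJ : 2 * B < J) : NH (pnet nd le up rt br) J (prk nd lvl) where
  two := h2
  rkd := by
    rintro z z' ⟨hz, hz', hm⟩
    unfold prk
    rw [if_pos hz, if_pos hz']
    rcases hm with ⟨_, hu, he⟩ | ⟨_, hu, he⟩
    · have h1 := h.lt _ _ hz'.1 hu
      rw [he]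
      omega
    · have h1 := h.lt _ _ hz'.2.1 hu
      rw [he]
      omega
  rkJ := by
    intro z
    unfold prk
    split_ifs with hz
    · have h1 := h.bd _ hz.1
      have h3 := h.bd _ hz.2.1
      omega
    · omega
  oc := fun _ _ => Iff.rfl

/-- Job PRA. The members of a chain of nodes except for the first one have smaller levels. -/
theorem chn_lt (h : PD nd lvl le up rt B) (hA : Chn up r (p :: A)) (hN : ∀ b ∈ p :: A, nd b) : ∀ b ∈ A, lvl b < lvl p := by
  induction A generalizing p with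
  | nil =>
    intro b hb
    cases hb
  | cons c A ih =>
    cases hA with
    | cons h1 h2 =>
      intro b hb
      have hcp : lvl c < lvl p := h.lt c p (hN c (List.mem_cons_of_mem _ (List.mem_cons_self ..))) h2
      rcases List.mem_cons.1 hb with rfl | hb
      · exact hcp
      · exact (ih h1 (fun x hx => hN x (List.mem_cons_of_mem _ hx)) b hb).trans hcp

/-- Job PRA. -/
theorem chn_nodup' (h : PD nd lvl le up rt B) (hA : Chn up r A) (hN : ∀ b ∈ A, nd b) : A.Nodup := by
  induction hA with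
  | nil => exact List.nodup_singleton _
  | cons h1 h2 ih =>
    rename_i b c L
    refine List.nodup_cons.2 ⟨fun hmem => ?_, ih fun x hx => hN x (List.mem_cons_of_mem _ hx)⟩
    exact absurd (chn_lt h (Chn.cons h1 h2) hN c hmem) (lt_irrefl _)

private theorem prb_tail {r p : Fin n} {A : List (Fin n)} (hA : Chn up r (p :: A)) (hp : p ≠ r) :
    ∃ b A₁, A = b :: A₁ ∧ Chn up r (b :: A₁) ∧ up b p := by
  cases hA with
  | nil => exact absurd rfl hp
  | cons h1 h2 => exact ⟨_, _, rfl, h1, h2⟩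

private theorem prb_aux (h : PD nd lvl le up rt B) (hr : rt r) (ht : rt t) : ∀ (k : ℕ) (p q : Fin n) (A A' : List (Fin n)),
    A.length + A'.length = k → Chn up r (p :: A) → Chn up t (q :: A') → (∀ b ∈ (p :: A) ++ (q :: A'), nd b) →
    ((p :: A) ++ (q :: A')).Nodup →
    ∃ l, (pnet nd le up rt br).Run (fun _ => False) (p, q) l ∧ ∀ z ∈ l, z.1 ∈ (p :: A) ++ (q :: A') ∧ z.2 ∈ (p :: A) ++ (q :: A') := by
  intro k
  induction k with
  | zero =>
    intro p q A A' hk hA hA' hN hnd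
    have h1 : A = [] := List.length_eq_zero_iff.1 (by omega)
    have h2 : A' = [] := List.length_eq_zero_iff.1 (by omega)
    subst h1 h2
    have hp : p = r := by
      by_contra hne
      obtain ⟨b, A₁, hb, _⟩ := prb_tail hA hne
      cases hb
    have hq : q = t := by
      by_contra hne
      obtain ⟨b, A₁, hb, _⟩ := prb_tail hA' hne
      cases hb
    subst hp hq
    refine ⟨[(p, q)], Net.Run.tm (fun _ _ hh => hh) ⟨hr, ht⟩, fun z hz => ?_⟩
    rw [List.mem_singleton] at hz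
    subst hz
    simp
  | succ k ih =>
    intro p q A A' hk hA hA' hN hnd
    have hp : nd p := hN p (by simp)
    have hq : nd q := hN q (by simp)
    have hpq : p ≠ q := by
      intro he
      subst he
      rw [List.nodup_append] at hnd
      exact hnd.2.2 p (by simp) p (by simp) rfl
    by_cases hroots : rt p ∧ rt q
    · refine ⟨[(p, q)], Net.Run.tm (fun _ _ hh => hh) hroots, fun z hz => ?_⟩
      rw [List.mem_singleton] at hz
      subst hz
      simp
    · by_cases hle : le q p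
      · have hlv : lvl q ≤ lvl p := (h.le_iff q p hq hp).1 hle
        have hpr : ¬ rt p := by
          intro hrp
          have h1 := (h.rt1 p hp).1 hrp
          have h2 := h.pos q hq
          exact hroots ⟨hrp, (h.rt1 q hq).2 (by omega)⟩
        obtain ⟨b, A₁, rfl, hc, hu⟩ := prb_tail hA (fun he => hpr (he ▸ hr))
        have hlen : A₁.length + A'.length = k := by
          rw [List.length_cons] at hk
          omega
        have hsub : ∀ x ∈ (b :: A₁) ++ (q :: A'), x ∈ (p :: b :: A₁) ++ (q :: A') := fun x hx =>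
          List.mem_cons_of_mem _ hx
        have hnd' : ((b :: A₁) ++ (q :: A')).Nodup := (List.nodup_cons.1 hnd).2
        obtain ⟨l, hl, hmem⟩ := ih b q A₁ A' hlen hc hA' (fun x hx => hN x (hsub x hx)) hnd'
        have hbq : b ≠ q := by
          intro he
          subst he
          rw [List.nodup_append] at hnd'
          exact hnd'.2.2 b (by simp) b (by simp) rfl
        refine ⟨(p, q) :: l, Net.Run.mv (z' := (b, q)) (fun _ _ hh => hh) hroots
          ⟨⟨hp, hq, hpq⟩, ⟨hN b (by simp), hq, hbq⟩, Or.inl ⟨hle, hu, rfl⟩⟩ hl, fun z hz => ?_⟩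
        rcases List.mem_cons.1 hz with rfl | hz
        · simp
        · exact ⟨hsub _ (hmem z hz).1, hsub _ (hmem z hz).2⟩
      · have hlv : lvl p < lvl q := by
          by_contra hcon
          exact hle ((h.le_iff q p hq hp).2 (not_lt.1 hcon))
        have hqr : ¬ rt q := by
          intro hrq
          have h1 := (h.rt1 q hq).1 hrq
          have h2 := h.pos p hp
          omega
        obtain ⟨b, A₁, rfl, hc, hu⟩ := prb_tail hA' (fun he => hqr (he ▸ ht))
        have hlen : A.length + A₁.length = k := by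
          rw [List.length_cons] at hk
          omega
        have hsub : ∀ x ∈ (p :: A) ++ (b :: A₁), x ∈ (p :: A) ++ (q :: b :: A₁) := fun x hx => by
          rw [List.mem_append] at hx ⊢
          exact hx.imp id (List.mem_cons_of_mem _)
        have hnd' : ((p :: A) ++ (b :: A₁)).Nodup := by
          rw [List.nodup_append] at hnd ⊢
          exact ⟨hnd.1, (List.nodup_cons.1 hnd.2.1).2, fun x hx y hy => hnd.2.2 x hx y (List.mem_cons_of_mem _ hy)⟩
        obtain ⟨l, hl, hmem⟩ := ih p b A A₁ hlen hA hc (fun x hx => hN x (hsub x hx)) hnd'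
        have hpb : p ≠ b := by
          intro he
          subst he
          rw [List.nodup_append] at hnd'
          exact hnd'.2.2 p (by simp) p (by simp) rfl
        refine ⟨(p, q) :: l, Net.Run.mv (z' := (p, b)) (fun _ _ hh => hh) hroots
          ⟨⟨hp, hq, hpq⟩, ⟨hp, hN b (by simp), hpb⟩, Or.inr ⟨hle, hu, rfl⟩⟩ hl, fun z hz => ?_⟩
        rcases List.mem_cons.1 hz with rfl | hz
        · simp
        · exact ⟨hsub _ (hmem z hz).1, hsub _ (hmem z hz).2⟩

/-- Job PRB. **Two disjoint chains are a run.** Induction on `A.length + A'.length` for all `p`, `q`. If `p`, `q` are roots: the run `[(p, q)]`. Otherwise if `le q p` then `p` is not a root (`lvl q ≤ lvl p`, levels are positive and roots have level 1), so `A = b :: A₁` with `up b p` (the chain `[r]` ends in the root `r`), and `(p, q)` moves to `(b, q)`;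
if `¬ le q p` then `q` is not a root and moves. -/
theorem chains_run (h : PD nd lvl le up rt B) (hr : rt r) (ht : rt t) (hA : Chn up r (p :: A)) (hA' : Chn up t (q :: A'))
    (hN : ∀ b ∈ (p :: A) ++ (q :: A'), nd b) (hnd : ((p :: A) ++ (q :: A')).Nodup) :
    ∃ l, (pnet nd le up rt br).Run (fun _ => False) (p, q) l ∧ ∀ z ∈ l, z.1 ∈ (p :: A) ++ (q :: A') ∧ z.2 ∈ (p :: A) ++ (q :: A') :=
  prb_aux h hr ht _ p q A A' rfl hA hA' hN hnd

private theorem prc_aux (h : PD nd lvl le up rt B) (hl : (pnet nd le up rt br).Run (fun _ => False) z l) (hz : okS nd z) :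
    ∃ r t A A', rt r ∧ rt t ∧ (r, t) ∈ l ∧ Chn up r (z.1 :: A) ∧ Chn up t (z.2 :: A') ∧ (∀ b ∈ (z.1 :: A) ++ (z.2 :: A'), nd b) ∧
      ((z.1 :: A) ++ (z.2 :: A')).Nodup ∧ (∀ b, b ∈ z.1 :: A ↔ ∃ y ∈ l, y.1 = b) ∧ ∀ b, b ∈ z.2 :: A' ↔ ∃ y ∈ l, y.2 = b := by
  induction hl with
  | @tm z hal htm =>
    obtain ⟨h1, h2⟩ := htm
    refine ⟨z.1, z.2, [], [], h1, h2, by simp, Chn.nil, Chn.nil, ?_, ?_, ?_, ?_⟩
    · intro b hb
      simp only [List.cons_append, List.nil_append, List.mem_cons, List.not_mem_nil, or_false] at hb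
      rcases hb with rfl | rfl
      · exact hz.1
      · exact hz.2.1
    · simpa using hz.2.2
    · intro b
      simp [eq_comm]
    · intro b
      simp [eq_comm]
  | @mv z z' l hal htm hmv hrun ih =>
    obtain ⟨hok, hok', hc⟩ := hmv
    obtain ⟨r, t, A, A', hr, ht, hrt, hA, hA', hN, hnd, h1, h2⟩ := ih hok'
    have hNA : ∀ b ∈ z'.1 :: A, nd b := fun b hb => hN b (List.mem_append_left _ hb)
    have hNA' : ∀ b ∈ z'.2 :: A', nd b := fun b hb => hN b (List.mem_append_right _ hb)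
    rw [List.nodup_append] at hnd
    obtain ⟨n1, n2, n3⟩ := hnd
    rcases hc with ⟨hle, hup, he⟩ | ⟨hle, hup, he⟩
    · rw [he] at hA' hNA' n2 n3 h2
      have hch : Chn up r (z.1 :: z'.1 :: A) := Chn.cons hA hup
      have hNc : ∀ b ∈ z.1 :: z'.1 :: A, nd b := by
        intro b hb
        rcases List.mem_cons.1 hb with rfl | hb
        · exact hok.1
        · exact hNA b hb
      have hlt := chn_lt h hch hNc
      have hlt' := chn_lt h hA' hNA'
      have hlv : lvl z.2 ≤ lvl z.1 := (h.le_iff z.2 z.1 hok.2.1 hok.1).1 hle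
      refine ⟨r, t, z'.1 :: A, A', hr, ht, List.mem_cons_of_mem _ hrt, hch, hA', ?_, ?_, ?_, ?_⟩
      · intro b hb
        rcases List.mem_append.1 hb with hb | hb
        · exact hNc b hb
        · exact hNA' b hb
      · rw [List.nodup_append]
        refine ⟨?_, n2, ?_⟩
        · rw [List.nodup_cons]
          exact ⟨fun hm => lt_irrefl _ (hlt _ hm), n1⟩
        · intro a ha b hb
          rcases List.mem_cons.1 ha with rfl | ha
          · rcases List.mem_cons.1 hb with rfl | hb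
            · exact hok.2.2
            · intro hab
              have := hlt' b hb
              rw [← hab] at this
              omega
          · exact n3 a ha b hb
      · intro b
        rw [List.mem_cons, h1]
        constructor
        · rintro (rfl | ⟨y, hy, rfl⟩)
          · exact ⟨z, by simp, rfl⟩
          · exact ⟨y, List.mem_cons_of_mem _ hy, rfl⟩
        · rintro ⟨y, hy, rfl⟩
          rcases List.mem_cons.1 hy with rfl | hy
          · exact Or.inl rfl
          · exact Or.inr ⟨y, hy, rfl⟩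
      · intro b
        constructor
        · intro hb
          obtain ⟨y, hy, rfl⟩ := (h2 b).1 hb
          exact ⟨y, List.mem_cons_of_mem _ hy, rfl⟩
        · rintro ⟨y, hy, rfl⟩
          rcases List.mem_cons.1 hy with rfl | hy
          · simp
          · exact (h2 _).2 ⟨y, hy, rfl⟩
    · rw [he] at hA hNA n1 n3 h1
      have hch : Chn up t (z.2 :: z'.2 :: A') := Chn.cons hA' hup
      have hNc : ∀ b ∈ z.2 :: z'.2 :: A', nd b := by
        intro b hb
        rcases List.mem_cons.1 hb with rfl | hb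
        · exact hok.2.1
        · exact hNA' b hb
      have hlt := chn_lt h hch hNc
      have hlt' := chn_lt h hA hNA
      have hlv : lvl z.1 < lvl z.2 := by
        rw [h.le_iff z.2 z.1 hok.2.1 hok.1] at hle
        omega
      refine ⟨r, t, A, z'.2 :: A', hr, ht, List.mem_cons_of_mem _ hrt, hA, hch, ?_, ?_, ?_, ?_⟩
      · intro b hb
        rcases List.mem_append.1 hb with hb | hb
        · exact hNA b hb
        · exact hNc b hb
      · rw [List.nodup_append]
        refine ⟨n1, ?_, ?_⟩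
        · rw [List.nodup_cons]
          exact ⟨fun hm => lt_irrefl _ (hlt _ hm), n2⟩
        · intro a ha b hb
          rcases List.mem_cons.1 hb with rfl | hb
          · rcases List.mem_cons.1 ha with rfl | ha
            · exact hok.2.2
            · intro hab
              have := hlt' a ha
              rw [hab] at this
              omega
          · exact n3 a ha b hb
      · intro b
        constructor
        · intro hb
          obtain ⟨y, hy, rfl⟩ := (h1 b).1 hb
          exact ⟨y, List.mem_cons_of_mem _ hy, rfl⟩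
        · rintro ⟨y, hy, rfl⟩
          rcases List.mem_cons.1 hy with rfl | hy
          · simp
          · exact (h1 _).2 ⟨y, hy, rfl⟩
      · intro b
        rw [List.mem_cons, h2]
        constructor
        · rintro (rfl | ⟨y, hy, rfl⟩)
          · exact ⟨z, by simp, rfl⟩
          · exact ⟨y, List.mem_cons_of_mem _ hy, rfl⟩
        · rintro ⟨y, hy, rfl⟩
          rcases List.mem_cons.1 hy with rfl | hy
          · exact Or.inl rfl
          · exact Or.inr ⟨y, hy, rfl⟩

/-- Job PRC. **A run consists of two disjoint chains.** Induction on the run. If `(p, q)` moves to `(b, q)`: the chains of the induction hypothesis are `b :: A` and `q :: A'`; the new one is `p :: b :: A`. `p ∉ q :: A'`: `p ≠ q`, and the members of `A'` have levels less than `lvl q ≤ lvl p` (`chn_lt`). In the other case `lvl p < lvl q`. -/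
theorem run_chains (h : PD nd lvl le up rt B) (hz : okS nd (p, q)) (hl : (pnet nd le up rt br).Run (fun _ => False) (p, q) l) :
    ∃ r t A A', rt r ∧ rt t ∧ (r, t) ∈ l ∧ Chn up r (p :: A) ∧ Chn up t (q :: A') ∧ (∀ b ∈ (p :: A) ++ (q :: A'), nd b) ∧ ((p :: A) ++ (q :: A')).Nodup ∧
      (∀ b, b ∈ p :: A ↔ ∃ z ∈ l, z.1 = b) ∧ ∀ b, b ∈ q :: A' ↔ ∃ z ∈ l, z.2 = b := by
  exact prc_aux h hl hz

/-- The chains chosen for the net of pairs, together with the trivial chains of the roots. -/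
def Own (J I e : ℕ) (nd : Fin n → Prop) (le up : Fin n → Fin n → Prop) (rt : Fin n → Prop) (br : Fin n → Fin n → Prop) (b r : Fin n) : Prop :=
  (b = r ∧ rt r) ∨ Ch (pnet nd le up rt br) J I e b r

/-- Two chains with a bridge. -/
structure CP (nd : Fin n → Prop) (up : Fin n → Fin n → Prop) (rt : Fin n → Prop) (br : Fin n → Fin n → Prop) (r t p q : Fin n) (A A' : List (Fin n)) : Prop where
  rr : rt r
  rt : rt t
  cA : Chn up r (p :: A)
  cB : Chn up t (q :: A')
  br : br p q
  nd : ∀ b ∈ (p :: A) ++ (q :: A'), nd b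
  nodup : ((p :: A) ++ (q :: A')).Nodup

/-- Job PRD. The chosen chains: the chosen tokens are numbered by `Fin g`, `g = nc (ind … p)` for the best `p`; `ind_run`, `run_chains` (the final state of a run is unique, `run_tm`), `ind_disj`. -/
theorem Ch_iff (h2 : 2 ≤ n) (h : PD nd lvl le up rt B) (hJ : 2 * B < J) :
    ∃ (g : ℕ) (r t p q : Fin g → Fin n) (A A' : Fin g → List (Fin n)),
      (∀ i, CP nd up rt br (r i) (t i) (p i) (q i) (A i) (A' i)) ∧
      (∀ i j, i ≠ j → ∀ b ∈ (p i :: A i) ++ (q i :: A' i), b ∉ (p j :: A j) ++ (q j :: A' j)) ∧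
      (∀ b s, Ch (pnet nd le up rt br) J I e b s ↔ ∃ i, (s = r i ∧ b ∈ p i :: A i) ∨ (s = t i ∧ b ∈ q i :: A' i)) ∧
      ∃ P, bst (pnet nd le up rt br) J I e P ∧ nc (ind (pnet nd le up rt br) J I e P) = g := by
  classical
  set N : Net (SS n) (Fin n) := pnet nd le up rt br with hN
  have hNH : NH N J (prk nd lvl) := pn_nh h2 h hJ
  obtain ⟨P, hP⟩ := bst_exists (N := N) (J := J) (I := I) (e := e) h2
  have hcard : Nat.card {τ // ind N J I e P τ} = nc (ind N J I e P) := nc_natCard.symm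
  let ev : {τ // ind N J I e P τ} ≃ Fin (nc (ind N J I e P)) := Finite.equivFinOfCardEq hcard
  have key : ∀ i : Fin (nc (ind N J I e P)), ∃ (r t p q : Fin n) (A A' : List (Fin n)) (l : List (SS n)),
      CP nd up rt br r t p q A A' ∧ (∀ z, vtt N J (fun v => DL N J I e (P.1, v)) ((ev.symm i).1, z) ↔ z ∈ l) ∧
      (r, t) ∈ l ∧ (∀ e' ∈ l, N.tm e' → e' = (r, t)) ∧
      (∀ b, b ∈ p :: A ↔ ∃ z ∈ l, z.1 = b) ∧ ∀ b, b ∈ q :: A' ↔ ∃ z ∈ l, z.2 = b := by
    intro i
    obtain ⟨hst, l, hl, hlv⟩ := ind_run hNH (ev.symm i).2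
    obtain ⟨r, t, A, A', hr, ht, hrt, hA, hA', hnd, hdup, hb1, hb2⟩ :=
      run_chains (p := (ev.symm i).1.1.1) (q := (ev.symm i).1.1.2) h hst.1 hl
    refine ⟨r, t, (ev.symm i).1.1.1, (ev.symm i).1.1.2, A, A', l, ⟨hr, ht, hA, hA', hst.2, hnd, hdup⟩, hlv, hrt, ?_,
      hb1, hb2⟩
    obtain ⟨e0, -, -, h3⟩ := run_tm hl
    intro e' he' hte'
    rw [h3 e' he' hte', h3 (r, t) hrt ⟨hr, ht⟩]
  choose r t p q A A' l hCP hl hrt htm hb1 hb2 using key
  -- membership in the chains by visits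
  have hmem : ∀ i, ∀ b ∈ (p i :: A i) ++ (q i :: A' i),
      ∃ z, vtt N J (fun v => DL N J I e (P.1, v)) ((ev.symm i).1, z) ∧ N.oc z b := by
    intro i b hb
    rcases List.mem_append.1 hb with hb | hb
    · obtain ⟨z, hz, hzb⟩ := (hb1 i b).1 hb
      exact ⟨z, (hl i z).2 hz, Or.inl hzb.symm⟩
    · obtain ⟨z, hz, hzb⟩ := (hb2 i b).1 hb
      exact ⟨z, (hl i z).2 hz, Or.inr hzb.symm⟩
  refine ⟨nc (ind N J I e P), r, t, p, q, A, A', hCP, ?_, ?_, P, hP, rfl⟩
  · intro i j hij b hb hb'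
    obtain ⟨z, hz, hzb⟩ := hmem i b hb
    obtain ⟨z', hz', hzb'⟩ := hmem j b hb'
    have hne : (ev.symm i).1 ≠ (ev.symm j).1 := fun hh => hij (ev.symm.injective (Subtype.ext hh))
    exact ind_disj (ev.symm i).2 (ev.symm j).2 hne hz hz' hzb hzb'
  · intro b s
    constructor
    · rintro ⟨P', τ, z, y, hP', hτ, hz, hy, hty, hbs⟩
      have hPP : P' = P := bst_unique hP' hP
      subst hPP
      refine ⟨ev ⟨τ, hτ⟩, ?_⟩
      have hev : (ev.symm (ev ⟨τ, hτ⟩)).1 = τ := by rw [Equiv.symm_apply_apply]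
      have hz' : z ∈ l (ev ⟨τ, hτ⟩) := by
        rw [← hl, hev]
        exact hz
      have hy' : y ∈ l (ev ⟨τ, hτ⟩) := by
        rw [← hl, hev]
        exact hy
      have hyy := htm _ y hy' hty
      rcases hbs with ⟨hb, hs⟩ | ⟨hb, hs⟩
      · left
        refine ⟨?_, (hb1 _ b).2 ⟨z, hz', hb.symm⟩⟩
        rw [hs, hyy]
      · right
        refine ⟨?_, (hb2 _ b).2 ⟨z, hz', hb.symm⟩⟩
        rw [hs, hyy]
    · rintro ⟨i, ⟨hs, hb⟩ | ⟨hs, hb⟩⟩
      · obtain ⟨z, hz, hzb⟩ := (hb1 i b).1 hb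
        exact ⟨P, (ev.symm i).1, z, (r i, t i), hP, (ev.symm i).2, (hl i z).2 hz, (hl i _).2 (hrt i),
          ⟨(hCP i).rr, (hCP i).rt⟩, Or.inl ⟨hzb.symm, hs⟩⟩
      · obtain ⟨z, hz, hzb⟩ := (hb2 i b).1 hb
        exact ⟨P, (ev.symm i).1, z, (r i, t i), hP, (ev.symm i).2, (hl i z).2 hz, (hl i _).2 (hrt i),
          ⟨(hCP i).rr, (hCP i).rt⟩, Or.inr ⟨hzb.symm, hs⟩⟩

private theorem pre_root_mem {r : Fin n} {L : List (Fin n)} (hL : Chn up r L) : r ∈ L := by
  induction hL with
  | nil => exact List.mem_singleton.2 rfl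
  | cons h1 h2 ih => exact List.mem_cons_of_mem _ ih

private theorem pre_low {r : Fin n} {L : List (Fin n)} (hL : Chn up r L) {b : Fin n} (hb : b ∈ L) :
    ∃ L₂, Chn up r (b :: L₂) ∧ ∀ x ∈ b :: L₂, x ∈ L := by
  induction hL with
  | nil =>
    rw [List.mem_singleton] at hb
    subst hb
    exact ⟨[], Chn.nil, fun x hx => hx⟩
  | cons h1 h2 ih =>
    rcases List.mem_cons.1 hb with rfl | hb
    · exact ⟨_, Chn.cons h1 h2, fun x hx => hx⟩
    · obtain ⟨L₂, h3, h4⟩ := ih hb
      exact ⟨L₂, h3, fun x hx => List.mem_cons_of_mem _ (h4 x hx)⟩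

private theorem pre_ge (h : PD nd lvl le up rt B) {r : Fin n} {L : List (Fin n)} (hL : Chn up r L) (hN : ∀ b ∈ L, nd b)
    {b : Fin n} (hb : b ∈ L) (hne : b ≠ r) : lvl r < lvl b := by
  obtain ⟨L₂, h1, h2⟩ := pre_low hL hb
  refine chn_lt h h1 (fun x hx => hN x (h2 x hx)) r ?_
  rcases List.mem_cons.1 (pre_root_mem h1) with he | he
  · exact absurd he.symm hne
  · exact he

private theorem pre_inj (h : PD nd lvl le up rt B) {r : Fin n} {L : List (Fin n)} (hL : Chn up r L) (hN : ∀ b ∈ L, nd b)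
    {b b' : Fin n} (hb : b ∈ L) (hb' : b' ∈ L) (he : lvl b = lvl b') : b = b' := by
  induction hL with
  | nil =>
    rw [List.mem_singleton] at hb hb'
    rw [hb, hb']
  | cons h1 h2 ih =>
    have hlt := chn_lt h (Chn.cons h1 h2) hN
    rcases List.mem_cons.1 hb with rfl | hb1
    · rcases List.mem_cons.1 hb' with rfl | hb2
      · rfl
      · exact absurd (hlt _ hb2) (by omega)
    · rcases List.mem_cons.1 hb' with rfl | hb2
      · exact absurd (hlt _ hb1) (by omega)
      · exact ih (fun x hx => hN x (List.mem_cons_of_mem _ hx)) hb1 hb2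

/-- Job PRE. The ownership relation of the chosen chains has the structural properties of `GInv` when all owned vertices are active. (`fn`: a root is a member of a chain with another root only if it is this root, by levels; `lev`: the members of a chain have different levels; `chain`: the lower part of a chain.) -/
theorem own_inv (h2 : 2 ≤ n) (h : PD nd lvl le up rt B) (hJ : 2 * B < J) (hrt : ∀ r, rt r → nd r) :
    GInv nd lvl up rt (Own J I e nd le up rt br, fun b => ∃ r, Own J I e nd le up rt br b r) := by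
  obtain ⟨g, r, t, p, q, A, A', hCP, hdis, hCh, _⟩ := Ch_iff (J := J) (I := I) (e := e) (br := br) h2 h hJ
  have hownd : ∀ b s, Own J I e nd le up rt br b s ↔
      (b = s ∧ rt s) ∨ ∃ i, (s = r i ∧ b ∈ p i :: A i) ∨ (s = t i ∧ b ∈ q i :: A' i) := by
    intro b s
    unfold Own
    rw [hCh b s]
  have hnA : ∀ i, ∀ b ∈ p i :: A i, nd b := fun i b hb => (hCP i).nd b (List.mem_append_left _ hb)
  have hnB : ∀ i, ∀ b ∈ q i :: A' i, nd b := fun i b hb => (hCP i).nd b (List.mem_append_right _ hb)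
  have hdisj : ∀ i, ∀ b ∈ p i :: A i, b ∉ q i :: A' i := by
    intro i b hb hb'
    have h3 := (hCP i).nodup
    rw [List.nodup_append] at h3
    exact h3.2.2 b hb b hb' rfl
  have hrootA : ∀ i, ∀ b ∈ p i :: A i, rt b → b = r i := by
    intro i b hb hrb
    by_contra hne
    have h3 := pre_ge h (hCP i).cA (hnA i) hb hne
    have h4 := (h.rt1 b (hnA i b hb)).1 hrb
    have h5 := (h.rt1 (r i) (hrt _ (hCP i).rr)).1 (hCP i).rr
    omega
  have hrootB : ∀ i, ∀ b ∈ q i :: A' i, rt b → b = t i := by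
    intro i b hb hrb
    by_contra hne
    have h3 := pre_ge h (hCP i).cB (hnB i) hb hne
    have h4 := (h.rt1 b (hnB i b hb)).1 hrb
    have h5 := (h.rt1 (t i) (hrt _ (hCP i).rt)).1 (hCP i).rt
    omega
  have hfam : ∀ i j, ∀ b, (b ∈ p i :: A i ∨ b ∈ q i :: A' i) → (b ∈ p j :: A j ∨ b ∈ q j :: A' j) → i = j := by
    intro i j b hb hb'
    by_contra hne
    exact hdis i j hne b (List.mem_append.2 hb) (List.mem_append.2 hb')
  -- a chain containing a vertex and a root
  have hsame : ∀ s b b' i j, ((s = r i ∧ b ∈ p i :: A i) ∨ (s = t i ∧ b ∈ q i :: A' i)) →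
      ((s = r j ∧ b' ∈ p j :: A j) ∨ (s = t j ∧ b' ∈ q j :: A' j)) →
      (b ∈ p i :: A i ∧ b' ∈ p i :: A i) ∨ (b ∈ q i :: A' i ∧ b' ∈ q i :: A' i) := by
    intro s b b' i j hb hb'
    have hs1 : s ∈ p i :: A i ∨ s ∈ q i :: A' i := by
      rcases hb with ⟨rfl, _⟩ | ⟨rfl, _⟩
      · exact Or.inl (pre_root_mem (hCP i).cA)
      · exact Or.inr (pre_root_mem (hCP i).cB)
    have hs2 : s ∈ p j :: A j ∨ s ∈ q j :: A' j := by
      rcases hb' with ⟨rfl, _⟩ | ⟨rfl, _⟩
      · exact Or.inl (pre_root_mem (hCP j).cA)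
      · exact Or.inr (pre_root_mem (hCP j).cB)
    have hij := hfam i j s hs1 hs2
    subst hij
    rcases hb with ⟨hs, hb⟩ | ⟨hs, hb⟩
    · rcases hb' with ⟨hs', hb'⟩ | ⟨hs', hb'⟩
      · exact Or.inl ⟨hb, hb'⟩
      · exact absurd (hs' ▸ pre_root_mem (hCP i).cB) (hdisj i s (hs ▸ pre_root_mem (hCP i).cA))
    · rcases hb' with ⟨hs', hb'⟩ | ⟨hs', hb'⟩
      · exact absurd (hs ▸ pre_root_mem (hCP i).cB) (hdisj i s (hs' ▸ pre_root_mem (hCP i).cA))
      · exact Or.inr ⟨hb, hb'⟩
  refine ⟨?_, ?_, ?_, ?_, ?_, ?_, ?_⟩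
  · intro b s hb
    rcases (hownd b s).1 hb with ⟨rfl, hs⟩ | ⟨i, ⟨rfl, hbi⟩ | ⟨rfl, hbi⟩⟩
    · exact ⟨hrt _ hs, hs⟩
    · exact ⟨hnA i b hbi, (hCP i).rr⟩
    · exact ⟨hnB i b hbi, (hCP i).rt⟩
  · intro b s s' hb hb'
    rcases (hownd b s).1 hb with ⟨rfl, hs⟩ | ⟨i, hi⟩
    · rcases (hownd b s').1 hb' with ⟨rfl, _⟩ | ⟨j, ⟨rfl, hbj⟩ | ⟨rfl, hbj⟩⟩
      · rfl
      · exact hrootA j b hbj hs
      · exact hrootB j b hbj hs
    · rcases (hownd b s').1 hb' with ⟨rfl, hs'⟩ | ⟨j, hj⟩
      · rcases hi with ⟨rfl, hbi⟩ | ⟨rfl, hbi⟩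
        · exact (hrootA i b hbi hs').symm
        · exact (hrootB i b hbi hs').symm
      · have hij := hfam i j b (hi.imp And.right And.right) (hj.imp And.right And.right)
        subst hij
        rcases hi with ⟨rfl, hbi⟩ | ⟨rfl, hbi⟩
        · rcases hj with ⟨rfl, hbj⟩ | ⟨rfl, hbj⟩
          · rfl
          · exact absurd hbj (hdisj i b hbi)
        · rcases hj with ⟨rfl, hbj⟩ | ⟨rfl, hbj⟩
          · exact absurd hbi (hdisj i b hbj)
          · rfl
  · intro s hs
    exact (hownd s s).2 (Or.inl ⟨rfl, hs⟩)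
  · intro b s hb
    rcases (hownd b s).1 hb with ⟨rfl, hs⟩ | ⟨i, ⟨rfl, hbi⟩ | ⟨rfl, hbi⟩⟩
    · refine ⟨[], Chn.nil, fun x hx => ?_⟩
      rw [List.mem_singleton] at hx
      subst hx
      exact (hownd x x).2 (Or.inl ⟨rfl, hs⟩)
    · obtain ⟨L₂, h3, h4⟩ := pre_low (hCP i).cA hbi
      exact ⟨L₂, h3, fun x hx => (hownd x _).2 (Or.inr ⟨i, Or.inl ⟨rfl, h4 x hx⟩⟩)⟩
    · obtain ⟨L₂, h3, h4⟩ := pre_low (hCP i).cB hbi
      exact ⟨L₂, h3, fun x hx => (hownd x _).2 (Or.inr ⟨i, Or.inr ⟨rfl, h4 x hx⟩⟩)⟩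
  · intro b hb
    exact hb
  · intro b b' s _ _ hb hb' hlv
    rcases (hownd b s).1 hb with ⟨rfl, hs⟩ | ⟨i, hi⟩
    · rcases (hownd b' b).1 hb' with ⟨rfl, _⟩ | ⟨j, ⟨hbj0, hbj⟩ | ⟨hbj0, hbj⟩⟩
      · rfl
      · by_contra hne
        have h3 := pre_ge h (hCP j).cA (hnA j) hbj (fun he => hne (hbj0.trans he.symm))
        rw [← hbj0] at h3
        omega
      · by_contra hne
        have h3 := pre_ge h (hCP j).cB (hnB j) hbj (fun he => hne (hbj0.trans he.symm))
        rw [← hbj0] at h3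
        omega
    · rcases (hownd b' s).1 hb' with ⟨rfl, hs'⟩ | ⟨j, hj⟩
      · rcases hi with ⟨hbi0, hbi⟩ | ⟨hbi0, hbi⟩
        · by_contra hne
          have h3 := pre_ge h (hCP i).cA (hnA i) hbi (fun he => hne (he.trans hbi0.symm))
          rw [← hbi0] at h3
          omega
        · by_contra hne
          have h3 := pre_ge h (hCP i).cB (hnB i) hbi (fun he => hne (he.trans hbi0.symm))
          rw [← hbi0] at h3
          omega
      · rcases hsame s b b' i j hi hj with ⟨h3, h4⟩ | ⟨h3, h4⟩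
        · exact pre_inj h (hCP i).cA (hnA i) h3 h4 hlv
        · exact pre_inj h (hCP i).cB (hnB i) h3 h4 hlv
  · intro b s c hb hnb
    exact absurd ⟨s, hb⟩ hnb

/-- Job PRF. **There are many chosen pairs**: `Ch_iff`, and for every disjoint family of `μ` pairs of chains with bridges: `chains_run`, `sel_main`. -/
theorem ch_many (h2 : 2 ≤ n) (h : PD nd lvl le up rt B) (hJ : 2 * B < J) (hI : (n ^ 2) ^ J < 2 ^ I) (he : I ≤ n ^ e) :
    ∃ (g : ℕ) (r t p q : Fin g → Fin n) (A A' : Fin g → List (Fin n)),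
      (∀ i, CP nd up rt br (r i) (t i) (p i) (q i) (A i) (A' i)) ∧
      (∀ i j, i ≠ j → ∀ b ∈ (p i :: A i) ++ (q i :: A' i), b ∉ (p j :: A j) ++ (q j :: A' j)) ∧
      (∀ i, (∀ b ∈ p i :: A i, Own J I e nd le up rt br b (r i)) ∧ ∀ b ∈ q i :: A' i, Own J I e nd le up rt br b (t i)) ∧
      ∀ (μ : ℕ) (r' t' p' q' : Fin μ → Fin n) (X X' : Fin μ → List (Fin n)), (∀ i, CP nd up rt br (r' i) (t' i) (p' i) (q' i) (X i) (X' i)) →
        (∀ i j, i ≠ j → ∀ b ∈ (p' i :: X i) ++ (q' i :: X' i), b ∉ (p' j :: X j) ++ (q' j :: X' j)) → μ ≤ 128 * J ^ 3 * I * g := by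
  obtain ⟨g, r, t, p, q, A, A', hCP, hdis, hCh, P, hP, hg⟩ := Ch_iff (J := J) (I := I) (e := e) (br := br) h2 h hJ
  refine ⟨g, r, t, p, q, A, A', hCP, hdis, fun i => ⟨fun b hb => Or.inr ((hCh b _).2 ⟨i, Or.inl ⟨rfl, hb⟩⟩),
    fun b hb => Or.inr ((hCh b _).2 ⟨i, Or.inr ⟨rfl, hb⟩⟩)⟩, ?_⟩
  intro μ r' t' p' q' X X' hX hdX
  have hrun : ∀ i, ∃ l, (pnet nd le up rt br).Run (fun _ => False) (p' i, q' i) l ∧
      ∀ z ∈ l, z.1 ∈ (p' i :: X i) ++ (q' i :: X' i) ∧ z.2 ∈ (p' i :: X i) ++ (q' i :: X' i) :=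
    fun i => chains_run h (hX i).rr (hX i).rt (hX i).cA (hX i).cB (hX i).nd (hX i).nodup
  choose F hF hmem using hrun
  rw [← hg]
  refine sel_main (pn_nh h2 h hJ) hI he hP F (fun i => ⟨(p' i, q' i), ⟨⟨?_, ?_, ?_⟩, (hX i).br⟩, hF i⟩) ?_
  · exact (hX i).nd _ (by simp)
  · exact (hX i).nd _ (by simp)
  · intro he'
    have h3 := (hX i).nodup
    rw [List.nodup_append] at h3
    exact h3.2.2 (p' i) (by simp) (q' i) (by simp) he'
  · intro i j hij z hz z' hz' v hv hv'
    have h3 : v ∈ (p' i :: X i) ++ (q' i :: X' i) := by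
      rcases hv with rfl | rfl
      · exact (hmem i z hz).1
      · exact (hmem i z hz).2
    have h4 : v ∈ (p' j :: X j) ++ (q' j :: X' j) := by
      rcases hv' with rfl | rfl
      · exact (hmem j z' hz').1
      · exact (hmem j z' hz').2
    exact hdX i j hij v h3 h4

end Pool.Agent.EXA
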