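import Pool.Agent.Lib.MP_0087d5_lc.EXA.Num
import Pool.Agent.Lib.MP_0087d5_lc.EXA.Pair

/-!
# The selection is definable

Jobs DNA (`exists_e`), DNB (`cnt_def`, `tot_def`), DNC (`hvy_def`, `DL_def`), DND (`us_def`), DNE (`chs_def`, `vt_def`), DNF (`DefP.nMul`, `hs_def`), DNG (`ind_def`, `bst_def`, `Ch_def`), DNH (`pnX_def`).
-/

set_option linter.all false

namespace Pool.Agent.EXA

open Finset Pool.Agent.PMNC

/-- The numbers of iterations. -/
abbrev JJ (c d n : ℕ) : ℕ := (c * Nat.size n) ^ (d + 1)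

private theorem dna_JJ (c d n : ℕ) (hn : 2 ≤ n) : JJ c d n ≤ n ^ ((c + 1) * (d + 1)) := by
  have h1 : c < 2 ^ c := Nat.lt_two_pow_self
  have h2 : 2 ^ c ≤ n ^ c := Nat.pow_le_pow_left hn c
  have h3 : Nat.size n ≤ n := by
    rw [Nat.size_le]
    exact Nat.lt_two_pow_self
  calc JJ c d n = (c * Nat.size n) ^ (d + 1) := rfl
    _ ≤ (n ^ c * n) ^ (d + 1) := Nat.pow_le_pow_left (Nat.mul_le_mul (by omega) h3) _
    _ = n ^ ((c + 1) * (d + 1)) := by rw [← pow_succ, ← pow_mul]

/-- Job DNA. (`Nat.size n ≤ n`, `n < 2 ^ Nat.size n`, `c ≤ n ^ c` for `2 ≤ n`; e.g. `e = (c + 1) * (d + 1) + (c' + 1) * (d' + 1) + 10`.) -/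
theorem exists_e (c d c' d' : ℕ) : ∃ e, 1 ≤ e ∧ ∀ n, 2 ≤ n → 4 * n ^ 20 * (n ^ 2) ^ JJ c d n < 2 ^ (n ^ e) ∧ JJ c' d' n ≤ n ^ e := by
  refine ⟨(c + 1) * (d + 1) + (c' + 1) * (d' + 1) + 10, by omega, fun n hn => ?_⟩
  have h1 := dna_JJ c d n hn
  have h2 := dna_JJ c' d' n hn
  constructor
  · -- `n < 2 ^ n`
    have h3 : n < 2 ^ n := Nat.lt_two_pow_self
    have h4 : 4 * n ^ 20 * (n ^ 2) ^ JJ c d n ≤ 2 ^ (2 + 20 * n + 2 * n * JJ c d n) := by
      have e1 : n ^ 20 ≤ (2 ^ n) ^ 20 := Nat.pow_le_pow_left h3.le _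
      have e2 : (n ^ 2) ^ JJ c d n ≤ ((2 ^ n) ^ 2) ^ JJ c d n := Nat.pow_le_pow_left (Nat.pow_le_pow_left h3.le _) _
      calc 4 * n ^ 20 * (n ^ 2) ^ JJ c d n ≤ 4 * (2 ^ n) ^ 20 * ((2 ^ n) ^ 2) ^ JJ c d n :=
            Nat.mul_le_mul (Nat.mul_le_mul_left _ e1) e2
        _ = 2 ^ (2 + 20 * n + 2 * n * JJ c d n) := by
            rw [← pow_mul, ← pow_mul, ← pow_mul, pow_add, pow_add]
            congr 2
            · congr 1; ring
            · ring
    refine lt_of_le_of_lt h4 (Nat.pow_lt_pow_right (by norm_num) ?_)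
    set A := (c + 1) * (d + 1) with hA
    set B := (c' + 1) * (d' + 1) with hB
    have hn0 : 0 < n := by omega
    have hA1 : 1 ≤ n ^ A := Nat.one_le_pow _ _ hn0
    have e3 : n ^ A ≤ n ^ (A + B + 9) / n := by
      rw [Nat.le_div_iff_mul_le hn0, ← pow_succ]
      exact Nat.pow_le_pow_right hn0 (by omega)
    have e4 : 2 + 20 * n + 2 * n * JJ c d n ≤ 2 + 20 * n + 2 * n * n ^ A := by
      have := Nat.mul_le_mul_left (2 * n) h1
      omega
    have e5 : n ^ (A + B + 10) = n ^ A * n ^ B * n ^ 10 := by rw [pow_add, pow_add]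
    have e6 : 1 ≤ n ^ B := Nat.one_le_pow _ _ hn0
    have e7 : n ^ A * n ^ 10 ≤ n ^ A * n ^ B * n ^ 10 := by
      apply Nat.mul_le_mul_right
      exact Nat.le_mul_of_pos_right _ e6
    have e8 : 2 ^ 9 * n ≤ n ^ 10 := by
      calc 2 ^ 9 * n ≤ n ^ 9 * n := Nat.mul_le_mul_right _ (Nat.pow_le_pow_left hn 9)
        _ = n ^ 10 := by ring
    rw [e5]
    calc 2 + 20 * n + 2 * n * JJ c d n ≤ 2 + 20 * n + 2 * n * n ^ A := e4
      _ < n ^ A * (2 ^ 9 * n) := by nlinarith
      _ ≤ n ^ A * n ^ 10 := Nat.mul_le_mul_left _ e8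
      _ ≤ _ := e7
  · exact h2.trans (Nat.pow_le_pow_right (by omega) (by omega))

/-- A definable family of nets. -/
structure DefNet (N : ∀ n : ℕ, SimpleGraph (Fin n) → Ctx n → Net (SS n) (Fin n)) : Prop where
  st : DefP (E := SS) (fun n G X z => (N n G X).st z)
  mv : DefP (E := fun n => SS n × SS n) (fun n G X y => (N n G X).mv y.1 y.2)
  tm : DefP (E := SS) (fun n G X z => (N n G X).tm z)
  oc : DefP (E := fun n => SS n × Fin n) (fun n G X y => (N n G X).oc y.1 y.2)
  two : ∀ n G X z, (N n G X).st z → 2 ≤ n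

section

variable {E : ℕ → Type} [Env E] {N : ∀ n : ℕ, SimpleGraph (Fin n) → Ctx n → Net (SS n) (Fin n)} {D : ∀ n : ℕ, SimpleGraph (Fin n) → Ctx n → E n → Fin n → Prop} {c d c' d' e : ℕ}

/-- Job DNB. -/
theorem DefNet.pop (hN : DefNet N) : DefNet (fun n G X => N n G (PMNC.pop X)) where
  st := DefP.pop hN.st
  mv := DefP.pop hN.mv
  tm := DefP.pop hN.tm
  oc := DefP.pop hN.oc
  two := fun n G X z h => hN.two n G (PMNC.pop X) z h

/-- Job DNB. -/
theorem al_def (hN : DefNet N) (hD : DefP (E := fun n => E n × Fin n) (fun n G X y => D n G X y.1 y.2)) :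
    DefP (E := fun n => E n × SS n) (fun n G X y => (N n G X).al (D n G X y.1) y.2) := by
  refine DefP.congr (P := fun n G X (y : E n × SS n) => ∀ v : Fin n, (N n G X).oc y.2 v → ¬ D n G X y.1 v) ?_
    (fun n G X y => Iff.rfl)
  refine DefP.allFin (DefP.imp ?_ (DefP.not ?_))
  · exact hN.oc.comp (E := fun n => (E n × SS n) × Fin n) (F := fun n => SS n × Fin n) (f := fun n y => (y.1.2, y.2))
      (Tm.pair (F := SS) (H := fun n => Fin n)
        (Tm.snd (F := E) (H := SS) (Tm.fst (F := fun n => E n × SS n) (H := fun n => Fin n) Tm.id))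
        (Tm.snd (F := fun n => E n × SS n) (H := fun n => Fin n) Tm.id))
  · exact hD.comp (E := fun n => (E n × SS n) × Fin n) (F := fun n => E n × Fin n) (f := fun n y => (y.1.1, y.2))
      (Tm.pair (F := E) (H := fun n => Fin n)
        (Tm.fst (F := E) (H := SS) (Tm.fst (F := fun n => E n × SS n) (H := fun n => Fin n) Tm.id))
        (Tm.snd (F := fun n => E n × SS n) (H := fun n => Fin n) Tm.id))

/-- Job DNB. (`DefN.iterX` for `Φ n G X x f z = (N n G X).stp (D n G X x) f z`; `DefN.ite`, `DefN.one`, `DefN.zero`, `DefN.sm`, `DefN.bn`; sums modulo `2 ^ (n ^ e)`: `Finset.sum_nat_mod`.) -/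
theorem cnt_def (hN : DefNet N) (hD : DefP (E := fun n => E n × Fin n) (fun n G X y => D n G X y.1 y.2)) :
    DefN e (E := fun n => E n × SS n) (fun n G X y => (N n G X).cnt (D n G X y.1) (JJ c d n) y.2) := by
  classical
  refine DefN.iterX (S := SS) c d (Φ := fun n G X x f z => (N n G X).stp (D n G X x) f z) ?_ ?_
  · intro n G X x f g hfg z
    show (N n G X).stp (D n G X x) f z % 2 ^ (n ^ e) = (N n G X).stp (D n G X x) g z % 2 ^ (n ^ e)
    unfold Net.stp
    split_ifs
    · rfl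
    · rw [sm_def, sm_def, Finset.sum_nat_mod, Finset.sum_nat_mod _ _ g]
      congr 1
      exact Finset.sum_congr rfl fun z' _ => hfg z'
    · rfl
  · have hN' := hN.pop
    have hD' : DefP (E := fun n => E n × Fin n) (fun n G X y => D n G (PMNC.pop X) y.1 y.2) := DefP.pop hD
    have hal := al_def hN' (D := fun n G X x => D n G (PMNC.pop X) x) hD'
    have htm : DefP (E := fun n => E n × SS n) (fun n G X y => (N n G (PMNC.pop X)).tm y.2) :=
      hN'.tm.comp (E := fun n => E n × SS n) (F := SS) (f := fun n y => y.2) (Tm.snd (F := E) (H := SS) Tm.id)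
    have hmv : DefP (E := fun n => (E n × SS n) × SS n) (fun n G X y => (N n G (PMNC.pop X)).mv y.1.2 y.2) :=
      hN'.mv.comp (E := fun n => (E n × SS n) × SS n) (F := fun n => SS n × SS n) (f := fun n y => (y.1.2, y.2))
        (Tm.pair (F := SS) (H := SS)
          (Tm.snd (F := E) (H := SS) (Tm.fst (F := fun n => E n × SS n) (H := SS) Tm.id))
          (Tm.snd (F := fun n => E n × SS n) (H := SS) Tm.id))
    have hrv : DefP (E := fun n => ((E n × SS n) × SS n) × QQ e n)
        (fun n G X y => PMNC.rv (S := fun n => SS n × QQ e n) X 0 (y.1.2, y.2)) :=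
      DefP.rv 0 (Tm.pair (F := SS) (H := QQ e)
        (Tm.snd (F := fun n => E n × SS n) (H := SS) (Tm.fst (F := fun n => (E n × SS n) × SS n) (H := QQ e) Tm.id))
        (Tm.snd (F := fun n => (E n × SS n) × SS n) (H := QQ e) Tm.id))
    have hbn : DefN e (E := fun n => (E n × SS n) × SS n)
        (fun n G X y => EXA.bn e (fun i : QQ e n => PMNC.rv (S := fun n => SS n × QQ e n) X 0 (y.2, i))) :=
      DefN.bn (E := fun n => (E n × SS n) × SS n)
        (R := fun n G X y i => PMNC.rv (S := fun n => SS n × QQ e n) X 0 (y.2, i)) hrv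
    have hsum := DefN.sm (E := fun n => E n × SS n) (S := SS) (A := fun n G X y z' => (N n G (PMNC.pop X)).mv y.2 z')
      (f := fun n G X y z' => EXA.bn e (fun i : QQ e n => PMNC.rv (S := fun n => SS n × QQ e n) X 0 (z', i))) hmv hbn
    exact DefN.ite hal (DefN.ite htm DefN.one hsum) DefN.zero

/-- Job DNB. -/
theorem tot_def (hN : DefNet N) (hD : DefP (E := fun n => E n × Fin n) (fun n G X y => D n G X y.1 y.2)) :
    DefN e (fun n G X x => (N n G X).tot (D n G X x) (JJ c d n)) := by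
  have hst : DefP (E := fun n => E n × SS n) (fun n G X y => (N n G X).st y.2) :=
    hN.st.comp (E := fun n => E n × SS n) (F := SS) (f := fun n y => y.2) (Tm.snd (F := E) (H := SS) Tm.id)
  exact DefN.sm (E := E) (S := SS) (A := fun n G X x z => (N n G X).st z)
    (f := fun n G X x z => (N n G X).cnt (D n G X x) (JJ c d n) z) hst (cnt_def hN hD)

/-- The condition on `e`. -/
def EOk (c d c' d' e : ℕ) : Prop := 1 ≤ e ∧ ∀ n, 2 ≤ n → 4 * n ^ 20 * (n ^ 2) ^ JJ c d n < 2 ^ (n ^ e) ∧ JJ c' d' n ≤ n ^ e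

/-- Job DNC. The bounds for the comparison: `tot_le`; for `n ≤ 1` there are no start states (`two`). -/
theorem tot_bound (hN : DefNet N) (he : EOk c d c' d' e) (n : ℕ) (G : SimpleGraph (Fin n)) (X : Ctx n) (D : Fin n → Prop) : 4 * (N n G X).tot D (JJ c d n) < 2 ^ (n ^ e) := by
  by_cases hn : 2 ≤ n
  · have h1 := (he.2 n hn).1
    have h2 : (N n G X).tot D (JJ c d n) ≤ Fintype.card (SS n) ^ JJ c d n := tot_le
    have h3 : Fintype.card (SS n) = n ^ 2 := by
      rw [Fintype.card_prod, Fintype.card_fin, pow_two]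
    rw [h3] at h2
    have h4 : 1 ≤ n ^ 20 := Nat.one_le_pow _ _ (by omega)
    calc 4 * (N n G X).tot D (JJ c d n) ≤ 4 * (n ^ 2) ^ JJ c d n := Nat.mul_le_mul_left 4 h2
      _ = 4 * 1 * (n ^ 2) ^ JJ c d n := by rw [mul_one]
      _ ≤ 4 * n ^ 20 * (n ^ 2) ^ JJ c d n := Nat.mul_le_mul_right _ (Nat.mul_le_mul_left 4 h4)
      _ < 2 ^ (n ^ e) := h1
  · have h1 : (N n G X).tot D (JJ c d n) = 0 := by
      unfold Net.tot
      exact sm_none fun z hz => hn (hN.two n G X z hz)
    rw [h1, mul_zero]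
    positivity

/-- Job DNC. (`tot_def` for `ins D v` with parameters `(x, v)`, `DefN.add`, `DefN.le`, `DefN.lt`.) -/
theorem hvy_def (hN : DefNet N) (he : EOk c d c' d' e) (hD : DefP (E := fun n => E n × Fin n) (fun n G X y => D n G X y.1 y.2)) :
    DefP (E := fun n => E n × Fin n) (fun n G X y => (N n G X).hvy (JJ c d n) (D n G X y.1) y.2) := by
  have hb := fun n G X D => tot_bound hN he n G X D
  -- the number of runs which avoid `D`
  have t0 : DefN e (E := E) (fun n G X x => (N n G X).tot (D n G X x) (JJ c d n)) := tot_def hN hD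
  -- the number of runs which avoid `D` and `v`
  have hins : DefP (E := fun n => (E n × Fin n) × Fin n) (fun n G X y => ins (D n G X y.1.1) y.1.2 y.2) := by
    refine DefP.or ?_ (DefP.eqFin ?_ ?_)
    · exact hD.comp (E := fun n => (E n × Fin n) × Fin n) (F := fun n => E n × Fin n) (f := fun n y => (y.1.1, y.2))
        (Tm.pair (F := E) (H := fun n => Fin n)
          (Tm.fst (F := E) (H := fun n => Fin n) (Tm.fst (F := fun n => E n × Fin n) (H := fun n => Fin n) Tm.id))
          (Tm.snd (F := fun n => E n × Fin n) (H := fun n => Fin n) Tm.id))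
    · exact Tm.snd (F := fun n => E n × Fin n) (H := fun n => Fin n) Tm.id
    · exact Tm.snd (F := E) (H := fun n => Fin n) (Tm.fst (F := fun n => E n × Fin n) (H := fun n => Fin n) Tm.id)
  have t1 : DefN e (E := fun n => E n × Fin n) (fun n G X y => (N n G X).tot (ins (D n G X y.1) y.2) (JJ c d n)) :=
    tot_def (E := fun n => E n × Fin n) (D := fun n G X y => ins (D n G X y.1) y.2) hN hins
  -- the comparison
  have a1 : DefN e (E := fun n => (E n × Fin n) × Fin n)
      (fun n G X y => (N n G X).tot (ins (D n G X y.1.1) y.1.2) (JJ c d n)) :=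
    t1.comp (F := fun n => E n × Fin n) (E := fun n => (E n × Fin n) × Fin n) (g := fun n y => y.1)
      (Tm.fst (F := fun n => E n × Fin n) (H := fun n => Fin n) Tm.id)
  have a2 : DefN e (E := fun n => (E n × Fin n) × Fin n) (fun n G X y => (N n G X).tot (D n G X y.1.1) (JJ c d n)) :=
    t0.comp (F := E) (E := fun n => (E n × Fin n) × Fin n) (g := fun n y => y.1.1)
      (Tm.fst (F := E) (H := fun n => Fin n) (Tm.fst (F := fun n => E n × Fin n) (H := fun n => Fin n) Tm.id))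
  have a3 : DefN e (E := fun n => (E n × Fin n) × Fin n)
      (fun n G X y => (N n G X).tot (ins (D n G X y.1.1) y.2) (JJ c d n)) :=
    t1.comp (F := fun n => E n × Fin n) (E := fun n => (E n × Fin n) × Fin n) (g := fun n y => (y.1.1, y.2))
      (Tm.pair (F := E) (H := fun n => Fin n)
        (Tm.fst (F := E) (H := fun n => Fin n) (Tm.fst (F := fun n => E n × Fin n) (H := fun n => Fin n) Tm.id))
        (Tm.snd (F := fun n => E n × Fin n) (H := fun n => Fin n) Tm.id))
  have hle : DefP (E := fun n => (E n × Fin n) × Fin n)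
      (fun n G X y => (N n G X).tot (ins (D n G X y.1.1) y.1.2) (JJ c d n) + (N n G X).tot (ins (D n G X y.1.1) y.1.2) (JJ c d n) ≤
        (N n G X).tot (D n G X y.1.1) (JJ c d n) + (N n G X).tot (ins (D n G X y.1.1) y.2) (JJ c d n)) := by
    refine DefN.le (DefN.add he.1 a1 a1) (DefN.add he.1 a2 a3) (fun n G X y => ?_) (fun n G X y => ?_)
    · have h1 := hb n G X (ins (D n G X y.1.1) y.1.2)
      omega
    · have h1 := hb n G X (D n G X y.1.1)
      have h2 := hb n G X (ins (D n G X y.1.1) y.2)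
      omega
  have hpos : DefP (E := fun n => E n × Fin n) (fun n G X y => 0 < (N n G X).tot (D n G X y.1) (JJ c d n)) := by
    refine DefN.lt (e := e) (f := fun n G X (y : E n × Fin n) => 0) (g := fun n G X y => (N n G X).tot (D n G X y.1) (JJ c d n))
      DefN.zero (t0.comp (F := E) (E := fun n => E n × Fin n) (g := fun n y => y.1) (Tm.fst (F := E) (H := fun n => Fin n) Tm.id))
      (fun n G X y => by positivity) (fun n G X y => ?_)
    have h1 := hb n G X (D n G X y.1)
    omega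
  refine DefP.congr (hD.or (hpos.and (DefP.allFin (P := fun n G X (y : E n × Fin n) (w : Fin n) =>
    (N n G X).tot (ins (D n G X y.1) y.2) (JJ c d n) + (N n G X).tot (ins (D n G X y.1) y.2) (JJ c d n) ≤
        (N n G X).tot (D n G X y.1) (JJ c d n) + (N n G X).tot (ins (D n G X y.1) w) (JJ c d n)) hle))) fun n G X y => ?_
  unfold Net.hvy
  simp only [two_mul]

/-- Job DNC. (`iterX'` with `E = Unit`, `S n = QQ e n × Fin n`; `dlt` with `hvy_def` for `D n G X i' v = rv X 0 (i', v)` and `hN.pop`.) -/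
theorem DL_def (hN : DefNet N) (he : EOk c d c' d' e) :
    DefP (E := fun n => QQ e n × Fin n) (fun n G X y => DL (N n G X) (JJ c d n) (JJ c' d' n) e y) := by
  have hrv : DefP (E := fun n => QQ e n × Fin n) (fun n G X y => PMNC.rv (S := fun n => QQ e n × Fin n) X 0 (y.1, y.2)) :=
    DefP.rv 0 (Tm.pair (F := QQ e) (H := fun n => Fin n) (Tm.fst (F := QQ e) (H := fun n => Fin n) Tm.id)
      (Tm.snd (F := QQ e) (H := fun n => Fin n) Tm.id))
  have hh := hvy_def (E := QQ e) (D := fun n G X i' v => PMNC.rv (S := fun n => QQ e n × Fin n) X 0 (i', v)) hN.pop he hrv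
  have hh' : DefP (E := fun n => (Unit × (QQ e n × Fin n)) × QQ e n) (fun n G X y =>
      (N n G (PMNC.pop X)).hvy (JJ c d n) (fun v => PMNC.rv (S := fun n => QQ e n × Fin n) X 0 (y.2, v)) y.1.2.2) :=
    hh.comp (E := fun n => (Unit × (QQ e n × Fin n)) × QQ e n) (F := fun n => QQ e n × Fin n) (f := fun n y => (y.2, y.1.2.2))
      (Tm.pair (F := QQ e) (H := fun n => Fin n)
        (Tm.snd (F := fun n => Unit × (QQ e n × Fin n)) (H := QQ e) Tm.id)
        (Tm.snd (F := QQ e) (H := fun n => Fin n) (Tm.snd (F := fun n => Unit) (H := fun n => QQ e n × Fin n)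
          (Tm.fst (F := fun n => Unit × (QQ e n × Fin n)) (H := QQ e) Tm.id))))
  have hs : DefP (E := fun n => (Unit × (QQ e n × Fin n)) × QQ e n) (fun n G X y =>
      nv (S := QQ e) y.1.2.1 = nv (S := QQ e) y.2 + 1) :=
    DefP.nSucc (F := QQ e) (H := QQ e) (E := fun n => (Unit × (QQ e n × Fin n)) × QQ e n) (f := fun n y => y.2) (g := fun n y => y.1.2.1)
      (Tm.snd (F := fun n => Unit × (QQ e n × Fin n)) (H := QQ e) Tm.id)
      (Tm.fst (F := QQ e) (H := fun n => Fin n) (Tm.snd (F := fun n => Unit) (H := fun n => QQ e n × Fin n)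
          (Tm.fst (F := fun n => Unit × (QQ e n × Fin n)) (H := QQ e) Tm.id)))
  have hΦ : DefP (E := fun n => Unit × (QQ e n × Fin n)) (fun n G X y =>
      dlt (N n G (PMNC.pop X)) (JJ c d n) e (fun s => PMNC.rv (S := fun n => QQ e n × Fin n) X 0 s) y.2) :=
    DefP.ex (E := fun n => Unit × (QQ e n × Fin n)) (F := QQ e) (P := fun n G X y i' => nv (S := QQ e) y.2.1 = nv (S := QQ e) i' + 1 ∧
      (N n G (PMNC.pop X)).hvy (JJ c d n) (fun v => PMNC.rv (S := fun n => QQ e n × Fin n) X 0 (i', v)) y.2.2) (hs.and hh')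
  have hI : DefP (E := fun n => Unit × (QQ e n × Fin n)) (fun n G X y => False) := DefP.false
  have hit := iterX' (E := fun _ => Unit) (S := fun n => QQ e n × Fin n) c' d' (I := fun n G X x s => False)
    (Φ := fun n G X x R y => dlt (N n G X) (JJ c d n) e R y) hI hΦ
  exact hit.comp (E := fun n => QQ e n × Fin n) (F := fun n => Unit × (QQ e n × Fin n)) (f := fun n y => ((), y))
    (Tm.pair (F := fun _ => Unit) (H := fun n => QQ e n × Fin n) Tm.unit Tm.id)

private theorem dnd_nc {n : ℕ} (u : UU n) : nc (fun u' : UU n => nv (S := UU) u' < nv (S := UU) u) = nv (S := UU) u := by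
  rw [nc_natCard]
  conv_rhs => rw [nv]
  exact Nat.card_congr (Equiv.subtypeEquivRight fun t => nv_lt_iff)

private theorem dnd_univ {n : ℕ} : nc (fun _ : UU n => True) = n ^ 5 := by
  rw [nc_univ]
  simp

private theorem dnd_card {n : ℕ} : Fintype.card (SS n) = n ^ 2 := by
  rw [Fintype.card_prod, Fintype.card_fin, pow_two]

private theorem dnd_cnt {n : ℕ} (M : Net (SS n) (Fin n)) (D : Fin n → Prop) (J : ℕ) (z : SS n) :
    M.cnt D J z ≤ (n ^ 2) ^ J := by
  rcases J with _ | j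
  · rw [cnt_zero]
    exact Nat.zero_le _
  · have h := cnt_le (N := M) (D := D) (z := z) (j := j)
    rw [dnd_card] at h
    refine h.trans (Nat.pow_le_pow_right ?_ (Nat.le_succ j))
    have hn : 0 < n := Fin.pos z.1
    positivity

private theorem dnd_tot {n : ℕ} (M : Net (SS n) (Fin n)) (D : Fin n → Prop) (J : ℕ) :
    M.tot D J ≤ (n ^ 2) ^ J := by
  have h := tot_le (N := M) (D := D) (j := J)
  rwa [dnd_card] at h

private theorem dnd_nv {n : ℕ} (u : UU n) : nv (S := UU) u < n ^ 5 := nv_lt (S := UU) u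

private theorem dnd_b1 (he : EOk c d c' d' e) {n : ℕ} (M : Net (SS n) (Fin n)) (D : Fin n → Prop) (w : Fin n) (u : UU n) :
    nv (S := UU) u * M.tot D (JJ c d n) < 2 ^ (n ^ e) := by
  have hn : 0 < n := Fin.pos w
  have h1 := dnd_nv u
  have h2 := dnd_tot M D (JJ c d n)
  rcases Nat.lt_or_ge n 2 with h | h
  · have h3 : n = 1 := by omega
    subst h3
    have h4 : nv (S := UU) u = 0 := by
      rw [one_pow] at h1
      omega
    rw [h4, zero_mul]
    positivity
  · have h3 := (he.2 n h).1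
    have h5 : n ^ 5 ≤ n ^ 20 := Nat.pow_le_pow_right hn (by norm_num)
    calc nv (S := UU) u * M.tot D (JJ c d n) ≤ n ^ 20 * (n ^ 2) ^ JJ c d n := Nat.mul_le_mul (h1.le.trans h5) h2
      _ ≤ 4 * n ^ 20 * (n ^ 2) ^ JJ c d n := by
        rw [mul_assoc]
        omega
      _ < 2 ^ (n ^ e) := h3

private theorem dnd_b2 (he : EOk c d c' d' e) {n : ℕ} (M : Net (SS n) (Fin n)) (D D' : Fin n → Prop) (z : SS n) (u : UU n) :
    n ^ 5 * M.cnt D (JJ c d n) z + nv (S := UU) u * M.tot D' (JJ c d n) < 2 ^ (n ^ e) := by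
  have hn : 0 < n := Fin.pos z.1
  have h1 := dnd_nv u
  have h2 := dnd_tot M D' (JJ c d n)
  have h6 := dnd_cnt M D (JJ c d n) z
  rcases Nat.lt_or_ge n 2 with h | h
  · have h3 : n = 1 := by omega
    subst h3
    have h4 : nv (S := UU) u = 0 := by
      rw [one_pow] at h1
      omega
    rw [h4, zero_mul]
    simp only [one_pow, one_mul, pow_one, add_zero] at h6 ⊢
    omega
  · have h3 := (he.2 n h).1
    have h5 : n ^ 5 ≤ n ^ 20 := Nat.pow_le_pow_right hn (by norm_num)
    have h7 : n ^ 5 * M.cnt D (JJ c d n) z ≤ n ^ 20 * (n ^ 2) ^ JJ c d n := Nat.mul_le_mul h5 h6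
    have h8 : nv (S := UU) u * M.tot D' (JJ c d n) ≤ n ^ 20 * (n ^ 2) ^ JJ c d n := Nat.mul_le_mul (h1.le.trans h5) h2
    refine lt_of_le_of_lt ?_ h3
    rw [mul_assoc]
    omega

/-- Job DND. `nv u * a` is the sum of `a` over the `u'` with `nv u' < nv u`, `n ^ 5 * a` is the sum over all `u' : UU n`. The bounds: `cnt_le`, `tot_le`, `nv_lt`; for `n = 1` we have `nv u = 0` and `cnt ≤ 1`. -/
theorem us_def (hN : DefNet N) (he : EOk c d c' d' e) (hD : DefP (E := fun n => E n × Fin n) (fun n G X y => D n G X y.1 y.2)) :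
    DefP (E := fun n => E n × TT n) (fun n G X y => usd (N n G X) (JJ c d n) (D n G X y.1) y.2) := by
  -- the terms
  have hx : Tm (E := fun n => (E n × TT n) × Fin n) (F := E) (fun n y => y.1.1) :=
    Tm.fst (E := fun n => (E n × TT n) × Fin n) (F := E) (H := TT) (Tm.fst (F := fun n => E n × TT n) (H := fun n => Fin n) Tm.id)
  have hτ : Tm (E := fun n => (E n × TT n) × Fin n) (F := TT) (fun n y => y.1.2) :=
    Tm.snd (E := fun n => (E n × TT n) × Fin n) (F := E) (H := TT) (Tm.fst (F := fun n => E n × TT n) (H := fun n => Fin n) Tm.id)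
  have hz : Tm (E := fun n => (E n × TT n) × Fin n) (F := SS) (fun n y => y.1.2.1) :=
    Tm.fst (E := fun n => (E n × TT n) × Fin n) (F := SS) (H := UU) hτ
  have hu : Tm (E := fun n => (E n × TT n) × Fin n) (F := UU) (fun n y => y.1.2.2) :=
    Tm.snd (E := fun n => (E n × TT n) × Fin n) (F := SS) (H := UU) hτ
  -- one more variable
  have hp : Tm (E := fun n => ((E n × TT n) × Fin n) × UU n) (F := fun n => (E n × TT n) × Fin n) (fun n y => y.1) :=
    Tm.fst (F := fun n => (E n × TT n) × Fin n) (H := UU) Tm.id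
  have hq : Tm (E := fun n => ((E n × TT n) × Fin n) × UU n) (F := UU) (fun n y => y.2) :=
    Tm.snd (F := fun n => (E n × TT n) × Fin n) (H := UU) Tm.id
  have hA : DefP (E := fun n => ((E n × TT n) × Fin n) × UU n) (fun n G X y => nv (S := UU) y.2 < nv (S := UU) y.1.1.2.2) :=
    DefP.nLt (E := fun n => ((E n × TT n) × Fin n) × UU n) (F := UU) (H := UU) (f := fun n y => y.2) (g := fun n y => y.1.1.2.2) hq
      (Tm.comp (E := fun n => ((E n × TT n) × Fin n) × UU n) (F := fun n => (E n × TT n) × Fin n) (H := UU) hu hp)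
  -- numbers
  have hD1 : DefP (E := fun n => ((E n × TT n) × Fin n) × Fin n) (fun n G X y => D n G X y.1.1.1 y.2) :=
    DefP.comp (E := fun n => ((E n × TT n) × Fin n) × Fin n) (F := fun n => E n × Fin n) hD (f := fun n y => (y.1.1.1, y.2))
      (Tm.pair (E := fun n => ((E n × TT n) × Fin n) × Fin n) (F := E) (H := fun n => Fin n)
        (Tm.comp (E := fun n => ((E n × TT n) × Fin n) × Fin n) (F := fun n => (E n × TT n) × Fin n) (H := E) hx
          (Tm.fst (F := fun n => (E n × TT n) × Fin n) (H := fun n => Fin n) Tm.id))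
        (Tm.snd (F := fun n => (E n × TT n) × Fin n) (H := fun n => Fin n) Tm.id))
  have hD2 : DefP (E := fun n => ((E n × TT n) × Fin n) × Fin n) (fun n G X y => ins (D n G X y.1.1.1) y.1.2 y.2) := by
    unfold ins
    refine DefP.or hD1 (DefP.eqFin
      (Tm.snd (F := fun n => (E n × TT n) × Fin n) (H := fun n => Fin n) Tm.id)
      (Tm.snd (E := fun n => ((E n × TT n) × Fin n) × Fin n) (F := fun n => E n × TT n) (H := fun n => Fin n)
        (Tm.fst (F := fun n => (E n × TT n) × Fin n) (H := fun n => Fin n) Tm.id)))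
  have ht : DefN e (E := fun n => (E n × TT n) × Fin n) (fun n G X y => (N n G X).tot (D n G X y.1.1) (JJ c d n)) :=
    tot_def (E := fun n => (E n × TT n) × Fin n) (D := fun n G X y => D n G X y.1.1) hN hD1
  have ht' : DefN e (E := fun n => (E n × TT n) × Fin n) (fun n G X y => (N n G X).tot (ins (D n G X y.1.1) y.2) (JJ c d n)) :=
    tot_def (E := fun n => (E n × TT n) × Fin n) (D := fun n G X y => ins (D n G X y.1.1) y.2) hN hD2
  have hc : DefN e (E := fun n => (E n × TT n) × Fin n) (fun n G X y => (N n G X).cnt (D n G X y.1.1) (JJ c d n) y.1.2.1) :=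
    DefN.comp (E := fun n => (E n × TT n) × Fin n) (F := fun n => E n × SS n) (cnt_def (c := c) (d := d) (e := e) hN hD)
      (g := fun n y => (y.1.1, y.1.2.1)) (Tm.pair (E := fun n => (E n × TT n) × Fin n) (F := E) (H := SS) hx hz)
  -- sums
  have hs1 : DefN e (E := fun n => (E n × TT n) × Fin n) (fun n G X y => nv (S := UU) y.1.2.2 * (N n G X).tot (D n G X y.1.1) (JJ c d n)) := by
    have h := DefN.sm (E := fun n => (E n × TT n) × Fin n) (S := UU) (e := e)
      (A := fun n G X y u' => nv (S := UU) u' < nv (S := UU) y.1.2.2)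
      (f := fun n G X y u' => (N n G X).tot (D n G X y.1.1) (JJ c d n)) hA
      (DefN.comp (E := fun n => ((E n × TT n) × Fin n) × UU n) (F := fun n => (E n × TT n) × Fin n) ht hp)
    refine DefN.congr h fun n G X y => ?_
    rw [sm_const, dnd_nc]
  have hs2 : DefN e (E := fun n => (E n × TT n) × Fin n) (fun n G X y => nv (S := UU) y.1.2.2 * (N n G X).tot (ins (D n G X y.1.1) y.2) (JJ c d n)) := by
    have h := DefN.sm (E := fun n => (E n × TT n) × Fin n) (S := UU) (e := e)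
      (A := fun n G X y u' => nv (S := UU) u' < nv (S := UU) y.1.2.2)
      (f := fun n G X y u' => (N n G X).tot (ins (D n G X y.1.1) y.2) (JJ c d n)) hA
      (DefN.comp (E := fun n => ((E n × TT n) × Fin n) × UU n) (F := fun n => (E n × TT n) × Fin n) ht' hp)
    refine DefN.congr h fun n G X y => ?_
    rw [sm_const, dnd_nc]
  have hs3 : DefN e (E := fun n => (E n × TT n) × Fin n) (fun n G X y => n ^ 5 * (N n G X).cnt (D n G X y.1.1) (JJ c d n) y.1.2.1) := by
    have h := DefN.sm (E := fun n => (E n × TT n) × Fin n) (S := UU) (e := e)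
      (A := fun n G X y u' => True)
      (f := fun n G X y u' => (N n G X).cnt (D n G X y.1.1) (JJ c d n) y.1.2.1) DefP.true
      (DefN.comp (E := fun n => ((E n × TT n) × Fin n) × UU n) (F := fun n => (E n × TT n) × Fin n) hc hp)
    refine DefN.congr h fun n G X y => ?_
    rw [sm_const, dnd_univ]
  have hlt := DefN.lt hs1 (DefN.add he.1 hs3 hs2) (fun n G X y => dnd_b1 he (N n G X) _ y.2 y.1.2.2)
    (fun n G X y => dnd_b2 he (N n G X) _ _ y.1.2.1 y.1.2.2)
  have hst : DefP (E := fun n => E n × TT n) (fun n G X y => (N n G X).st y.2.1) :=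
    DefP.comp (E := fun n => E n × TT n) (F := SS) hN.st (f := fun n y => y.2.1)
      (Tm.fst (E := fun n => E n × TT n) (F := SS) (H := UU) (Tm.snd (F := E) (H := TT) Tm.id))
  exact DefP.and hst (DefP.allFin (E := fun n => E n × TT n) (P := fun n G X y w => nv (S := UU) y.2.2 * (N n G X).tot (D n G X y.1) (JJ c d n) <
    n ^ 5 * (N n G X).cnt (D n G X y.1) (JJ c d n) y.2.1 + nv (S := UU) y.2.2 * (N n G X).tot (ins (D n G X y.1) w) (JJ c d n)) hlt)

private theorem dne_cnt {S V : Type} [Fintype S] (N : Net S V) (D : V → Prop) (J : ℕ) (z : S) :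
    N.cnt D J z ≤ Fintype.card S ^ J := by
  cases J with
  | zero => rw [cnt_zero]; exact Nat.zero_le _
  | succ j =>
    have h1 : 0 < Fintype.card S := Fintype.card_pos_iff.2 ⟨z⟩
    exact cnt_le.trans (Nat.pow_le_pow_right h1 (Nat.le_succ j))

private theorem dne_b (he : EOk c d c' d' e) {n : ℕ} (N : Net (SS n) (Fin n)) (D : Fin n → Prop)
    (A : TT n × SS n → Prop) (τ : TT n) (y z : SS n) :
    nc (fun τ' : TT n => A (τ', y)) * N.pre (N.cnt D (JJ c d n)) (nv (S := SS)) y z < 2 ^ (n ^ e) ∧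
    nc (fun τ' : TT n => A (τ', y) ∧ nv (S := TT) τ' < nv (S := TT) τ) * N.cnt D (JJ c d n) y < 2 ^ (n ^ e) ∧
    nc (fun τ' : TT n => A (τ', y)) * (N.pre (N.cnt D (JJ c d n)) (nv (S := SS)) y z + N.cnt D (JJ c d n) z) < 2 ^ (n ^ e) := by
  have hT : Fintype.card (TT n) = n ^ 7 := by
    simp only [Fintype.card_prod, Fintype.card_fin, Fintype.card_pi, Finset.prod_const,
      Finset.card_univ]
    ring
  have hS : Fintype.card (SS n) = n ^ 2 := by
    simp only [Fintype.card_prod, Fintype.card_fin]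
    ring
  have h0 : 0 < n := y.1.pos
  have hc : ∀ z, N.cnt D (JJ c d n) z ≤ (n ^ 2) ^ JJ c d n := fun z => by
    have := dne_cnt N D (JJ c d n) z
    rwa [hS] at this
  have hp : N.pre (N.cnt D (JJ c d n)) (nv (S := SS)) y z ≤ n ^ 2 * (n ^ 2) ^ JJ c d n := by
    unfold Net.pre
    refine (sm_le_const (k := (n ^ 2) ^ JJ c d n) (fun a _ => hc a)).trans ?_
    refine Nat.mul_le_mul_right _ ?_
    have := nc_le (P := fun z' : SS n => N.mv y z' ∧ nv (S := SS) z' < nv (S := SS) z)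
    rwa [hS] at this
  have hn1 : nc (fun τ' : TT n => A (τ', y)) ≤ n ^ 7 := by
    have := nc_le (P := fun τ' : TT n => A (τ', y))
    rwa [hT] at this
  have hn2 : nc (fun τ' : TT n => A (τ', y) ∧ nv (S := TT) τ' < nv (S := TT) τ) ≤ n ^ 7 := by
    have := nc_le (P := fun τ' : TT n => A (τ', y) ∧ nv (S := TT) τ' < nv (S := TT) τ)
    rwa [hT] at this
  rcases Nat.lt_or_ge n 2 with h2 | h2
  · have h1 : n = 1 := by omega
    subst h1
    have hp0 : N.pre (N.cnt D (JJ c d 1)) (nv (S := SS)) y z = 0 := by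
      unfold Net.pre
      refine sm_none fun a ha => ?_
      have h3 := nv_lt (S := SS) (n := 1) z
      rw [one_pow] at h3
      have h4 := ha.2
      omega
    have hr0 : nc (fun τ' : TT 1 => A (τ', y) ∧ nv (S := TT) τ' < nv (S := TT) τ) = 0 := by
      refine nc_zero fun a ha => ?_
      have h3 := nv_lt (S := TT) (n := 1) τ
      rw [one_pow] at h3
      have h4 := ha.2
      omega
    have hcz := hc z
    simp only [one_pow] at hcz hn1 ⊢
    rw [hp0, hr0]
    refine ⟨by simp, by simp, ?_⟩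
    rw [zero_add]
    calc nc (fun τ' : TT 1 => A (τ', y)) * N.cnt D (JJ c d 1) z ≤ 1 * 1 := Nat.mul_le_mul hn1 hcz
      _ < 2 ^ 1 := by norm_num
  · have hb := (he.2 n h2).1
    set X := (n ^ 2) ^ JJ c d n with hX
    have key : n ^ 7 * (n ^ 2 * X + X) ≤ 4 * n ^ 20 * X := by
      have h3 : n ^ 7 * (n ^ 2 * X + X) = (n ^ 9 + n ^ 7) * X := by ring
      rw [h3]
      refine Nat.mul_le_mul_right _ ?_
      have h4 : n ^ 9 ≤ n ^ 20 := Nat.pow_le_pow_right h0 (by norm_num)
      have h5 : n ^ 7 ≤ n ^ 20 := Nat.pow_le_pow_right h0 (by norm_num)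
      omega
    refine ⟨?_, ?_, ?_⟩
    · refine lt_of_le_of_lt ?_ (lt_of_le_of_lt key hb)
      exact Nat.mul_le_mul hn1 (hp.trans (Nat.le_add_right _ _))
    · refine lt_of_le_of_lt ?_ (lt_of_le_of_lt key hb)
      exact Nat.mul_le_mul hn2 ((hc y).trans (Nat.le_add_left _ _))
    · refine lt_of_le_of_lt ?_ (lt_of_le_of_lt key hb)
      exact Nat.mul_le_mul hn1 (Nat.add_le_add hp (hc z))

/-- Job DNE. The choice of the next state, for a definable relation `A`. The products are sums: `pre * num` = the sum of `pre` over the tokens `τ'` with `A (τ', y)`, and so on. The bounds: `n ^ 7` tokens, `n ^ 2` states, `cnt ≤ (n ^ 2) ^ J`; for `n = 1`: `pre = 0`, `rnk = 0`, `num ≤ 1`, `cnt ≤ 1`. -/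
theorem chs_def (hN : DefNet N) (he : EOk c d c' d' e) (hD : DefP (E := fun n => E n × Fin n) (fun n G X y => D n G X y.1 y.2))
    {A : ∀ n : ℕ, SimpleGraph (Fin n) → Ctx n → E n → TT n × SS n → Prop} (hA : DefP (E := fun n => E n × (TT n × SS n)) (fun n G X y => A n G X y.1 y.2)) :
    DefP (E := fun n => E n × (TT n × (SS n × SS n))) (fun n G X y =>
      (N n G X).chs ((N n G X).cnt (D n G X y.1) (JJ c d n)) (nv (S := SS)) (nv (S := TT)) (A n G X y.1) y.2.1 y.2.2.1 y.2.2.2) := by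
  have hc := cnt_def (c := c) (d := d) (e := e) hN hD
  have t1 : Tm (E := fun n => E n × (TT n × (SS n × SS n))) (F := E) (fun n y => y.1) := Tm.fst Tm.id
  have t2 : Tm (E := fun n => E n × (TT n × (SS n × SS n))) (F := TT) (fun n y => y.2.1) :=
    Tm.fst (F := TT) (H := fun n => SS n × SS n) (Tm.snd Tm.id)
  have t3 : Tm (E := fun n => E n × (TT n × (SS n × SS n))) (F := SS) (fun n y => y.2.2.1) :=
    Tm.fst (F := SS) (H := SS) (Tm.snd (F := TT) (H := fun n => SS n × SS n) (Tm.snd Tm.id))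
  have t4 : Tm (E := fun n => E n × (TT n × (SS n × SS n))) (F := SS) (fun n y => y.2.2.2) :=
    Tm.snd (F := SS) (H := SS) (Tm.snd (F := TT) (H := fun n => SS n × SS n) (Tm.snd Tm.id))
  have u1 : Tm (E := fun n => (E n × (TT n × (SS n × SS n))) × SS n)
      (F := fun n => E n × (TT n × (SS n × SS n))) (fun n y => y.1) := Tm.fst Tm.id
  have u2 : Tm (E := fun n => (E n × (TT n × (SS n × SS n))) × SS n) (F := SS) (fun n y => y.2) :=
    Tm.snd Tm.id
  have v1 : Tm (E := fun n => (E n × (TT n × (SS n × SS n))) × TT n)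
      (F := fun n => E n × (TT n × (SS n × SS n))) (fun n y => y.1) := Tm.fst Tm.id
  have v2 : Tm (E := fun n => (E n × (TT n × (SS n × SS n))) × TT n) (F := TT) (fun n y => y.2) :=
    Tm.snd Tm.id
  have hpre : DefN e (E := fun n => E n × (TT n × (SS n × SS n))) (fun n G X y =>
      (N n G X).pre ((N n G X).cnt (D n G X y.1) (JJ c d n)) (nv (S := SS)) y.2.2.1 y.2.2.2) := by
    unfold Net.pre
    refine DefN.sm (S := SS) (A := fun n G X (y : E n × (TT n × (SS n × SS n))) z' =>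
        (N n G X).mv y.2.2.1 z' ∧ nv (S := SS) z' < nv (S := SS) y.2.2.2)
      (f := fun n G X y z' => (N n G X).cnt (D n G X y.1) (JJ c d n) z') ?_ ?_
    · exact DefP.and (DefP.app2 (P := fun n G X a b => (N n G X).mv a b) hN.mv (Tm.comp (F := fun n => E n × (TT n × (SS n × SS n))) (H := SS) t3 u1) u2)
        (DefP.nLt u2 (Tm.comp (F := fun n => E n × (TT n × (SS n × SS n))) (H := SS) t4 u1))
    · exact DefN.comp hc (Tm.pair (F := E) (H := SS) (Tm.comp (F := fun n => E n × (TT n × (SS n × SS n))) (H := E) t1 u1) u2)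
  have hcy : DefN e (E := fun n => E n × (TT n × (SS n × SS n))) (fun n G X y =>
      (N n G X).cnt (D n G X y.1) (JJ c d n) y.2.2.1) := DefN.comp hc (Tm.pair t1 t3)
  have hcz : DefN e (E := fun n => E n × (TT n × (SS n × SS n))) (fun n G X y =>
      (N n G X).cnt (D n G X y.1) (JJ c d n) y.2.2.2) := DefN.comp hc (Tm.pair t1 t4)
  have hA1 : DefP (E := fun n => (E n × (TT n × (SS n × SS n))) × TT n) (fun n G X y =>
      A n G X y.1.1 (y.2, y.1.2.2.1)) :=
    DefP.app2 (P := fun n G X a b => A n G X a b) hA (Tm.comp (F := fun n => E n × (TT n × (SS n × SS n))) (H := E) t1 v1)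
      (Tm.pair (F := TT) (H := SS) v2 (Tm.comp (F := fun n => E n × (TT n × (SS n × SS n))) (H := SS) t3 v1))
  have hA2 : DefP (E := fun n => (E n × (TT n × (SS n × SS n))) × TT n) (fun n G X y =>
      A n G X y.1.1 (y.2, y.1.2.2.1) ∧ nv (S := TT) y.2 < nv (S := TT) y.1.2.1) :=
    DefP.and hA1 (DefP.nLt v2 (Tm.comp (F := fun n => E n × (TT n × (SS n × SS n))) (H := TT) t2 v1))
  have hP1 := DefN.sm (S := TT) (A := fun n G X (y : E n × (TT n × (SS n × SS n))) τ' =>
      A n G X y.1 (τ', y.2.2.1)) (f := fun n G X y _ =>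
      (N n G X).pre ((N n G X).cnt (D n G X y.1) (JJ c d n)) (nv (S := SS)) y.2.2.1 y.2.2.2)
      hA1 (DefN.comp hpre v1)
  have hP2 := DefN.sm (S := TT) (A := fun n G X (y : E n × (TT n × (SS n × SS n))) τ' =>
      A n G X y.1 (τ', y.2.2.1) ∧ nv (S := TT) τ' < nv (S := TT) y.2.1) (f := fun n G X y _ =>
      (N n G X).cnt (D n G X y.1) (JJ c d n) y.2.2.1)
      hA2 (DefN.comp hcy v1)
  have hP3 := DefN.sm (S := TT) (A := fun n G X (y : E n × (TT n × (SS n × SS n))) τ' =>
      A n G X y.1 (τ', y.2.2.1)) (f := fun n G X y _ =>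
      (N n G X).pre ((N n G X).cnt (D n G X y.1) (JJ c d n)) (nv (S := SS)) y.2.2.1 y.2.2.2 +
        (N n G X).cnt (D n G X y.1) (JJ c d n) y.2.2.2)
      hA1 (DefN.comp (DefN.add he.1 hpre hcz) v1)
  simp only [sm_const] at hP1 hP2 hP3
  refine DefP.congr (P := fun n G X y => (N n G X).mv y.2.2.1 y.2.2.2 ∧
      nc (fun τ' : TT n => A n G X y.1 (τ', y.2.2.1)) *
        (N n G X).pre ((N n G X).cnt (D n G X y.1) (JJ c d n)) (nv (S := SS)) y.2.2.1 y.2.2.2 ≤
      nc (fun τ' : TT n => A n G X y.1 (τ', y.2.2.1) ∧ nv (S := TT) τ' < nv (S := TT) y.2.1) *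
        (N n G X).cnt (D n G X y.1) (JJ c d n) y.2.2.1 ∧
      nc (fun τ' : TT n => A n G X y.1 (τ', y.2.2.1) ∧ nv (S := TT) τ' < nv (S := TT) y.2.1) *
        (N n G X).cnt (D n G X y.1) (JJ c d n) y.2.2.1 <
      nc (fun τ' : TT n => A n G X y.1 (τ', y.2.2.1)) *
        ((N n G X).pre ((N n G X).cnt (D n G X y.1) (JJ c d n)) (nv (S := SS)) y.2.2.1 y.2.2.2 +
          (N n G X).cnt (D n G X y.1) (JJ c d n) y.2.2.2)) ?_ ?_
  · refine DefP.and (DefP.app2 (P := fun n G X a b => (N n G X).mv a b) hN.mv t3 t4)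
      (DefP.and (DefN.le hP1 hP2 ?_ ?_) (DefN.lt hP2 hP3 ?_ ?_))
    · intro n G X y
      exact (dne_b he (N n G X) (D n G X y.1) (A n G X y.1) y.2.1 y.2.2.1 y.2.2.2).1
    · intro n G X y
      exact (dne_b he (N n G X) (D n G X y.1) (A n G X y.1) y.2.1 y.2.2.1 y.2.2.2).2.1
    · intro n G X y
      exact (dne_b he (N n G X) (D n G X y.1) (A n G X y.1) y.2.1 y.2.2.1 y.2.2.2).2.1
    · intro n G X y
      exact (dne_b he (N n G X) (D n G X y.1) (A n G X y.1) y.2.1 y.2.2.1 y.2.2.2).2.2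
  · intro n G X y
    unfold Net.chs num rnk
    rw [mul_comm (nc (fun τ' : TT n => A n G X y.1 (τ', y.2.2.1))) (Net.pre _ _ _ _ _),
      mul_comm (nc (fun τ' : TT n => A n G X y.1 (τ', y.2.2.1))) (Net.pre _ _ _ _ _ + _)]

/-- Job DNE. (`iterX'`, `us_def`, `chs_def` for `hN.pop`, `hD.pop` and the relation `rv X 0`.) -/
theorem vt_def (hN : DefNet N) (he : EOk c d c' d' e) (hD : DefP (E := fun n => E n × Fin n) (fun n G X y => D n G X y.1 y.2)) :
    DefP (E := fun n => E n × (TT n × SS n)) (fun n G X y => vtt (N n G X) (JJ c d n) (D n G X y.1) y.2) := by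
  have hNp := hN.pop
  have hDp := hD.pop
  have hus := us_def (c := c) (d := d) hNp he hDp
  have hch := chs_def (c := c) (d := d) hNp he hDp
    (A := fun n G X x s => PMNC.rv (S := fun n => TT n × SS n) X 0 s)
    (DefP.rv (S := fun n => TT n × SS n) 0 (Tm.snd Tm.id))
  have t1 : Tm (E := fun n => E n × (TT n × SS n)) (F := E) (fun n y => y.1) := Tm.fst Tm.id
  have t2 : Tm (E := fun n => E n × (TT n × SS n)) (F := TT) (fun n y => y.2.1) :=
    Tm.fst (F := TT) (H := SS) (Tm.snd Tm.id)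
  have t3 : Tm (E := fun n => E n × (TT n × SS n)) (F := SS) (fun n y => y.2.2) :=
    Tm.snd (F := TT) (H := SS) (Tm.snd Tm.id)
  have t4 : Tm (E := fun n => E n × (TT n × SS n)) (F := SS) (fun n y => y.2.1.1) :=
    Tm.fst (F := SS) (H := UU) t2
  have v1 : Tm (E := fun n => (E n × (TT n × SS n)) × SS n)
      (F := fun n => E n × (TT n × SS n)) (fun n y => y.1) := Tm.fst Tm.id
  have v2 : Tm (E := fun n => (E n × (TT n × SS n)) × SS n) (F := SS) (fun n y => y.2) :=
    Tm.snd Tm.id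
  refine iterX' (S := fun n => TT n × SS n) c d (I := fun n G X x p => False)
    (Φ := fun n G X x R p => (N n G X).phi ((N n G X).cnt (D n G X x) (JJ c d n)) (nv (S := SS))
      (nv (S := TT)) ((N n G X).us (JJ c d n) (nv (S := UU)) (n ^ 5) (D n G X x)) (fun τ => τ.1) R p)
    (DefP.const _) ?_
  refine DefP.or (DefP.and ?_ ?_) (DefP.ex (F := SS) (DefP.and ?_ (DefP.and ?_ ?_)))
  · exact DefP.comp hus (Tm.pair t1 t2)
  · exact DefP.eq t4 t3
  · exact DefP.rv (S := fun n => TT n × SS n) 0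
      (Tm.pair (F := TT) (H := SS) (Tm.comp (F := fun n => E n × (TT n × SS n)) (H := TT) t2 v1) v2)
  · exact DefP.not (DefP.comp hNp.tm v2)
  · exact DefP.comp hch (Tm.pair (Tm.comp (F := fun n => E n × (TT n × SS n)) (H := E) t1 v1)
      (Tm.pair (F := TT) (H := fun n => SS n × SS n)
        (Tm.comp (F := fun n => E n × (TT n × SS n)) (H := TT) t2 v1)
      (Tm.pair (F := SS) (H := SS) v2
        (Tm.comp (F := fun n => E n × (TT n × SS n)) (H := SS) t3 v1))))

end

section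

variable {E F H K : ℕ → Type} [Env E] [Env F] [Env H] [Env K]

/-- Job DNF. The number of pairs `(x, y)` with `nv x < nv (f x)`, `nv y < nv (g x)`. (`DefP.cardEq`.) -/
theorem _root_.Pool.Agent.PMNC.DefP.nMul {f : ∀ n : ℕ, E n → F n} {g : ∀ n : ℕ, E n → H n} {h : ∀ n : ℕ, E n → K n} (hf : Tm f) (hg : Tm g) (hh : Tm h) :
    DefP (fun n G X x => nv (f n x) * nv (g n x) = nv (h n x)) := by
  have key : DefP (E := fun n => F n × (H n × K n))
      (fun n G X x => nv x.1 * nv x.2.1 = nv x.2.2) := by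
    refine DefP.congr (P := fun n G X x =>
      Nat.card {t : F n × H n // key t.1 < key x.1 ∧ key t.2 < key x.2.1} =
        Nat.card {t : K n // key t < key x.2.2}) ?_ ?_
    · refine DefP.cardEq (S := fun n => F n × H n) (T := K)
        (A := fun n G X (x : F n × (H n × K n)) (t : F n × H n) => key t.1 < key x.1 ∧ key t.2 < key x.2.1)
        (B := fun n G X (x : F n × (H n × K n)) (t : K n) => key t < key x.2.2) ?_ ?_
      all_goals (repeat' (first
        | apply DefP.keyLt | exact Tm.id | exact Tm.unit | apply Tm.fst | apply Tm.snd | apply DefP.and))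
    · intro n G X x
      have h1 : Nat.card {t : F n × H n // key t.1 < key x.1 ∧ key t.2 < key x.2.1} = nv x.1 * nv x.2.1 := by
        rw [Nat.card_congr (Equiv.subtypeProdEquivProd (p := fun t : F n => key t < key x.1)
          (q := fun t : H n => key t < key x.2.1)), Nat.card_prod]
        rfl
      rw [h1]
      exact Iff.rfl
  exact DefP.app3 (P := fun n G X a b c => nv a * nv b = nv c) key hf hg hh

/-- auxiliary numbers -/
private abbrev dnfZ (n : ℕ) : Type := Fin 22 → Fin n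

private theorem dnf_arith {n q a b m x k : ℕ} (ha : a < n ^ 11) (hb : b < n ^ 11) (hm : m < n ^ 11) (hx : x < n ^ 7)
    (h1 : k * q ≤ a * x + b) (h2 : a * x + b < k * q + m) :
    ∃ k' ax s kq t : dnfZ n, a * x = nv (S := dnfZ) ax ∧ nv (S := dnfZ) ax + b = nv (S := dnfZ) s ∧
      nv (S := dnfZ) k' * q = nv (S := dnfZ) kq ∧ nv (S := dnfZ) kq + m = nv (S := dnfZ) t ∧
      nv (S := dnfZ) kq ≤ nv (S := dnfZ) s ∧ nv (S := dnfZ) s < nv (S := dnfZ) t := by
  have hs : ∀ w : ℕ, w < n ^ 22 → ∃ s : dnfZ n, nv (S := dnfZ) s = w := fun w hw => nv_surj (S := dnfZ) hw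
  have hn : 2 ≤ n := by
    by_contra h
    have h3 : n = 0 ∨ n = 1 := by omega
    rcases h3 with rfl | rfl
    · exact absurd ha (by norm_num)
    · have h4 : m = 0 := by rw [one_pow] at hm; omega
      omega
  have hax : a * x < n ^ 18 := by
    calc a * x < n ^ 11 * n ^ 7 := Nat.mul_lt_mul'' ha hx
      _ = n ^ 18 := by ring
  have hp : ∀ i j : ℕ, i ≤ j → n ^ i ≤ n ^ j := fun i j h => Nat.pow_le_pow_right (by omega) h
  have h11 := hp 11 18 (by norm_num)
  have h19 : 2 * n ^ 18 ≤ n ^ 19 := by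
    calc 2 * n ^ 18 ≤ n * n ^ 18 := Nat.mul_le_mul_right _ hn
      _ = n ^ 19 := by ring
  have h20 : 2 * n ^ 19 ≤ n ^ 20 := by
    calc 2 * n ^ 19 ≤ n * n ^ 19 := Nat.mul_le_mul_right _ hn
      _ = n ^ 20 := by ring
  have h22 := hp 20 22 (by norm_num)
  have h1819 := hp 18 19 (by norm_num)
  have h1920 := hp 19 20 (by norm_num)
  obtain ⟨ax, hax'⟩ := hs (a * x) (by omega)
  obtain ⟨s, hs'⟩ := hs (a * x + b) (by omega)
  obtain ⟨kq, hkq⟩ := hs (k * q) (by omega)
  obtain ⟨t, ht⟩ := hs (k * q + m) (by omega)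
  rcases Nat.eq_zero_or_pos q with hq | hq
  · obtain ⟨k', hk'⟩ := hs 0 (by omega)
    refine ⟨k', ax, s, kq, t, hax'.symm, ?_, ?_, ?_, ?_, ?_⟩
    · rw [hax', hs']
    · rw [hk', hkq, hq, mul_zero, mul_zero]
    · rw [hkq, ht]
    · rw [hkq, hs']
      exact h1
    · rw [hs', ht]
      exact h2
  · have hk : k ≤ k * q := Nat.le_mul_of_pos_right _ hq
    obtain ⟨k', hk'⟩ := hs k (by omega)
    refine ⟨k', ax, s, kq, t, hax'.symm, ?_, ?_, ?_, ?_, ?_⟩
    · rw [hax', hs']
    · rw [hk', hkq]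
    · rw [hkq, ht]
    · rw [hkq, hs']
      exact h1
    · rw [hs', ht]
      exact h2

/-- Job DNF. With auxiliary numbers in `Fin 22 → Fin n` (`a * x < n ^ 18`, `a * x + b < n ^ 19`, `k * q ≤ a * x + b`, `k * q + m < n ^ 20` for `2 ≤ n`; `k` is a number in this type; if `q = 0` one may take `k = 0`; for `n = 1` all numbers are 0 and the condition is false). -/
theorem hs_def : DefP (E := fun n => (HH n × (HH n × (HH n × HH n))) × TT n) (fun n G X y => hs y.1 y.2) := by
  refine DefP.congr (P := fun n G X y => ∃ k ax s kq t : dnfZ n,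
    nv (S := HH) y.1.2.1 * nv (S := TT) y.2 = nv (S := dnfZ) ax ∧ nv (S := dnfZ) ax + nv (S := HH) y.1.2.2.1 = nv (S := dnfZ) s ∧
    nv (S := dnfZ) k * nv (S := HH) y.1.1 = nv (S := dnfZ) kq ∧ nv (S := dnfZ) kq + nv (S := HH) y.1.2.2.2 = nv (S := dnfZ) t ∧
    nv (S := dnfZ) kq ≤ nv (S := dnfZ) s ∧ nv (S := dnfZ) s < nv (S := dnfZ) t) ?_ ?_
  · refine DefP.ex (DefP.ex (DefP.ex (DefP.ex (DefP.ex (DefP.and ?_ (DefP.and ?_
      (DefP.and ?_ (DefP.and ?_ (DefP.and ?_ ?_)))))))))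
    · exact DefP.nMul (F := HH) (H := TT) (K := dnfZ) (Tm.fst (Tm.snd (Tm.fst (Tm.fst (Tm.fst (Tm.fst (Tm.fst (Tm.fst Tm.id)))))))) (Tm.snd (Tm.fst (Tm.fst (Tm.fst (Tm.fst (Tm.fst Tm.id)))))) (Tm.snd (Tm.fst (Tm.fst (Tm.fst Tm.id))))
    · exact DefP.nAdd (F := dnfZ) (H := HH) (K := dnfZ) (Tm.snd (Tm.fst (Tm.fst (Tm.fst Tm.id)))) (Tm.fst (Tm.snd (Tm.snd (Tm.fst (Tm.fst (Tm.fst (Tm.fst (Tm.fst (Tm.fst Tm.id))))))))) (Tm.snd (Tm.fst (Tm.fst Tm.id)))
    · exact DefP.nMul (F := dnfZ) (H := HH) (K := dnfZ) (Tm.snd (Tm.fst (Tm.fst (Tm.fst (Tm.fst Tm.id))))) (Tm.fst (Tm.fst (Tm.fst (Tm.fst (Tm.fst (Tm.fst (Tm.fst Tm.id))))))) (Tm.snd (Tm.fst Tm.id))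
    · exact DefP.nAdd (F := dnfZ) (H := HH) (K := dnfZ) (Tm.snd (Tm.fst Tm.id)) (Tm.snd (Tm.snd (Tm.snd (Tm.fst (Tm.fst (Tm.fst (Tm.fst (Tm.fst (Tm.fst Tm.id))))))))) (Tm.snd Tm.id)
    · exact DefP.nLe (F := dnfZ) (H := dnfZ) (Tm.snd (Tm.fst Tm.id)) (Tm.snd (Tm.fst (Tm.fst Tm.id)))
    · exact DefP.nLt (F := dnfZ) (H := dnfZ) (Tm.snd (Tm.fst (Tm.fst Tm.id))) (Tm.snd Tm.id)
  · intro n G X y
    constructor
    · rintro ⟨k, ax, s, kq, t, h1, h2, h3, h4, h5, h6⟩
      refine ⟨nv (S := dnfZ) k, ?_, ?_⟩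
      · rw [h3, h1, h2]
        exact h5
      · rw [h1, h2, h3, h4]
        exact h6
    · rintro ⟨k, h1, h2⟩
      have ha : nv (S := HH) y.1.2.1 < n ^ 11 := nv_lt (S := HH) _
      have hb : nv (S := HH) y.1.2.2.1 < n ^ 11 := nv_lt (S := HH) _
      have hm : nv (S := HH) y.1.2.2.2 < n ^ 11 := nv_lt (S := HH) _
      have hx : nv (S := TT) y.2 < n ^ 7 := nv_lt (S := TT) _
      exact dnf_arith ha hb hm hx h1 h2

end

section

variable {N : ∀ n : ℕ, SimpleGraph (Fin n) → Ctx n → Net (SS n) (Fin n)} {c d c' d' e : ℕ}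

private theorem dng_D (hN : DefNet N) (he : EOk c d c' d' e) :
    DefP (E := fun n => PP e n × Fin n) (fun n G X y => DL (N n G X) (JJ c d n) (JJ c' d' n) e (y.1.1, y.2)) :=
  (DL_def hN he).comp (E := fun n => PP e n × Fin n) (F := fun n => QQ e n × Fin n) (f := fun n y => (y.1.1, y.2))
    (Tm.pair (F := QQ e) (H := fun n => Fin n)
      (Tm.fst (F := QQ e) (H := fun n => HH n × (HH n × (HH n × HH n))) (Tm.fst (F := PP e) (H := fun n => Fin n) Tm.id))
      (Tm.snd (F := PP e) (H := fun n => Fin n) Tm.id))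

private theorem dng_us (hN : DefNet N) (he : EOk c d c' d' e) :
    DefP (E := fun n => PP e n × TT n) (fun n G X y => usd (N n G X) (JJ c d n) (fun v => DL (N n G X) (JJ c d n) (JJ c' d' n) e (y.1.1, v)) y.2) :=
  us_def (E := PP e) (D := fun n G X p v => DL (N n G X) (JJ c d n) (JJ c' d' n) e (p.1, v)) hN he (dng_D hN he)

private theorem dng_vt (hN : DefNet N) (he : EOk c d c' d' e) :
    DefP (E := fun n => PP e n × (TT n × SS n)) (fun n G X y => vtt (N n G X) (JJ c d n) (fun v => DL (N n G X) (JJ c d n) (JJ c' d' n) e (y.1.1, v)) y.2) :=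
  vt_def (E := PP e) (D := fun n G X p v => DL (N n G X) (JJ c d n) (JJ c' d' n) e (p.1, v)) hN he (dng_D hN he)

private theorem dng_hs : DefP (E := fun n => PP e n × TT n) (fun n G X y => hs y.1.2 y.2) :=
  hs_def.comp (E := fun n => PP e n × TT n) (F := fun n => (HH n × (HH n × (HH n × HH n))) × TT n) (f := fun n y => (y.1.2, y.2))
    (Tm.pair (F := fun n => HH n × (HH n × (HH n × HH n))) (H := TT)
      (Tm.snd (F := QQ e) (H := fun n => HH n × (HH n × (HH n × HH n))) (Tm.fst (F := PP e) (H := TT) Tm.id))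
      (Tm.snd (F := PP e) (H := TT) Tm.id))

private theorem dng_cnf (hN : DefNet N) (he : EOk c d c' d' e) :
    DefP (E := fun n => PP e n × (TT n × TT n)) (fun n G X y => cnf (N n G X) (vtt (N n G X) (JJ c d n) (fun v => DL (N n G X) (JJ c d n) (JJ c' d' n) e (y.1.1, v))) y.2.1 y.2.2) := by
  have hid : Tm (E := fun n => (((PP e n × (TT n × TT n)) × SS n) × SS n) × Fin n) (F := fun n => (((PP e n × (TT n × TT n)) × SS n) × SS n) × Fin n) (fun n y => y) := Tm.id
  have h1 : Tm (E := fun n => (((PP e n × (TT n × TT n)) × SS n) × SS n) × Fin n) (F := fun n => ((PP e n × (TT n × TT n)) × SS n) × SS n) (fun n y => y.1) :=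
    Tm.fst (F := fun n => ((PP e n × (TT n × TT n)) × SS n) × SS n) (H := fun n => Fin n) hid
  have hv : Tm (E := fun n => (((PP e n × (TT n × TT n)) × SS n) × SS n) × Fin n) (F := fun n => Fin n) (fun n y => y.2) :=
    Tm.snd (F := fun n => ((PP e n × (TT n × TT n)) × SS n) × SS n) (H := fun n => Fin n) hid
  have h2 : Tm (E := fun n => (((PP e n × (TT n × TT n)) × SS n) × SS n) × Fin n) (F := fun n => (PP e n × (TT n × TT n)) × SS n) (fun n y => y.1.1) :=
    Tm.fst (F := fun n => (PP e n × (TT n × TT n)) × SS n) (H := SS) h1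
  have hz' : Tm (E := fun n => (((PP e n × (TT n × TT n)) × SS n) × SS n) × Fin n) (F := SS) (fun n y => y.1.2) :=
    Tm.snd (F := fun n => (PP e n × (TT n × TT n)) × SS n) (H := SS) h1
  have h3 : Tm (E := fun n => (((PP e n × (TT n × TT n)) × SS n) × SS n) × Fin n) (F := fun n => PP e n × (TT n × TT n)) (fun n y => y.1.1.1) :=
    Tm.fst (F := fun n => PP e n × (TT n × TT n)) (H := SS) h2
  have hz : Tm (E := fun n => (((PP e n × (TT n × TT n)) × SS n) × SS n) × Fin n) (F := SS) (fun n y => y.1.1.2) :=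
    Tm.snd (F := fun n => PP e n × (TT n × TT n)) (H := SS) h2
  have hp : Tm (E := fun n => (((PP e n × (TT n × TT n)) × SS n) × SS n) × Fin n) (F := PP e) (fun n y => y.1.1.1.1) :=
    Tm.fst (F := PP e) (H := fun n => TT n × TT n) h3
  have h4 : Tm (E := fun n => (((PP e n × (TT n × TT n)) × SS n) × SS n) × Fin n) (F := fun n => TT n × TT n) (fun n y => y.1.1.1.2) :=
    Tm.snd (F := PP e) (H := fun n => TT n × TT n) h3
  have ht : Tm (E := fun n => (((PP e n × (TT n × TT n)) × SS n) × SS n) × Fin n) (F := TT) (fun n y => y.1.1.1.2.1) :=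
    Tm.fst (F := TT) (H := TT) h4
  have ht' : Tm (E := fun n => (((PP e n × (TT n × TT n)) × SS n) × SS n) × Fin n) (F := TT) (fun n y => y.1.1.1.2.2) :=
    Tm.snd (F := TT) (H := TT) h4
  have a1 := (dng_vt hN he).comp (E := fun n => (((PP e n × (TT n × TT n)) × SS n) × SS n) × Fin n) (F := fun n => PP e n × (TT n × SS n))
    (f := fun n y => (y.1.1.1.1, (y.1.1.1.2.1, y.1.1.2))) (Tm.pair (F := PP e) (H := fun n => TT n × SS n) hp (Tm.pair (F := TT) (H := SS) ht hz))
  have a2 := (dng_vt hN he).comp (E := fun n => (((PP e n × (TT n × TT n)) × SS n) × SS n) × Fin n) (F := fun n => PP e n × (TT n × SS n))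
    (f := fun n y => (y.1.1.1.1, (y.1.1.1.2.2, y.1.2))) (Tm.pair (F := PP e) (H := fun n => TT n × SS n) hp (Tm.pair (F := TT) (H := SS) ht' hz'))
  have a3 := hN.oc.comp (E := fun n => (((PP e n × (TT n × TT n)) × SS n) × SS n) × Fin n) (F := fun n => SS n × Fin n)
    (f := fun n y => (y.1.1.2, y.2)) (Tm.pair (F := SS) (H := fun n => Fin n) hz hv)
  have a4 := hN.oc.comp (E := fun n => (((PP e n × (TT n × TT n)) × SS n) × SS n) × Fin n) (F := fun n => SS n × Fin n)
    (f := fun n y => (y.1.2, y.2)) (Tm.pair (F := SS) (H := fun n => Fin n) hz' hv)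
  exact DefP.ex (F := SS) (P := fun n G X (y : PP e n × (TT n × TT n)) z => ∃ (z' : SS n) (v : Fin n),
      vtt (N n G X) (JJ c d n) (fun v => DL (N n G X) (JJ c d n) (JJ c' d' n) e (y.1.1, v)) (y.2.1, z) ∧
      vtt (N n G X) (JJ c d n) (fun v => DL (N n G X) (JJ c d n) (JJ c' d' n) e (y.1.1, v)) (y.2.2, z') ∧ (N n G X).oc z v ∧ (N n G X).oc z' v)
    (DefP.ex (F := SS) (P := fun n G X (y : (PP e n × (TT n × TT n)) × SS n) z' => ∃ (v : Fin n),
      vtt (N n G X) (JJ c d n) (fun v => DL (N n G X) (JJ c d n) (JJ c' d' n) e (y.1.1.1, v)) (y.1.2.1, y.2) ∧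
      vtt (N n G X) (JJ c d n) (fun v => DL (N n G X) (JJ c d n) (JJ c' d' n) e (y.1.1.1, v)) (y.1.2.2, z') ∧ (N n G X).oc y.2 v ∧ (N n G X).oc z' v)
      (DefP.ex (F := fun n => Fin n) (P := fun n G X (y : ((PP e n × (TT n × TT n)) × SS n) × SS n) v =>
      vtt (N n G X) (JJ c d n) (fun v => DL (N n G X) (JJ c d n) (JJ c' d' n) e (y.1.1.1.1, v)) (y.1.1.2.1, y.1.2) ∧
      vtt (N n G X) (JJ c d n) (fun v => DL (N n G X) (JJ c d n) (JJ c' d' n) e (y.1.1.1.1, v)) (y.1.1.2.2, y.2) ∧ (N n G X).oc y.1.2 v ∧ (N n G X).oc y.2 v)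
        (DefP.and a1 (DefP.and a2 (DefP.and a3 a4)))))

/-- Job DNG. -/
theorem ind_def (hN : DefNet N) (he : EOk c d c' d' e) :
    DefP (E := fun n => PP e n × TT n) (fun n G X y => ind (N n G X) (JJ c d n) (JJ c' d' n) e y.1 y.2) := by
  have h1 : Tm (E := fun n => (PP e n × TT n) × TT n) (F := fun n => PP e n × TT n) (fun n y => y.1) := Tm.fst (F := fun n => PP e n × TT n) (H := TT) Tm.id
  have ht' : Tm (E := fun n => (PP e n × TT n) × TT n) (F := TT) (fun n y => y.2) := Tm.snd (F := fun n => PP e n × TT n) (H := TT) Tm.id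
  have hp : Tm (E := fun n => (PP e n × TT n) × TT n) (F := PP e) (fun n y => y.1.1) := Tm.fst (F := PP e) (H := TT) h1
  have ht : Tm (E := fun n => (PP e n × TT n) × TT n) (F := TT) (fun n y => y.1.2) := Tm.snd (F := PP e) (H := TT) h1
  have a1 := (dng_us hN he).comp (E := fun n => (PP e n × TT n) × TT n) (F := fun n => PP e n × TT n) (f := fun n y => (y.1.1, y.2)) (Tm.pair (F := PP e) (H := TT) hp ht')
  have a2 := (dng_hs (e := e)).comp (E := fun n => (PP e n × TT n) × TT n) (F := fun n => PP e n × TT n) (f := fun n y => (y.1.1, y.2)) (Tm.pair (F := PP e) (H := TT) hp ht')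
  have a3 := DefP.nLt (E := fun n => (PP e n × TT n) × TT n) (F := TT) (H := TT) ht' ht
  have a4 := (dng_cnf hN he).comp (E := fun n => (PP e n × TT n) × TT n) (F := fun n => PP e n × (TT n × TT n)) (f := fun n y => (y.1.1, (y.2, y.1.2)))
    (Tm.pair (F := PP e) (H := fun n => TT n × TT n) hp (Tm.pair (F := TT) (H := TT) ht' ht))
  exact DefP.and (dng_us hN he) (DefP.and dng_hs (DefP.all (E := fun n => PP e n × TT n) (F := TT)
    (P := fun n G X y τ' => usd (N n G X) (JJ c d n) (fun v => DL (N n G X) (JJ c d n) (JJ c' d' n) e (y.1.1, v)) τ' → hs y.1.2 τ' → nv (S := TT) τ' < nv (S := TT) y.2 →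
      ¬ cnf (N n G X) (vtt (N n G X) (JJ c d n) (fun v => DL (N n G X) (JJ c d n) (JJ c' d' n) e (y.1.1, v))) τ' y.2)
    (DefP.imp a1 (DefP.imp a2 (DefP.imp a3 (DefP.not a4))))))

/-- Job DNG. (`DefP.cardLt`, `DefP.cardEq`, `nc_natCard`, `DefP.nLe`.) -/
theorem bst_def (hN : DefNet N) (he : EOk c d c' d' e) :
    DefP (E := PP e) (fun n G X p => bst (N n G X) (JJ c d n) (JJ c' d' n) e p) := by
  have hp : Tm (E := fun n => PP e n × PP e n) (F := PP e) (fun n y => y.1) := Tm.fst (F := PP e) (H := PP e) Tm.id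
  have hp' : Tm (E := fun n => PP e n × PP e n) (F := PP e) (fun n y => y.2) := Tm.snd (F := PP e) (H := PP e) Tm.id
  have b1 : DefP (E := fun n => (PP e n × PP e n) × TT n) (fun n G X y => ind (N n G X) (JJ c d n) (JJ c' d' n) e y.1.1 y.2) :=
    (ind_def hN he).comp (E := fun n => (PP e n × PP e n) × TT n) (F := fun n => PP e n × TT n) (f := fun n y => (y.1.1, y.2))
      (Tm.pair (F := PP e) (H := TT) (Tm.fst (F := PP e) (H := PP e) (Tm.fst (F := fun n => PP e n × PP e n) (H := TT) Tm.id)) (Tm.snd (F := fun n => PP e n × PP e n) (H := TT) Tm.id))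
  have b2 : DefP (E := fun n => (PP e n × PP e n) × TT n) (fun n G X y => ind (N n G X) (JJ c d n) (JJ c' d' n) e y.1.2 y.2) :=
    (ind_def hN he).comp (E := fun n => (PP e n × PP e n) × TT n) (F := fun n => PP e n × TT n) (f := fun n y => (y.1.2, y.2))
      (Tm.pair (F := PP e) (H := TT) (Tm.snd (F := PP e) (H := PP e) (Tm.fst (F := fun n => PP e n × PP e n) (H := TT) Tm.id)) (Tm.snd (F := fun n => PP e n × PP e n) (H := TT) Tm.id))
  have c1 := DefP.cardLt (E := fun n => PP e n × PP e n) (S := TT) (T := TT)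
    (A := fun n G X y τ => ind (N n G X) (JJ c d n) (JJ c' d' n) e y.2 τ) b2 (B := fun n G X y τ => ind (N n G X) (JJ c d n) (JJ c' d' n) e y.1 τ) b1
  have c2 := DefP.cardEq (E := fun n => PP e n × PP e n) (S := TT) (T := TT)
    (A := fun n G X y τ => ind (N n G X) (JJ c d n) (JJ c' d' n) e y.2 τ) b2 (B := fun n G X y τ => ind (N n G X) (JJ c d n) (JJ c' d' n) e y.1 τ) b1
  have c3 := DefP.nLe (E := fun n => PP e n × PP e n) (F := PP e) (H := PP e) hp hp'
  refine (DefP.all (E := PP e) (F := PP e) (P := fun n G X p p' =>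
    Nat.card {τ // ind (N n G X) (JJ c d n) (JJ c' d' n) e p' τ} < Nat.card {τ // ind (N n G X) (JJ c d n) (JJ c' d' n) e p τ} ∨
    (Nat.card {τ // ind (N n G X) (JJ c d n) (JJ c' d' n) e p' τ} = Nat.card {τ // ind (N n G X) (JJ c d n) (JJ c' d' n) e p τ} ∧ nv (S := PP e) p ≤ nv (S := PP e) p'))
    (DefP.or c1 (DefP.and c2 c3))).congr fun n G X p => ?_
  unfold bst
  refine forall_congr' fun p' => ?_
  rw [nc_natCard, nc_natCard]

/-- Job DNG. -/
theorem Ch_def (hN : DefNet N) (he : EOk c d c' d' e) :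
    DefP (E := fun n => Fin n × Fin n) (fun n G X y => Ch (N n G X) (JJ c d n) (JJ c' d' n) e y.1 y.2) := by
  have i0 : Tm (E := fun n => ((((Fin n × Fin n) × PP e n) × TT n) × SS n) × SS n) (F := fun n => ((((Fin n × Fin n) × PP e n) × TT n) × SS n) × SS n) (fun n y => y) := Tm.id
  have i1 : Tm (E := fun n => ((((Fin n × Fin n) × PP e n) × TT n) × SS n) × SS n) (F := fun n => (((Fin n × Fin n) × PP e n) × TT n) × SS n) (fun n y => y.1) :=
    Tm.fst (F := fun n => (((Fin n × Fin n) × PP e n) × TT n) × SS n) (H := SS) i0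
  have kt : Tm (E := fun n => ((((Fin n × Fin n) × PP e n) × TT n) × SS n) × SS n) (F := SS) (fun n y => y.2) :=
    Tm.snd (F := fun n => (((Fin n × Fin n) × PP e n) × TT n) × SS n) (H := SS) i0
  have i2 : Tm (E := fun n => ((((Fin n × Fin n) × PP e n) × TT n) × SS n) × SS n) (F := fun n => ((Fin n × Fin n) × PP e n) × TT n) (fun n y => y.1.1) :=
    Tm.fst (F := fun n => ((Fin n × Fin n) × PP e n) × TT n) (H := SS) i1
  have kz : Tm (E := fun n => ((((Fin n × Fin n) × PP e n) × TT n) × SS n) × SS n) (F := SS) (fun n y => y.1.2) :=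
    Tm.snd (F := fun n => ((Fin n × Fin n) × PP e n) × TT n) (H := SS) i1
  have i3 : Tm (E := fun n => ((((Fin n × Fin n) × PP e n) × TT n) × SS n) × SS n) (F := fun n => (Fin n × Fin n) × PP e n) (fun n y => y.1.1.1) :=
    Tm.fst (F := fun n => (Fin n × Fin n) × PP e n) (H := TT) i2
  have kτ : Tm (E := fun n => ((((Fin n × Fin n) × PP e n) × TT n) × SS n) × SS n) (F := TT) (fun n y => y.1.1.2) :=
    Tm.snd (F := fun n => (Fin n × Fin n) × PP e n) (H := TT) i2
  have i4 : Tm (E := fun n => ((((Fin n × Fin n) × PP e n) × TT n) × SS n) × SS n) (F := fun n => Fin n × Fin n) (fun n y => y.1.1.1.1) :=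
    Tm.fst (F := fun n => Fin n × Fin n) (H := PP e) i3
  have kp : Tm (E := fun n => ((((Fin n × Fin n) × PP e n) × TT n) × SS n) × SS n) (F := PP e) (fun n y => y.1.1.1.2) :=
    Tm.snd (F := fun n => Fin n × Fin n) (H := PP e) i3
  have kb : Tm (E := fun n => ((((Fin n × Fin n) × PP e n) × TT n) × SS n) × SS n) (F := fun n => Fin n) (fun n y => y.1.1.1.1.1) :=
    Tm.fst (F := fun n => Fin n) (H := fun n => Fin n) i4
  have kr : Tm (E := fun n => ((((Fin n × Fin n) × PP e n) × TT n) × SS n) × SS n) (F := fun n => Fin n) (fun n y => y.1.1.1.1.2) :=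
    Tm.snd (F := fun n => Fin n) (H := fun n => Fin n) i4
  have z1 : Tm (E := fun n => ((((Fin n × Fin n) × PP e n) × TT n) × SS n) × SS n) (F := fun n => Fin n) (fun n y => y.1.2.1) :=
    Tm.fst (F := fun n => Fin n) (H := fun n => Fin n) kz
  have z2 : Tm (E := fun n => ((((Fin n × Fin n) × PP e n) × TT n) × SS n) × SS n) (F := fun n => Fin n) (fun n y => y.1.2.2) :=
    Tm.snd (F := fun n => Fin n) (H := fun n => Fin n) kz
  have t1 : Tm (E := fun n => ((((Fin n × Fin n) × PP e n) × TT n) × SS n) × SS n) (F := fun n => Fin n) (fun n y => y.2.1) :=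
    Tm.fst (F := fun n => Fin n) (H := fun n => Fin n) kt
  have t2 : Tm (E := fun n => ((((Fin n × Fin n) × PP e n) × TT n) × SS n) × SS n) (F := fun n => Fin n) (fun n y => y.2.2) :=
    Tm.snd (F := fun n => Fin n) (H := fun n => Fin n) kt
  have a1 := (bst_def hN he).comp (E := fun n => ((((Fin n × Fin n) × PP e n) × TT n) × SS n) × SS n) (F := PP e) (f := fun n y => y.1.1.1.2) kp
  have a2 := (ind_def hN he).comp (E := fun n => ((((Fin n × Fin n) × PP e n) × TT n) × SS n) × SS n) (F := fun n => PP e n × TT n) (f := fun n y => (y.1.1.1.2, y.1.1.2)) (Tm.pair (F := PP e) (H := TT) kp kτ)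
  have a3 := (dng_vt hN he).comp (E := fun n => ((((Fin n × Fin n) × PP e n) × TT n) × SS n) × SS n) (F := fun n => PP e n × (TT n × SS n))
    (f := fun n y => (y.1.1.1.2, (y.1.1.2, y.1.2))) (Tm.pair (F := PP e) (H := fun n => TT n × SS n) kp (Tm.pair (F := TT) (H := SS) kτ kz))
  have a4 := (dng_vt hN he).comp (E := fun n => ((((Fin n × Fin n) × PP e n) × TT n) × SS n) × SS n) (F := fun n => PP e n × (TT n × SS n))
    (f := fun n y => (y.1.1.1.2, (y.1.1.2, y.2))) (Tm.pair (F := PP e) (H := fun n => TT n × SS n) kp (Tm.pair (F := TT) (H := SS) kτ kt))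
  have a5 := hN.tm.comp (E := fun n => ((((Fin n × Fin n) × PP e n) × TT n) × SS n) × SS n) (F := SS) (f := fun n y => y.2) kt
  have a6 := DefP.or (DefP.and (DefP.eqFin (E := fun n => ((((Fin n × Fin n) × PP e n) × TT n) × SS n) × SS n) kb z1) (DefP.eqFin kr t1))
    (DefP.and (DefP.eqFin (E := fun n => ((((Fin n × Fin n) × PP e n) × TT n) × SS n) × SS n) kb z2) (DefP.eqFin kr t2))
  exact DefP.ex (E := fun n => Fin n × Fin n) (F := PP e) (P := fun n G X y p => ∃ (τ : TT n) (z t : SS n), bst (N n G X) (JJ c d n) (JJ c' d' n) e p ∧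
      ind (N n G X) (JJ c d n) (JJ c' d' n) e p τ ∧ vtt (N n G X) (JJ c d n) (fun v => DL (N n G X) (JJ c d n) (JJ c' d' n) e (p.1, v)) (τ, z) ∧
      vtt (N n G X) (JJ c d n) (fun v => DL (N n G X) (JJ c d n) (JJ c' d' n) e (p.1, v)) (τ, t) ∧ (N n G X).tm t ∧
      ((y.1 = z.1 ∧ y.2 = t.1) ∨ (y.1 = z.2 ∧ y.2 = t.2)))
    (DefP.ex (E := fun n => (Fin n × Fin n) × PP e n) (F := TT) (P := fun n G X y τ => ∃ (z t : SS n), bst (N n G X) (JJ c d n) (JJ c' d' n) e y.2 ∧
      ind (N n G X) (JJ c d n) (JJ c' d' n) e y.2 τ ∧ vtt (N n G X) (JJ c d n) (fun v => DL (N n G X) (JJ c d n) (JJ c' d' n) e (y.2.1, v)) (τ, z) ∧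
      vtt (N n G X) (JJ c d n) (fun v => DL (N n G X) (JJ c d n) (JJ c' d' n) e (y.2.1, v)) (τ, t) ∧ (N n G X).tm t ∧
      ((y.1.1 = z.1 ∧ y.1.2 = t.1) ∨ (y.1.1 = z.2 ∧ y.1.2 = t.2)))
    (DefP.ex (E := fun n => ((Fin n × Fin n) × PP e n) × TT n) (F := SS) (P := fun n G X y z => ∃ (t : SS n), bst (N n G X) (JJ c d n) (JJ c' d' n) e y.1.2 ∧
      ind (N n G X) (JJ c d n) (JJ c' d' n) e y.1.2 y.2 ∧ vtt (N n G X) (JJ c d n) (fun v => DL (N n G X) (JJ c d n) (JJ c' d' n) e (y.1.2.1, v)) (y.2, z) ∧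
      vtt (N n G X) (JJ c d n) (fun v => DL (N n G X) (JJ c d n) (JJ c' d' n) e (y.1.2.1, v)) (y.2, t) ∧ (N n G X).tm t ∧
      ((y.1.1.1 = z.1 ∧ y.1.1.2 = t.1) ∨ (y.1.1.1 = z.2 ∧ y.1.1.2 = t.2)))
    (DefP.ex (E := fun n => (((Fin n × Fin n) × PP e n) × TT n) × SS n) (F := SS) (P := fun n G X y t => bst (N n G X) (JJ c d n) (JJ c' d' n) e y.1.1.2 ∧
      ind (N n G X) (JJ c d n) (JJ c' d' n) e y.1.1.2 y.1.2 ∧ vtt (N n G X) (JJ c d n) (fun v => DL (N n G X) (JJ c d n) (JJ c' d' n) e (y.1.1.2.1, v)) (y.1.2, y.2) ∧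
      vtt (N n G X) (JJ c d n) (fun v => DL (N n G X) (JJ c d n) (JJ c' d' n) e (y.1.1.2.1, v)) (y.1.2, t) ∧ (N n G X).tm t ∧
      ((y.1.1.1.1 = y.2.1 ∧ y.1.1.1.2 = t.1) ∨ (y.1.1.1.1 = y.2.2 ∧ y.1.1.1.2 = t.2)))
      (DefP.and a1 (DefP.and a2 (DefP.and a3 (DefP.and a4 (DefP.and a5 a6))))))))

end

/-- The net of pairs for the relation variables 0, …, 4. -/
def pnX {n : ℕ} (X : Ctx n) : Net (SS n) (Fin n) :=
  pnet (fun b => PMNC.rv (S := fun n => Fin n) X 0 b) (fun b c => PMNC.rv (S := fun n => Fin n × Fin n) X 1 (b, c)) (fun b c => PMNC.rv (S := fun n => Fin n × Fin n) X 2 (b, c))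
    (fun b => PMNC.rv (S := fun n => Fin n) X 3 b) (fun b c => PMNC.rv (S := fun n => Fin n × Fin n) X 4 (b, c))

private theorem dnh_fst : Tm (E := SS) (F := fun n => Fin n) (fun n z => z.1) :=
  Tm.fst (E := SS) (F := fun n => Fin n) (H := fun n => Fin n) (Tm.id (E := SS))

private theorem dnh_snd : Tm (E := SS) (F := fun n => Fin n) (fun n z => z.2) :=
  Tm.snd (E := SS) (F := fun n => Fin n) (H := fun n => Fin n) (Tm.id (E := SS))

section

variable {E : ℕ → Type} [Env E] {f g : ∀ n : ℕ, E n → Fin n}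

private theorem dnh_rv1 (i : ℕ) (hf : Tm (F := fun n => Fin n) f) :
    DefP (E := E) (fun n G X x => PMNC.rv (S := fun n => Fin n) X i (f n x)) :=
  DefP.rv (S := fun n => Fin n) i hf

private theorem dnh_rv2 (i : ℕ) (hf : Tm (F := fun n => Fin n) f) (hg : Tm (F := fun n => Fin n) g) :
    DefP (E := E) (fun n G X x => PMNC.rv (S := fun n => Fin n × Fin n) X i (f n x, g n x)) :=
  DefP.rv (S := fun n => Fin n × Fin n) i (Tm.pair (F := fun n => Fin n) (H := fun n => Fin n) hf hg)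

private theorem dnh_ok (hf : Tm (F := fun n => Fin n) f) (hg : Tm (F := fun n => Fin n) g) :
    DefP (E := E) (fun n G X x => okS (fun b => PMNC.rv (S := fun n => Fin n) X 0 b) (f n x, g n x)) :=
  DefP.and (dnh_rv1 0 hf) (DefP.and (dnh_rv1 0 hg) (DefP.not (DefP.eqFin hf hg)))

end

/-- Job DNH. -/
theorem pnX_def : DefNet (fun n G X => pnX X) where
  st := DefP.and (dnh_ok dnh_fst dnh_snd) (dnh_rv2 4 dnh_fst dnh_snd)
  mv := by
    have h1 : Tm (E := fun n => SS n × SS n) (F := SS) (fun n y => y.1) :=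
      Tm.fst (E := fun n => SS n × SS n) (F := SS) (H := SS) Tm.id
    have h2 : Tm (E := fun n => SS n × SS n) (F := SS) (fun n y => y.2) :=
      Tm.snd (E := fun n => SS n × SS n) (F := SS) (H := SS) Tm.id
    have h11 : Tm (E := fun n => SS n × SS n) (F := fun n => Fin n) (fun n y => y.1.1) :=
      Tm.comp (E := fun n => SS n × SS n) (F := SS) (H := fun n => Fin n) dnh_fst h1
    have h12 : Tm (E := fun n => SS n × SS n) (F := fun n => Fin n) (fun n y => y.1.2) :=
      Tm.comp (E := fun n => SS n × SS n) (F := SS) (H := fun n => Fin n) dnh_snd h1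
    have h21 : Tm (E := fun n => SS n × SS n) (F := fun n => Fin n) (fun n y => y.2.1) :=
      Tm.comp (E := fun n => SS n × SS n) (F := SS) (H := fun n => Fin n) dnh_fst h2
    have h22 : Tm (E := fun n => SS n × SS n) (F := fun n => Fin n) (fun n y => y.2.2) :=
      Tm.comp (E := fun n => SS n × SS n) (F := SS) (H := fun n => Fin n) dnh_snd h2
    exact DefP.and (dnh_ok h11 h12) (DefP.and (dnh_ok h21 h22)
      (DefP.or (DefP.and (dnh_rv2 1 h12 h11) (DefP.and (dnh_rv2 2 h21 h11) (DefP.eqFin h22 h12)))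
        (DefP.and (DefP.not (dnh_rv2 1 h12 h11)) (DefP.and (dnh_rv2 2 h22 h12) (DefP.eqFin h21 h11)))))
  tm := DefP.and (dnh_rv1 3 dnh_fst) (dnh_rv1 3 dnh_snd)
  oc := by
    have h1 : Tm (E := fun n => SS n × Fin n) (F := SS) (fun n y => y.1) :=
      Tm.fst (E := fun n => SS n × Fin n) (F := SS) (H := fun n => Fin n) Tm.id
    have h2 : Tm (E := fun n => SS n × Fin n) (F := fun n => Fin n) (fun n y => y.2) :=
      Tm.snd (E := fun n => SS n × Fin n) (F := SS) (H := fun n => Fin n) Tm.id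
    exact DefP.or
      (DefP.eqFin h2 (Tm.comp (E := fun n => SS n × Fin n) (F := SS) (H := fun n => Fin n) dnh_fst h1))
      (DefP.eqFin h2 (Tm.comp (E := fun n => SS n × Fin n) (F := SS) (H := fun n => Fin n) dnh_snd h1))
  two := by
    intro n G X z hz
    have h : z.1 ≠ z.2 := hz.1.2.2
    by_contra hn
    apply h
    apply Fin.ext
    have h1 := z.1.2
    have h2 := z.2.2
    omega

end Pool.Agent.EXA
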