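import Pool.Agent.Lib.MP_0087d5_lc.AUG.Berge

/-!
# Locally maximal matchings
-/

namespace Pool.Agent.EXA

open Pool.Agent.AUG

variable {n : ℕ}

/-- `M` has at least as many edges as every matching which differs from it in at most `k` edges. -/
def LocMax (G M : SimpleGraph (Fin n)) (k : ℕ) : Prop :=
  ∀ M', IsMat G M' → (symmDiff M'.edgeSet M.edgeSet).ncard ≤ k → M'.edgeSet.ncard ≤ M.edgeSet.ncard

/-- Every matching of `G` which is locally maximal (for changes of at most `k` edges) has at most `k` edges less than a maximum matching. -/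
def Impr (G : SimpleGraph (Fin n)) (k : ℕ) : Prop :=
  ∀ M, IsMat G M → LocMax G M k → ∀ M', IsMat G M' → M'.edgeSet.ncard ≤ M.edgeSet.ncard + k

end Pool.Agent.EXA
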