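import Pool.Agent.Lib.MP_0087d5_lc.EXA.Base

/-!
# Samples given by linear maps modulo a prime

Jobs HSA (`hsh_mod`, `hsh_one`, `hsh_two`), HSB (`hash_main`).
-/

namespace Pool.Agent.EXA

open Finset

/-- `x` is in the sample with the parameters `q`, `a`, `b`, `m`. -/
def hsh (q a b m x : ℕ) : Prop := ∃ k, k * q ≤ a * x + b ∧ a * x + b < k * q + m

/-- Job HSA. -/
theorem hsh_mod {q a b m x : ℕ} (hm : m ≤ q) (hq : 0 < q) : hsh q a b m x ↔ (a * x + b) % q < m := by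
  unfold hsh
  have h1 := Nat.div_add_mod (a * x + b) q
  have h2 := Nat.mod_lt (a * x + b) hq
  constructor
  · rintro ⟨k, h3, h4⟩
    have h5 : (a * x + b) / q = k := by
      refine Nat.div_eq_of_lt_le h3 ?_
      rw [Nat.add_mul, one_mul]
      omega
    rw [h5, mul_comm] at h1
    omega
  · intro h3
    refine ⟨(a * x + b) / q, ?_, ?_⟩
    · rw [mul_comm ((a * x + b) / q) q]
      omega
    · rw [mul_comm ((a * x + b) / q) q]
      omega

private theorem hsa_bij {α β : Type} [Fintype α] [Fintype β] (f : α → β) (hf : Function.Bijective f) (P : β → Prop) :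
    nc (fun a => P (f a)) = nc P := by
  rw [nc_natCard, nc_natCard]
  exact Nat.card_congr ((Equiv.ofBijective f hf).subtypeEquiv (fun _ => Iff.rfl))

private theorem hsa_lt {q m : ℕ} (hm : m ≤ q) : nc (fun b : Fin q => (b : ℕ) < m) = m := by
  rw [nc_natCard]
  have e : {b : Fin q // (b : ℕ) < m} ≃ Fin m :=
    { toFun := fun b => ⟨b.1.1, b.2⟩
      invFun := fun b => ⟨⟨b.1, lt_of_lt_of_le b.2 hm⟩, b.2⟩
      left_inv := fun _ => rfl
      right_inv := fun _ => rfl }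
  rw [Nat.card_congr e, Nat.card_eq_fintype_card, Fintype.card_fin]

private theorem hsa_mod_add {q c b b' : ℕ} (hb : b < q) (hb' : b' < q) (h : (c + b) % q = (c + b') % q) : b = b' := by
  have h1 : c + b ≡ c + b' [MOD q] := h
  have h2 := Nat.ModEq.add_left_cancel' c h1
  exact Nat.ModEq.eq_of_lt_of_lt h2 hb hb'

/-- Job HSA. For every `a` the map `b ↦ (a * x + b) % q` is a bijection of the numbers less than `q`. -/
theorem hsh_one {q m x : ℕ} (hq : q.Prime) (hm : m ≤ q) : nc (fun p : Fin q × Fin q => hsh q p.1 p.2 m x) = q * m := by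
  have h1 : nc (fun p : Fin q × Fin q => hsh q p.1 p.2 m x) =
      sm (fun p : Fin q × Fin q => True ∧ hsh q p.1 p.2 m x) (fun _ => 1) :=
    nc_congr fun p => by simp
  rw [h1, sm_prod (P' := fun _ : Fin q => True) (Q' := fun a b : Fin q => hsh q a b m x) (F := fun _ => 1)]
  have h2 : ∀ a : Fin q, sm (fun b : Fin q => hsh q a b m x) (fun _ => 1) = m := by
    intro a
    let f : Fin q → Fin q := fun b => ⟨((a : ℕ) * x + b) % q, Nat.mod_lt _ hq.pos⟩
    have hf : Function.Bijective f := by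
      refine Finite.injective_iff_bijective.1 ?_
      intro b b' h
      have h3 : ((a : ℕ) * x + b) % q = ((a : ℕ) * x + b') % q := congrArg Fin.val h
      exact Fin.ext (hsa_mod_add b.2 b'.2 h3)
    have h4 : sm (fun b : Fin q => hsh q a b m x) (fun _ => 1) = nc (fun b : Fin q => ((f b : Fin q) : ℕ) < m) :=
      nc_congr fun b => hsh_mod hm hq.pos
    rw [h4, hsa_bij f hf (fun b => (b : ℕ) < m), hsa_lt hm]
  rw [sm_congr (fun _ => Iff.rfl) (fun a _ => h2 a), sm_const, nc_univ, Fintype.card_fin]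

/-- Job HSA. The map `(a, b) ↦ (a x + b, a y + b)` is a bijection of `(ZMod q) ^ 2` if `x ≠ y` modulo `q` (injective: subtract). -/
theorem hsh_two {q m x y : ℕ} (hq : q.Prime) (hm : m ≤ q) (hx : x < q) (hy : y < q) (hxy : x ≠ y) :
    nc (fun p : Fin q × Fin q => hsh q p.1 p.2 m x ∧ hsh q p.1 p.2 m y) = m ^ 2 := by
  haveI : Fact q.Prime := ⟨hq⟩
  let f : Fin q × Fin q → Fin q × Fin q := fun p =>
    (⟨((p.1 : ℕ) * x + p.2) % q, Nat.mod_lt _ hq.pos⟩, ⟨((p.1 : ℕ) * y + p.2) % q, Nat.mod_lt _ hq.pos⟩)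
  have hf : Function.Bijective f := by
    refine Finite.injective_iff_bijective.1 ?_
    rintro ⟨a, b⟩ ⟨a', b'⟩ h
    have h3 : ((a : ℕ) * x + b) % q = ((a' : ℕ) * x + b') % q := congrArg (fun z : Fin q × Fin q => (z.1 : ℕ)) h
    have h4 : ((a : ℕ) * y + b) % q = ((a' : ℕ) * y + b') % q := congrArg (fun z : Fin q × Fin q => (z.2 : ℕ)) h
    have h5 := (ZMod.natCast_eq_natCast_iff' _ _ q).2 h3
    have h6 := (ZMod.natCast_eq_natCast_iff' _ _ q).2 h4
    push_cast at h5 h6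
    have h7 : (((a : ℕ) : ZMod q) - ((a' : ℕ) : ZMod q)) * ((x : ZMod q) - (y : ZMod q)) = 0 := by
      linear_combination h5 - h6
    have h8 : (x : ZMod q) - (y : ZMod q) ≠ 0 := by
      intro h9
      have h10 : (x : ZMod q) = (y : ZMod q) := sub_eq_zero.1 h9
      rw [ZMod.natCast_eq_natCast_iff', Nat.mod_eq_of_lt hx, Nat.mod_eq_of_lt hy] at h10
      exact hxy h10
    have h9 : ((a : ℕ) : ZMod q) = ((a' : ℕ) : ZMod q) := by
      rcases mul_eq_zero.1 h7 with h10 | h10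
      · exact sub_eq_zero.1 h10
      · exact absurd h10 h8
    rw [ZMod.natCast_eq_natCast_iff', Nat.mod_eq_of_lt a.2, Nat.mod_eq_of_lt a'.2] at h9
    have h10 : a = a' := Fin.ext h9
    subst h10
    exact Prod.ext rfl (Fin.ext (hsa_mod_add b.2 b'.2 h3))
  have h1 : nc (fun p : Fin q × Fin q => hsh q p.1 p.2 m x ∧ hsh q p.1 p.2 m y) =
      nc (fun p : Fin q × Fin q => ((f p).1 : ℕ) < m ∧ ((f p).2 : ℕ) < m) :=
    nc_congr fun p => and_congr (hsh_mod hm hq.pos) (hsh_mod hm hq.pos)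
  rw [h1, hsa_bij f hf (fun z => (z.1 : ℕ) < m ∧ (z.2 : ℕ) < m)]
  have h2 : nc (fun z : Fin q × Fin q => (z.1 : ℕ) < m ∧ (z.2 : ℕ) < m) =
      sm (fun a : Fin q => (a : ℕ) < m) (fun _ => sm (fun b : Fin q => (b : ℕ) < m) (fun _ => 1)) :=
    sm_prod (P' := fun a : Fin q => (a : ℕ) < m) (Q' := fun _ b : Fin q => (b : ℕ) < m) (F := fun _ => 1)
  have h3 : sm (fun b : Fin q => (b : ℕ) < m) (fun _ => 1) = m := hsa_lt hm
  rw [h2, h3, sm_const, hsa_lt hm, sq]

/-- the conflicts are at most all pairs -/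
private theorem hsb_conf {T : Type} [Fintype T] (X : T → Prop) (P : T × T → Prop) (h : ∀ w, P w → X w.1 ∧ X w.2) :
    nc P ≤ nc X ^ 2 := by
  have h1 : nc P ≤ nc (fun w : T × T => X w.1 ∧ X w.2) := nc_mono h
  have h2 : nc (fun w : T × T => X w.1 ∧ X w.2) = sm X (fun _ => nc X) :=
    sm_prod (P' := X) (Q' := fun _ b => X b) (F := fun _ => 1)
  rw [h2, sm_const] at h1
  rw [pow_two]
  exact h1

/-- the number of bad elements is at most the number of conflicts -/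
private theorem hsb_bad {T : Type} [Fintype T] (Y : T → Prop) (R : T → T → Prop) :
    nc Y ≤ nc (fun w : T × T => Y w.1 ∧ Y w.2 ∧ R w.1 w.2) + nc (fun τ => Y τ ∧ ∀ τ', Y τ' → ¬ R τ' τ) := by
  classical
  have h1 := sm_split (P := Y) (f := fun _ => 1) (fun τ => ∀ τ', Y τ' → ¬ R τ' τ)
  have h2 : nc Y = nc (fun τ => Y τ ∧ ∀ τ', Y τ' → ¬ R τ' τ) + nc (fun τ => Y τ ∧ ¬ ∀ τ', Y τ' → ¬ R τ' τ) := h1
  have h3 : ∀ τ, (Y τ ∧ ¬ ∀ τ', Y τ' → ¬ R τ' τ) → ∃ τ', Y τ' ∧ R τ' τ := by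
    intro τ h
    have := h.2
    push Not at this
    exact this
  have h4 : nc (fun τ => Y τ ∧ ¬ ∀ τ', Y τ' → ¬ R τ' τ) ≤ nc (fun w : T × T => Y w.1 ∧ Y w.2 ∧ R w.1 w.2) := by
    refine nc_inj (fun τ => if h : ∃ τ', Y τ' ∧ R τ' τ then (h.choose, τ) else (τ, τ)) ?_ ?_
    · intro τ hτ
      have hh := h3 τ hτ
      have e : (if h : ∃ τ', Y τ' ∧ R τ' τ then (h.choose, τ) else (τ, τ)) = (hh.choose, τ) := dif_pos hh
      simp only [e]
      exact ⟨hh.choose_spec.1, hτ.1, hh.choose_spec.2⟩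
    · intro τ τ1 hτ hτ1 he
      have hh := h3 τ hτ
      have hh1 := h3 τ1 hτ1
      simp only [dif_pos hh, dif_pos hh1] at he
      exact (Prod.mk.inj he).2
  omega

/-- the arithmetic of the choice of `m` -/
private theorem hsb_m {q t M : ℕ} (hM : 0 < M) (htM : t ≤ M) (h4 : 4 * M ≤ q * t) (hq : 2 ≤ q) :
    2 * M * (q * t / (2 * M)) ≤ q * t ∧ q * t ≤ 4 * M * (q * t / (2 * M)) ∧ q * t / (2 * M) < q := by
  set m : ℕ := q * t / (2 * M) with hm
  have h1 : 2 * M * m ≤ q * t := Nat.mul_div_le _ _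
  have h2 : q * t < 2 * M * (m + 1) := by
    rw [hm]
    have := Nat.lt_mul_div_succ (q * t) (show 0 < 2 * M by omega)
    exact this
  refine ⟨h1, ?_, ?_⟩
  · have e1 : 2 * M * (m + 1) = 2 * M * m + 2 * M := by ring
    have e2 : 4 * M * m = 2 * (2 * M * m) := by ring
    omega
  · have h3 : q * t ≤ q * M := Nat.mul_le_mul_left _ htM
    have h5 : M * (2 * m) ≤ M * q := by
      calc M * (2 * m) = 2 * M * m := by ring
        _ ≤ q * t := h1
        _ ≤ q * M := h3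
        _ = M * q := by ring
    have h6 : 2 * m ≤ q := Nat.le_of_mul_le_mul_left h5 hM
    omega

/-- Job HSB. **A large independent set.** Let `t = nc X`, `e` = number of conflicts, `M = max e t`, `m = q * t / (2 * M)` (rounded down, so `2 M m ≤ q t`, and `4 M m ≥ q t`, because `4 M ≤ q t`: `e ≤ t ^ 2`, `M ≤ t ^ 2`, `4 t ≤ q`; `m ≤ q / 2 < q`). The sum over all `(a, b)` of (size of the sample) - (number of conflicts in the sample)
is `t q m - e m ^ 2 ≥ m (t q - M m) ≥ m t q / 2 ≥ q ^ 2 t ^ 2 / (8 M)`. So for some `(a, b)` the difference is at least `t ^ 2 / (8 M)`. The set in the statement contains the sample without the elements `τ` for which there is a conflict `(τ', τ)` in the sample, so its size is at least this difference. -/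
theorem hash_main {T : Type} [Fintype T] {ky : T → ℕ} (hk : Function.Injective ky) {q : ℕ} (hq : q.Prime) (h4 : 4 * Fintype.card T ≤ q) (hky : ∀ τ, ky τ < q)
    (X : T → Prop) (E : T → T → Prop) (hX : ∃ τ, X τ) :
    ∃ a b m, a < q ∧ b < q ∧ m < q ∧
      nc X ^ 2 ≤ 8 * max (nc (fun p : T × T => X p.1 ∧ X p.2 ∧ ky p.1 < ky p.2 ∧ E p.1 p.2)) (nc X) *
        nc (fun τ => X τ ∧ hsh q a b m (ky τ) ∧ ∀ τ', X τ' → hsh q a b m (ky τ') → ky τ' < ky τ → ¬ E τ' τ) := by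
  classical
  set t : ℕ := nc X with ht
  set e : ℕ := nc (fun p : T × T => X p.1 ∧ X p.2 ∧ ky p.1 < ky p.2 ∧ E p.1 p.2) with he
  set M : ℕ := max e t with hM
  have ht0 : 0 < t := nc_pos.2 hX
  have htc : t ≤ Fintype.card T := nc_le
  have het : e ≤ t ^ 2 := hsb_conf X _ fun w hw => ⟨hw.1, hw.2.1⟩
  have heM : e ≤ M := le_max_left _ _
  have htM : t ≤ M := le_max_right _ _
  have hM0 : 0 < M := lt_of_lt_of_le ht0 htM
  have hq2 : 2 ≤ q := hq.two_le
  have hM2 : M ≤ t ^ 2 := by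
    refine max_le het ?_
    nlinarith
  have h4M : 4 * M ≤ q * t := by
    calc 4 * M ≤ 4 * t ^ 2 := Nat.mul_le_mul_left _ hM2
      _ = (4 * t) * t := by ring
      _ ≤ q * t := Nat.mul_le_mul_right _ (by omega)
  obtain ⟨hm1, hm2, hmq⟩ := hsb_m hM0 htM h4M hq2
  set m : ℕ := q * t / (2 * M) with hm
  set S : Fin q × Fin q → ℕ := fun p => nc (fun τ => X τ ∧ hsh q p.1 p.2 m (ky τ)) with hS
  set C : Fin q × Fin q → ℕ := fun p => nc (fun w : T × T =>
    (X w.1 ∧ X w.2 ∧ ky w.1 < ky w.2 ∧ E w.1 w.2) ∧ hsh q p.1 p.2 m (ky w.1) ∧ hsh q p.1 p.2 m (ky w.2)) with hC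
  have hSsum : sm (fun _ : Fin q × Fin q => True) S = t * (q * m) := by
    have h1 : sm (fun _ : Fin q × Fin q => True) S =
        sm X (fun τ => nc (fun p : Fin q × Fin q => hsh q p.1 p.2 m (ky τ))) :=
      sm_comm (P' := fun _ : Fin q × Fin q => True) (Q' := fun p τ => X τ ∧ hsh q p.1 p.2 m (ky τ)) (P'' := X)
        (Q'' := fun τ p => hsh q p.1 p.2 m (ky τ)) (F := fun _ _ => 1) (fun a b => by tauto)
    rw [h1, sm_congr (Q := X) (g := fun _ => q * m) (fun _ => Iff.rfl) fun τ _ => hsh_one hq hmq.le, sm_const]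
  have hCsum : sm (fun _ : Fin q × Fin q => True) C = e * m ^ 2 := by
    have h1 : sm (fun _ : Fin q × Fin q => True) C =
        sm (fun w : T × T => X w.1 ∧ X w.2 ∧ ky w.1 < ky w.2 ∧ E w.1 w.2)
          (fun w => nc (fun p : Fin q × Fin q => hsh q p.1 p.2 m (ky w.1) ∧ hsh q p.1 p.2 m (ky w.2))) :=
      sm_comm (P' := fun _ : Fin q × Fin q => True)
        (Q' := fun p (w : T × T) => (X w.1 ∧ X w.2 ∧ ky w.1 < ky w.2 ∧ E w.1 w.2) ∧
          hsh q p.1 p.2 m (ky w.1) ∧ hsh q p.1 p.2 m (ky w.2))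
        (P'' := fun w : T × T => X w.1 ∧ X w.2 ∧ ky w.1 < ky w.2 ∧ E w.1 w.2)
        (Q'' := fun w p => hsh q p.1 p.2 m (ky w.1) ∧ hsh q p.1 p.2 m (ky w.2)) (F := fun _ _ => 1)
        (fun a b => by tauto)
    rw [h1, sm_congr (Q := fun w : T × T => X w.1 ∧ X w.2 ∧ ky w.1 < ky w.2 ∧ E w.1 w.2) (g := fun _ => m ^ 2)
      (fun _ => Iff.rfl) fun w hw => hsh_two hq hmq.le (hky _) (hky _) (by have := hw.2.2.1; omega), sm_const]
  have hU : nc (fun _ : Fin q × Fin q => True) = q * q := by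
    rw [nc_univ, Fintype.card_prod, Fintype.card_fin]
  obtain ⟨p, hp⟩ : ∃ p, t ^ 2 + 8 * M * C p ≤ 8 * M * S p := by
    by_contra hcon
    push Not at hcon
    have h1 : sm (fun _ : Fin q × Fin q => True) (fun p => 8 * M * S p + 1) ≤
        sm (fun _ : Fin q × Fin q => True) (fun p => t ^ 2 + 8 * M * C p) :=
      sm_mono (fun _ => id) fun p _ => hcon p
    have e1 : sm (fun _ : Fin q × Fin q => True) (fun p => 8 * M * S p + 1) = 8 * M * (t * (q * m)) + q * q := by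
      rw [sm_add, sm_mul, hSsum, sm_const, hU, mul_one]
    have e2 : sm (fun _ : Fin q × Fin q => True) (fun p => t ^ 2 + 8 * M * C p) =
        q * q * t ^ 2 + 8 * M * (e * m ^ 2) := by
      rw [sm_add, sm_mul, hCsum, sm_const, hU]
    rw [e1, e2] at h1
    have h2 : 8 * M * (e * m ^ 2) ≤ (4 * M * m) * (q * t) := by
      calc 8 * M * (e * m ^ 2) ≤ 8 * M * (M * m ^ 2) :=
            Nat.mul_le_mul_left _ (Nat.mul_le_mul_right _ heM)
        _ = (4 * M * m) * (2 * M * m) := by ring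
        _ ≤ (4 * M * m) * (q * t) := Nat.mul_le_mul_left _ hm1
    have h3 : q * q * t ^ 2 ≤ (4 * M * m) * (q * t) := by
      calc q * q * t ^ 2 = (q * t) * (q * t) := by ring
        _ ≤ (4 * M * m) * (q * t) := Nat.mul_le_mul_right _ hm2
    have h5 : 8 * M * (t * (q * m)) = 2 * ((4 * M * m) * (q * t)) := by ring
    have h6 : 0 < q * q := by positivity
    omega
  refine ⟨p.1, p.2, m, p.1.2, p.2.2, hmq, ?_⟩
  have hbad := hsb_bad (fun τ => X τ ∧ hsh q p.1 p.2 m (ky τ)) (fun τ' τ => ky τ' < ky τ ∧ E τ' τ)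
  have hb1 : nc (fun w : T × T => (X w.1 ∧ hsh q p.1 p.2 m (ky w.1)) ∧ (X w.2 ∧ hsh q p.1 p.2 m (ky w.2)) ∧
      ky w.1 < ky w.2 ∧ E w.1 w.2) = C p := nc_congr fun w => by tauto
  have hb2 : nc (fun τ => (X τ ∧ hsh q p.1 p.2 m (ky τ)) ∧
      ∀ τ', (X τ' ∧ hsh q p.1 p.2 m (ky τ')) → ¬ (ky τ' < ky τ ∧ E τ' τ)) =
      nc (fun τ => X τ ∧ hsh q p.1 p.2 m (ky τ) ∧
        ∀ τ', X τ' → hsh q p.1 p.2 m (ky τ') → ky τ' < ky τ → ¬ E τ' τ) :=
    nc_congr fun τ => by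
      constructor
      · rintro ⟨⟨h1, h2⟩, h3⟩
        exact ⟨h1, h2, fun τ' h5 h6 h7 h8 => h3 τ' ⟨h5, h6⟩ ⟨h7, h8⟩⟩
      · rintro ⟨h1, h2, h3⟩
        exact ⟨⟨h1, h2⟩, fun τ' h5 h6 => h3 τ' h5.1 h5.2 h6.1 h6.2⟩
  rw [hb1, hb2] at hbad
  set G : ℕ := nc (fun τ => X τ ∧ hsh q p.1 p.2 m (ky τ) ∧
        ∀ τ', X τ' → hsh q p.1 p.2 m (ky τ') → ky τ' < ky τ → ¬ E τ' τ) with hG
  have h1 : 8 * M * S p ≤ 8 * M * (C p + G) := Nat.mul_le_mul_left _ hbad
  have h2 : 8 * M * (C p + G) = 8 * M * C p + 8 * M * G := by ring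
  omega

end Pool.Agent.EXA
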