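import Pool.Agent.Lib.MP_0087d5_lc.EXA.Net

/-!
# Deleting heavy vertices

A family of paths `P` with vertices `inc p v`. `totA D` = number of paths which avoid `D`; `totA D - totA (ins D w)` = number of those which contain `w`. Jobs HVA (`lv_step`), HVB (`heavy_main`), HVC (`net_heavy`).
-/

namespace Pool.Agent.EXA

open Finset

section

variable {P V : Type} [Fintype P] [Fintype V] (inc : P → V → Prop)

/-- The number of paths which avoid `D`. -/
noncomputable def totA (D : V → Prop) : ℕ := nc (fun p : P => ∀ v, inc p v → ¬ D v)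

/-- `v` is in `D` or the number of paths through `v` is at least half of the largest such number. -/
def hvyA (D : V → Prop) (v : V) : Prop := D v ∨ (0 < totA inc D ∧ ∀ w, 2 * totA inc (ins D v) ≤ totA inc D + totA inc (ins D w))

/-- The sets of deleted vertices. -/
def dlA (i : ℕ) : V → Prop := (hvyA inc)^[i] (fun _ => False)

variable {inc}

/-- The number of paths which avoid `D` and contain `w`. -/
noncomputable def tauA (inc : P → V → Prop) (D : V → Prop) (w : V) : ℕ := nc (fun p : P => (∀ v, inc p v → ¬ D v) ∧ inc p w)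

/-- Job HVA. -/
theorem totA_ins (D : V → Prop) (w : V) : totA inc (ins D w) + tauA inc D w = totA inc D := by
  unfold totA tauA
  have h := sm_split (P := fun p : P => ∀ v, inc p v → ¬ D v) (f := fun _ => 1) (fun p => inc p w)
  have h2 : nc (fun p : P => ∀ v, inc p v → ¬ ins D w v) =
      sm (fun p : P => (∀ v, inc p v → ¬ D v) ∧ ¬ inc p w) (fun _ => 1) := by
    refine nc_congr fun p => ?_
    unfold ins
    constructor
    · intro h3
      exact ⟨fun v hv hD => h3 v hv (Or.inl hD), fun hw => h3 w hw (Or.inr rfl)⟩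
    · rintro ⟨h3, h4⟩ v hv (hD | rfl)
      · exact h3 v hv hD
      · exact h4 hv
  rw [h2, add_comm]
  exact h.symm

/-- Job HVA. Double counting of the pairs of a path which avoids `D` and a vertex of it. -/
theorem tauA_sum {K : ℕ} (hK : ∀ p, nc (inc p) ≤ K) (D : V → Prop) : sm (fun _ : V => True) (tauA inc D) ≤ K * totA inc D := by
  have h1 : sm (fun _ : V => True) (tauA inc D) =
      sm (fun p : P => ∀ v, inc p v → ¬ D v) (fun p => sm (inc p) (fun _ => 1)) := by
    refine sm_comm (P' := fun _ : V => True) (Q' := fun w p => (∀ v, inc p v → ¬ D v) ∧ inc p w)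
      (P'' := fun p : P => ∀ v, inc p v → ¬ D v) (Q'' := fun p w => inc p w) (F := fun _ _ => 1) ?_
    intro a b
    simp only [true_and]
  rw [h1, mul_comm]
  exact sm_le_const fun p _ => hK p

private theorem hva_mono {D D' : V → Prop} (h : ∀ v, D v → D' v) (w : V) : tauA inc D' w ≤ tauA inc D w :=
  nc_mono fun p hp => ⟨fun v hv hD => hp.1 v hv (h v hD), hp.2⟩

private theorem hva_tau_le (D : V → Prop) (w : V) : tauA inc D w ≤ totA inc D := by
  have := totA_ins (inc := inc) D w
  omega

/-- Job HVA. Let `h` be the largest `tauA inc D w`. One step: the number of new vertices times `h` is at most `2 K` times the number of paths (the new vertices satisfy `h ≤ 2 * tauA inc D v`). -/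
theorem hvy_card {K h : ℕ} (hK : ∀ p, nc (inc p) ≤ K) {D : V → Prop} (hh : ∃ w, h ≤ tauA inc D w) :
    nc (fun v => hvyA inc D v ∧ ¬ D v) * h ≤ 2 * K * totA inc D := by
  obtain ⟨w, hw⟩ := hh
  have h1 : ∀ v, hvyA inc D v ∧ ¬ D v → h ≤ 2 * tauA inc D v := by
    rintro v ⟨hv | ⟨-, hv⟩, hD⟩
    · exact absurd hv hD
    · have h2 := hv w
      have h3 := totA_ins (inc := inc) D v
      have h4 := totA_ins (inc := inc) D w
      omega
  calc nc (fun v => hvyA inc D v ∧ ¬ D v) * h = sm (fun v => hvyA inc D v ∧ ¬ D v) (fun _ => h) :=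
        (sm_const h).symm
    _ ≤ sm (fun _ : V => True) (fun v => 2 * tauA inc D v) := sm_mono (fun _ _ => trivial) h1
    _ = 2 * sm (fun _ : V => True) (tauA inc D) := sm_mul 2
    _ ≤ 2 * (K * totA inc D) := Nat.mul_le_mul_left _ (tauA_sum hK D)
    _ = 2 * K * totA inc D := by ring

/-- Job HVA. After a step the numbers are at most half of the largest one: a vertex `v` which is not in `hvyA inc D` satisfies `2 * tauA inc D v < h` for the largest number `h`; for `v` in the set the number is 0; `tauA` is antitone in `D`. (If `totA inc D = 0` then `tauA inc D w = 0` for all `w`.) -/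
theorem hvy_half {h : ℕ} {D : V → Prop} (hh : ∀ w, tauA inc D w ≤ h) (w : V) : 2 * tauA inc (hvyA inc D) w ≤ h := by
  have h1 : tauA inc (hvyA inc D) w ≤ tauA inc D w := hva_mono (fun v hv => Or.inl hv) w
  by_cases hw : hvyA inc D w
  · have h2 : tauA inc (hvyA inc D) w = 0 := nc_zero fun p hp => hp.1 w hp.2 hw
    omega
  · unfold hvyA at hw
    push Not at hw
    obtain ⟨-, hw⟩ := hw
    rcases Nat.eq_zero_or_pos (totA inc D) with h0 | h0
    · have h2 := hva_tau_le (inc := inc) D w
      omega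
    · obtain ⟨w', hw'⟩ := hw h0
      have h3 := totA_ins (inc := inc) D w
      have h4 := totA_ins (inc := inc) D w'
      have h5 := hh w'
      omega

private theorem hvb_bound (i : ℕ) : ∀ w, tauA inc (dlA inc i) w * 2 ^ i ≤ Fintype.card P := by
  induction i with
  | zero =>
    intro w
    rw [pow_zero, mul_one]
    exact nc_le
  | succ i ih =>
    intro w
    have h1 : dlA inc (i + 1) = hvyA inc (dlA inc i) := Function.iterate_succ_apply' _ _ _
    have hpos : 0 < 2 ^ i := by positivity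
    have h2 := hvy_half (inc := inc) (D := dlA inc i) (h := Fintype.card P / 2 ^ i)
      (fun w => (Nat.le_div_iff_mul_le hpos).2 (ih w)) w
    rw [h1]
    rw [Nat.le_div_iff_mul_le hpos] at h2
    calc tauA inc (hvyA inc (dlA inc i)) w * 2 ^ (i + 1) = 2 * tauA inc (hvyA inc (dlA inc i)) w * 2 ^ i := by ring
      _ ≤ _ := h2

private theorem hvb_avoid {μ : ℕ} (F : Fin μ → P)
    (hF : ∀ i j, i ≠ j → ∀ v, inc (F i) v → ¬ inc (F j) v) {D : V → Prop} (hD : nc D < μ) :
    ∃ k, ∀ v, inc (F k) v → ¬ D v := by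
  by_contra hcon
  push Not at hcon
  choose e he using hcon
  have h1 : nc (fun _ : Fin μ => True) ≤ nc D := by
    refine nc_inj e (fun a _ => (he a).2) (fun a a' _ _ h => ?_)
    by_contra hne
    exact hF a a' hne (e a) (he a).1 (h ▸ (he a').1)
  rw [nc_univ, Fintype.card_fin] at h1
  omega

/-- Job HVB. **Main lemma.** Suppose not. Let `t i = totA inc (dlA inc i)` and `h i` = the largest `tauA inc (dlA inc i) w`. Claim for `i ≤ I`: `I * nc (dlA inc i) ≤ i * (μ - 1)`, so `nc (dlA inc i) < μ` (if `0 < i ≤ I`; `i = 0`: the set is empty), so some `F k` avoids `dlA inc i` (disjointness: an injection from `Fin μ` to the vertices in `dlA inc i` otherwise)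
and `0 < t i`. Step: `i < I` and `0 < t i`, so by assumption there is `w` with `2 * K * I * t i < μ * tauA inc (dlA inc i) w ≤ μ * h i`, and by `hvy_card` `nc (new) * h i ≤ 2 * K * t i`, hence `I * nc (new) * h i < μ * h i`, `I * nc (new) ≤ μ - 1`. On the other hand `h i * 2 ^ i ≤ card P < 2 ^ I` (`hvy_half`), so `h I = 0`, but `0 < t I`
and a path which avoids `dlA inc I` has a vertex (`h1`). Contradiction. (`I = 0`: then `card P < 1`, but `F 0` is a path.) -/
theorem heavy_main {K I μ : ℕ} (hI : Fintype.card P < 2 ^ I) (h1 : ∀ p, ∃ v, inc p v) (hK : ∀ p, nc (inc p) ≤ K) (hμ : 1 ≤ μ) (F : Fin μ → P)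
    (hF : ∀ i j, i ≠ j → ∀ v, inc (F i) v → ¬ inc (F j) v) :
    ∃ i < I, 0 < totA inc (dlA inc i) ∧ ∀ w, μ * tauA inc (dlA inc i) w ≤ 2 * K * I * totA inc (dlA inc i) := by
  by_contra hcon
  push Not at hcon
  have hI0 : 0 < I := by
    rcases Nat.eq_zero_or_pos I with h0 | h0
    · exfalso
      rw [h0, pow_zero, Nat.lt_one_iff] at hI
      have := Fintype.card_pos_iff.2 (⟨F ⟨0, hμ⟩⟩ : Nonempty P)
      omega
    · exact h0
  have hav : ∀ i, i ≤ I → I * nc (dlA inc i) ≤ i * (μ - 1) → ∃ k, ∀ v, inc (F k) v → ¬ dlA inc i v := by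
    intro i hi h
    refine hvb_avoid F hF ?_
    by_contra hge
    have h2 : I * μ ≤ I * nc (dlA inc i) := Nat.mul_le_mul_left _ (by omega)
    have h3 : i * (μ - 1) ≤ I * (μ - 1) := Nat.mul_le_mul_right _ hi
    have h4 : I * (μ - 1) < I * μ := Nat.mul_lt_mul_of_pos_left (by omega) hI0
    omega
  have hmain : ∀ i, i ≤ I → I * nc (dlA inc i) ≤ i * (μ - 1) := by
    intro i
    induction i with
    | zero =>
      intro _
      have : nc (dlA inc 0) = 0 := nc_zero fun v hv => hv
      rw [this]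
      simp
    | succ i ih =>
      intro hi
      have ih' := ih (by omega)
      obtain ⟨k, hk⟩ := hav i (by omega) ih'
      have ht : 0 < totA inc (dlA inc i) := nc_pos.2 ⟨F k, hk⟩
      obtain ⟨w, hw⟩ := hcon i (by omega) ht
      haveI : Nonempty V := ⟨w⟩
      obtain ⟨w₀, hw₀⟩ := Finite.exists_max (tauA inc (dlA inc i))
      have h2 := hvy_card hK (D := dlA inc i) (h := tauA inc (dlA inc i) w₀) ⟨w₀, le_rfl⟩
      have h3 : dlA inc (i + 1) = hvyA inc (dlA inc i) := Function.iterate_succ_apply' _ _ _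
      set h := tauA inc (dlA inc i) w₀ with hh
      set t := totA inc (dlA inc i) with htt
      set m := nc (fun v => hvyA inc (dlA inc i) v ∧ ¬ dlA inc i v) with hm
      have h4 : I * m * h < μ * h := by
        calc I * m * h = I * (m * h) := by ring
          _ ≤ I * (2 * K * t) := Nat.mul_le_mul_left _ h2
          _ = 2 * K * I * t := by ring
          _ < μ * tauA inc (dlA inc i) w := hw
          _ ≤ μ * h := Nat.mul_le_mul_left _ (hw₀ w)
      have h5 : I * m < μ := Nat.lt_of_mul_lt_mul_right h4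
      have h6 : nc (dlA inc (i + 1)) ≤ nc (dlA inc i) + m := by
        rw [h3]
        have h7 := sm_split (P := hvyA inc (dlA inc i)) (f := fun _ => 1) (dlA inc i)
        have h8 : sm (fun v => hvyA inc (dlA inc i) v ∧ dlA inc i v) (fun _ => 1) ≤ nc (dlA inc i) :=
          nc_mono fun v hv => hv.2
        have h9 : nc (hvyA inc (dlA inc i)) = sm (fun v => hvyA inc (dlA inc i) v ∧ dlA inc i v) (fun _ => 1) + m := h7
        omega
      calc I * nc (dlA inc (i + 1)) ≤ I * (nc (dlA inc i) + m) := Nat.mul_le_mul_left _ h6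
        _ = I * nc (dlA inc i) + I * m := by ring
        _ ≤ i * (μ - 1) + (μ - 1) := by omega
        _ = (i + 1) * (μ - 1) := by ring
  obtain ⟨k, hk⟩ := hav I le_rfl (hmain I le_rfl)
  obtain ⟨w, hw⟩ := h1 (F k)
  have h2 : 0 < tauA inc (dlA inc I) w := nc_pos.2 ⟨F k, hk, hw⟩
  have h3 := hvb_bound (inc := inc) I w
  have h4 : 1 * 2 ^ I ≤ tauA inc (dlA inc I) w * 2 ^ I := Nat.mul_le_mul_right _ h2
  omega

end

variable {S V : Type} [Fintype S] [Fintype V] {N : Net S V} {J I μ i : ℕ}

omit [Fintype V] in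
private theorem hvc_tot (D : V → Prop) : N.tot D J = totA (N.inc J) D := tot_nc

/-- Job HVC. (`tot_nc`: `N.tot D J = totA (N.inc J) D`.) -/
theorem dl_eq : N.dl J i = dlA (N.inc J) i := by
  unfold Net.dl dlA
  have h : N.hvy J = hvyA (N.inc J) := by
    funext D v
    unfold Net.hvy hvyA
    simp only [hvc_tot]
  rw [h]

omit [Fintype S] in
private theorem hvc_list (h2 : ∀ z, nc (N.oc z) ≤ 2) (l : List S) : nc (fun v => ∃ z ∈ l, N.oc z v) ≤ 2 * l.length := by
  classical
  induction l with
  | nil =>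
    rw [nc_zero]
    · exact Nat.zero_le _
    · rintro v ⟨z, hz, -⟩
      exact absurd hz List.not_mem_nil
  | cons z l ih =>
    have h3 : nc (fun v => ∃ y ∈ z :: l, N.oc y v) ≤ nc (N.oc z) + nc (fun v => ∃ y ∈ l, N.oc y v) := by
      rw [nc_def, nc_def, nc_def]
      refine (Finset.card_le_card ?_).trans (Finset.card_union_le _ _)
      intro v hv
      rw [Finset.mem_filter] at hv
      rw [Finset.mem_union, Finset.mem_filter, Finset.mem_filter]
      obtain ⟨-, y, hy, hv⟩ := hv
      rcases List.mem_cons.1 hy with rfl | hy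
      · exact Or.inl ⟨Finset.mem_univ _, hv⟩
      · exact Or.inr ⟨Finset.mem_univ _, y, hy, hv⟩
    rw [List.length_cons]
    have h4 := h2 z
    omega

/-- Job HVC. `heavy_main` for `P = N.Pth J`, `inc = N.inc J`, `K = 2 * J` (at most `J` states, each occupies at most 2 vertices), `card P ≤ card S ^ J` (`tot_nc` for `D = ∅`, `tot_le`), `totA_ins`. -/
theorem net_heavy (hI : Fintype.card S ^ J < 2 ^ I) (h1 : ∀ z, ∃ v, N.oc z v) (h2 : ∀ z, nc (N.oc z) ≤ 2) (hμ : 1 ≤ μ) (F : Fin μ → List S)
    (hF : ∀ i, ∃ z, N.st z ∧ N.Run (fun _ => False) z (F i) ∧ (F i).length ≤ J)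
    (hd : ∀ i i', i ≠ i' → ∀ z ∈ F i, ∀ z' ∈ F i', ∀ v, N.oc z v → ¬ N.oc z' v) :
    ∃ i < I, 0 < N.tot (N.dl J i) J ∧ ∀ w, μ * N.tot (N.dl J i) J ≤ μ * N.tot (ins (N.dl J i) w) J + 4 * J * I * N.tot (N.dl J i) J := by
  have hcard : Fintype.card (N.Pth J) < 2 ^ I := by
    have h3 : Fintype.card (N.Pth J) = N.tot (fun _ => False) J := by
      rw [← nc_univ, tot_nc]
      exact nc_congr fun p => ⟨fun _ _ _ h => h, fun _ => trivial⟩
    rw [h3]
    exact lt_of_le_of_lt tot_le hI
  have hne : ∀ p : N.Pth J, ∃ v, N.inc J p v := by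
    rintro ⟨l, z, hz, hr, hl⟩
    obtain ⟨l', hl'⟩ := run_head hr
    obtain ⟨v, hv⟩ := h1 z
    have hzl : z ∈ l := by
      rw [hl']
      exact List.mem_cons_self
    exact ⟨v, z, hzl, hv⟩
  have hK : ∀ p : N.Pth J, nc (N.inc J p) ≤ 2 * J := by
    rintro ⟨l, z, hz, hr, hl⟩
    exact (hvc_list h2 l).trans (Nat.mul_le_mul_left 2 hl)
  obtain ⟨i, hi, hpos, hw⟩ := heavy_main (inc := N.inc J) (K := 2 * J) (I := I) (μ := μ) hcard hne hK hμ
    (fun i => ⟨F i, hF i⟩) (by
      rintro i j hij v ⟨z, hz, hv⟩ ⟨z', hz', hv'⟩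
      exact hd i j hij z hz z' hz' v hv hv')
  refine ⟨i, hi, ?_, ?_⟩
  · rw [dl_eq, hvc_tot]
    exact hpos
  · intro w
    rw [dl_eq, hvc_tot, hvc_tot]
    have h3 := totA_ins (inc := N.inc J) (dlA (N.inc J) i) w
    have h4 := hw w
    calc μ * totA (N.inc J) (dlA (N.inc J) i) =
        μ * totA (N.inc J) (ins (dlA (N.inc J) i) w) + μ * tauA (N.inc J) (dlA (N.inc J) i) w := by
          rw [← mul_add, h3]
      _ ≤ μ * totA (N.inc J) (ins (dlA (N.inc J) i) w) + 2 * (2 * J) * I * totA (N.inc J) (dlA (N.inc J) i) :=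
          Nat.add_le_add_left h4 _
      _ = _ := by ring

end Pool.Agent.EXA
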