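import Pool.Agent.Lib.MP_0087d5_lc.EXA.RoundE
import Pool.Agent.Lib.MP_0087d5_lc.EXA.Defs

/-!
# The iteration

Jobs LPA (`loop`), LPB (`rounds`), LPC (`it_ncp`), LPD (`df_le`, `loc_of_lam`), LPE (`sAug_it`), LPF (`arith_N`).
-/

set_option linter.all false

namespace Pool.Agent.EXA

open Relation Finset Pool.Agent.PMNC Pool.Agent.AUG Pool.Agent.UPM Pool.Agent.SUB

private theorem lpa_sum {X : Type*} (O : X → X) (p : X → ℕ) (C i : ℕ) (x : X) (m : ℕ)
    (h3 : ∀ j, j < m → ∃ f, p (O^[j] x) ≤ C * f ∧ p (O^[j + 1] x) + f ≤ p (O^[j] x))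
    (hp : ∀ j, j ≤ m → 2 ^ i ≤ p (O^[j] x)) : C * p (O^[m] x) + m * 2 ^ i ≤ C * p x := by
  induction m with
  | zero => simp
  | succ m ih =>
    have h1 := ih (fun j hj => h3 j (by omega)) (fun j hj => hp j (by omega))
    obtain ⟨f, hf1, hf2⟩ := h3 m (by omega)
    have h4 := hp m (by omega)
    have h5 : C * (p (O^[m + 1] x) + f) ≤ C * p (O^[m] x) := Nat.mul_le_mul_left _ hf2
    rw [mul_add] at h5
    have h6 : (m + 1) * 2 ^ i = m * 2 ^ i + 2 ^ i := by ring
    rw [h6]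
    omega

private theorem lpa_half {X : Type*} (O : X → X) (p : X → ℕ) (C i : ℕ) (hC : 0 < C) (x : X)
    (h3 : ∀ j, j < C → ∃ f, p (O^[j] x) ≤ C * f ∧ p (O^[j + 1] x) + f ≤ p (O^[j] x))
    (hx : p x < 2 ^ (i + 1)) : p (O^[C] x) < 2 ^ i := by
  by_contra h
  push Not at h
  have hmono : ∀ j, j ≤ C → p (O^[C] x) ≤ p (O^[j] x) := by
    intro j hj
    induction hj using Nat.decreasingInduction with
    | self => exact le_rfl
    | of_succ k hk ih =>
      obtain ⟨f, hf1, hf2⟩ := h3 k hk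
      omega
  have h1 := lpa_sum O p C i x C h3 (fun j hj => h.trans (hmono j hj))
  have h2 : C * 2 ^ i ≤ C * p (O^[C] x) := Nat.mul_le_mul_left _ h
  have h4 : C * p x < C * 2 ^ (i + 1) := Nat.mul_lt_mul_of_pos_left hx hC
  rw [pow_succ] at h4
  have h5 : C * (2 ^ i * 2) = C * 2 ^ i + C * 2 ^ i := by ring
  omega

private theorem lpa_zero {X : Type*} (O : X → X) (p : X → ℕ) (C s : ℕ) (hC : 0 < C) (x : X)
    (h3 : ∀ j, j < C * s → ∃ f, p (O^[j] x) ≤ C * f ∧ p (O^[j + 1] x) + f ≤ p (O^[j] x))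
    (hx : p x < 2 ^ s) : p (O^[C * s] x) < 1 := by
  induction s generalizing x with
  | zero => simpa using hx
  | succ s ih =>
    have h1 := lpa_half O p C s hC x (fun j hj => h3 j (by rw [mul_add]; nlinarith)) hx
    have h2 := ih (O^[C] x) (fun j hj => by
      have := h3 (C + j) (by rw [mul_add]; omega)
      rw [← Function.iterate_add_apply, ← Function.iterate_add_apply]
      rw [show j + C = C + j by omega, show j + 1 + C = C + j + 1 by omega]
      exact this) h1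
    rw [← Function.iterate_add_apply] at h2
    rw [show C * (s + 1) = C * s + C by ring]
    exact h2

/-- Job LPA. Claim: as long as `L` does not change (and is less than `B`) and `Mx` fails, `C` steps take `p < 2 ^ (i + 1)` to `p < 2 ^ i` (if `2 ^ i ≤ p` during `C` steps, each step decreases `p` by some `f` with `2 ^ i ≤ C * f`, the sum of the `C` numbers `f` is at least `2 ^ i`), so after `C * s` steps `p = 0`, a contradiction.
So `L` increases within `C * s` steps, or `Mx` holds; by induction. -/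
theorem loop {X : Type*} (O : X → X) (Mx : X → Prop) (L p : X → ℕ) (B C s : ℕ) (hC : 0 < B → 0 < C) (h0 : ∀ x, Mx x → Mx (O x)) (h2 : ∀ x, ¬ Mx (O x) → L x ≤ L (O x))
    (h3 : ∀ x, ¬ Mx (O x) → L (O x) = L x → L x < B → ∃ f, p x ≤ C * f ∧ p (O x) + f ≤ p x)
    (h4 : ∀ x, ¬ Mx x → 1 ≤ p x ∧ p x < 2 ^ s) (x₀ : X) {N : ℕ} (hN : B * (C * s) ≤ N) : Mx (O^[N] x₀) ∨ B ≤ L (O^[N] x₀) := by
  -- `Mx` persists
  have hMx : ∀ x, ∀ j, Mx x → Mx (O^[j] x) := by
    intro x j hx
    induction j with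
    | zero => exact hx
    | succ j ih =>
      rw [Function.iterate_succ_apply']
      exact h0 _ ih
  have hMx' : ∀ x, ∀ j k, j ≤ k → ¬ Mx (O^[k] x) → ¬ Mx (O^[j] x) := by
    intro x j k hjk hk hj
    apply hk
    have := hMx _ (k - j) hj
    rw [← Function.iterate_add_apply, Nat.sub_add_cancel hjk] at this
    exact this
  -- `L` is monotone as long as `Mx` fails
  have hL : ∀ x, ∀ j k, j ≤ k → ¬ Mx (O^[k] x) → L (O^[j] x) ≤ L (O^[k] x) := by
    intro x j k hjk hk
    induction hjk using Nat.decreasingInduction with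
    | self => exact le_rfl
    | of_succ m hm ih =>
      refine le_trans ?_ ih
      rw [Function.iterate_succ_apply']
      apply h2
      rw [← Function.iterate_succ_apply' O]
      exact hMx' x (m + 1) k (by omega) hk
  -- in `C * s` steps `L` increases
  have key : ∀ x, ¬ Mx (O^[C * s] x) → L x < B → L x < L (O^[C * s] x) := by
    intro x hx hB
    by_contra hc
    have h5 : L (O^[C * s] x) = L x := le_antisymm (by omega) (hL x 0 _ (Nat.zero_le _) hx)
    have h6 : ∀ j, j ≤ C * s → L (O^[j] x) = L x := by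
      intro j hj
      have e1 := hL x j _ hj hx
      have e2 := hL x 0 j (Nat.zero_le _) (hMx' x j _ hj hx)
      simp only [Function.iterate_zero, id_eq] at e2
      omega
    have hx0 : ¬ Mx x := hMx' x 0 _ (Nat.zero_le _) hx
    have h7 : ∀ j, j < C * s → ∃ f, p (O^[j] x) ≤ C * f ∧ p (O^[j + 1] x) + f ≤ p (O^[j] x) := by
      intro j hj
      rw [Function.iterate_succ_apply']
      apply h3
      · rw [← Function.iterate_succ_apply' O]
        exact hMx' x (j + 1) _ (by omega) hx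
      · rw [← Function.iterate_succ_apply' O, h6 (j + 1) (by omega), h6 j (by omega)]
      · rw [h6 j (by omega)]
        exact hB
    have e1 := lpa_zero O p C s (hC (by omega)) x h7 (h4 x hx0).2
    have e2 := (h4 _ hx).1
    omega
  by_cases hM : Mx (O^[N] x₀)
  · exact Or.inl hM
  right
  have hi : ∀ i, i ≤ B → i ≤ L (O^[i * (C * s)] x₀) := by
    intro i
    induction i with
    | zero => intro _; exact Nat.zero_le _
    | succ i ih =>
      intro hi
      have e1 := ih (by omega)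
      have e2 : i * (C * s) ≤ N := le_trans (Nat.mul_le_mul_right _ (by omega)) hN
      have e3 : (i + 1) * (C * s) ≤ N := le_trans (Nat.mul_le_mul_right _ hi) hN
      have e4 : O^[(i + 1) * (C * s)] x₀ = O^[C * s] (O^[i * (C * s)] x₀) := by
        rw [← Function.iterate_add_apply]
        congr 1
        ring
      have e5 : ¬ Mx (O^[(i + 1) * (C * s)] x₀) := hMx' x₀ _ _ e3 hM
      by_cases hB : L (O^[i * (C * s)] x₀) < B
      · rw [e4] at e5 ⊢
        have := key _ e5 hB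
        omega
      · have e6 := hL x₀ (i * (C * s)) ((i + 1) * (C * s)) (Nat.mul_le_mul_right _ (by omega)) e5
        omega
  exact (hi B le_rfl).trans (hL x₀ _ _ hN hM)

variable {n : ℕ} {G M M' : SimpleGraph (Fin n)} {a b e k K N : ℕ}

private theorem lpb_mat (ha : 1 ≤ a) (he : EOk (4 * a) b (8 * a) (b + 1) e) (h : IsMat G M) : IsMat G (rE a b e n G M) := by
  by_cases hn : Mxl G (mt M)
  · rw [rE_mx h hn]
    exact h
  · exact (rE_sp ha he h hn).1

private theorem lpb_cv (ha : 1 ≤ a) (he : EOk (4 * a) b (8 * a) (b + 1) e) (h : IsMat G M) : cv (mt M) ≤ cv (mt (rE a b e n G M)) := by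
  by_cases hn : Mxl G (mt M)
  · rw [rE_mx h hn]
  · obtain ⟨f, hf, -⟩ := (rE_sp ha he h hn).2
    rw [hf.2.1]
    exact Nat.le_add_right _ _

private theorem lpb_pos (hm : Mate G (mt M)) (hn : ¬ Mxl G (mt M)) : 1 ≤ pk G (mt M) := by
  classical
  obtain ⟨S, hS⟩ := lam_mem hn
  obtain ⟨ν, hν, hc, hx⟩ := ap_aug hm hS
  refine le_pk (m' := ν) ⟨hν, by rw [hc], ?_⟩
  rw [one_mul, ← ap_card hm hS]
  unfold df
  refine Finset.card_le_card fun w hw => ?_
  by_contra hw'
  exact (Finset.mem_filter.1 hw).2 (hx w hw').symm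

private theorem lpb_iter (ha : 1 ≤ a) (he : EOk (4 * a) b (8 * a) (b + 1) e) (h : IsMat G M) (j : ℕ) :
    IsMat G ((rE a b e n G)^[j] M) ∧ cv (mt M) ≤ cv (mt ((rE a b e n G)^[j] M)) := by
  induction j with
  | zero => exact ⟨h, le_rfl⟩
  | succ j ih =>
    rw [Function.iterate_succ_apply']
    exact ⟨lpb_mat ha he ih.1, ih.2.trans (lpb_cv ha he ih.1)⟩

/-- Job LPB. `loop` for `X = {M // IsMat G M}`, `O = rE a b e n G`, `Mx M = Mxl G (mt M)`, `L M = lam G (mt M)`, `p M = pk G (mt M)`, `B = JJ a b n`, `C = 256 * JJ (4 * a) b n ^ 3 * JJ (8 * a) (b + 1) n`, `s = Nat.size n` (`rE_sp`, `rE_mx`, `sp_lam`, `sp_pk`, `pk_spec`, `le_pk`; `1 ≤ pk`: `lam_mem`, `ap_aug`, `ap_card`; `sp_le`). -/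
theorem rounds (ha : 1 ≤ a) (he : EOk (4 * a) b (8 * a) (b + 1) e) (h : IsMat G M)
    (hN : JJ a b n * (256 * JJ (4 * a) b n ^ 3 * JJ (8 * a) (b + 1) n * Nat.size n) ≤ N) :
    IsMat G ((rE a b e n G)^[N] M) ∧ cv (mt M) ≤ cv (mt ((rE a b e n G)^[N] M)) ∧
      (Mxl G (mt ((rE a b e n G)^[N] M)) ∨ JJ a b n ≤ lam G (mt ((rE a b e n G)^[N] M))) := by
  obtain ⟨h1, h2⟩ := lpb_iter ha he h N
  refine ⟨h1, h2, ?_⟩
  have hmx : ∀ x : {M // IsMat G M}, Mxl G (mt x.1) → rE a b e n G x.1 = x.1 := fun x hx => rE_mx x.2 hx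
  have hit : ∀ j, ((fun x : {M // IsMat G M} => (⟨rE a b e n G x.1, lpb_mat ha he x.2⟩ : {M // IsMat G M}))^[j] ⟨M, h⟩).1 = (rE a b e n G)^[j] M := by
    intro j
    induction j with
    | zero => rfl
    | succ j ih =>
      rw [Function.iterate_succ_apply', Function.iterate_succ_apply', ← ih]
  have key := loop (X := {M // IsMat G M}) (fun x => ⟨rE a b e n G x.1, lpb_mat ha he x.2⟩) (fun x => Mxl G (mt x.1)) (fun x => lam G (mt x.1))
    (fun x => pk G (mt x.1)) (JJ a b n) (256 * JJ (4 * a) b n ^ 3 * JJ (8 * a) (b + 1) n) (Nat.size n)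
    (fun hB => by
      have h5 : 0 < a * Nat.size n := Nat.pos_of_ne_zero fun h6 => by
        rw [JJ, h6, zero_pow (Nat.succ_ne_zero b)] at hB
        exact lt_irrefl _ hB
      have h6 : 0 < Nat.size n := Nat.pos_of_mul_pos_left h5
      have h7 : 0 < 4 * a * Nat.size n := by positivity
      have h8 : 0 < 8 * a * Nat.size n := by positivity
      exact Nat.mul_pos (Nat.mul_pos (by norm_num) (Nat.pow_pos (Nat.pow_pos h7))) (Nat.pow_pos h8))
    (fun x hx => by
      show Mxl G (mt (rE a b e n G x.1))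
      rw [rE_mx x.2 hx]
      exact hx)
    (fun x hx => by
      have hx' : ¬ Mxl G (mt (rE a b e n G x.1)) := hx
      have hn : ¬ Mxl G (mt x.1) := fun h' => hx' (by rw [rE_mx x.2 h']; exact h')
      obtain ⟨f, hf, -⟩ := (rE_sp ha he x.2 hn).2
      exact sp_lam (mt_mate x.2).1 hf hx')
    (fun x hx hL hlt => by
      have hx' : ¬ Mxl G (mt (rE a b e n G x.1)) := hx
      have hL' : lam G (mt (rE a b e n G x.1)) = lam G (mt x.1) := hL
      have hn : ¬ Mxl G (mt x.1) := fun h' => hx' (by rw [rE_mx x.2 h']; exact h')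
      obtain ⟨f, hf, hf'⟩ := (rE_sp ha he x.2 hn).2
      obtain ⟨ν, hν⟩ := pk_spec (mt_mate x.2).1
      exact ⟨f, hf' hlt ν _ hν, sp_pk hf (mt_mate (lpb_mat ha he x.2)).1 hL'⟩)
    (fun x hx => by
      refine ⟨lpb_pos (mt_mate x.2).1 hx, ?_⟩
      obtain ⟨ν, hν⟩ := pk_spec (mt_mate x.2).1
      have h3 := sp_le hν
      have h4 := Nat.lt_size_self n
      show pk G (mt x.1) < 2 ^ Nat.size n
      omega)
    ⟨M, h⟩ hN
  rw [← hit N]
  exact key

/-- The input with the matching replaced by the graph of the current relation. -/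
private def lpc_dec (n : ℕ) (s : GS2 n × RelF (Fin 2) Unit n) : GS2 n :=
  (s.1.1, SimpleGraph.fromRel (fun p q => s.2 () ![p, q]))

private theorem lpc_readers (ι : Type) (_ : Finite ι) (P : RF GS2 ι) (h : GB2 ι P) :
    NCP (fun n => GS2 n × RelF (Fin 2) Unit n) (Ext GB2 (Fin 2) Unit) ι (fun n s x => P n (lpc_dec n s) x) := by
  cases h with
  | fst => exact NCP.base inferInstance (Ext.old GB2.fst)
  | snd =>
    have h1 : NCP (fun n => GS2 n × RelF (Fin 2) Unit n) (Ext GB2 (Fin 2) Unit) (Fin 2) (fun _ s x => s.2 () x) :=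
      NCP.base inferInstance (Ext.new ())
    have h2 : NCP (fun n => GS2 n × RelF (Fin 2) Unit n) (Ext GB2 (Fin 2) Unit) (Fin 2) (fun _ s x => s.2 () ![x 0, x 1]) := by
      refine h1.congr fun n s x => ?_
      have e : ![x 0, x 1] = x := by
        funext i
        fin_cases i <;> rfl
      rw [e]
    have h3 : NCP (fun n => GS2 n × RelF (Fin 2) Unit n) (Ext GB2 (Fin 2) Unit) (Fin 2) (fun _ s x => s.2 () ![x 1, x 0]) :=
      (NCP.comap (κ := Fin 2) inferInstance ![1, 0] h2).congr fun n s x => Iff.rfl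
    refine (NCP.and (NCP.not (NCP.eq inferInstance 0 1)) (NCP.or h2 h3)).congr fun n s x => ?_
    show _ ↔ (SimpleGraph.fromRel (fun p q => s.2 () ![p, q])).Adj (x 0) (x 1)
    rw [SimpleGraph.fromRel_adj]

private theorem lpc_size {A : ∀ n : ℕ, SimpleGraph (Fin n) → SimpleGraph (Fin n) → SimpleGraph (Fin n)}
    (hA : NCP GS2 GB2 (Fin 2) (fun n s x => (A n s.1 s.2).Adj (x 0) (x 1))) :
    NCP GS2 GB2 (Fin 2) (fun n s x => ((A n s.1)^[Nat.size (n - 1)] s.2).Adj (x 0) (x 1)) := by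
  have hF : ∀ _ : Unit, NCP (fun n => GS2 n × RelF (Fin 2) Unit n) (Ext GB2 (Fin 2) Unit) (Fin 2)
      (fun n s x => (A n (lpc_dec n s).1 (lpc_dec n s).2).Adj (x 0) (x 1)) := fun _ =>
    NCP.pull (S := GS2) (B := GB2) lpc_dec lpc_readers hA
  have hH : ∀ _ : Unit, NCP GS2 GB2 (Fin 2) (fun n s x => s.2.Adj (x 0) (x 1)) := fun _ => NCP.base inferInstance GB2.snd
  have h := NCP.iter (S := GS2) (B := GB2) (κ := Fin 2) (Fl := Unit) inferInstance
    (H := fun _ n s x => s.2.Adj (x 0) (x 1))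
    (F := fun _ n s x => (A n (lpc_dec n s).1 (lpc_dec n s).2).Adj (x 0) (x 1)) hH hF ()
  refine h.congr fun n s x => ?_
  have key : ∀ j : ℕ, ((fun (R : RelF (Fin 2) Unit n) (_ : Unit) (x : Fin 2 → Fin n) =>
      (A n (lpc_dec n (s, R)).1 (lpc_dec n (s, R)).2).Adj (x 0) (x 1))^[j] (fun _ x => s.2.Adj (x 0) (x 1))) =
      fun _ x => ((A n s.1)^[j] s.2).Adj (x 0) (x 1) := by
    intro j
    induction j with
    | zero => rfl
    | succ j ihj =>
      rw [Function.iterate_succ_apply', ihj, Function.iterate_succ_apply']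
      have e : (lpc_dec n (s, fun (_ : Unit) (x : Fin 2 → Fin n) => ((A n s.1)^[j] s.2).Adj (x 0) (x 1))).2 =
          (A n s.1)^[j] s.2 := by
        ext p q
        unfold lpc_dec
        rw [SimpleGraph.fromRel_adj]
        show p ≠ q ∧ (((A n s.1)^[j] s.2).Adj p q ∨ ((A n s.1)^[j] s.2).Adj q p) ↔ _
        constructor
        · rintro ⟨-, h1 | h1⟩
          · exact h1
          · exact h1.symm
        · intro h1
          exact ⟨h1.ne, Or.inl h1⟩
      funext _ y
      rw [e]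
      rfl
  exact iff_of_eq (congrFun (congrFun (key (Nat.size (n - 1))) ()) x)

private theorem lpc_comp {A B : ∀ n : ℕ, SimpleGraph (Fin n) → SimpleGraph (Fin n) → SimpleGraph (Fin n)} (hA : NCP GS2 GB2 (Fin 2) (fun n s x => (A n s.1 s.2).Adj (x 0) (x 1)))
    (hB : NCP GS2 GB2 (Fin 2) (fun n s x => (B n s.1 s.2).Adj (x 0) (x 1))) : NCP GS2 GB2 (Fin 2) (fun n s x => (A n s.1 (B n s.1 s.2)).Adj (x 0) (x 1)) := by
  have hr : ∀ (ι : Type) (_ : Finite ι) (P : RF GS2 ι), GB2 ι P →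
      NCP GS2 GB2 ι (fun n s x => P n ((s.1, B n s.1 s.2) : GS2 n) x) := by
    intro ι _ P h
    cases h with
    | fst => exact NCP.base inferInstance GB2.fst
    | snd => exact hB
  exact NCP.pull (S := GS2) (B := GB2) (S' := GS2) (fun n (s : GS2 n) => ((s.1, B n s.1 s.2) : GS2 n)) hr hA

private theorem lpc_pow {A : ∀ n : ℕ, SimpleGraph (Fin n) → SimpleGraph (Fin n) → SimpleGraph (Fin n)}
    (hA : NCP GS2 GB2 (Fin 2) (fun n s x => (A n s.1 s.2).Adj (x 0) (x 1))) (c : ℕ) :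
    NCP GS2 GB2 (Fin 2) (fun n s x => ((A n s.1)^[Nat.size (n - 1) ^ c] s.2).Adj (x 0) (x 1)) := by
  induction c with
  | zero => exact hA
  | succ c ih =>
    have h := lpc_size (A := fun n G => (A n G)^[Nat.size (n - 1) ^ c]) ih
    refine h.congr fun n s x => ?_
    rw [pow_succ, Function.iterate_mul]

/-- Job LPC. Iterating a graph function: `k`-fold composition by induction on `k`, then `Nat.size (n - 1)`-fold iterations `c` times; model: `q3_it` in `AUG/SearchProg.lean` (the private `ye_dec`, `ye_readers` can be copied). -/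
theorem it_ncp {A : ∀ n : ℕ, SimpleGraph (Fin n) → SimpleGraph (Fin n) → SimpleGraph (Fin n)} (hA : NCP GS2 GB2 (Fin 2) (fun n s x => (A n s.1 s.2).Adj (x 0) (x 1)))
    (k c : ℕ) : NCP GS2 GB2 (Fin 2) (fun n s x => ((A n s.1)^[k * Nat.size (n - 1) ^ c] s.2).Adj (x 0) (x 1)) := by
  induction k with
  | zero =>
    have h : NCP GS2 GB2 (Fin 2) (fun n s x => s.2.Adj (x 0) (x 1)) := NCP.base inferInstance GB2.snd
    refine h.congr fun n s x => ?_
    rw [Nat.zero_mul, Function.iterate_zero_apply]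
  | succ k ih =>
    have h := lpc_comp (A := fun n G => (A n G)^[Nat.size (n - 1) ^ c])
      (B := fun n G => (A n G)^[k * Nat.size (n - 1) ^ c]) (lpc_pow hA c) ih
    refine h.congr fun n s x => ?_
    rw [Nat.succ_mul, Nat.add_comm, Function.iterate_add_apply]

/-- Job LPC. Composition of graph functions. -/
theorem comp_ncp {A B : ∀ n : ℕ, SimpleGraph (Fin n) → SimpleGraph (Fin n) → SimpleGraph (Fin n)} (hA : NCP GS2 GB2 (Fin 2) (fun n s x => (A n s.1 s.2).Adj (x 0) (x 1)))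
    (hB : NCP GS2 GB2 (Fin 2) (fun n s x => (B n s.1 s.2).Adj (x 0) (x 1))) : NCP GS2 GB2 (Fin 2) (fun n s x => (A n s.1 (B n s.1 s.2)).Adj (x 0) (x 1)) := by
  exact lpc_comp hA hB

private theorem lpd_edge (h : IsMat G M) (h' : IsMat G M') (w : Fin n) (hw : mt M w ≠ mt M' w) :
    ∃ e ∈ symmDiff M'.edgeSet M.edgeSet, w ∈ e := by
  by_cases h1 : mt M w = w
  · have h2 : mt M' w ≠ w := fun h2 => hw (h1.trans h2.symm)
    refine ⟨s(w, mt M' w), Or.inl ⟨?_, ?_⟩, Sym2.mem_mk_left _ _⟩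
    · rw [SimpleGraph.mem_edgeSet, (mt_mate h').2]
      exact ⟨rfl, h2.symm⟩
    · rw [SimpleGraph.mem_edgeSet, (mt_mate h).2]
      rintro ⟨h3, -⟩
      exact hw h3
  · refine ⟨s(w, mt M w), Or.inr ⟨?_, ?_⟩, Sym2.mem_mk_left _ _⟩
    · rw [SimpleGraph.mem_edgeSet, (mt_mate h).2]
      exact ⟨rfl, fun h3 => h1 h3.symm⟩
    · rw [SimpleGraph.mem_edgeSet, (mt_mate h').2]
      rintro ⟨h3, -⟩
      exact hw h3.symm

/-- Job LPD. Every vertex with different mates is an end of an edge of the symmetric difference. -/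
theorem df_le (h : IsMat G M) (h' : IsMat G M') : df (mt M) (mt M') ≤ 2 * (symmDiff M'.edgeSet M.edgeSet).ncard := by
  classical
  unfold df
  have hex : ∀ w, ∃ e : Sym2 (Fin n), w ∈ univ.filter (fun w => mt M w ≠ mt M' w) → e ∈ symmDiff M'.edgeSet M.edgeSet ∧ w ∈ e := by
    intro w
    by_cases hw : mt M w = mt M' w
    · exact ⟨s(w, w), fun h3 => absurd hw (Finset.mem_filter.1 h3).2⟩
    · obtain ⟨e, he, hwe⟩ := lpd_edge h h' w hw
      exact ⟨e, fun _ => ⟨he, hwe⟩⟩
  choose ed hed using hex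
  have h1 := Finset.card_le_mul_card_image (f := ed) (univ.filter (fun w => mt M w ≠ mt M' w)) 2 (fun b hb => by
    induction b with
    | h x y =>
      refine (Finset.card_le_card (t := {x, y}) fun w hw => ?_).trans Finset.card_le_two
      rw [Finset.mem_filter] at hw
      have h3 := (hed w hw.1).2
      rw [hw.2, Sym2.mem_iff] at h3
      rw [Finset.mem_insert, Finset.mem_singleton]
      exact h3)
  refine h1.trans (Nat.mul_le_mul_left _ ?_)
  rw [← Set.ncard_coe_finset]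
  refine Set.ncard_le_ncard (fun b hb => ?_) (Set.toFinite _)
  obtain ⟨w, hw, rfl⟩ := Finset.mem_image.1 (Finset.mem_coe.1 hb)
  exact (hed w hw).1

/-- Job LPD. (`dec_lb`, `df_le`, `cv_mt`, `mxl_of_cv`.) -/
theorem loc_of_lam (h : IsMat G M) (hl : Mxl G (mt M) ∨ k ≤ lam G (mt M)) : LocMax G M k := by
  intro M' h' hk
  by_contra hlt
  push Not at hlt
  have hm := (mt_mate h).1
  have hm' := (mt_mate h').1
  have h1 := cv_mt h
  have h2 := cv_mt h'
  rcases hl with hl | hl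
  · have h3 := (mxl_of_cv hm).1 hl _ hm'
    omega
  · have h3 := dec_lb hm hm' (k := M'.edgeSet.ncard - M.edgeSet.ncard) (by omega)
    have h4 := df_le h h'
    obtain ⟨g, hg⟩ : ∃ g, M'.edgeSet.ncard - M.edgeSet.ncard = g + 1 := ⟨M'.edgeSet.ncard - M.edgeSet.ncard - 1, by omega⟩
    rw [hg] at h3
    have h5 : 2 * lam G (mt M) + 2 ≤ (g + 1) * (2 * lam G (mt M) + 2) := Nat.le_mul_of_pos_left _ (Nat.succ_pos g)
    omega

/-- Job LPE. `K` augmentations along shortest paths. (`sAug_spec`, `sp_lam`, `cv_mt`, `isMaxMat_iff_mxl`.) -/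
theorem sAug_it (h : IsMat G M) (K : ℕ) :
    IsMat G ((sAug n G)^[K] M) ∧ (IsMaxMat G ((sAug n G)^[K] M) ∨ (M.edgeSet.ncard + K ≤ ((sAug n G)^[K] M).edgeSet.ncard ∧
      lam G (mt M) ≤ lam G (mt ((sAug n G)^[K] M)))) := by
  have hA : ASpec G (sAug n G) := sAug_spec
  induction K with
  | zero => exact ⟨h, Or.inr ⟨le_rfl, le_rfl⟩⟩
  | succ K ih =>
    rw [Function.iterate_succ_apply']
    obtain ⟨h1, h2⟩ := ih
    have h3 : IsMat G (sAug n G ((sAug n G)^[K] M)) := hA.mat _ h1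
    refine ⟨h3, ?_⟩
    by_cases h4 : Mxl G (mt (sAug n G ((sAug n G)^[K] M)))
    · exact Or.inl ((isMaxMat_iff_mxl h3).2 h4)
    · right
      have h5 : ¬ Mxl G (mt ((sAug n G)^[K] M)) := fun h6 => h4 (hA.mx _ h1 h6)
      rcases h2 with h2 | ⟨h2, h2'⟩
      · exact absurd ((isMaxMat_iff_mxl h1).1 h2) h5
      · have h6 := hA.sp _ h1 h5
        have h7 := sp_lam (mt_mate h1).1 h6 h4
        have h8 := h6.2.1
        rw [cv_mt h1, cv_mt h3] at h8
        exact ⟨by omega, h2'.trans h7⟩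

private theorem lpf_size {n : ℕ} (hn : 2 ≤ n) : Nat.size n ≤ 2 * Nat.size (n - 1) := by
  have h1 : 1 ≤ Nat.size (n - 1) := by
    rw [Nat.one_le_iff_ne_zero]
    intro h
    rw [Nat.size_eq_zero] at h
    omega
  have h2 : n - 1 < 2 ^ Nat.size (n - 1) := Nat.lt_size_self _
  have h3 : Nat.size n ≤ Nat.size (n - 1) + 1 := by
    rw [Nat.size_le, pow_succ]
    omega
  omega

/-- Job LPF. For every `a`, `b` the numbers of rounds are at most `k * Nat.size (n - 1) ^ c` for `2 ≤ n`. (`Nat.size n ≤ 2 * Nat.size (n - 1)` for `2 ≤ n`.) -/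
theorem arith_rounds (a b : ℕ) : ∃ k c, ∀ n, 2 ≤ n → JJ a b n * (256 * JJ (4 * a) b n ^ 3 * JJ (8 * a) (b + 1) n * Nat.size n) ≤ k * Nat.size (n - 1) ^ c := by
  refine ⟨a ^ (b + 1) * (256 * ((4 * a) ^ (b + 1)) ^ 3 * (8 * a) ^ (b + 2)) * 2 ^ (5 * b + 7), 5 * b + 7, fun n hn => ?_⟩
  have e1 : JJ a b n * (256 * JJ (4 * a) b n ^ 3 * JJ (8 * a) (b + 1) n * Nat.size n) =
      a ^ (b + 1) * (256 * ((4 * a) ^ (b + 1)) ^ 3 * (8 * a) ^ (b + 2)) * Nat.size n ^ (5 * b + 7) := by
    unfold JJ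
    rw [mul_pow, mul_pow, mul_pow _ (Nat.size n)]
    ring
  rw [e1]
  refine (Nat.mul_le_mul_left _ (Nat.pow_le_pow_left (lpf_size hn) _)).trans (le_of_eq ?_)
  rw [mul_pow 2 (Nat.size (n - 1)), ← mul_assoc]

end Pool.Agent.EXA
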