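import Pool.Agent.Lib.MP_0087d5_lc.EXA.LoopE
import Pool.Agent.Lib.MP_0087d5_lc.AUG.Compile2
import Pool.Agent.Lib.MP_0087d5_lc.SUB.Main

/-!
# Locally maximal matchings in NC

Jobs MEA (`exa_F`), MEB (`exa_D`).
-/

set_option linter.all false

namespace Pool.Agent.EXA

open Relation Finset Pool.Agent.PMNC Pool.Agent.AUG Pool.Agent.UPM Pool.Agent.SUB

/-- Bound for the number of augmentations. -/
private theorem mea_log (c : ℕ) {n : ℕ} (hn : 2 ≤ n) : Nat.log 2 n ^ c ≤ 1 * Nat.size (n - 1) ^ c := by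
  rw [one_mul]
  apply Nat.pow_le_pow_left
  have h1 : 1 ≤ Nat.log 2 n := Nat.log_pos one_lt_two hn
  have h2 : 2 ^ Nat.log 2 n ≤ n := Nat.pow_log_le_self 2 (by omega)
  have h3 : Nat.log 2 n - 1 < Nat.size (n - 1) := by
    rw [Nat.lt_size]
    obtain ⟨l, hl⟩ : ∃ l, Nat.log 2 n = l + 1 := ⟨Nat.log 2 n - 1, by omega⟩
    rw [hl] at h2 ⊢
    rw [pow_succ] at h2
    simp only [Nat.add_sub_cancel]
    have := Nat.one_le_two_pow (n := l)
    omega
  omega

/-- Bound for the length of the shortest augmenting paths. -/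
private theorem mea_JJ (c : ℕ) {n : ℕ} (hn : 2 ≤ n) : Nat.log 2 n ^ c ≤ JJ 1 c n := by
  have h1 : Nat.log 2 n ≤ Nat.size n := by
    have h2 : 2 ^ Nat.log 2 n ≤ n := Nat.pow_log_le_self 2 (by omega)
    exact (Nat.lt_size.2 h2).le
  have h3 : 1 ≤ Nat.size n := Nat.size_pos.2 (by omega)
  show Nat.log 2 n ^ c ≤ (1 * Nat.size n) ^ (c + 1)
  rw [one_mul]
  exact (Nat.pow_le_pow_left h1 c).trans (Nat.pow_le_pow_right h3 (Nat.le_succ c))

/-- Job MEA. `F n G M = (sAug n G)^[1 * Nat.size (n - 1) ^ c] ((rE 1 c e n G)^[k' * Nat.size (n - 1) ^ c'] M)` with `e` from `exists_e`, `k'`, `c'` from `arith_rounds` (`JJ 1 c n = Nat.size n ^ (c + 1) ≥ Nat.log 2 n ^ c`); `q_rE`, `q_sAug`, `it_ncp`, `comp_ncp`. If the matching after the rounds is not maximum then `lam ≥ JJ 1 c n`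
(`rounds`), so it is locally maximal (`loc_of_lam`), and `Impr` gives that `Nat.log 2 n ^ c ≤ Nat.size (n - 1) ^ c` augmentations are enough (`sAug_it`). (`n ≤ 1`: all matchings are empty.) -/
theorem exa_F (c : ℕ) : ∃ F : ∀ n : ℕ, SimpleGraph (Fin n) → SimpleGraph (Fin n) → SimpleGraph (Fin n),
    NCP GS2 GB2 (Fin 2) (fun n s x => (F n s.1 s.2).Adj (x 0) (x 1)) ∧
    ∀ (n : ℕ) (G M : SimpleGraph (Fin n)), IsMat G M → IsMat G (F n G M) ∧ (F n G M = M ↔ IsMaxMat G M) ∧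
      (IsMaxMat G (F n G M) ∨ M.edgeSet.ncard + Nat.log 2 n ^ c ≤ (F n G M).edgeSet.ncard) ∧
      LocMax G (F n G M) (Nat.log 2 n ^ c) ∧ (Impr G (Nat.log 2 n ^ c) → IsMaxMat G (F n G M)) := by
  classical
  obtain ⟨e, he⟩ := exists_e (4 * 1) c (8 * 1) (c + 1)
  obtain ⟨k', c', har⟩ := arith_rounds 1 c
  refine ⟨fun n G M => (sAug n G)^[1 * Nat.size (n - 1) ^ c] ((rE 1 c e n G)^[k' * Nat.size (n - 1) ^ c'] M),
    comp_ncp (A := fun n G M => (sAug n G)^[1 * Nat.size (n - 1) ^ c] M) (B := fun n G M => (rE 1 c e n G)^[k' * Nat.size (n - 1) ^ c'] M)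
      (it_ncp (A := fun n G M => sAug n G M) q_sAug 1 c) (it_ncp (A := fun n G M => rE 1 c e n G M) (q_rE he) k' c'), ?_⟩
  intro n G M hM
  rcases Nat.lt_or_ge n 2 with hn | hn
  · have hs : Subsingleton (Fin n) := Fin.subsingleton_iff_le_one.2 (by omega)
    have hsub : ∀ A B : SimpleGraph (Fin n), A = B := by
      intro A B
      ext x y
      rw [Subsingleton.elim x y]
      exact ⟨fun h => (A.loopless.irrefl _ h).elim, fun h => (B.loopless.irrefl _ h).elim⟩
    set F := (sAug n G)^[1 * Nat.size (n - 1) ^ c] ((rE 1 c e n G)^[k' * Nat.size (n - 1) ^ c'] M) with hF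
    have hFM : F = M := hsub F M
    show IsMat G F ∧ (F = M ↔ IsMaxMat G M) ∧ (IsMaxMat G F ∨ M.edgeSet.ncard + Nat.log 2 n ^ c ≤ F.edgeSet.ncard) ∧
      LocMax G F (Nat.log 2 n ^ c) ∧ (Impr G (Nat.log 2 n ^ c) → IsMaxMat G F)
    rw [hFM]
    have hmx : IsMaxMat G M := ⟨hM, fun N _ => by rw [hsub N M]⟩
    refine ⟨hM, ⟨fun _ => hmx, fun _ => rfl⟩, Or.inl hmx, fun M' _ _ => ?_, fun _ => hmx⟩
    rw [hsub M' M]
  · obtain ⟨h1, h2, h3⟩ := rounds (a := 1) (b := c) (e := e) le_rfl he hM (har n hn)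
    set M1 := (rE 1 c e n G)^[k' * Nat.size (n - 1) ^ c'] M with hM1
    obtain ⟨h4, h5⟩ := sAug_it h1 (1 * Nat.size (n - 1) ^ c)
    set M2 := (sAug n G)^[1 * Nat.size (n - 1) ^ c] M1 with hM2
    show IsMat G M2 ∧ (M2 = M ↔ IsMaxMat G M) ∧ (IsMaxMat G M2 ∨ M.edgeSet.ncard + Nat.log 2 n ^ c ≤ M2.edgeSet.ncard) ∧
      LocMax G M2 (Nat.log 2 n ^ c) ∧ (Impr G (Nat.log 2 n ^ c) → IsMaxMat G M2)
    have hMM1 : M.edgeSet.ncard ≤ M1.edgeSet.ncard := by
      rw [cv_mt hM, cv_mt h1] at h2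
      omega
    have hJ := mea_JJ c hn
    have hK := mea_log c hn
    have hl1 : Mxl G (mt M1) ∨ Nat.log 2 n ^ c ≤ lam G (mt M1) := h3.imp id (fun h => hJ.trans h)
    have hmax : IsMaxMat G M2 ∨ (M1.edgeSet.ncard + 1 * Nat.size (n - 1) ^ c ≤ M2.edgeSet.ncard ∧ Nat.log 2 n ^ c ≤ lam G (mt M2)) := by
      rcases h5 with h5 | ⟨h5, h6⟩
      · exact Or.inl h5
      · rcases hl1 with h7 | h7
        · left
          have h8 := (isMaxMat_iff_mxl h1).2 h7
          exact ⟨h4, fun N hN => (h8.2 N hN).trans (by omega)⟩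
        · exact Or.inr ⟨h5, h7.trans h6⟩
    refine ⟨h4, ⟨fun h => ?_, fun h => ?_⟩, ?_, ?_, ?_⟩
    · rcases hmax with h' | h'
      · rwa [h] at h'
      · exfalso
        have h7 : 1 ≤ Nat.size (n - 1) := Nat.size_pos.2 (by omega)
        have h8 : 1 ≤ Nat.size (n - 1) ^ c := Nat.one_le_pow _ _ h7
        have h9 := h'.1
        rw [h] at h9
        omega
    · have h7 := (isMaxMat_iff_mxl hM).1 h
      have h8 : M1 = M := Function.iterate_fixed (rE_mx hM h7) _
      have h9 : sAug n G M = M := sAug_fix hM h7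
      rw [hM2, h8]
      exact Function.iterate_fixed h9 _
    · rcases hmax with h | h
      · exact Or.inl h
      · right
        have := h.1
        omega
    · apply loc_of_lam h4
      rcases hmax with h | h
      · exact Or.inl ((isMaxMat_iff_mxl h4).1 h)
      · exact Or.inr h.2
    · intro hI
      rcases hmax with h | h
      · exact h
      · refine ⟨h4, fun N hN => ?_⟩
        have h9 := hI M1 h1 (loc_of_lam h1 hl1) N hN
        omega

/-- A matching subgraph (as a graph) which covers all vertices gives a perfect matching. -/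
private theorem meb_pm {n : ℕ} {G M : SimpleGraph (Fin n)} (h : IsMat G M) (hc : ∀ x, ∃ y, M.Adj x y) :
    ∃ P : G.Subgraph, P.IsPerfectMatching := by
  refine ⟨⟨Set.univ, M.Adj, fun {v w} hvw => h.1 hvw, fun {v w} _ => Set.mem_univ v, ?_⟩, ?_, ?_⟩
  · exact M.symm
  · intro v _
    obtain ⟨w, hw⟩ := hc v
    exact ⟨w, hw, fun w' hw' => h.2 v w' w hw' hw⟩
  · intro v
    exact Set.mem_univ v

private theorem meb_bot {n : ℕ} (G : SimpleGraph (Fin n)) : IsMat G ⊥ :=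
  ⟨bot_le, fun v w w' hw _ => absurd hw (by simp)⟩

/-- A program with input `(G, M)` gives a program with input `G`. -/
private theorem meb_pull {F : ∀ n : ℕ, SimpleGraph (Fin n) → SimpleGraph (Fin n) → SimpleGraph (Fin n)}
    (hF : NCP GS2 GB2 (Fin 2) (fun n s x => (F n s.1 s.2).Adj (x 0) (x 1))) :
    NCP GS GB (Fin 2) (fun n (G : SimpleGraph (Fin n)) x => (F n G ⊥).Adj (x 0) (x 1)) := by
  have h := NCP.pull (S' := GS) (B' := GB) (fun n (G : SimpleGraph (Fin n)) => ((G, ⊥) : GS2 n)) (fun ι hι P hP => ?_) hF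
  · exact h
  · cases hP with
    | fst => exact NCP.base inferInstance GB.adj
    | snd =>
      refine NCP.congr (NCP.const (S := GS) (B := GB) (ι := Fin 2) inferInstance False) (fun n s x => ?_)
      simp

/-- Job MEB. `D n G`: all vertices are covered by `F n G ⊥`. (`NCP.pull` of the program for `F` to the input `(G, ⊥)`, `inNC_of_NCP`; a perfect matching subgraph from a matching which covers all vertices and conversely: `SUB.pm_iff`.) -/
theorem exa_D (c : ℕ) : ∃ D : ∀ n : ℕ, SimpleGraph (Fin n) → Prop, UPM.InNC D ∧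
    ∀ (n : ℕ) (G : SimpleGraph (Fin n)), (D n G → ∃ P : G.Subgraph, P.IsPerfectMatching) ∧ (Impr G (Nat.log 2 n ^ c) → (∃ P : G.Subgraph, P.IsPerfectMatching) → D n G) := by
  obtain ⟨F, hF, hS⟩ := exa_F c
  refine ⟨fun n G => ∀ x, ∃ y, (F n G ⊥).Adj x y, ?_, fun n G => ⟨fun h => ?_, fun hI hP => ?_⟩⟩
  · have h1 := meb_pull hF
    have h2 : NCP GS GB (Option (Option Empty)) (fun n (G : SimpleGraph (Fin n)) x => (F n G ⊥).Adj (x (some none)) (x none)) :=
      NCP.rel2 (S := GS) (B := GB) (R := fun n (G : SimpleGraph (Fin n)) (a b : Fin n) => (F n G ⊥).Adj a b) inferInstance h1 (some none) none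
    have h3 := NCP.all (NCP.ex h2)
    exact inNC_of_NCP h3
  · exact meb_pm (hS n G ⊥ (meb_bot G)).1 h
  · exact (pm_iff ((hS n G ⊥ (meb_bot G)).2.2.2.2 hI)).1 hP

end Pool.Agent.EXA
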