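import Pool.Agent.Lib.MP_0087d5_lc.EXA.Base

/-!
# Nets and the numbers of their runs

A net has states `S` (with start states `st`, moves `mv`, final states `tm`) and every state occupies some vertices: `oc z v`. A complete run from `z` is a sequence of states `z, …` connected by moves, with the last one final and the others not final.
`cnt D j z` = the number of complete runs from `z` with at most `j` states which avoid the set `D` of vertices. Ranks `rk` decrease along the moves.
Jobs NTA (`cnt_*`, `tot_*`), NTB (`run_*`), NTC (`cnt_ncard`, `tot_ncard`), NTD (`cnt_fix`), NTE (`vis_*`).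
-/

namespace Pool.Agent.EXA

open Finset

/-- A net. -/
structure Net (S V : Type) where
  st : S → Prop
  mv : S → S → Prop
  tm : S → Prop
  oc : S → V → Prop

variable {S V : Type} {N : Net S V} {D D' : V → Prop} {z z' y : S} {v w : V} {j J : ℕ} {l : List S} {rk : S → ℕ}

/-- The state `z` avoids `D`. -/
def Net.al (N : Net S V) (D : V → Prop) (z : S) : Prop := ∀ v, N.oc z v → ¬ D v

/-- Complete runs which avoid `D`. -/
inductive Net.Run (N : Net S V) (D : V → Prop) : S → List S → Prop
  | tm {z : S} : N.al D z → N.tm z → Net.Run N D z [z]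
  | mv {z z' : S} {l : List S} : N.al D z → ¬ N.tm z → N.mv z z' → Net.Run N D z' l → Net.Run N D z (z :: l)

variable [Fintype S]

open Classical in
/-- One step of the computation of the numbers of runs. -/
noncomputable def Net.stp (N : Net S V) (D : V → Prop) (f : S → ℕ) (z : S) : ℕ :=
  if N.al D z then (if N.tm z then 1 else sm (N.mv z) f) else 0

/-- The number of complete runs from `z` with at most `j` states which avoid `D`. -/
noncomputable def Net.cnt (N : Net S V) (D : V → Prop) (j : ℕ) : S → ℕ := (N.stp D)^[j] (fun _ => 0)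

/-- The number of complete runs from start states. -/
noncomputable def Net.tot (N : Net S V) (D : V → Prop) (j : ℕ) : ℕ := sm N.st (N.cnt D j)

/-- `v` is in `D` or the number of runs through `v` is at least half of the largest such number. -/
def Net.hvy (N : Net S V) (j : ℕ) (D : V → Prop) (v : V) : Prop :=
  D v ∨ (0 < N.tot D j ∧ ∀ w, 2 * N.tot (ins D v) j ≤ N.tot D j + N.tot (ins D w) j)

/-- The sets of deleted vertices. -/
def Net.dl (N : Net S V) (j i : ℕ) : V → Prop := (N.hvy j)^[i] (fun _ => False)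

/-! ### Job NTA -/

/-- Job NTA. (`Function.iterate_succ_apply'`.) -/
theorem cnt_zero : N.cnt D 0 z = 0 := by
  rfl

/-- Job NTA. -/
theorem cnt_succ : N.cnt D (j + 1) z = N.stp D (N.cnt D j) z := by
  unfold Net.cnt
  rw [Function.iterate_succ_apply']

/-- Job NTA. -/
theorem cnt_al (h : 0 < N.cnt D j z) : N.al D z := by
  rcases j with _ | j
  · rw [cnt_zero] at h
    exact absurd h (lt_irrefl _)
  · by_contra h1
    rw [cnt_succ, Net.stp, if_neg h1] at h
    exact lt_irrefl _ h

/-- Job NTA. Induction on `j`: `cnt D (j + 1) z ≤ max 1 (card S * card S ^ (j - 1))`. -/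
theorem cnt_le : N.cnt D (j + 1) z ≤ Fintype.card S ^ j := by
  induction j generalizing z with
  | zero =>
    rw [cnt_succ, Net.stp, pow_zero]
    split_ifs with h1 h2
    · exact le_rfl
    · rw [sm_zero fun a _ => cnt_zero]
      exact Nat.zero_le _
    · exact Nat.zero_le _
  | succ j ih =>
    have hpos : 0 < Fintype.card S := Fintype.card_pos_iff.2 ⟨z⟩
    rw [cnt_succ, Net.stp]
    split_ifs with h1 h2
    · exact Nat.one_le_pow _ _ hpos
    · calc sm (N.mv z) (N.cnt D (j + 1)) ≤ nc (N.mv z) * Fintype.card S ^ j := sm_le_const fun a _ => ih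
        _ ≤ Fintype.card S * Fintype.card S ^ j := Nat.mul_le_mul_right _ nc_le
        _ = Fintype.card S ^ (j + 1) := by rw [pow_succ, mul_comm]
    · exact Nat.zero_le _

/-- Job NTA. (The case `j = 0`: `tot = 0`.) -/
theorem tot_le : N.tot D j ≤ Fintype.card S ^ j := by
  unfold Net.tot
  rcases j with _ | j
  · rw [sm_zero fun a _ => cnt_zero]
    exact Nat.zero_le _
  · calc sm N.st (N.cnt D (j + 1)) ≤ nc N.st * Fintype.card S ^ j := sm_le_const fun a _ => cnt_le
      _ ≤ Fintype.card S * Fintype.card S ^ j := Nat.mul_le_mul_right _ nc_le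
      _ = Fintype.card S ^ (j + 1) := by rw [pow_succ, mul_comm]

private theorem nta_stp {f g : S → ℕ} (h : ∀ v, D v → D' v) (hf : ∀ z, f z ≤ g z) : N.stp D' f z ≤ N.stp D g z := by
  unfold Net.stp
  by_cases h1 : N.al D' z
  · have h2 : N.al D z := fun v hv hD => h1 v hv (h v hD)
    rw [if_pos h1, if_pos h2]
    split_ifs with h3
    · exact le_rfl
    · exact sm_mono (fun _ => id) fun a _ => hf a
  · rw [if_neg h1]
    exact Nat.zero_le _

/-- Job NTA. Induction on `j`. -/
theorem cnt_anti (h : ∀ v, D v → D' v) : N.cnt D' j z ≤ N.cnt D j z := by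
  induction j generalizing z with
  | zero => rw [cnt_zero, cnt_zero]
  | succ j ih =>
    rw [cnt_succ, cnt_succ]
    exact nta_stp h fun _ => ih

/-- Job NTA. -/
theorem tot_anti (h : ∀ v, D v → D' v) : N.tot D' j ≤ N.tot D j := by
  unfold Net.tot
  exact sm_mono (fun _ => id) fun a _ => cnt_anti h

private theorem nta_succ : N.cnt D j z ≤ N.cnt D (j + 1) z := by
  induction j generalizing z with
  | zero =>
    rw [cnt_zero]
    exact Nat.zero_le _
  | succ j ih =>
    rw [cnt_succ, cnt_succ]
    exact nta_stp (fun _ => id) fun _ => ih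

/-- Job NTA. Induction on `j`. -/
theorem cnt_mono_j (h : j ≤ J) : N.cnt D j z ≤ N.cnt D J z := by
  induction J, h using Nat.le_induction with
  | base => exact le_rfl
  | succ J _ ih => exact ih.trans nta_succ

/-! ### Job NTB -/

omit [Fintype S] in
/-- Job NTB. -/
theorem run_head (h : N.Run D z l) : ∃ l', l = z :: l' := by
  cases h with
  | tm _ _ => exact ⟨[], rfl⟩
  | mv _ _ _ _ => exact ⟨_, rfl⟩

omit [Fintype S] in
/-- Job NTB. A run avoids `D` iff it is a run and all its states avoid `D`. -/
theorem run_iff : N.Run D z l ↔ N.Run (fun _ => False) z l ∧ ∀ y ∈ l, N.al D y := by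
  constructor
  · intro h
    induction h with
    | tm h1 h2 =>
      refine ⟨Net.Run.tm (fun _ _ h => h) h2, ?_⟩
      intro y hy
      rw [List.mem_singleton] at hy
      rw [hy]
      exact h1
    | mv h1 h2 h3 _ ih =>
      refine ⟨Net.Run.mv (fun _ _ h => h) h2 h3 ih.1, ?_⟩
      intro y hy
      rcases List.mem_cons.1 hy with rfl | hy
      · exact h1
      · exact ih.2 y hy
  · rintro ⟨h, ha⟩
    induction h with
    | tm _ h2 => exact Net.Run.tm (ha _ (List.mem_singleton.2 rfl)) h2
    | mv _ h2 h3 _ ih =>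
      exact Net.Run.mv (ha _ (List.mem_cons.2 (Or.inl rfl))) h2 h3
        (ih fun y hy => ha y (List.mem_cons.2 (Or.inr hy)))

omit [Fintype S] in
/-- Job NTB. -/
theorem run_length (hrk : ∀ z z', N.mv z z' → rk z' < rk z) (h : N.Run D z l) : l.length ≤ rk z + 1 := by
  induction h with
  | tm _ _ => simp
  | mv _ _ h3 _ ih =>
    have := hrk _ _ h3
    rw [List.length_cons]
    omega

omit [Fintype S] in
/-- Job NTB. The ranks decrease, so all states of a run except for the first one have smaller ranks than the first one. -/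
theorem run_rk (hrk : ∀ z z', N.mv z z' → rk z' < rk z) (h : N.Run D z (z :: l)) : ∀ y ∈ l, rk y < rk z := by
  generalize hk : z :: l = k at h
  induction h generalizing l with
  | tm _ _ =>
    rw [List.cons.injEq] at hk
    rw [hk.2]
    intro y hy
    exact absurd hy List.not_mem_nil
  | @mv a b k _ _ h3 h4 ih =>
    rw [List.cons.injEq] at hk
    obtain ⟨l', hl'⟩ := run_head h4
    intro y hy
    rw [hk.2, hl'] at hy
    have h5 := hrk _ _ h3
    rcases List.mem_cons.1 hy with rfl | hy
    · exact h5
    · exact (ih hl'.symm y hy).trans h5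

omit [Fintype S] in
/-- Job NTB. -/
theorem run_nodup (hrk : ∀ z z', N.mv z z' → rk z' < rk z) (h : N.Run D z l) : l.Nodup := by
  induction h with
  | tm _ _ => exact List.nodup_singleton _
  | @mv a b k h1 h2 h3 h4 ih =>
    refine List.nodup_cons.2 ⟨?_, ih⟩
    intro hm
    exact absurd (run_rk hrk (Net.Run.mv h1 h2 h3 h4) a hm) (lt_irrefl _)

omit [Fintype S] in
/-- Job NTB. Every run contains a final state, and only one. -/
theorem run_tm (h : N.Run D z l) : ∃ e ∈ l, N.tm e ∧ ∀ e' ∈ l, N.tm e' → e' = e := by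
  induction h with
  | tm _ h2 =>
    refine ⟨_, List.mem_singleton.2 rfl, h2, ?_⟩
    intro e' he' _
    exact List.mem_singleton.1 he'
  | mv _ h2 _ _ ih =>
    obtain ⟨e, he, hte, hu⟩ := ih
    refine ⟨e, List.mem_cons.2 (Or.inr he), hte, ?_⟩
    intro e' he' hte'
    rcases List.mem_cons.1 he' with rfl | he'
    · exact absurd hte' h2
    · exact hu e' he' hte'

/-! ### Job NTC -/

private theorem ntc_union (ih : ∀ z, {l | N.Run D z l ∧ l.length ≤ j}.Finite ∧
    N.cnt D j z = {l | N.Run D z l ∧ l.length ≤ j}.ncard) (P : S → Prop) :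
    {l | ∃ z, P z ∧ N.Run D z l ∧ l.length ≤ j}.Finite ∧
      sm P (N.cnt D j) = {l | ∃ z, P z ∧ N.Run D z l ∧ l.length ≤ j}.ncard := by
  classical
  have h1 : {l | ∃ z, P z ∧ N.Run D z l ∧ l.length ≤ j} =
      (((univ.filter P).biUnion fun z => (ih z).1.toFinset : Finset (List S)) : Set (List S)) := by
    ext l
    simp only [Set.mem_ofPred_eq, Finset.coe_biUnion, Set.mem_iUnion, Finset.mem_coe, Finset.mem_filter,
      Finset.mem_univ, true_and, Set.Finite.mem_toFinset, exists_prop]
  rw [h1]
  refine ⟨Finset.finite_toSet _, ?_⟩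
  rw [Set.ncard_coe_finset, Finset.card_biUnion, sm_def]
  · refine Finset.sum_congr rfl fun z _ => ?_
    exact (ih z).2.trans (Set.ncard_eq_toFinset_card _ (ih z).1)
  · intro z _ z' _ hzz'
    refine Finset.disjoint_left.2 fun l hl hl' => ?_
    rw [Set.Finite.mem_toFinset] at hl hl'
    obtain ⟨l1, h2⟩ := run_head hl.1
    obtain ⟨l2, h3⟩ := run_head hl'.1
    rw [h2] at h3
    exact hzz' (List.cons.inj h3).1

/-- Job NTC. Induction on `j` for all `z`. The runs from `z` with at most `j + 1` states: `[z]` if `z` is final; otherwise `z :: l` for `mv z z'`, `l` a run from `z'` with at most `j` states (the `z'` is the head of `l`, so the sets for different `z'` are disjoint).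
(One may define the finite sets of runs `runs D j z : Finset (List S)` by recursion with `Finset.biUnion`, `Finset.image`.) -/
theorem cnt_ncard : {l | N.Run D z l ∧ l.length ≤ j}.Finite ∧ N.cnt D j z = {l | N.Run D z l ∧ l.length ≤ j}.ncard := by
  classical
  induction j generalizing z with
  | zero =>
    have h : {l | N.Run D z l ∧ l.length ≤ 0} = ∅ := by
      ext l
      simp only [Set.mem_ofPred_eq, Set.mem_empty_iff_false, iff_false, not_and, not_le]
      intro h
      obtain ⟨l', rfl⟩ := run_head h
      simp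
    rw [h]
    exact ⟨Set.finite_empty, by rw [cnt_zero, Set.ncard_empty]⟩
  | succ j ih =>
    rw [cnt_succ, Net.stp]
    by_cases h1 : N.al D z
    · rw [if_pos h1]
      by_cases h2 : N.tm z
      · rw [if_pos h2]
        have h : {l | N.Run D z l ∧ l.length ≤ j + 1} = {[z]} := by
          ext l
          simp only [Set.mem_ofPred_eq, Set.mem_singleton_iff]
          constructor
          · rintro ⟨h3, -⟩
            cases h3 with
            | tm _ _ => rfl
            | mv _ h4 _ _ => exact absurd h2 h4
          · rintro rfl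
            exact ⟨Net.Run.tm h1 h2, by simp⟩
        rw [h]
        exact ⟨Set.finite_singleton _, by rw [Set.ncard_singleton]⟩
      · rw [if_neg h2]
        obtain ⟨h3, h4⟩ := ntc_union (fun z => ih) (N.mv z)
        have h : {l | N.Run D z l ∧ l.length ≤ j + 1} =
            (fun l => z :: l) '' {l | ∃ z', N.mv z z' ∧ N.Run D z' l ∧ l.length ≤ j} := by
          ext l
          simp only [Set.mem_ofPred_eq, Set.mem_image]
          constructor
          · rintro ⟨h5, h6⟩
            cases h5 with
            | tm _ h7 => exact absurd h7 h2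
            | @mv _ z' l' _ _ h7 h8 =>
              refine ⟨l', ⟨z', h7, h8, ?_⟩, rfl⟩
              rw [List.length_cons] at h6
              omega
          · rintro ⟨l', ⟨z', h7, h8, h9⟩, rfl⟩
            refine ⟨Net.Run.mv h1 h2 h7 h8, ?_⟩
            rw [List.length_cons]
            omega
        rw [h]
        refine ⟨h3.image _, ?_⟩
        rw [Set.ncard_image_of_injective _ (List.cons_injective), h4]
    · rw [if_neg h1]
      have h : {l | N.Run D z l ∧ l.length ≤ j + 1} = ∅ := by
        ext l
        simp only [Set.mem_ofPred_eq, Set.mem_empty_iff_false, iff_false, not_and]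
        intro h
        cases h with
        | tm h3 _ => exact absurd h3 h1
        | mv h3 _ _ _ => exact absurd h3 h1
      rw [h]
      exact ⟨Set.finite_empty, by rw [Set.ncard_empty]⟩

/-- The complete runs from start states with at most `j` states. -/
def Net.Pth (N : Net S V) (j : ℕ) : Type := {l : List S // ∃ z, N.st z ∧ N.Run (fun _ => False) z l ∧ l.length ≤ j}

/-- Job NTC. (A finite union of finite sets.) -/
theorem pth_finite (N : Net S V) (j : ℕ) : Finite (N.Pth j) := by
  exact (ntc_union (fun z => cnt_ncard) N.st).1.to_subtype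

noncomputable instance (N : Net S V) (j : ℕ) : Fintype (N.Pth j) := @Fintype.ofFinite _ (pth_finite N j)

/-- The vertices of a run. -/
def Net.inc (N : Net S V) (j : ℕ) (p : N.Pth j) (v : V) : Prop := ∃ z ∈ p.1, N.oc z v

/-- Job NTC. (`cnt_ncard`, `run_iff`; the start of a run is its head, so the sets for different start states are disjoint.) -/
theorem tot_nc : N.tot D j = nc (fun p : N.Pth j => ∀ v, N.inc j p v → ¬ D v) := by
  rw [nc_ncard, Net.tot, (ntc_union (fun z => cnt_ncard) N.st).2]
  have h : {l | ∃ z, N.st z ∧ N.Run D z l ∧ l.length ≤ j} =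
      Subtype.val '' {p : N.Pth j | ∀ v, N.inc j p v → ¬ D v} := by
    ext l
    simp only [Set.mem_ofPred_eq, Set.mem_image]
    constructor
    · rintro ⟨z, h1, h2, h3⟩
      obtain ⟨h4, h5⟩ := run_iff.1 h2
      refine ⟨⟨l, z, h1, h4, h3⟩, ?_, rfl⟩
      rintro v ⟨y, hy, hv⟩
      exact h5 y hy v hv
    · rintro ⟨⟨l', z, h1, h4, h3⟩, h5, rfl⟩
      refine ⟨z, h1, run_iff.2 ⟨h4, ?_⟩, h3⟩
      intro y hy v hv
      exact h5 v ⟨y, hy, hv⟩
  rw [h]
  exact Set.ncard_image_of_injective _ Subtype.val_injective

/-! ### Job NTD -/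

private theorem ntd_stab (hrk : ∀ z z', N.mv z z' → rk z' < rk z) :
    ∀ (j : ℕ) (z : S), rk z < j → N.cnt D (j + 1) z = N.cnt D j z := by
  intro j
  induction j with
  | zero => exact fun z h => absurd h (Nat.not_lt_zero _)
  | succ j ih =>
    intro z h
    rw [cnt_succ, cnt_succ, Net.stp, Net.stp]
    have h1 : sm (N.mv z) (N.cnt D (j + 1)) = sm (N.mv z) (N.cnt D j) :=
      sm_congr (fun _ => Iff.rfl) fun z' hz' => ih z' (by have := hrk z z' hz'; omega)
    rw [h1]

/-- Job NTD. If the ranks are less than `J` then `J` steps are enough. (`cnt D (j + 1) z = cnt D j z` if `rk z < j`, by induction on `j`.) -/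
theorem cnt_fix (hrk : ∀ z z', N.mv z z' → rk z' < rk z) (hJ : ∀ z, rk z < J) : N.stp D (N.cnt D J) z = N.cnt D J z := by
  rw [← cnt_succ]
  exact ntd_stab hrk J z (hJ z)

/-- Job NTD. -/
theorem cnt_sum (hrk : ∀ z z', N.mv z z' → rk z' < rk z) (hJ : ∀ z, rk z < J) (h : 0 < N.cnt D J z) (ht : ¬ N.tm z) :
    N.cnt D J z = sm (N.mv z) (N.cnt D J) := by
  have h1 := cnt_fix (N := N) (D := D) (z := z) hrk hJ
  rw [Net.stp, if_pos (cnt_al h), if_neg ht] at h1
  exact h1.symm

/-! ### Job NTE: visits -/

open Classical in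
/-- One step of the computation of the numbers of visits. -/
noncomputable def Net.vstp (N : Net S V) (D : V → Prop) (c : S → ℕ) (v : V) (f : S → ℕ) (z : S) : ℕ :=
  (if N.oc z v then c z else 0) + (if N.al D z ∧ ¬ N.tm z then sm (N.mv z) f else 0)

/-- The number of pairs of a run from `z` and a state of this run which occupies `v`. -/
noncomputable def Net.vis (N : Net S V) (D : V → Prop) (J : ℕ) (v : V) : S → ℕ := (N.vstp D (N.cnt D J) v)^[J] (fun _ => 0)

private theorem nte_stab {c : S → ℕ} (hrk : ∀ z z', N.mv z z' → rk z' < rk z) :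
    ∀ (j : ℕ) (z : S), rk z < j → (N.vstp D c v)^[j + 1] (fun _ => 0) z = (N.vstp D c v)^[j] (fun _ => 0) z := by
  intro j
  induction j with
  | zero => exact fun z h => absurd h (Nat.not_lt_zero _)
  | succ j ih =>
    intro z h
    have e1 : (N.vstp D c v)^[j + 1 + 1] (fun _ => 0) z = N.vstp D c v ((N.vstp D c v)^[j + 1] (fun _ => 0)) z := by
      rw [Function.iterate_succ_apply' _ (j + 1)]
    have e2 : (N.vstp D c v)^[j + 1] (fun _ => 0) z = N.vstp D c v ((N.vstp D c v)^[j] (fun _ => 0)) z := by
      rw [Function.iterate_succ_apply' _ j]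
    have h1 : sm (N.mv z) ((N.vstp D c v)^[j + 1] (fun _ => 0)) = sm (N.mv z) ((N.vstp D c v)^[j] (fun _ => 0)) :=
      sm_congr (fun _ => Iff.rfl) fun z' hz' => ih z' (by have := hrk z z' hz'; omega)
    rw [e1, e2, Net.vstp, Net.vstp, h1]

open Classical in
/-- Job NTE. As `cnt_fix`. -/
theorem vis_fix (hrk : ∀ z z', N.mv z z' → rk z' < rk z) (hJ : ∀ z, rk z < J) :
    N.vis D J v z = (if N.oc z v then N.cnt D J z else 0) + (if N.al D z ∧ ¬ N.tm z then sm (N.mv z) (N.vis D J v) else 0) := by
  have h1 := nte_stab (N := N) (D := D) (v := v) (c := N.cnt D J) hrk J z (hJ z)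
  rw [Function.iterate_succ_apply'] at h1
  exact h1.symm

private theorem nte_up {a b x c c' : ℕ} (h : x + a * c' ≤ a * c) (hab : a ≤ b) (hc : c' ≤ c) : x + b * c' ≤ b * c := by
  obtain ⟨d, rfl⟩ := Nat.exists_eq_add_of_le hab
  have h1 : d * c' ≤ d * c := Nat.mul_le_mul_left d hc
  calc x + (a + d) * c' = (x + a * c') + d * c' := by ring
    _ ≤ a * c + d * c := Nat.add_le_add h h1
    _ = (a + d) * c := by ring

private theorem nte_claim (hrk : ∀ z z', N.mv z z' → rk z' < rk z) (hJ : ∀ z, rk z < J) :
    ∀ (k : ℕ) (z : S), rk z = k → N.vis D J v z + (rk z + 1) * N.cnt (ins D v) J z ≤ (rk z + 1) * N.cnt D J z := by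
  classical
  intro k
  induction k using Nat.strong_induction_on with
  | _ k ih =>
    intro z hz
    have hle : ∀ z, N.cnt (ins D v) J z ≤ N.cnt D J z := fun z => cnt_anti fun _ h => Or.inl h
    have ih' : ∀ z', N.mv z z' → N.vis D J v z' + (rk z' + 1) * N.cnt (ins D v) J z' ≤ (rk z' + 1) * N.cnt D J z' :=
      fun z' hz' => ih (rk z') (hz ▸ hrk z z' hz') z' rfl
    rw [vis_fix hrk hJ]
    by_cases h1 : N.oc z v
    · rw [if_pos h1]
      have h2 : N.cnt (ins D v) J z = 0 := by
        by_contra h3
        exact cnt_al (Nat.pos_of_ne_zero h3) v h1 (Or.inr rfl)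
      rw [h2, mul_zero, add_zero]
      by_cases h3 : N.al D z ∧ ¬ N.tm z
      · rw [if_pos h3]
        have h4 := cnt_fix (N := N) (D := D) (z := z) hrk hJ
        rw [Net.stp, if_pos h3.1, if_neg h3.2] at h4
        have h5 : sm (N.mv z) (N.vis D J v) ≤ rk z * N.cnt D J z := by
          rw [← h4, ← sm_mul]
          refine sm_mono (fun _ => id) fun z' hz' => ?_
          calc N.vis D J v z' ≤ N.vis D J v z' + (rk z' + 1) * N.cnt (ins D v) J z' := Nat.le_add_right _ _
            _ ≤ (rk z' + 1) * N.cnt D J z' := ih' z' hz'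
            _ ≤ rk z * N.cnt D J z' := Nat.mul_le_mul_right _ (hrk z z' hz')
        calc N.cnt D J z + sm (N.mv z) (N.vis D J v) ≤ N.cnt D J z + rk z * N.cnt D J z := Nat.add_le_add_left h5 _
          _ = (rk z + 1) * N.cnt D J z := by ring
      · rw [if_neg h3, add_zero]
        exact Nat.le_mul_of_pos_left _ (Nat.succ_pos _)
    · rw [if_neg h1, zero_add]
      by_cases h3 : N.al D z ∧ ¬ N.tm z
      · rw [if_pos h3]
        have h4 := cnt_fix (N := N) (D := D) (z := z) hrk hJ
        rw [Net.stp, if_pos h3.1, if_neg h3.2] at h4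
        have h6 : N.al (ins D v) z := by
          rintro w hw (h7 | h7)
          · exact h3.1 w hw h7
          · rw [h7] at hw
            exact h1 hw
        have h5 := cnt_fix (N := N) (D := ins D v) (z := z) hrk hJ
        rw [Net.stp, if_pos h6, if_neg h3.2] at h5
        rw [← h4, ← h5, ← sm_mul, ← sm_mul, ← sm_add]
        refine sm_mono (fun _ => id) fun z' hz' => ?_
        exact nte_up (ih' z' hz') (by have := hrk z z' hz'; omega) (hle z')
      · rw [if_neg h3, zero_add]
        exact Nat.mul_le_mul_left _ (hle z)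

/-- Job NTE. The number of runs from `z` which visit `v` is `cnt D J z - cnt (ins D v) J z`. Claim: `vis z + (rk z + 1) * cnt (ins D v) J z ≤ (rk z + 1) * cnt D J z`, strong induction on `rk z` (`vis_fix`, `cnt_fix` for `D` and `ins D v`). If `v` is occupied by `z` then `cnt (ins D v) J z = 0` and
`vis z = cnt z + Σ vis z' ≤ cnt z + Σ rk z * cnt z' ≤ (rk z + 1) * cnt z`. Otherwise, if `z` is not final and avoids `D`, `vis z = Σ vis z'`, `cnt (ins D v) J z = Σ cnt (ins D v) J z'`. -/
theorem vis_le (hrk : ∀ z z', N.mv z z' → rk z' < rk z) (hJ : ∀ z, rk z < J) : N.vis D J v z + J * N.cnt (ins D v) J z ≤ J * N.cnt D J z := by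
  exact nte_up (nte_claim hrk hJ (rk z) z rfl) (hJ z) (cnt_anti fun _ h => Or.inl h)

/-- Job NTE. -/
theorem vis_tot (hrk : ∀ z z', N.mv z z' → rk z' < rk z) (hJ : ∀ z, rk z < J) : sm N.st (N.vis D J v) + J * N.tot (ins D v) J ≤ J * N.tot D J := by
  unfold Net.tot
  rw [← sm_mul, ← sm_mul, ← sm_add]
  exact sm_mono (fun _ => id) fun z _ => vis_le hrk hJ

end Pool.Agent.EXA
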