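import Pool.Agent.Lib.MP_0087d5_lc.EXA.Sel

/-!
# Definable numbers

`DefN e f`: the binary digits number `nv i`, `i : QQ e n`, of the numbers `f n G X x` are definable. Sums over definable sets are definable; numbers less than `2 ^ (n ^ e)` can be compared.
Jobs NMA (`iterX`), NMB (`bn_*`, `DefN.comp` … `DefN.bn`), NMC (`carry`, `sum_bit`), NMD (`DefP.nCard`, `DefN.sm`), NME (`DefN.add`, `DefN.lt`, `DefN.le`), NMF (`DefN.iterX`).
-/

set_option linter.all false

namespace Pool.Agent.EXA

open Finset Pool.Agent.PMNC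

section

variable {E F S : ℕ → Type} [Env E] [Env F] [Env S] {e : ℕ}

/-! ### Polylogarithmic iteration with context -/

/-- Job NMA. As `DefP.iterPow` (`PM.lean`), but the operator may use the relation variables. Induction on `d` with `DefP.iter` and `DefP.ctx` (renumbering `0 ↦ 0`, `i + 1 ↦ i + 2`). -/
theorem iterX (c d : ℕ) {Φ : ∀ n : ℕ, SimpleGraph (Fin n) → Ctx n → E n → (S n → Prop) → S n → Prop}
    (hΦ : DefP (E := fun n => E n × S n) (fun n G X y => Φ n G (PMNC.pop X) y.1 (fun s => PMNC.rv X 0 s) y.2)) :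
    DefP (E := fun n => E n × S n)
      (fun n G X y => ((Φ n G (PMNC.pop X) y.1)^[(c * Nat.size n) ^ d] (fun s => PMNC.rv X 0 s)) y.2) := by
  induction d with
  | zero => simpa using hΦ
  | succ d ih =>
    have hI : DefP (E := fun n => E n × S n)
        (fun n (G : SimpleGraph (Fin n)) (X : Ctx n) (y : E n × S n) => PMNC.rv X 0 y.2) :=
      DefP.rv 0 (Tm.snd (F := E) (H := S) Tm.id)
    have hρ : DefP (E := fun n => E n × S n) (fun n (G : SimpleGraph (Fin n)) (X : Ctx n) (y : E n × S n) =>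
        ((Φ n G (PMNC.pop (PMNC.pop X)) y.1)^[(c * Nat.size n) ^ d] (fun s => PMNC.rv X 0 s)) y.2) :=
      (ih.ctx (fun i => match i with
        | 0 => 0
        | i + 1 => i + 2)).congr fun n G X y => Iff.rfl
    have h := DefP.iter (E := E) (S := S) c (I := fun n G X x s => PMNC.rv X 0 s)
      (Φ := fun n G X x R => (Φ n G (PMNC.pop X) x)^[(c * Nat.size n) ^ d] R) hI hρ
    refine h.congr fun n G X y => ?_
    have e : ((Φ n G (PMNC.pop X) y.1)^[(c * Nat.size n) ^ d])^[c * Nat.size n] =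
        (Φ n G (PMNC.pop X) y.1)^[(c * Nat.size n) ^ (d + 1)] := by
      rw [← Function.iterate_mul, pow_succ]
    change (((fun R => (Φ n G (PMNC.pop X) y.1)^[(c * Nat.size n) ^ d] R)^[c * Nat.size n]) _) y.2 ↔ _
    rw [show (fun R => (Φ n G (PMNC.pop X) y.1)^[(c * Nat.size n) ^ d] R) =
      (Φ n G (PMNC.pop X) y.1)^[(c * Nat.size n) ^ d] from rfl, e]

/-- Job NMA. As `DefP.iterPow'`. -/
theorem iterX' (c d : ℕ) {I : ∀ n : ℕ, SimpleGraph (Fin n) → Ctx n → E n → S n → Prop}
    {Φ : ∀ n : ℕ, SimpleGraph (Fin n) → Ctx n → E n → (S n → Prop) → S n → Prop}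
    (hI : DefP (E := fun n => E n × S n) (fun n G X y => I n G X y.1 y.2))
    (hΦ : DefP (E := fun n => E n × S n) (fun n G X y => Φ n G (PMNC.pop X) y.1 (fun s => PMNC.rv X 0 s) y.2)) :
    DefP (E := fun n => E n × S n) (fun n G X y => ((Φ n G X y.1)^[(c * Nat.size n) ^ (d + 1)] (I n G X y.1)) y.2) := by
  have h := DefP.iter (E := E) (S := S) c (I := I)
    (Φ := fun n G X x R => (Φ n G X x)^[(c * Nat.size n) ^ d] R) hI (iterX c d hΦ)
  refine h.congr fun n G X y => ?_
  have e : ((Φ n G X y.1)^[(c * Nat.size n) ^ d])^[c * Nat.size n] =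
      (Φ n G X y.1)^[(c * Nat.size n) ^ (d + 1)] := by
    rw [← Function.iterate_mul, pow_succ]
  change (((fun R => (Φ n G X y.1)^[(c * Nat.size n) ^ d] R)^[c * Nat.size n]) _) y.2 ↔ _
  rw [show (fun R => (Φ n G X y.1)^[(c * Nat.size n) ^ d] R) = (Φ n G X y.1)^[(c * Nat.size n) ^ d]
    from rfl, e]

/-! ### Numbers -/

/-- The family of numbers `f` is definable. -/
def DefN (e : ℕ) (f : ∀ n : ℕ, SimpleGraph (Fin n) → Ctx n → E n → ℕ) : Prop :=
  DefP (E := fun n => E n × QQ e n) (fun n G X y => (f n G X y.1).testBit (nv (S := QQ e) y.2) = true)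

open Classical in
/-- The number with given digits. -/
noncomputable def bn {n : ℕ} (e : ℕ) (R : QQ e n → Prop) : ℕ := sm R (fun i => 2 ^ nv (S := QQ e) i)

private theorem nmb_testBit (T : Finset ℕ) : ∀ k : ℕ, (∑ j ∈ T, 2 ^ j).testBit k = true ↔ k ∈ T := by
  classical
  induction T using Finset.induction_on_max with
  | empty => intro k; simp
  | insert a T ha ih =>
    intro k
    have hna : a ∉ T := fun h => lt_irrefl _ (ha a h)
    rw [Finset.sum_insert hna, Finset.mem_insert]
    rcases lt_trichotomy k a with hk | hk | hk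
    · rw [Nat.testBit_two_pow_add_gt hk, ih k]
      constructor
      · exact Or.inr
      · rintro (h | h)
        · omega
        · exact h
    · subst hk
      rw [Nat.testBit_two_pow_add_eq]
      have h0 : (∑ j ∈ T, 2 ^ j).testBit k = false := by
        cases h : (∑ j ∈ T, 2 ^ j).testBit k with
        | false => rfl
        | true => exact absurd ((ih k).1 h) hna
      rw [h0]
      simp
    · have hlt : 2 ^ a + ∑ j ∈ T, 2 ^ j < 2 ^ k := by
        rw [← Finset.sum_insert (f := fun j : ℕ => 2 ^ j) hna]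
        refine Nat.geomSum_lt le_rfl fun j hj => ?_
        rcases Finset.mem_insert.1 hj with rfl | hj
        · exact hk
        · exact (ha j hj).trans hk
      rw [Nat.testBit_lt_two_pow hlt]
      constructor
      · intro h; exact absurd h (by simp)
      · rintro (h | h)
        · omega
        · have := ha k h
          omega

open Classical in
private theorem nmb_sum {n : ℕ} (R : QQ e n → Prop) :
    bn e R = ∑ j ∈ (univ.filter R).map ⟨nv (S := QQ e), nv_injective⟩, 2 ^ j := by
  rw [bn, sm_def, Finset.sum_map]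
  rfl

private theorem nmb_dim : dim (QQ e) = e := Nat.mul_one e

private theorem nmb_nv_lt {n : ℕ} (i : QQ e n) : nv (S := QQ e) i < n ^ e := by
  have h := nv_lt (S := QQ e) i
  rwa [nmb_dim] at h

private theorem nmb_nv_surj {n m : ℕ} (h : m < n ^ e) : ∃ i : QQ e n, nv (S := QQ e) i = m := by
  refine nv_surj (S := QQ e) ?_
  rwa [nmb_dim]

/-- Job NMB. (`nv_injective`.) -/
theorem bn_bit {n : ℕ} (R : QQ e n → Prop) (i : QQ e n) : (bn e R).testBit (nv (S := QQ e) i) = true ↔ R i := by
  classical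
  rw [nmb_sum, nmb_testBit, Finset.mem_map]
  constructor
  · rintro ⟨j, hj, hji⟩
    have h : j = i := nv_injective hji
    rw [← h]
    exact (Finset.mem_filter.1 hj).2
  · intro h
    exact ⟨i, Finset.mem_filter.2 ⟨Finset.mem_univ _, h⟩, rfl⟩

/-- Job NMB. -/
theorem bn_lt {n : ℕ} (R : QQ e n → Prop) : bn e R < 2 ^ (n ^ e) := by
  classical
  rw [nmb_sum]
  refine Nat.geomSum_lt le_rfl fun j hj => ?_
  obtain ⟨i, _, rfl⟩ := Finset.mem_map.1 hj
  exact nmb_nv_lt i

/-- Job NMB. (`dim (QQ e) = e * 1`; `nv` is a bijection onto the numbers less than `n ^ e`.) -/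
theorem bn_mod {n : ℕ} (a : ℕ) : bn e (fun i : QQ e n => a.testBit (nv (S := QQ e) i) = true) = a % 2 ^ (n ^ e) := by
  refine Nat.eq_of_testBit_eq fun j => ?_
  rw [Nat.testBit_mod_two_pow]
  by_cases hj : j < n ^ e
  · obtain ⟨i, rfl⟩ := nmb_nv_surj (e := e) hj
    have h := bn_bit (fun i : QQ e n => a.testBit (nv (S := QQ e) i) = true) i
    rw [decide_eq_true hj, Bool.true_and]
    exact Bool.eq_iff_iff.2 h
  · rw [decide_eq_false hj, Bool.false_and]
    exact Nat.testBit_lt_two_pow (lt_of_lt_of_le (bn_lt _) (Nat.pow_le_pow_right (by norm_num) (not_lt.1 hj)))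

/-- Job NMB. -/
theorem DefN.congr {f g : ∀ n : ℕ, SimpleGraph (Fin n) → Ctx n → E n → ℕ} (hf : DefN e f) (h : ∀ n G X x, f n G X x % 2 ^ (n ^ e) = g n G X x % 2 ^ (n ^ e)) : DefN e g := by
  refine DefP.congr (E := fun n => E n × QQ e n) hf fun n G X y => ?_
  have h1 := congrArg (fun a : ℕ => a.testBit (nv (S := QQ e) y.2)) (h n G X y.1)
  simp only [Nat.testBit_mod_two_pow, decide_eq_true (nmb_nv_lt y.2), Bool.true_and] at h1
  rw [h1]

/-- Job NMB. -/
theorem DefN.comp {f : ∀ n : ℕ, SimpleGraph (Fin n) → Ctx n → F n → ℕ} (hf : DefN e f) {g : ∀ n : ℕ, E n → F n} (hg : Tm g) :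
    DefN e (fun n G X x => f n G X (g n x)) :=
  DefP.comp (E := fun n => E n × QQ e n) (F := fun n => F n × QQ e n) hf
    (f := fun n y => (g n y.1, y.2))
    (Tm.pair (E := fun n => E n × QQ e n) (F := F) (H := QQ e)
      (Tm.comp (E := fun n => E n × QQ e n) (F := E) (H := F) hg (Tm.fst (F := E) (H := QQ e) Tm.id))
      (Tm.snd (F := E) (H := QQ e) Tm.id))

/-- Job NMB. -/
theorem DefN.pop {f : ∀ n : ℕ, SimpleGraph (Fin n) → Ctx n → E n → ℕ} (hf : DefN e f) : DefN e (fun n G X x => f n G (PMNC.pop X) x) :=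
  DefP.pop (E := fun n => E n × QQ e n) hf

/-- Job NMB. -/
theorem DefN.zero : DefN e (fun n G X (x : E n) => 0) := by
  refine DefP.congr (E := fun n => E n × QQ e n) DefP.false fun n G X y => ?_
  rw [Nat.zero_testBit]
  simp

/-- Job NMB. (`DefP.nZero`.) -/
theorem DefN.one : DefN e (fun n G X (x : E n) => 1) := by
  refine DefP.congr (E := fun n => E n × QQ e n)
    (DefP.nZero (E := fun n => E n × QQ e n) (F := QQ e) (f := fun n y => y.2)
      (Tm.snd (F := E) (H := QQ e) Tm.id)) fun n G X y => ?_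
  rw [Nat.testBit_one_eq_true_iff_self_eq_zero]

open Classical in
/-- Job NMB. -/
theorem DefN.ite {P : ∀ n : ℕ, SimpleGraph (Fin n) → Ctx n → E n → Prop} (hP : DefP P) {f g : ∀ n : ℕ, SimpleGraph (Fin n) → Ctx n → E n → ℕ} (hf : DefN e f) (hg : DefN e g) :
    DefN e (fun n G X x => if P n G X x then f n G X x else g n G X x) := by
  have hP' : DefP (E := fun n => E n × QQ e n) (fun n G X y => P n G X y.1) :=
    DefP.comp (E := fun n => E n × QQ e n) (F := E) hP (f := fun n y => y.1) (Tm.fst (F := E) (H := QQ e) Tm.id)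
  refine DefP.congr (E := fun n => E n × QQ e n)
    (DefP.or (DefP.and hP' hf) (DefP.and (DefP.not hP') hg)) fun n G X y => ?_
  by_cases h : P n G X y.1
  · simp only [h, if_true, true_and, not_true, false_and, or_false]
  · simp only [h, if_false, false_and, not_false_eq_true, true_and, false_or]

/-- Job NMB. -/
theorem DefN.bn {R : ∀ n : ℕ, SimpleGraph (Fin n) → Ctx n → E n → QQ e n → Prop} (hR : DefP (E := fun n => E n × QQ e n) (fun n G X y => R n G X y.1 y.2)) :
    DefN e (fun n G X x => EXA.bn e (R n G X x)) :=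
  DefP.congr (E := fun n => E n × QQ e n) hR fun n G X y => (bn_bit (R n G X y.1) y.2).symm

/-! ### Sums -/

/-- The carries in the sum of a family of numbers: `cnt i` = number of the summands with digit 1 at `i`. -/
def carry (cnt : ℕ → ℕ) : ℕ → ℕ
  | 0 => 0
  | i + 1 => (carry cnt i + cnt i) / 2

private theorem nmc_split {α : Type} [Fintype α] (P : α → Prop) (f : α → ℕ) (i : ℕ) :
    sm P (fun a => f a / 2 ^ i) = nc (fun a => P a ∧ (f a).testBit i = true) + 2 * sm P (fun a => f a / 2 ^ (i + 1)) := by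
  classical
  rw [nc_def, sm_def, sm_def, Finset.mul_sum, ← Finset.filter_filter, Finset.card_filter, ← Finset.sum_add_distrib]
  refine Finset.sum_congr rfl fun a _ => ?_
  have h1 : f a / 2 ^ (i + 1) = f a / 2 ^ i / 2 := by rw [pow_succ, Nat.div_div_eq_div_mul]
  rw [h1]
  have h2 : ((f a).testBit i = true) ↔ f a / 2 ^ i % 2 = 1 := by
    rw [Nat.testBit_eq_decide_div_mod_eq, decide_eq_true_iff]
  by_cases h : (f a).testBit i = true
  · rw [if_pos h]
    have := h2.1 h
    omega
  · rw [if_neg h]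
    have h3 : ¬ f a / 2 ^ i % 2 = 1 := fun h4 => h (h2.2 h4)
    omega

/-- Job NMC. By induction: `(Σ f) / 2 ^ i = carry i + Σ (f / 2 ^ i)`. -/
theorem sum_div {α : Type} [Fintype α] (P : α → Prop) (f : α → ℕ) (i : ℕ) :
    sm P f / 2 ^ i = carry (fun j => nc (fun a => P a ∧ (f a).testBit j = true)) i + sm P (fun a => f a / 2 ^ i) := by
  induction i with
  | zero => simp [carry]
  | succ i ih =>
    rw [pow_succ, ← Nat.div_div_eq_div_mul, ih, nmc_split P f i]
    simp only [carry]
    rw [← pow_succ]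
    omega

/-- Job NMC. -/
theorem sum_bit {α : Type} [Fintype α] (P : α → Prop) (f : α → ℕ) (i : ℕ) :
    (sm P f).testBit i = true ↔ (carry (fun j => nc (fun a => P a ∧ (f a).testBit j = true)) i + nc (fun a => P a ∧ (f a).testBit i = true)) % 2 = 1 := by
  rw [Nat.testBit_eq_decide_div_mod_eq, decide_eq_true_iff, sum_div P f i, nmc_split P f i]
  omega

/-- Job NMC. (The carries are less than the number of summands, if there is one.) -/
theorem carry_lt {α : Type} [Fintype α] [Nonempty α] (P : α → Prop) (f : α → ℕ) (i : ℕ) :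
    carry (fun j => nc (fun a => P a ∧ (f a).testBit j = true)) i < Fintype.card α := by
  induction i with
  | zero => exact Fintype.card_pos
  | succ i ih =>
    simp only [carry]
    have h1 : nc (fun a => P a ∧ (f a).testBit i = true) ≤ Fintype.card α := nc_le
    omega

/-- Job NMD. (`nv`, `DefP.cardEq`, `nc_natCard`.) -/
theorem DefP.nCard [∀ n, Fintype (S n)] {A : ∀ n : ℕ, SimpleGraph (Fin n) → Ctx n → E n → S n → Prop}
    (hA : DefP (E := fun n => E n × S n) (fun n G X y => A n G X y.1 y.2)) {g : ∀ n : ℕ, E n → F n} (hg : Tm g) :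
    DefP (fun n G X x => nv (g n x) = nc (A n G X x)) := by
  refine (DefP.cardEq (S := F) (T := S) (A := fun n G X x t => key t < key (g n x)) (B := A) ?_ hA).congr fun n G X x => ?_
  · exact DefP.keyLt (Tm.snd (F := E) (H := F) Tm.id) (hg.comp (Tm.fst (F := E) (H := F) Tm.id))
  · rw [nc_natCard]
    exact Iff.rfl

/-- at least two vertices -/
private theorem nmd_two : DefP (fun n G X (x : E n) => 2 ≤ n) := by
  refine DefP.congr (P := fun n G X (x : E n) => ∃ a : Fin n, ∃ b : Fin n, a < b) ?_ ?_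
  · refine DefP.exFin (DefP.exFin (DefP.lt ?_ ?_))
    all_goals (repeat' (first | exact Tm.id | apply Tm.fst | apply Tm.snd))
  · intro n G X x
    constructor
    · rintro ⟨a, b, h⟩
      have := b.2
      have h' : (a : ℕ) < b := h
      omega
    · intro h
      exact ⟨⟨0, by omega⟩, ⟨1, by omega⟩, Fin.lt_def.2 (by simp)⟩

private theorem nmd_carry_le {cc : ℕ → ℕ} {m : ℕ} (hm : 1 ≤ m) (hc : ∀ j, cc j ≤ m) (i : ℕ) : carry cc i < m := by
  induction i with
  | zero => exact hm
  | succ i ih =>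
    have := hc i
    show (carry cc i + cc i) / 2 < m
    omega

/-- the step of the carries -/
private def nmd_st {n : ℕ} (cc : QQ e n → ℕ) (p q : QQ e n × S n) : Prop :=
  nv (S := QQ e) q.1 = nv (S := QQ e) p.1 + 1 ∧ ∃ (w d d' : S n × Fin n), nv (S := fun n => S n × Fin n) w = cc p.1 ∧
    nv p.2 + nv (S := fun n => S n × Fin n) w = nv (S := fun n => S n × Fin n) d ∧
    nv q.2 + nv q.2 = nv (S := fun n => S n × Fin n) d' ∧
    (nv (S := fun n => S n × Fin n) d = nv (S := fun n => S n × Fin n) d' ∨ nv (S := fun n => S n × Fin n) d = nv (S := fun n => S n × Fin n) d' + 1)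

private theorem nmd_dim (n : ℕ) : n ^ dim (fun n => S n × Fin n) = n ^ dim S * n := by
  show n ^ (dim S + 1) = _
  exact pow_succ _ _

private theorem nmd_st_iff {n : ℕ} (hn : 2 ≤ n) {cc : QQ e n → ℕ} (hc : ∀ i, cc i ≤ n ^ dim S) (p q : QQ e n × S n) :
    nmd_st cc p q ↔ nv (S := QQ e) q.1 = nv (S := QQ e) p.1 + 1 ∧ nv q.2 = (nv p.2 + cc p.1) / 2 := by
  unfold nmd_st
  refine and_congr_right fun _ => ?_
  constructor
  · rintro ⟨w, d, d', h1, h2, h3, h4⟩
    omega
  · intro h
    have h1 := hc p.1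
    have h2 := nv_lt p.2
    have h3 := nv_lt q.2
    have h4 : n ^ dim S * 2 ≤ n ^ dim S * n := Nat.mul_le_mul_left _ hn
    have h5 := nmd_dim (S := S) n
    obtain ⟨w, hw⟩ := nv_surj (S := fun n => S n × Fin n) (n := n) (m := cc p.1) (by rw [h5]; omega)
    obtain ⟨d, hd⟩ := nv_surj (S := fun n => S n × Fin n) (n := n) (m := nv p.2 + cc p.1) (by rw [h5]; omega)
    obtain ⟨d', hd'⟩ := nv_surj (S := fun n => S n × Fin n) (n := n) (m := nv q.2 + nv q.2) (by rw [h5]; omega)
    exact ⟨w, d, d', hw, by rw [hw, hd], hd'.symm, by omega⟩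

private theorem nmd_path {n : ℕ} (hn : 2 ≤ n) {cc : ℕ → ℕ} (hc : ∀ i, cc i ≤ n ^ dim S) {i₀ i : QQ e n} {κ₀ κ : S n}
    (h0 : nv (S := QQ e) i₀ = 0) (h0' : nv κ₀ = 0) :
    Relation.ReflTransGen (nmd_st (S := S) (fun i : QQ e n => cc (nv (S := QQ e) i))) (i₀, κ₀) (i, κ) ↔ nv κ = carry cc (nv (S := QQ e) i) := by
  have hpos : 1 ≤ n ^ dim S := Nat.one_le_pow _ _ (by omega)
  constructor
  · intro h
    have : ∀ p : QQ e n × S n, Relation.ReflTransGen (nmd_st (S := S) (fun i : QQ e n => cc (nv (S := QQ e) i))) (i₀, κ₀) p →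
        nv p.2 = carry cc (nv (S := QQ e) p.1) := by
      intro p hp
      induction hp with
      | refl => rw [h0, h0']; rfl
      | tail _ h2 ih =>
        rw [nmd_st_iff hn (fun i => hc _)] at h2
        rw [h2.2, h2.1, ih]
        rfl
    exact this _ h
  · intro h
    have : ∀ m : ℕ, ∀ (i : QQ e n) (κ : S n), nv (S := QQ e) i = m → nv κ = carry cc m →
        Relation.ReflTransGen (nmd_st (S := S) (fun i : QQ e n => cc (nv (S := QQ e) i))) (i₀, κ₀) (i, κ) := by
      intro m
      induction m with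
      | zero =>
        intro i κ hi hκ
        have e1 : i = i₀ := nv_injective (S := QQ e) (by rw [hi, h0])
        have e2 : κ = κ₀ := nv_injective (by rw [hκ, h0']; rfl)
        rw [e1, e2]
      | succ m ih =>
        intro i κ hi hκ
        obtain ⟨i', hi'⟩ := nv_down (S := QQ e) (b := i) (m := m) (by omega)
        obtain ⟨κ', hκ'⟩ := nv_surj (S := S) (n := n) (m := carry cc m) (nmd_carry_le hpos hc m)
        refine (ih i' κ' hi' hκ').tail ?_
        rw [nmd_st_iff hn (fun i => hc _)]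
        refine ⟨by rw [hi, hi'], ?_⟩
        rw [hκ, hκ']
        show (carry cc m + cc m) / 2 = (carry cc m + cc (nv (S := QQ e) i')) / 2
        rw [hi']
    exact this _ i κ rfl h

private theorem nmd_gen {E1 W : ℕ → Type} [Env E1] [Env W] {P : ∀ n : ℕ, SimpleGraph (Fin n) → Ctx n → E1 n → W n → Prop}
    (hP : DefP (E := fun n => E1 n × W n) (fun n G X y => P n G X y.1 y.2)) {f1 f2 : ∀ n : ℕ, E1 n → S n} {g1 g2 : ∀ n : ℕ, E1 n → F n}
    (hf1 : Tm f1) (hf2 : Tm f2) (hg1 : Tm g1) (hg2 : Tm g2) :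
    DefP (fun n G X y => nv (g2 n y) = nv (g1 n y) + 1 ∧ ∃ (w d d' : W n), P n G X y w ∧ nv (f1 n y) + nv w = nv d ∧ nv (f2 n y) + nv (f2 n y) = nv d' ∧
      (nv d = nv d' ∨ nv d = nv d' + 1)) := by
  have t1 : Tm (E := fun n => ((E1 n × W n) × W n) × W n) (fun n y => y.1.1.1) := Tm.fst (Tm.fst (Tm.fst Tm.id))
  have tw : Tm (E := fun n => ((E1 n × W n) × W n) × W n) (fun n y => y.1.1.2) := Tm.snd (Tm.fst (Tm.fst Tm.id))
  have td : Tm (E := fun n => ((E1 n × W n) × W n) × W n) (fun n y => y.1.2) := Tm.snd (Tm.fst Tm.id)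
  have td' : Tm (E := fun n => ((E1 n × W n) × W n) × W n) (fun n y => y.2) := Tm.snd Tm.id
  refine DefP.and (DefP.nSucc hg1 hg2) (DefP.ex (DefP.ex (DefP.ex (DefP.and ?_ (DefP.and (DefP.nAdd (hf1.comp t1) tw td)
    (DefP.and (DefP.nAdd (hf2.comp t1) (hf2.comp t1) td') (DefP.or (DefP.nEq td td') (DefP.nSucc td' td))))))))
  exact DefP.app2 (P := P) hP t1 tw

/-- the step is definable -/
private theorem nmd_st_def [∀ n, Fintype (S n)] {A : ∀ n : ℕ, SimpleGraph (Fin n) → Ctx n → E n → S n → Prop} {f : ∀ n : ℕ, SimpleGraph (Fin n) → Ctx n → E n → S n → ℕ}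
    (hA : DefP (E := fun n => E n × S n) (fun n G X y => A n G X y.1 y.2)) (hf : DefN e (E := fun n => E n × S n) (fun n G X y => f n G X y.1 y.2)) :
    DefP (E := fun n => E n × ((QQ e n × S n) × (QQ e n × S n))) (fun n G X y =>
      nmd_st (S := S) (fun i : QQ e n => nc (fun s => A n G X y.1 s ∧ (f n G X y.1 s).testBit (nv (S := QQ e) i) = true)) y.2.1 y.2.2) := by
  have hB : DefP (E := fun n => (E n × QQ e n) × S n) (fun n G X y => A n G X y.1.1 y.2 ∧ (f n G X y.1.1 y.2).testBit (nv (S := QQ e) y.1.2) = true) := by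
    refine DefP.and ?_ ?_
    · exact DefP.app2 (P := A) hA (Tm.fst (Tm.fst Tm.id)) (Tm.snd Tm.id)
    · exact DefP.app3' (P := fun n G X x s i => (f n G X x s).testBit (nv (S := QQ e) i) = true) hf (Tm.fst (Tm.fst Tm.id)) (Tm.snd Tm.id) (Tm.snd (Tm.fst Tm.id))
  have hC : DefP (E := fun n => (E n × QQ e n) × (S n × Fin n)) (fun n G X y =>
      nv (S := fun n => S n × Fin n) y.2 = nc (fun s => A n G X y.1.1 s ∧ (f n G X y.1.1 s).testBit (nv (S := QQ e) y.1.2) = true)) := by
    refine DefP.nCard (S := S) (F := fun n => S n × Fin n) (E := fun n => (E n × QQ e n) × (S n × Fin n))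
      (A := fun n G X y s => A n G X y.1.1 s ∧ (f n G X y.1.1 s).testBit (nv (S := QQ e) y.1.2) = true) ?_ (Tm.snd Tm.id)
    exact DefP.app2 (P := fun n G X (x : E n × QQ e n) s => A n G X x.1 s ∧ (f n G X x.1 s).testBit (nv (S := QQ e) x.2) = true) hB
      (Tm.fst (Tm.fst Tm.id)) (Tm.snd Tm.id)
  have hD : DefP (E := fun n => (E n × ((QQ e n × S n) × (QQ e n × S n))) × (S n × Fin n)) (fun n G X y =>
      nv (S := fun n => S n × Fin n) y.2 = nc (fun s => A n G X y.1.1 s ∧ (f n G X y.1.1 s).testBit (nv (S := QQ e) y.1.2.1.1) = true)) :=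
    DefP.app3' (P := fun n G X x (i : QQ e n) (w : S n × Fin n) => nv (S := fun n => S n × Fin n) w =
      nc (fun s => A n G X x s ∧ (f n G X x s).testBit (nv (S := QQ e) i) = true)) hC (Tm.fst (Tm.fst Tm.id)) (Tm.fst (Tm.fst (Tm.snd (Tm.fst Tm.id)))) (Tm.snd Tm.id)
  exact nmd_gen (E1 := fun n => E n × ((QQ e n × S n) × (QQ e n × S n))) (W := fun n => S n × Fin n) (F := QQ e) (S := S) hD
    (f1 := fun n y => y.2.1.2) (f2 := fun n y => y.2.2.2) (g1 := fun n y => y.2.1.1) (g2 := fun n y => y.2.2.1)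
    (Tm.snd (Tm.fst (Tm.snd Tm.id))) (Tm.snd (Tm.snd (Tm.snd Tm.id))) (Tm.fst (Tm.fst (Tm.snd Tm.id))) (Tm.fst (Tm.snd (Tm.snd Tm.id)))

/-- the last step: the parity -/
private theorem nmd_odd {E1 W : ℕ → Type} [Env E1] [Env W] {P : ∀ n : ℕ, SimpleGraph (Fin n) → Ctx n → E1 n → W n → Prop}
    (hP : DefP (E := fun n => E1 n × W n) (fun n G X y => P n G X y.1 y.2)) {f1 : ∀ n : ℕ, E1 n → S n} (hf1 : Tm f1) :
    DefP (fun n G X y => ∃ (w d d' : W n) (κ : S n), P n G X y w ∧ nv (f1 n y) + nv w = nv d ∧ nv κ + nv κ = nv d' ∧ nv d = nv d' + 1) := by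
  have t1 : Tm (E := fun n => (((E1 n × W n) × W n) × W n) × S n) (fun n y => y.1.1.1.1) := Tm.fst (Tm.fst (Tm.fst (Tm.fst Tm.id)))
  have tw : Tm (E := fun n => (((E1 n × W n) × W n) × W n) × S n) (fun n y => y.1.1.1.2) := Tm.snd (Tm.fst (Tm.fst (Tm.fst Tm.id)))
  have td : Tm (E := fun n => (((E1 n × W n) × W n) × W n) × S n) (fun n y => y.1.1.2) := Tm.snd (Tm.fst (Tm.fst Tm.id))
  have td' : Tm (E := fun n => (((E1 n × W n) × W n) × W n) × S n) (fun n y => y.1.2) := Tm.snd (Tm.fst Tm.id)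
  have tk : Tm (E := fun n => (((E1 n × W n) × W n) × W n) × S n) (fun n y => y.2) := Tm.snd Tm.id
  refine DefP.ex (DefP.ex (DefP.ex (DefP.ex (DefP.and ?_ (DefP.and (DefP.nAdd (hf1.comp t1) tw td)
    (DefP.and (DefP.nAdd tk tk td') (DefP.nSucc td' td)))))))
  exact DefP.app2 (P := P) hP t1 tw

/-- Job NMD. **Sums over definable sets.** For `n ≤ 1` the set `S n` has at most one element and the digit is `∃ s, A s ∧ digit of f s`. For `2 ≤ n`: the pairs (position `i : QQ e n`, carry `κ : S n`) form a path: `(i, κ) → (i', κ')` if `nv i' = nv i + 1` and `nv κ' = (nv κ + cnt i) / 2`, where `cnt i` is expressed with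
an auxiliary `w : S n × Fin n` (`DefP.nCard`; `n ^ (dim + 1) ≥ 2 n ^ dim`), `DefP.nAdd`, `DefP.nSucc`; `DefP.rtc` from (position 0, carry 0) (`carry_lt`, `sum_bit`). `2 ≤ n` is `∃ a b : Fin n, a < b`. -/
theorem DefN.sm [∀ n, Fintype (S n)] {A : ∀ n : ℕ, SimpleGraph (Fin n) → Ctx n → E n → S n → Prop} {f : ∀ n : ℕ, SimpleGraph (Fin n) → Ctx n → E n → S n → ℕ}
    (hA : DefP (E := fun n => E n × S n) (fun n G X y => A n G X y.1 y.2)) (hf : DefN e (E := fun n => E n × S n) (fun n G X y => f n G X y.1 y.2)) :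
    DefN e (fun n G X x => EXA.sm (A n G X x) (f n G X x)) := by
  -- the reachability relation
  have hR : DefP (E := fun n => E n × ((QQ e n × S n) × (QQ e n × S n))) (fun n G X y =>
      Relation.ReflTransGen (nmd_st (S := S) (fun i : QQ e n => nc (fun s => A n G X y.1 s ∧ (f n G X y.1 s).testBit (nv (S := QQ e) i) = true))) y.2.1 y.2.2) := by
    refine DefP.rtc (E := fun n => E n × ((QQ e n × S n) × (QQ e n × S n))) (S := fun n => QQ e n × S n)
      (R := fun n G X y p q => nmd_st (S := S) (fun i : QQ e n => nc (fun s => A n G X y.1 s ∧ (f n G X y.1 s).testBit (nv (S := QQ e) i) = true)) p q)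
      ?_ (Tm.fst (Tm.snd Tm.id)) (Tm.snd (Tm.snd Tm.id))
    exact DefP.app3 (P := fun n G X x p q => nmd_st (S := S) (fun i : QQ e n => nc (fun s => A n G X x s ∧ (f n G X x s).testBit (nv (S := QQ e) i) = true)) p q)
      (nmd_st_def hA hf) (Tm.fst (Tm.fst Tm.id)) (Tm.fst (Tm.snd Tm.id)) (Tm.snd (Tm.snd Tm.id))
  -- the column counts
  have hC : DefP (E := fun n => (E n × QQ e n) × (S n × Fin n)) (fun n G X y =>
      nv (S := fun n => S n × Fin n) y.2 = nc (fun s => A n G X y.1.1 s ∧ (f n G X y.1.1 s).testBit (nv (S := QQ e) y.1.2) = true)) := by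
    refine DefP.nCard (S := S) (F := fun n => S n × Fin n) (E := fun n => (E n × QQ e n) × (S n × Fin n))
      (A := fun n G X y s => A n G X y.1.1 s ∧ (f n G X y.1.1 s).testBit (nv (S := QQ e) y.1.2) = true) ?_ (Tm.snd Tm.id)
    refine DefP.and ?_ ?_
    · exact DefP.app2 (P := A) hA (Tm.fst (Tm.fst (Tm.fst Tm.id))) (Tm.snd Tm.id)
    · exact DefP.app3' (P := fun n G X x s i => (f n G X x s).testBit (nv (S := QQ e) i) = true) hf (Tm.fst (Tm.fst (Tm.fst Tm.id))) (Tm.snd Tm.id)
        (Tm.snd (Tm.fst (Tm.fst Tm.id)))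
  -- the parity
  have hO : DefP (E := fun n => (E n × QQ e n) × S n) (fun n G X y => ∃ (w d d' : S n × Fin n) (κ : S n),
      nv (S := fun n => S n × Fin n) w = nc (fun s => A n G X y.1.1 s ∧ (f n G X y.1.1 s).testBit (nv (S := QQ e) y.1.2) = true) ∧
      nv y.2 + nv (S := fun n => S n × Fin n) w = nv (S := fun n => S n × Fin n) d ∧ nv κ + nv κ = nv (S := fun n => S n × Fin n) d' ∧
      nv (S := fun n => S n × Fin n) d = nv (S := fun n => S n × Fin n) d' + 1) := by
    refine nmd_odd (E1 := fun n => (E n × QQ e n) × S n) (W := fun n => S n × Fin n) (S := S)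
      (P := fun n G X y w => nv (S := fun n => S n × Fin n) w = nc (fun s => A n G X y.1.1 s ∧ (f n G X y.1.1 s).testBit (nv (S := QQ e) y.1.2) = true))
      ?_ (Tm.snd Tm.id)
    exact DefP.app2 (P := fun n G X (x : E n × QQ e n) (w : S n × Fin n) =>
      nv (S := fun n => S n × Fin n) w = nc (fun s => A n G X x.1 s ∧ (f n G X x.1 s).testBit (nv (S := QQ e) x.2) = true)) hC (Tm.fst (Tm.fst Tm.id)) (Tm.snd Tm.id)
  -- the digits for `2 ≤ n`
  have h2 : DefP (E := fun n => E n × QQ e n) (fun n G X y => ∃ (i₀ : QQ e n) (κ₀ κ : S n), nv (S := QQ e) i₀ = 0 ∧ nv κ₀ = 0 ∧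
      Relation.ReflTransGen (nmd_st (S := S) (fun i : QQ e n => nc (fun s => A n G X y.1 s ∧ (f n G X y.1 s).testBit (nv (S := QQ e) i) = true))) (i₀, κ₀) (y.2, κ) ∧
      ∃ (w d d' : S n × Fin n) (κ' : S n),
      nv (S := fun n => S n × Fin n) w = nc (fun s => A n G X y.1 s ∧ (f n G X y.1 s).testBit (nv (S := QQ e) y.2) = true) ∧
      nv κ + nv (S := fun n => S n × Fin n) w = nv (S := fun n => S n × Fin n) d ∧ nv κ' + nv κ' = nv (S := fun n => S n × Fin n) d' ∧
      nv (S := fun n => S n × Fin n) d = nv (S := fun n => S n × Fin n) d' + 1) := by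
    have tx : Tm (E := fun n => (((E n × QQ e n) × QQ e n) × S n) × S n) (fun n y => y.1.1.1) := Tm.fst (Tm.fst (Tm.fst Tm.id))
    have ti : Tm (E := fun n => (((E n × QQ e n) × QQ e n) × S n) × S n) (fun n y => y.1.1.2) := Tm.snd (Tm.fst (Tm.fst Tm.id))
    have tk : Tm (E := fun n => (((E n × QQ e n) × QQ e n) × S n) × S n) (fun n y => y.1.2) := Tm.snd (Tm.fst Tm.id)
    have tl : Tm (E := fun n => (((E n × QQ e n) × QQ e n) × S n) × S n) (fun n y => y.2) := Tm.snd Tm.id
    refine DefP.ex (DefP.ex (DefP.ex (DefP.and (DefP.nZero ti) (DefP.and (DefP.nZero tk) (DefP.and ?_ ?_)))))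
    · exact DefP.app3 (P := fun n G X x p q => Relation.ReflTransGen (nmd_st (S := S) (fun i : QQ e n => nc (fun s => A n G X x s ∧ (f n G X x s).testBit (nv (S := QQ e) i) = true))) p q)
        hR (Tm.fst tx) (Tm.pair ti tk) (Tm.pair (Tm.snd tx) tl)
    · exact DefP.app2 (P := fun n G X (x : E n × QQ e n) (κ : S n) => ∃ (w d d' : S n × Fin n) (κ' : S n),
        nv (S := fun n => S n × Fin n) w = nc (fun s => A n G X x.1 s ∧ (f n G X x.1 s).testBit (nv (S := QQ e) x.2) = true) ∧
        nv κ + nv (S := fun n => S n × Fin n) w = nv (S := fun n => S n × Fin n) d ∧ nv κ' + nv κ' = nv (S := fun n => S n × Fin n) d' ∧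
        nv (S := fun n => S n × Fin n) d = nv (S := fun n => S n × Fin n) d' + 1) hO tx tl
  -- the digits for `n ≤ 1`
  have h1 : DefP (E := fun n => E n × QQ e n) (fun n G X y => ∃ s : S n, A n G X y.1 s ∧ (f n G X y.1 s).testBit (nv (S := QQ e) y.2) = true) := by
    refine DefP.ex (DefP.and ?_ ?_)
    · exact DefP.app2 (P := A) hA (Tm.fst (Tm.fst Tm.id)) (Tm.snd Tm.id)
    · exact DefP.app3' (P := fun n G X x s i => (f n G X x s).testBit (nv (S := QQ e) i) = true) hf (Tm.fst (Tm.fst Tm.id)) (Tm.snd Tm.id) (Tm.snd (Tm.fst Tm.id))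
  refine ((nmd_two.and h2).or (nmd_two.not.and h1)).congr fun n G X y => ?_
  obtain ⟨x, i⟩ := y
  simp only
  by_cases hn : 2 ≤ n
  · simp only [hn, true_and, not_true_eq_false, false_and, or_false]
    have hcard : Fintype.card (S n) = n ^ dim S := by rw [← Nat.card_eq_fintype_card, card_env]
    have hpos : 1 ≤ n ^ dim S := Nat.one_le_pow _ _ (by omega)
    haveI : Nonempty (S n) := Fintype.card_pos_iff.1 (by omega)
    have hcc : ∀ j, nc (fun s => A n G X x s ∧ (f n G X x s).testBit j = true) ≤ n ^ dim S := fun j => hcard ▸ nc_le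
    rw [sum_bit]
    have hlt : nv (S := QQ e) i < n ^ dim (QQ e) := nv_lt (S := QQ e) i
    obtain ⟨i₀, hi₀⟩ := nv_surj (S := QQ e) (n := n) (m := 0) (by omega)
    obtain ⟨κ₀, hκ₀⟩ := nv_surj (S := S) (n := n) (m := 0) (by omega)
    have hcl := nmd_carry_le hpos hcc
    have h5 := nmd_dim (S := S) n
    have h4 : n ^ dim S * 2 ≤ n ^ dim S * n := Nat.mul_le_mul_left _ hn
    constructor
    · rintro ⟨i₁, κ₁, κ, h6, h7, h8, w, d, d', κ', h9, h10, h11, h12⟩
      have h13 := (nmd_path hn hcc h6 h7).1 h8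
      rw [← h13, ← h9]
      omega
    · intro h
      obtain ⟨κ, hκ⟩ := nv_surj (S := S) (n := n) (hcl (nv (S := QQ e) i))
      have h6 := hcl (nv (S := QQ e) i + 1)
      have h6' : (carry (fun j => nc (fun s => A n G X x s ∧ (f n G X x s).testBit j = true)) (nv (S := QQ e) i) +
        nc (fun s => A n G X x s ∧ (f n G X x s).testBit (nv (S := QQ e) i) = true)) / 2 < n ^ dim S := h6
      have h7 := hcc (nv (S := QQ e) i)
      have h7' := hcl (nv (S := QQ e) i)
      obtain ⟨κ', hκ'⟩ := nv_surj (S := S) (n := n) h6'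
      obtain ⟨w, hw⟩ := nv_surj (S := fun n => S n × Fin n) (n := n) (m := nc (fun s => A n G X x s ∧ (f n G X x s).testBit (nv (S := QQ e) i) = true)) (by rw [h5]; omega)
      obtain ⟨d, hd⟩ := nv_surj (S := fun n => S n × Fin n) (n := n) (m := nv κ + nc (fun s => A n G X x s ∧ (f n G X x s).testBit (nv (S := QQ e) i) = true)) (by rw [h5]; omega)
      obtain ⟨d', hd'⟩ := nv_surj (S := fun n => S n × Fin n) (n := n) (m := nv κ' + nv κ') (by rw [h5]; omega)
      exact ⟨i₀, κ₀, κ, hi₀, hκ₀, (nmd_path hn hcc hi₀ hκ₀).2 hκ, w, d, d', κ', hw, by rw [hw, hd], hd'.symm, by omega⟩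
  · simp only [hn, false_and, not_false_eq_true, true_and, false_or]
    have hcard : Fintype.card (S n) ≤ 1 := by
      rw [← Nat.card_eq_fintype_card, card_env]
      exact (Nat.pow_le_pow_left (by omega : n ≤ 1) _).trans (one_pow _).le
    have hsub : ∀ a b : S n, a = b := fun a b => Fintype.card_le_one_iff.1 hcard a b
    constructor
    · rintro ⟨s, h3, h4⟩
      rw [sm_single (b := s) (fun a => ⟨fun _ => hsub a s, fun h => h ▸ h3⟩)]
      exact h4
    · intro h
      by_contra hc
      have h0 : EXA.sm (A n G X x) (f n G X x) = 0 ∨ ∃ s, A n G X x s := by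
        by_cases h5 : ∃ s, A n G X x s
        · exact Or.inr h5
        · exact Or.inl (sm_none fun a ha => h5 ⟨a, ha⟩)
      rcases h0 with h0 | ⟨s, hs⟩
      · rw [h0] at h
        simp at h
      · rw [sm_single (b := s) (fun a => ⟨fun _ => hsub a s, fun h => h ▸ hs⟩)] at h
        exact hc ⟨s, hs, h⟩

/-- Job NMD. The number of elements of a definable set. -/
theorem DefN.nc [∀ n, Fintype (S n)] {A : ∀ n : ℕ, SimpleGraph (Fin n) → Ctx n → E n → S n → Prop}
    (hA : DefP (E := fun n => E n × S n) (fun n G X y => A n G X y.1 y.2)) : DefN e (fun n G X x => EXA.nc (A n G X x)) :=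
  DefN.sm (f := fun n G X x s => 1) hA DefN.one

private theorem nme_lt_iff {n : ℕ} (a b : ℕ) (ha : a < 2 ^ (n ^ e)) (hb : b < 2 ^ (n ^ e)) :
    (∃ i : QQ e n, ¬ a.testBit (nv (S := QQ e) i) = true ∧ b.testBit (nv (S := QQ e) i) = true ∧
      ∀ j : QQ e n, nv (S := QQ e) i < nv (S := QQ e) j →
        (a.testBit (nv (S := QQ e) j) = true ↔ b.testBit (nv (S := QQ e) j) = true)) ↔ a < b := by
  have hdim : dim (QQ e) = e * 1 := rfl
  have hsurj : ∀ m : ℕ, m < n ^ e → ∃ s : QQ e n, nv (S := QQ e) s = m := by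
    intro m hm
    refine nv_surj (S := QQ e) ?_
    rw [hdim, mul_one]
    exact hm
  have hbig : ∀ m x : ℕ, x < 2 ^ (n ^ e) → ¬ m < n ^ e → x.testBit m = false := by
    intro m x hx hm
    refine Nat.testBit_lt_two_pow (lt_of_lt_of_le hx ?_)
    exact Nat.pow_le_pow_right (by norm_num) (not_lt.mp hm)
  constructor
  · rintro ⟨i, h1, h2, h3⟩
    refine Nat.lt_of_testBit (nv (S := QQ e) i) (by simpa using h1) h2 fun j hj => ?_
    by_cases hjn : j < n ^ e
    · obtain ⟨s, hs⟩ := hsurj j hjn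
      have h4 := h3 s (by rw [hs]; exact hj)
      rw [hs] at h4
      exact Bool.eq_iff_iff.mpr h4
    · rw [hbig j a ha hjn, hbig j b hb hjn]
  · intro hab
    classical
    set F : Finset ℕ := (Finset.range (n ^ e)).filter (fun m => a.testBit m ≠ b.testBit m) with hF
    have hne : F.Nonempty := by
      by_contra h
      rw [Finset.not_nonempty_iff_eq_empty] at h
      apply hab.ne
      refine Nat.eq_of_testBit_eq fun m => ?_
      by_cases hm : m < n ^ e
      · by_contra h2
        have h3 : m ∈ F := by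
          rw [hF, Finset.mem_filter, Finset.mem_range]
          exact ⟨hm, h2⟩
        rw [h] at h3
        exact absurd h3 (Finset.notMem_empty m)
      · rw [hbig m a ha hm, hbig m b hb hm]
    set M := F.max' hne with hM
    have hMF : M ∈ F := F.max'_mem hne
    have hMF' := hMF
    rw [hF, Finset.mem_filter, Finset.mem_range] at hMF'
    have hup : ∀ j, M < j → a.testBit j = b.testBit j := by
      intro j hj
      by_cases hjn : j < n ^ e
      · by_contra h2
        have h3 : j ∈ F := by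
          rw [hF, Finset.mem_filter, Finset.mem_range]
          exact ⟨hjn, h2⟩
        exact absurd (F.le_max' j h3) (not_le.mpr hj)
      · rw [hbig j a ha hjn, hbig j b hb hjn]
    have hbits : a.testBit M = false ∧ b.testBit M = true := by
      have h1 := hMF'.2
      cases h2 : a.testBit M <;> cases h3 : b.testBit M
      · exact absurd (h2.trans h3.symm) h1
      · exact ⟨rfl, rfl⟩
      · have h4 : b < a := Nat.lt_of_testBit M h3 h2 fun j hj => (hup j hj).symm
        exact absurd hab (not_lt.mpr h4.le)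
      · exact absurd (h2.trans h3.symm) h1
    obtain ⟨s, hs⟩ := hsurj M hMF'.1
    refine ⟨s, ?_, ?_, ?_⟩
    · rw [hs, hbits.1]
      exact Bool.false_ne_true
    · rw [hs, hbits.2]
    · intro j hj
      rw [hs] at hj
      rw [hup _ hj]

/-- Job NME. For `2 ≤ n`: the sum over `a : Fin n` with `a = 0` or `a = 1` of `f` or `g` (`DefN.sm`, `DefN.ite`, `sm_or`, `sm_single`). For `n ≤ 1` and `1 ≤ e` there is at most one digit, and it is the exclusive or of the digits. -/
theorem DefN.add (he : 1 ≤ e) {f g : ∀ n : ℕ, SimpleGraph (Fin n) → Ctx n → E n → ℕ} (hf : DefN e f) (hg : DefN e g) : DefN e (fun n G X x => f n G X x + g n G X x) := by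
  classical
  -- zero and one as elements of Fin n
  have hZ : DefP (E := fun n => E n × Fin n) (fun n G X y => (y.2 : Fin n).val = 0) := by
    refine DefP.congr (P := fun n G X (y : E n × Fin n) => ∀ b : Fin n, ¬ b < y.2) ?_ ?_
    · refine DefP.allFin (DefP.not (DefP.lt ?_ ?_))
      · exact Tm.snd (F := fun n => E n × Fin n) (H := fun n => Fin n) Tm.id
      · exact Tm.snd (F := E) (H := fun n => Fin n) (Tm.fst (F := fun n => E n × Fin n) (H := fun n => Fin n) Tm.id)
    · intro n G X y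
      constructor
      · intro h
        by_contra h1
        have h2 : 0 < n := lt_of_le_of_lt (Nat.zero_le _) y.2.2
        exact h ⟨0, h2⟩ (by rw [Fin.lt_def]; exact Nat.pos_of_ne_zero h1)
      · intro h b hb
        rw [Fin.lt_def, h] at hb
        exact absurd hb (Nat.not_lt_zero _)
  have hO : DefP (E := fun n => E n × Fin n) (fun n G X y => (y.2 : Fin n).val = 1) := by
    refine DefP.congr (P := fun n G X (y : E n × Fin n) => ∃ b : Fin n, b < y.2 ∧ ∀ c : Fin n, c < y.2 → c ≤ b ∧ b ≤ c) ?_ ?_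
    · refine DefP.exFin (DefP.and (DefP.lt ?_ ?_) (DefP.allFin (DefP.imp (DefP.lt ?_ ?_) (DefP.and (DefP.le ?_ ?_) (DefP.le ?_ ?_)))))
      · exact Tm.snd (F := fun n => E n × Fin n) (H := fun n => Fin n) Tm.id
      · exact Tm.snd (F := E) (H := fun n => Fin n) (Tm.fst (F := fun n => E n × Fin n) (H := fun n => Fin n) Tm.id)
      · exact Tm.snd (F := fun n => (E n × Fin n) × Fin n) (H := fun n => Fin n) Tm.id
      · exact Tm.snd (F := E) (H := fun n => Fin n) (Tm.fst (F := fun n => E n × Fin n) (H := fun n => Fin n)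
          (Tm.fst (F := fun n => (E n × Fin n) × Fin n) (H := fun n => Fin n) Tm.id))
      · exact Tm.snd (F := fun n => (E n × Fin n) × Fin n) (H := fun n => Fin n) Tm.id
      · exact Tm.snd (F := fun n => E n × Fin n) (H := fun n => Fin n) (Tm.fst (F := fun n => (E n × Fin n) × Fin n) (H := fun n => Fin n) Tm.id)
      · exact Tm.snd (F := fun n => E n × Fin n) (H := fun n => Fin n) (Tm.fst (F := fun n => (E n × Fin n) × Fin n) (H := fun n => Fin n) Tm.id)
      · exact Tm.snd (F := fun n => (E n × Fin n) × Fin n) (H := fun n => Fin n) Tm.id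
    · intro n G X y
      constructor
      · rintro ⟨b, hb, h⟩
        rw [Fin.lt_def] at hb
        have h2 : 0 < n := lt_of_le_of_lt (Nat.zero_le _) y.2.2
        have h3 := h ⟨0, h2⟩ (by rw [Fin.lt_def]; exact lt_of_le_of_lt (Nat.zero_le _) hb)
        have h4 : b.val = 0 := by
          have := h3.2
          rw [Fin.le_def] at this
          exact Nat.le_zero.mp this
        by_contra h5
        have h6 : 1 < y.2.val := by omega
        have h7 := h ⟨1, h6.trans y.2.2⟩ (by rw [Fin.lt_def]; exact h6)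
        have h8 := h7.1
        rw [Fin.le_def, h4] at h8
        exact absurd h8 (by norm_num)
      · intro h
        have h2 : 0 < n := lt_of_le_of_lt (Nat.zero_le _) y.2.2
        refine ⟨⟨0, h2⟩, by rw [Fin.lt_def, h]; exact Nat.one_pos, fun c hc => ?_⟩
        rw [Fin.lt_def, h] at hc
        rw [Fin.le_def, Fin.le_def]
        have : c.val = 0 := by omega
        exact ⟨by rw [this], by rw [this]⟩
  have hT : DefP (E := fun n => E n × QQ e n) (fun n G X y => 2 ≤ n) := by
    refine DefP.congr (P := fun n G X (y : E n × QQ e n) => ∃ a b : Fin n, a < b) ?_ ?_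
    · refine DefP.exFin (DefP.exFin (DefP.lt ?_ ?_))
      · exact Tm.snd (F := fun n => E n × QQ e n) (H := fun n => Fin n) (Tm.fst (F := fun n => (E n × QQ e n) × Fin n) (H := fun n => Fin n) Tm.id)
      · exact Tm.snd (F := fun n => (E n × QQ e n) × Fin n) (H := fun n => Fin n) Tm.id
    · intro n G X y
      constructor
      · rintro ⟨a, b, h⟩
        rw [Fin.lt_def] at h
        have := b.2
        omega
      · intro h
        exact ⟨⟨0, by omega⟩, ⟨1, by omega⟩, by rw [Fin.lt_def]; exact Nat.one_pos⟩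
  -- the sum
  have hsm : DefN e (fun n G X (x : E n) => EXA.sm (fun a : Fin n => a.val = 0 ∨ a.val = 1)
      (fun a : Fin n => if a.val = 0 then f n G X x else g n G X x)) := by
    refine DefN.sm (S := fun n => Fin n) (A := fun n G X (x : E n) (a : Fin n) => a.val = 0 ∨ a.val = 1)
      (f := fun n G X (x : E n) (a : Fin n) => if a.val = 0 then f n G X x else g n G X x) (hZ.or hO) ?_
    have hite := DefN.ite hZ (hf.comp (F := E) (E := fun n => E n × Fin n) (g := fun n y => y.1) (Tm.fst (F := E) (H := fun n => Fin n) Tm.id))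
      (hg.comp (F := E) (E := fun n => E n × Fin n) (g := fun n y => y.1) (Tm.fst (F := E) (H := fun n => Fin n) Tm.id))
    refine DefN.congr hite fun n G X y => ?_
    by_cases h0 : (y.2 : Fin n).val = 0
    · rw [if_pos h0, if_pos h0]
    · rw [if_neg h0, if_neg h0]
  have hf' : DefP (E := fun n => E n × QQ e n) (fun n G X y => (f n G X y.1).testBit (nv (S := QQ e) y.2) = true) := hf
  have hg' : DefP (E := fun n => E n × QQ e n) (fun n G X y => (g n G X y.1).testBit (nv (S := QQ e) y.2) = true) := hg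
  have hs' : DefP (E := fun n => E n × QQ e n) (fun n G X y => (EXA.sm (fun a : Fin n => a.val = 0 ∨ a.val = 1)
      (fun a : Fin n => if a.val = 0 then f n G X y.1 else g n G X y.1)).testBit (nv (S := QQ e) y.2) = true) := hsm
  refine DefP.congr ((hT.and hs').or (hT.not.and (hf'.iff hg').not)) fun n G X y => ?_
  by_cases hn : 2 ≤ n
  · have h1 : EXA.sm (fun a : Fin n => a.val = 0 ∨ a.val = 1) (fun a : Fin n => if a.val = 0 then f n G X y.1 else g n G X y.1) =
        f n G X y.1 + g n G X y.1 := by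
      rw [sm_or (fun a h1 h2 => by rw [h1] at h2; exact absurd h2 (by norm_num)),
        sm_single (b := (⟨0, by omega⟩ : Fin n)) (fun a => by rw [Fin.ext_iff]),
        sm_single (b := (⟨1, by omega⟩ : Fin n)) (fun a => by rw [Fin.ext_iff])]
      simp
    simp only [hn, h1, true_and, not_true_eq_false, false_and, or_false]
  · have hlt := nv_lt (S := QQ e) (n := n) y.2
    have hdim : dim (QQ e) = e * 1 := rfl
    rw [hdim, mul_one] at hlt
    have h0 : nv (S := QQ e) y.2 = 0 := by
      have h1 : n ^ e ≤ 1 := by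
        have h2 : n ≤ 1 := by omega
        calc n ^ e ≤ 1 ^ e := Nat.pow_le_pow_left h2 e
          _ = 1 := one_pow e
      omega
    simp only [hn, false_and, not_false_eq_true, true_and, false_or]
    rw [h0, Nat.testBit_zero, Nat.testBit_zero, Nat.testBit_zero, decide_eq_true_iff, decide_eq_true_iff, decide_eq_true_iff]
    omega

/-- Job NME. The numbers are less than `2 ^ (n ^ e)`: `f < g` iff there is a digit where `f` has 0 and `g` has 1 and all higher digits agree (`Nat.lt_of_testBit`; conversely the highest digit where they differ). -/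
theorem DefN.lt {f g : ∀ n : ℕ, SimpleGraph (Fin n) → Ctx n → E n → ℕ} (hf : DefN e f) (hg : DefN e g)
    (bf : ∀ n G X x, f n G X x < 2 ^ (n ^ e)) (bg : ∀ n G X x, g n G X x < 2 ^ (n ^ e)) : DefP (fun n G X x => f n G X x < g n G X x) := by
  have hf' : DefP (E := fun n => E n × QQ e n) (fun n G X y => (f n G X y.1).testBit (nv (S := QQ e) y.2) = true) := hf
  have hg' : DefP (E := fun n => E n × QQ e n) (fun n G X y => (g n G X y.1).testBit (nv (S := QQ e) y.2) = true) := hg
  have hT : Tm (E := fun n => (E n × QQ e n) × QQ e n) (F := fun n => E n × QQ e n) (fun n y => (y.1.1, y.2)) :=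
    Tm.pair (Tm.fst (F := E) (H := QQ e) (Tm.fst (F := fun n => E n × QQ e n) (H := QQ e) Tm.id)) (Tm.snd (F := fun n => E n × QQ e n) (H := QQ e) Tm.id)
  have hf2 : DefP (E := fun n => (E n × QQ e n) × QQ e n) (fun n G X y => (f n G X y.1.1).testBit (nv (S := QQ e) y.2) = true) :=
    hf'.comp hT
  have hg2 : DefP (E := fun n => (E n × QQ e n) × QQ e n) (fun n G X y => (g n G X y.1.1).testBit (nv (S := QQ e) y.2) = true) :=
    hg'.comp hT
  refine DefP.congr (P := fun n G X (x : E n) => ∃ i : QQ e n, ¬ (f n G X x).testBit (nv (S := QQ e) i) = true ∧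
    (g n G X x).testBit (nv (S := QQ e) i) = true ∧
      ∀ j : QQ e n, nv (S := QQ e) i < nv (S := QQ e) j →
        ((f n G X x).testBit (nv (S := QQ e) j) = true ↔ (g n G X x).testBit (nv (S := QQ e) j) = true)) ?_ ?_
  · refine DefP.ex (hf'.not.and (hg'.and (DefP.all (DefP.imp ?_ (hf2.iff hg2)))))
    exact DefP.nLt (F := QQ e) (H := QQ e) (E := fun n => (E n × QQ e n) × QQ e n) (f := fun n y => y.1.2) (g := fun n y => y.2)
      (Tm.snd (F := E) (H := QQ e) (Tm.fst (F := fun n => E n × QQ e n) (H := QQ e) Tm.id)) (Tm.snd (F := fun n => E n × QQ e n) (H := QQ e) Tm.id)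
  · intro n G X x
    exact nme_lt_iff _ _ (bf n G X x) (bg n G X x)

/-- Job NME. -/
theorem DefN.le {f g : ∀ n : ℕ, SimpleGraph (Fin n) → Ctx n → E n → ℕ} (hf : DefN e f) (hg : DefN e g)
    (bf : ∀ n G X x, f n G X x < 2 ^ (n ^ e)) (bg : ∀ n G X x, g n G X x < 2 ^ (n ^ e)) : DefP (fun n G X x => f n G X x ≤ g n G X x) :=
  (DefN.lt hg hf bg bf).not.congr fun n G X x => not_lt

private theorem nmf_bit {n : ℕ} {a b : ℕ} (h : a % 2 ^ (n ^ e) = b % 2 ^ (n ^ e)) (i : QQ e n) :
    a.testBit (nv (S := QQ e) i) = b.testBit (nv (S := QQ e) i) := by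
  have hi : nv (S := QQ e) i < n ^ e := by
    have h := nv_lt (S := QQ e) i
    rwa [show dim (QQ e) = e from Nat.mul_one e] at h
  have h1 := congrArg (fun a : ℕ => a.testBit (nv (S := QQ e) i)) h
  simpa only [Nat.testBit_mod_two_pow, decide_eq_true hi, Bool.true_and] using h1

private theorem nmf_iter {n : ℕ} {T : Type} (Φ : (T → ℕ) → T → ℕ)
    (hm : ∀ f g, (∀ s, f s % 2 ^ (n ^ e) = g s % 2 ^ (n ^ e)) → ∀ s, Φ f s % 2 ^ (n ^ e) = Φ g s % 2 ^ (n ^ e)) (m : ℕ) :
    (fun (R : T × QQ e n → Prop) (p : T × QQ e n) =>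
      (Φ (fun s => EXA.bn e (fun i : QQ e n => R (s, i))) p.1).testBit (nv (S := QQ e) p.2) = true)^[m] (fun _ => False) =
    fun p => (Φ^[m] (fun _ => 0) p.1).testBit (nv (S := QQ e) p.2) = true := by
  induction m with
  | zero =>
    funext p
    simp only [Function.iterate_zero, id, Nat.zero_testBit, Bool.false_eq_true]
  | succ m ih =>
    rw [Function.iterate_succ_apply', ih, Function.iterate_succ_apply']
    funext p
    have h : Φ (fun s => EXA.bn e (fun i : QQ e n => (Φ^[m] (fun _ => 0) s).testBit (nv (S := QQ e) i) = true)) p.1 % 2 ^ (n ^ e) =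
        Φ (Φ^[m] (fun _ => 0)) p.1 % 2 ^ (n ^ e) := by
      refine hm _ _ (fun s => ?_) p.1
      rw [bn_mod, Nat.mod_mod]
    change ((Φ (fun s => EXA.bn e (fun i : QQ e n => (Φ^[m] (fun _ => 0) s).testBit (nv (S := QQ e) i) = true)) p.1).testBit
      (nv (S := QQ e) p.2) = true) = _
    rw [nmf_bit h]

/-- Job NMF. **Iteration of operators on numbers.** The state relation of the iteration (`iterX'` for `S n × QQ e n`) consists of the digits of the numbers `f s`. Claim: after `j` steps `R (s, i)` is the digit `i` of the `j`-th iterate (`bn_mod`, `hm`: the digits below `n ^ e` only depend on these digits). -/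
theorem DefN.iterX (c d : ℕ) {Φ : ∀ n : ℕ, SimpleGraph (Fin n) → Ctx n → E n → (S n → ℕ) → S n → ℕ}
    (hm : ∀ n G X x f g, (∀ s, f s % 2 ^ (n ^ e) = g s % 2 ^ (n ^ e)) → ∀ s, Φ n G X x f s % 2 ^ (n ^ e) = Φ n G X x g s % 2 ^ (n ^ e))
    (hΦ : DefN e (E := fun n => E n × S n) (fun n G X y => Φ n G (PMNC.pop X) y.1 (fun s => EXA.bn e (fun i : QQ e n => PMNC.rv (S := fun n => S n × QQ e n) X 0 (s, i))) y.2)) :
    DefN e (E := fun n => E n × S n) (fun n G X y => (Φ n G X y.1)^[(c * Nat.size n) ^ (d + 1)] (fun _ => 0) y.2) := by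
  have t1 : Tm (E := fun n => E n × (S n × QQ e n)) (F := fun n => (E n × S n) × QQ e n)
      (fun n y => ((y.1, y.2.1), y.2.2)) :=
    Tm.pair (E := fun n => E n × (S n × QQ e n)) (F := fun n => E n × S n) (H := QQ e)
      (Tm.pair (E := fun n => E n × (S n × QQ e n)) (F := E) (H := S)
        (Tm.fst (F := E) (H := fun n => S n × QQ e n) Tm.id)
        (Tm.fst (E := fun n => E n × (S n × QQ e n)) (F := S) (H := QQ e)
          (Tm.snd (F := E) (H := fun n => S n × QQ e n) Tm.id)))
      (Tm.snd (E := fun n => E n × (S n × QQ e n)) (F := S) (H := QQ e)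
        (Tm.snd (F := E) (H := fun n => S n × QQ e n) Tm.id))
  have t2 : Tm (E := fun n => (E n × S n) × QQ e n) (F := fun n => E n × (S n × QQ e n))
      (fun n z => (z.1.1, (z.1.2, z.2))) :=
    Tm.pair (E := fun n => (E n × S n) × QQ e n) (F := E) (H := fun n => S n × QQ e n)
      (Tm.fst (E := fun n => (E n × S n) × QQ e n) (F := E) (H := S)
        (Tm.fst (F := fun n => E n × S n) (H := QQ e) Tm.id))
      (Tm.pair (E := fun n => (E n × S n) × QQ e n) (F := S) (H := QQ e)
        (Tm.snd (E := fun n => (E n × S n) × QQ e n) (F := E) (H := S)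
          (Tm.fst (F := fun n => E n × S n) (H := QQ e) Tm.id))
        (Tm.snd (F := fun n => E n × S n) (H := QQ e) Tm.id))
  have h1 := DefP.comp (E := fun n => E n × (S n × QQ e n)) (F := fun n => (E n × S n) × QQ e n) hΦ t1
  have h2 := iterX' (E := E) (S := fun n => S n × QQ e n) c d
    (I := fun n G X x p => False)
    (Φ := fun n G X x R p => (Φ n G X x (fun s => EXA.bn e (fun i : QQ e n => R (s, i))) p.1).testBit (nv (S := QQ e) p.2) = true)
    DefP.false h1
  have h3 := DefP.comp (E := fun n => (E n × S n) × QQ e n) (F := fun n => E n × (S n × QQ e n)) h2 t2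
  refine DefP.congr (E := fun n => (E n × S n) × QQ e n) h3 fun n G X z => ?_
  have h4 := congrFun (nmf_iter (e := e) (n := n) (Φ n G X z.1.1) (hm n G X z.1.1) ((c * Nat.size n) ^ (d + 1))) (z.1.2, z.2)
  exact iff_of_eq h4

end

end Pool.Agent.EXA
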