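import Pool.Agent.Lib.MP_0087d5_lc.EXA.Brid
import Pool.Agent.Lib.MP_0087d5_lc.SUB.Round

/-!
# One round

Jobs RNA (`pd_G`, `ow_inv`), RNB (`own_hK`, `g_le`), RNC (`fam_cp`), RND (`rE_spec`), RNE (`arith_JI`).
-/

set_option linter.all false

namespace Pool.Agent.EXA

open Relation Finset Pool.Agent.PMNC Pool.Agent.AUG Pool.Agent.UPM Pool.Agent.SUB

variable {n : ℕ} {G M : SimpleGraph (Fin n)} {a b e g k : ℕ}

/-- Job RNA. (`gdata`, `lv_pos`, `lv_exp`, `lv_cov`: a covered node has level at least 2; its level is finite by `bd`, `th_lt`.) -/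
theorem pd_G (h : IsMat G M) (hn : ¬ Mxl G (mt M)) :
    PD (ndK n (G, M)) (lv G (mt M)) (leK' n (G, M)) (upK n (G, M)) (fun x => mt M x = x) (lam G (mt M) + 1) := by
  have hg := gdata h hn
  have hm : Mate G (mt M) := (mt_mate h).1
  refine ⟨hg.le_iff, hg.lt, fun b _ => lv_pos hm, fun b hb => ⟨fun h1 => lv_exp hm h1, fun h1 => ?_⟩, hg.bd⟩
  by_contra h2
  have h3 : lv G (mt M) b < ZZ (VS n) := by
    have h4 := hg.bd b hb
    have h5 := th_lt hm hn
    omega
  obtain ⟨s, z, -, -, -, -, h4⟩ := lv_cov hm h2 h3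
  omega

/-- Job RNE. The parameters `J = JJ (4 a) b n`, `I = JJ (8 a) (b + 1) n`. (`n < 2 ^ Nat.size n`.) -/
theorem arith_JI (hn : 2 ≤ n) (ha : 1 ≤ a) (hk : k < JJ a b n) : 2 * (k + 1) < JJ (4 * a) b n ∧ (n ^ 2) ^ JJ (4 * a) b n < 2 ^ JJ (8 * a) (b + 1) n := by
  have hs : 2 ≤ Nat.size n := by
    by_contra h
    have h1 : Nat.size n ≤ 1 := by omega
    rw [Nat.size_le] at h1
    omega
  have e1 : JJ (4 * a) b n = 4 ^ (b + 1) * JJ a b n := by
    unfold JJ
    rw [← mul_pow]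
    congr 1
    ring
  have e2 : 1 ≤ JJ a b n := by omega
  have e3 : 4 ≤ 4 ^ (b + 1) := by
    calc 4 = 4 ^ 1 := by norm_num
      _ ≤ 4 ^ (b + 1) := Nat.pow_le_pow_right (by norm_num) (by omega)
  have e4 : 4 * JJ a b n ≤ JJ (4 * a) b n := by
    rw [e1]
    exact Nat.mul_le_mul_right _ e3
  refine ⟨by omega, ?_⟩
  have h1 : n < 2 ^ Nat.size n := Nat.lt_size_self n
  have h2 : (n ^ 2) ^ JJ (4 * a) b n ≤ 2 ^ (2 * Nat.size n * JJ (4 * a) b n) := by
    calc (n ^ 2) ^ JJ (4 * a) b n ≤ ((2 ^ Nat.size n) ^ 2) ^ JJ (4 * a) b n := Nat.pow_le_pow_left (Nat.pow_le_pow_left h1.le _) _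
      _ = 2 ^ (2 * Nat.size n * JJ (4 * a) b n) := by
        rw [← pow_mul, ← pow_mul]
        congr 1
        ring
  refine lt_of_le_of_lt h2 (Nat.pow_lt_pow_right (by norm_num) ?_)
  have e5 : JJ (8 * a) (b + 1) n = (8 * a * Nat.size n) * (8 * a * Nat.size n) ^ (b + 1) := by
    unfold JJ
    rw [pow_succ' _ (b + 1)]
  have e6 : JJ (4 * a) b n ≤ (8 * a * Nat.size n) ^ (b + 1) :=
    Nat.pow_le_pow_left (Nat.mul_le_mul_right _ (by omega)) _
  have e7 : 0 < JJ (4 * a) b n := by omega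
  rw [e5]
  calc 2 * Nat.size n * JJ (4 * a) b n < (8 * a * Nat.size n) * JJ (4 * a) b n := by
        apply Nat.mul_lt_mul_of_pos_right _ e7
        nlinarith
    _ ≤ _ := Nat.mul_le_mul_left _ e6

/-- Job RNA. (`own_inv` if `lam < JJ a b n` (`lamK_iff`, `arith_JI`, `lam_lt`: `2 ≤ n`), otherwise `ginv_zero`.) -/
theorem ow_inv (ha : 1 ≤ a) (h : IsMat G M) (hn : ¬ Mxl G (mt M)) : ∃ ac, GI G M (OwE a b e n (G, M), ac) := by
  have hg := gdata h hn
  have hm : Mate G (mt M) := (mt_mate h).1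
  have h2 : 2 ≤ n := by
    have := lam_lt hm hn
    omega
  by_cases hk : ∃ k : Fin n, lamK n (G, M) k ∧ (k : ℕ) < JJ a b n
  · obtain ⟨k, hk1, hk2⟩ := hk
    have hlam : lam G (mt M) = k := ((lamK_iff h).1 hk1).2
    have hlt : lam G (mt M) < JJ a b n := by
      rw [hlam]
      exact hk2
    have hJ : 2 * (lam G (mt M) + 1) < JJ (4 * a) b n := (arith_JI h2 ha hlt).1
    have hi := own_inv (br := brK n (G, M)) (I := JJ (8 * a) (b + 1) n) (e := e) h2 (pd_G h hn) hJ hg.rt_nd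
    have he : OwE a b e n (G, M) = Own (JJ (4 * a) b n) (JJ (8 * a) (b + 1) n) e (ndK n (G, M)) (leK' n (G, M)) (upK n (G, M))
        (fun x => mt M x = x) (brK n (G, M)) := by
      funext x r
      apply propext
      constructor
      · rintro (h1 | ⟨-, h1⟩)
        · exact Or.inl h1
        · exact Or.inr h1
      · rintro (h1 | h1)
        · exact Or.inl h1
        · exact Or.inr ⟨⟨k, hk1, hk2⟩, h1⟩
    rw [he]
    exact ⟨_, hi⟩
  · have he : OwE a b e n (G, M) = (g0 (fun x => mt M x = x) : St n).1 := by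
      funext x r
      apply propext
      constructor
      · rintro (h1 | ⟨h1, -⟩)
        · exact h1
        · exact absurd h1 hk
      · intro h1
        exact Or.inl h1
    refine ⟨(g0 (fun x => mt M x = x) : St n).2, ?_⟩
    rw [he]
    exact ginv_zero hg

/-- The root of a chain is a member of the chain. -/
private theorem rnb_mem {V : Type*} {U : V → V → Prop} {r : V} {L : List V} (h : Chn U r L) : r ∈ L := by
  induction h with
  | nil => exact List.mem_singleton.2 rfl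
  | cons _ _ ih => exact List.mem_cons_of_mem _ ih

/-- Job RNB. The zone of a chosen pair of chains contains a shortest augmenting path: `f1` (`ndK_eq`, `upK_eq`, `brK_eq`), `hK_iff`. -/
theorem own_hK (h : IsMat G M) (hn : ¬ Mxl G (mt M)) {Ow : Fin n → Fin n → Prop} {r t p q : Fin n} {A A' : List (Fin n)}
    (hc : CP (ndK n (G, M)) (upK n (G, M)) (fun x => mt M x = x) (brK n (G, M)) r t p q A A')
    (h1 : ∀ b ∈ p :: A, Ow b r) (h2 : ∀ b ∈ q :: A', Ow b t) : r ≠ t ∧ hK n (G, M) Ow r t := by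
  have hmm := mt_mate h
  rw [ndK_eq h hn, upK_eq h hn, brK_eq h hn] at hc
  obtain ⟨S, hS, hm⟩ := f1 hmm.1 hn hc.rr hc.rt hc.cA hc.cB hc.nd hc.nodup hc.br
  have hr := rnb_mem hc.cA
  have ht := rnb_mem hc.cB
  refine ⟨fun he => ?_, ?_⟩
  · rw [he] at hr
    exact List.disjoint_of_nodup_append hc.nodup hr ht
  · refine (hK_iff h hn).2 ⟨hc.rr, hc.rt, S, hS, fun x hx => ?_⟩
    obtain ⟨b, hb, hb'⟩ := hm x hx
    rw [← claK_eq h hn] at hb'
    rcases List.mem_append.1 hb with hb | hb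
    · exact Or.inl ⟨b, h1 b hb, hb'⟩
    · exact Or.inr ⟨b, h2 b hb, hb'⟩

/-- Job RNB. A maximal matching of a graph with `g` disjoint edges `{r i, t i}` covers at least `g` vertices. -/
theorem g_le {H Mx : SimpleGraph (Fin n)} (hM : MaxlM H Mx) (r t : Fin g → Fin n) (h1 : ∀ i, H.Adj (r i) (t i))
    (h2 : ∀ i j, i ≠ j → r i ≠ r j ∧ t i ≠ t j ∧ r i ≠ t j) : g ≤ {x | ∃ y, Mx.Adj x y}.ncard := by
  classical
  choose c hc1 hc2 using fun i : Fin g => (show ∃ x, (x = r i ∨ x = t i) ∧ ∃ y, Mx.Adj x y from by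
    rcases hM.2 _ _ (h1 i) with hy | hy
    · exact ⟨r i, Or.inl rfl, hy⟩
    · exact ⟨t i, Or.inr rfl, hy⟩)
  have hinj : Function.Injective c := by
    intro i j hij
    by_contra hne
    obtain ⟨h3, h4, h5⟩ := h2 i j hne
    obtain ⟨_, _, h6⟩ := h2 j i (Ne.symm hne)
    rcases hc1 i with h7 | h7 <;> rcases hc1 j with h8 | h8
    · exact h3 (by rw [← h7, ← h8, hij])
    · exact h5 (by rw [← h7, ← h8, hij])
    · exact h6 (by rw [← h7, ← h8, hij])
    · exact h4 (by rw [← h7, ← h8, hij])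
  have hle := Set.ncard_le_ncard (s := Set.range c) (t := {x | ∃ y, Mx.Adj x y}) (by
    rintro x ⟨i, rfl⟩
    exact hc2 i) (Set.toFinite _)
  rwa [Set.ncard_range_of_injective hinj, Nat.card_eq_fintype_card, Fintype.card_fin] at hle

/-- Job RNC. Disjoint shortest augmenting paths give disjoint pairs of chains: `dec_tight`, `f2` (`ndK_eq`, `upK_eq`, `brK_eq`). -/
theorem fam_cp (h : IsMat G M) (hn : ¬ Mxl G (mt M)) {ν : Fin n → Fin n} (hs : Sp G (mt M) ν k) :
    ∃ (r t p q : Fin k → Fin n) (A A' : Fin k → List (Fin n)),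
      (∀ i, CP (ndK n (G, M)) (upK n (G, M)) (fun x => mt M x = x) (brK n (G, M)) (r i) (t i) (p i) (q i) (A i) (A' i)) ∧
      ∀ i j, i ≠ j → ∀ b ∈ (p i :: A i) ++ (q i :: A' i), b ∉ (p j :: A j) ++ (q j :: A' j) := by
  have hm : Mate G (mt M) := (mt_mate h).1
  obtain ⟨S, hS, hd⟩ := dec_tight hm hs
  choose r t p q A A' hrt hr ht hA hA' hN hnd hbr using fun i => f2 hm hn (hS i)
  refine ⟨r, t, p, q, A, A', fun i => ?_, fun i j hij b hb hb' => ?_⟩
  · refine ⟨hr i, ht i, ?_, ?_, ?_, ?_, hnd i⟩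
    · rw [upK_eq h hn]
      exact hA i
    · rw [upK_eq h hn]
      exact hA' i
    · rw [brK_eq h hn]
      exact hbr i
    · intro b hb
      rw [ndK_eq h hn]
      exact (hN i b hb).1
  · exact Finset.disjoint_left.1 (hd i j hij) (hN i b hb).2 (hN j b hb').2

/-- Job RND. (`fin_sp` with `ow_inv`, `mx0_maxl`; if `lam < JJ a b n`: `ch_many` (`OwE` is `Own`), `own_hK`, `g_le` for the roots of the chosen pairs (the last members of the chains, so different): `g ≤ 2 f`; `fam_cp`.) -/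
theorem rE_sp (ha : 1 ≤ a) (he : EOk (4 * a) b (8 * a) (b + 1) e) (h : IsMat G M) (hn : ¬ Mxl G (mt M)) :
    IsMat G (rE a b e n G M) ∧ ∃ f, Sp G (mt M) (mt (rE a b e n G M)) f ∧
      (lam G (mt M) < JJ a b n → ∀ ν k, Sp G (mt M) ν k → k ≤ 256 * JJ (4 * a) b n ^ 3 * JJ (8 * a) (b + 1) n * f) := by
  obtain ⟨ac, hac⟩ := ow_inv (a := a) (b := b) (e := e) ha h hn
  obtain ⟨h1, f, hf, hcard⟩ := fin_sp (mx := mx0) mx0_maxl h hn hac
  refine ⟨h1, f, hf, fun hl ν k hs => ?_⟩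
  have hmm := mt_mate h
  have hlam := lam_lt hmm.1 hn
  have hn2 : 2 ≤ n := by omega
  obtain ⟨hJ, hI⟩ := arith_JI hn2 ha hl
  obtain ⟨g, r, t, p, q, A, A', hCP, hdis, hown, hmany⟩ := ch_many (e := e) (br := brK n (G, M)) hn2 (pd_G h hn) hJ hI (he.2 n hn2).2
  obtain ⟨r', t', p', q', X, X', hX1, hX2⟩ := fam_cp h hn hs
  have hk := hmany k r' t' p' q' X X' hX1 hX2
  have hOw : ∀ x s, Own (JJ (4 * a) b n) (JJ (8 * a) (b + 1) n) e (ndK n (G, M)) (leK' n (G, M)) (upK n (G, M)) (fun x => mt M x = x) (brK n (G, M)) x s →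
      OwE a b e n (G, M) x s := by
    intro x s hx
    rcases hx with hx | hx
    · exact Or.inl hx
    · exact Or.inr ⟨⟨⟨lam G (mt M), by omega⟩, (lamK_iff h).2 ⟨hn, rfl⟩, hl⟩, hx⟩
  have hg : g ≤ 2 * f := by
    rw [← hcard]
    refine g_le (mx0_maxl n _) r t (fun i => ?_) (fun i j hij => ?_)
    · obtain ⟨h3, h4⟩ := own_hK h hn (hCP i) (fun b hb => hOw _ _ ((hown i).1 b hb)) (fun b hb => hOw _ _ ((hown i).2 b hb))
      exact (SimpleGraph.fromRel_adj _ _ _).2 ⟨h3, Or.inl h4⟩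
    · have hri : r i ∈ (p i :: A i) ++ (q i :: A' i) := List.mem_append_left _ (rnb_mem (hCP i).cA)
      have hti : t i ∈ (p i :: A i) ++ (q i :: A' i) := List.mem_append_right _ (rnb_mem (hCP i).cB)
      have hrj : r j ∈ (p j :: A j) ++ (q j :: A' j) := List.mem_append_left _ (rnb_mem (hCP j).cA)
      have htj : t j ∈ (p j :: A j) ++ (q j :: A' j) := List.mem_append_right _ (rnb_mem (hCP j).cB)
      refine ⟨fun hh => hdis i j hij _ hri (hh ▸ hrj), fun hh => hdis i j hij _ hti (hh ▸ htj), fun hh => hdis i j hij _ hri (hh ▸ htj)⟩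
  calc k ≤ 128 * JJ (4 * a) b n ^ 3 * JJ (8 * a) (b + 1) n * g := hk
    _ ≤ 128 * JJ (4 * a) b n ^ 3 * JJ (8 * a) (b + 1) n * (2 * f) := Nat.mul_le_mul_left _ hg
    _ = 256 * JJ (4 * a) b n ^ 3 * JJ (8 * a) (b + 1) n * f := by ring

/-- Job RND. (`fin_mxl`.) -/
theorem rE_mx (h : IsMat G M) (hn : Mxl G (mt M)) : rE a b e n G M = M := by
  exact fin_mxl (mx := mx0) mx0_maxl h hn

end Pool.Agent.EXA
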