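import Pool.Agent.Lib.MP_0087d5_lc.EXA.Heavy
import Pool.Agent.Lib.MP_0087d5_lc.EXA.Cong
import Pool.Agent.Lib.MP_0087d5_lc.EXA.Hash
import Pool.Agent.Lib.MP_0087d5_lc.WNum

/-!
# The selection of disjoint runs

The net has states `SS n = Fin n × Fin n` and vertices `Fin n`. Tokens: `TT n = SS n × UU n`, `UU n` has `n ^ 5` elements. Parameters `PP e n`: the number `i` of deletion steps (coded by `QQ e n`) and `q`, `a`, `b`, `m` of a sample. `ind p` = tokens in the sample without a smaller conflicting token in the sample;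
the best parameter is chosen. `Ch b r`: `b` is on a chain with the root `r` of a chosen run (the first or the second components of its states).
Jobs SLA (`DL_eq`), SLB (`th_ss`, `exists_q`), SLC (`sel_large`), SLD (`bst_exists`, `sel_main`), SLE (`ind_run`, `ind_disj`).
-/

namespace Pool.Agent.EXA

open Finset Pool.Agent.PMNC

abbrev SS (n : ℕ) : Type := Fin n × Fin n
abbrev UU (n : ℕ) : Type := Fin 5 → Fin n
abbrev TT (n : ℕ) : Type := SS n × UU n
abbrev HH (n : ℕ) : Type := Fin 11 → Fin n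
abbrev QQ (e n : ℕ) : Type := Fin e → Fin n
abbrev PP (e n : ℕ) : Type := QQ e n × (HH n × (HH n × (HH n × HH n)))

instance : Env SS := inferInstanceAs (Env (fun n => Fin n × Fin n))
instance : Env UU := inferInstanceAs (Env (fun n => Fin 5 → Fin n))
instance : Env TT := inferInstanceAs (Env (fun n => SS n × UU n))
instance : Env HH := inferInstanceAs (Env (fun n => Fin 11 → Fin n))
instance (e : ℕ) : Env (QQ e) := inferInstanceAs (Env (fun n => Fin e → Fin n))
instance (e : ℕ) : Env (PP e) := inferInstanceAs (Env (fun n => QQ e n × (HH n × (HH n × (HH n × HH n)))))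

section defs

variable {n : ℕ} (N : Net (SS n) (Fin n)) (J I e : ℕ)

/-- One step of the computation of the sets of deleted vertices, for all indices at once. -/
def dlt (R : QQ e n × Fin n → Prop) (y : QQ e n × Fin n) : Prop :=
  ∃ i' : QQ e n, nv (S := QQ e) y.1 = nv (S := QQ e) i' + 1 ∧ N.hvy J (fun v => R (i', v)) y.2

/-- The sets of deleted vertices. -/
def DL : QQ e n × Fin n → Prop := (dlt N J e)^[I] (fun _ => False)

/-- The used tokens. -/
def usd (D : Fin n → Prop) : TT n → Prop := N.us J (nv (S := UU)) (n ^ 5) D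

/-- The visits of the tokens. -/
def vtt (D : Fin n → Prop) : TT n × SS n → Prop := N.vt J (nv (S := SS)) (nv (S := TT)) (nv (S := UU)) (n ^ 5) D

/-- The sample. -/
def hs (h : HH n × (HH n × (HH n × HH n))) (τ : TT n) : Prop :=
  hsh (nv (S := HH) h.1) (nv (S := HH) h.2.1) (nv (S := HH) h.2.2.1) (nv (S := HH) h.2.2.2) (nv (S := TT) τ)

/-- The independent set of the parameter `p`. -/
def ind (p : PP e n) (τ : TT n) : Prop :=
  usd N J (fun v => DL N J I e (p.1, v)) τ ∧ hs p.2 τ ∧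
    ∀ τ', usd N J (fun v => DL N J I e (p.1, v)) τ' → hs p.2 τ' → nv (S := TT) τ' < nv (S := TT) τ → ¬ cnf N (vtt N J (fun v => DL N J I e (p.1, v))) τ' τ

/-- The best parameter. -/
def bst (p : PP e n) : Prop :=
  ∀ p', nc (ind N J I e p') < nc (ind N J I e p) ∨ (nc (ind N J I e p') = nc (ind N J I e p) ∧ nv (S := PP e) p ≤ nv (S := PP e) p')

/-- The chosen chains. -/
def Ch (b r : Fin n) : Prop :=
  ∃ (p : PP e n) (τ : TT n) (z t : SS n), bst N J I e p ∧ ind N J I e p τ ∧ vtt N J (fun v => DL N J I e (p.1, v)) (τ, z) ∧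
    vtt N J (fun v => DL N J I e (p.1, v)) (τ, t) ∧ N.tm t ∧ ((b = z.1 ∧ r = t.1) ∨ (b = z.2 ∧ r = t.2))

end defs

variable {n : ℕ} {N : Net (SS n) (Fin n)} {J I e : ℕ} {rk : SS n → ℕ} {p : PP e n} {τ τ' : TT n} {D : Fin n → Prop}

private theorem sla_aux (N : Net (SS n) (Fin n)) (J e : ℕ) : ∀ (j : ℕ) (i : QQ e n), nv (S := QQ e) i ≤ j → ∀ v : Fin n,
    (dlt N J e)^[j] (fun _ => False) (i, v) ↔ N.dl J (nv (S := QQ e) i) v := by
  intro j
  induction j with
  | zero =>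
    intro i hi v
    have h0 : nv (S := QQ e) i = 0 := Nat.le_zero.1 hi
    rw [h0]
    exact Iff.rfl
  | succ j ih =>
    intro i hi v
    rw [Function.iterate_succ_apply']
    constructor
    · rintro ⟨i', h1, h2⟩
      have h1' : nv (S := QQ e) i = nv (S := QQ e) i' + 1 := h1
      have h3 : (fun v => (dlt N J e)^[j] (fun _ => False) (i', v)) = N.dl J (nv (S := QQ e) i') :=
        funext fun v => propext (ih i' (by omega) v)
      rw [h3] at h2
      rw [h1']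
      show (N.hvy J)^[nv (S := QQ e) i' + 1] (fun _ => False) v
      rw [Function.iterate_succ_apply']
      exact h2
    · intro h
      rcases Nat.eq_zero_or_pos (nv (S := QQ e) i) with h0 | h0
      · rw [h0] at h
        exact h.elim
      · obtain ⟨k, hk⟩ : ∃ k, nv (S := QQ e) i = k + 1 := ⟨nv (S := QQ e) i - 1, by omega⟩
        obtain ⟨i', hi'⟩ := nv_down (S := QQ e) (b := i) (m := k) (by omega)
        refine ⟨i', by rw [hi']; exact hk, ?_⟩
        have h3 : (fun v => (dlt N J e)^[j] (fun _ => False) (i', v)) = N.dl J (nv (S := QQ e) i') :=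
          funext fun v => propext (ih i' (by omega) v)
        show N.hvy J (fun v => (dlt N J e)^[j] (fun _ => False) (i', v)) v
        rw [h3, hi']
        rw [hk] at h
        change (N.hvy J)^[k + 1] (fun _ => False) v at h
        rw [Function.iterate_succ_apply'] at h
        exact h

/-- Job SLA. By induction on `j`: `((dlt N J e)^[j] ∅) (i, v) ↔ N.dl J (nv i) v` if `nv i ≤ j` (`nv_down`, `nv_injective`, `Function.iterate_succ_apply'`). -/
theorem DL_eq {i : QQ e n} (h : nv (S := QQ e) i ≤ I) (v : Fin n) : DL N J I e (i, v) ↔ N.dl J (nv (S := QQ e) i) v :=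
  sla_aux N J e I i h v

/-- The hypotheses on the net. -/
structure NH (N : Net (SS n) (Fin n)) (J : ℕ) (rk : SS n → ℕ) : Prop where
  two : 2 ≤ n
  rkd : ∀ z z', N.mv z z' → rk z' < rk z
  rkJ : ∀ z, rk z < J
  oc : ∀ z v, N.oc z v ↔ v = z.1 ∨ v = z.2

/-- Job SLB. (`nv_injective`, `nv_lt`, `nv_surj`; `n ^ 2 + n ^ 4 ≤ n ^ 5`.) -/
theorem th_ss (h : NH N J rk) : TH N J (nv (S := SS)) (nv (S := TT)) (nv (S := UU)) (n ^ 5) rk where
  rkd := h.rkd
  rkJ := h.rkJ
  hkz := nv_injective (S := SS)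
  hky := nv_injective (S := TT)
  hku := nv_injective (S := UU)
  ku1 := fun u => nv_lt (S := UU) u
  ku2 := fun k hk => nv_surj (S := UU) hk
  hB := by
    have hcS : Fintype.card (SS n) = n ^ 2 := by
      rw [Fintype.card_prod, Fintype.card_fin, pow_two]
    rw [hcS]
    have h2 := h.two
    have h3 : n ^ 2 ≤ n ^ 4 := Nat.pow_le_pow_right (by omega) (by omega)
    have h4 : 2 * n ^ 4 ≤ n * n ^ 4 := Nat.mul_le_mul_right _ h2
    calc n ^ 2 + (n ^ 2) ^ 2 = n ^ 2 + n ^ 4 := by ring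
      _ ≤ n ^ 4 + n ^ 4 := Nat.add_le_add_right h3 _
      _ = 2 * n ^ 4 := by ring
      _ ≤ n * n ^ 4 := h4
      _ = n ^ 5 := by ring
  oc1 := fun z => ⟨z.1, (h.oc z z.1).2 (Or.inl rfl)⟩
  oc2 := fun z => by
    classical
    rw [nc_def]
    have h1 : (univ.filter (N.oc z)) ⊆ {z.1, z.2} := by
      intro v hv
      have h2 := (h.oc z v).1 (Finset.mem_filter.1 hv).2
      simpa using h2
    exact (Finset.card_le_card h1).trans Finset.card_le_two

/-- Job SLB. (Bertrand: `Nat.exists_prime_lt_and_le_two_mul`; `8 n ^ 7 ≤ n ^ 10`.) -/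
theorem exists_q (h : 2 ≤ n) : ∃ q, q.Prime ∧ 4 * n ^ 7 ≤ q ∧ q < n ^ 11 := by
  obtain ⟨q, hq, h1, h2⟩ := Nat.exists_prime_lt_and_le_two_mul (4 * n ^ 7) (by positivity)
  refine ⟨q, hq, h1.le, ?_⟩
  have h3 : 2 ^ 3 ≤ n ^ 3 := Nat.pow_le_pow_left h 3
  have h4 : 8 * n ^ 7 ≤ n ^ 3 * n ^ 7 := Nat.mul_le_mul_right _ h3
  have h5 : n ^ 10 < n ^ 11 := Nat.pow_lt_pow_right (by omega) (by omega)
  calc q ≤ 2 * (4 * n ^ 7) := h2
    _ = 8 * n ^ 7 := by ring
    _ ≤ n ^ 3 * n ^ 7 := h4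
    _ = n ^ 10 := by ring
    _ < n ^ 11 := h5

/-- Job SLC. Let `D = N.dl J i` with `i` from `net_heavy`, `t` = number of used tokens, `h` from `ismx_exists`. `n ^ 5 * tot D ≤ t * h` (`cg_tot`), and `μ * h ≤ 4 J I * tot D` (from `net_heavy` at the vertex `w` of `IsMx`), so `μ * n ^ 5 * tot D ≤ ...`: `μ * n ^ 5 * h * tot D ≤ 4 J I tot D ^ 2 n ^ 5 ≤ 4 J I tot D * t * h`, i.e. `μ * n ^ 5 ≤ 4 J I t` (`h`, `tot D > 0`).
The number of conflicts is at most `4 J ^ 2 n ^ 5 t` (`cg_conf`), so by `hash_main` (with `exists_q`, `nv_lt`) `t ≤ 32 J ^ 2 n ^ 5 * nc (ind p)` for some `p` (the numbers `i`, `q`, `a`, `b`, `m` are values of `nv`: `nv_surj`; `DL_eq`). Together `μ ≤ 128 J ^ 3 I * nc (ind p)`. -/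
theorem sel_large (h : NH N J rk) (hI : (n ^ 2) ^ J < 2 ^ I) (he : I ≤ n ^ e) {μ : ℕ} (hμ : 1 ≤ μ) (F : Fin μ → List (SS n))
    (hF : ∀ i, ∃ z, N.st z ∧ N.Run (fun _ => False) z (F i))
    (hd : ∀ i i', i ≠ i' → ∀ z ∈ F i, ∀ z' ∈ F i', ∀ v, N.oc z v → ¬ N.oc z' v) :
    ∃ p : PP e n, μ ≤ 128 * J ^ 3 * I * nc (ind N J I e p) := by
  have hn : 2 ≤ n := h.two
  have : Nonempty (Fin n) := ⟨⟨0, by omega⟩⟩
  have hth := th_ss h
  have hcS : Fintype.card (SS n) = n ^ 2 := by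
    rw [Fintype.card_prod, Fintype.card_fin, pow_two]
  have hcU : Fintype.card (UU n) = n ^ 5 := by
    rw [Fintype.card_fun, Fintype.card_fin, Fintype.card_fin]
  have hcT : Fintype.card (TT n) = n ^ 7 := by
    rw [Fintype.card_prod, hcS, hcU]
    ring
  obtain ⟨i, hi, h0, hw⟩ := net_heavy (N := N) (J := J) (I := I) (μ := μ) (by rw [hcS]; exact hI) hth.oc1 hth.oc2 hμ F
    (fun i => by
      obtain ⟨z, hz, hr⟩ := hF i
      exact ⟨z, hz, hr, (run_length h.rkd hr).trans (h.rkJ z)⟩) hd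
  obtain ⟨m0, hm0⟩ := ismx_exists (N := N) (J := J) inferInstance (N.dl J i)
  obtain ⟨w, hw1⟩ := hm0.2
  have hA : μ * m0 ≤ 4 * J * I * N.tot (N.dl J i) J := by
    have h2 := hw w
    have h3 : μ * N.tot (N.dl J i) J = μ * N.tot (ins (N.dl J i) w) J + μ * m0 := by
      rw [← Nat.mul_add, ← hw1]
    omega
  have hB := cg_tot hth.hku hth.ku1 hth.ku2 hm0 hth.oc1
  have hC := cg_conf hth (N.dl J i)
  have hJ : 1 ≤ J := by
    have := h.rkJ (Classical.arbitrary (SS n))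
    omega
  have hn5 : 0 < n ^ 5 := Nat.pow_pos (by omega)
  change n ^ 5 * _ ≤ nc (usd N J (N.dl J i)) * m0 at hB
  have hpos : 0 < nc (usd N J (N.dl J i)) := by
    rcases Nat.eq_zero_or_pos (nc (usd N J (N.dl J i))) with h1 | h1
    · rw [h1, zero_mul] at hB
      have := Nat.mul_pos hn5 h0
      omega
    · exact h1
  obtain ⟨q, hq, hq1, hq2⟩ := exists_q hn
  have hdT : dim TT = 7 := rfl
  have hdH : dim HH = 11 := rfl
  have hdQ : dim (QQ e) = e := Nat.mul_one e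
  have hnv : ∀ τ : TT n, nv (S := TT) τ < q := by
    intro τ
    have h1 := nv_lt (S := TT) τ
    rw [hdT] at h1
    omega
  obtain ⟨a, b, m, ha, hb, hm, hH⟩ := hash_main (T := TT n) (ky := nv (S := TT)) (nv_injective (S := TT)) hq
    (by rw [hcT]; exact hq1) hnv (usd N J (N.dl J i)) (cnf N (vtt N J (N.dl J i))) (nc_pos.1 hpos)
  obtain ⟨q', hq'⟩ := nv_surj (S := HH) (n := n) (m := q) (by rw [hdH]; exact hq2)
  obtain ⟨a', ha'⟩ := nv_surj (S := HH) (n := n) (m := a) (by rw [hdH]; omega)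
  obtain ⟨b', hb'⟩ := nv_surj (S := HH) (n := n) (m := b) (by rw [hdH]; omega)
  obtain ⟨m', hm'⟩ := nv_surj (S := HH) (n := n) (m := m) (by rw [hdH]; omega)
  obtain ⟨i', hi'⟩ := nv_surj (S := QQ e) (n := n) (m := i) (by rw [hdQ]; omega)
  refine ⟨(i', (q', (a', (b', m')))), ?_⟩
  have hDL : (fun v => DL N J I e (i', v)) = N.dl J i := by
    funext v
    rw [DL_eq (by rw [hi']; exact hi.le) v, hi']
  have hind : nc (ind N J I e (i', (q', (a', (b', m'))))) = nc (fun τ => usd N J (N.dl J i) τ ∧ hsh q a b m (nv (S := TT) τ) ∧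
      ∀ τ', usd N J (N.dl J i) τ' → hsh q a b m (nv (S := TT) τ') → nv (S := TT) τ' < nv (S := TT) τ → ¬ cnf N (vtt N J (N.dl J i)) τ' τ) := by
    refine nc_congr fun τ => ?_
    unfold ind hs
    simp only [hDL, hq', ha', hb', hm']
  rw [hind]
  generalize nc (fun τ => usd N J (N.dl J i) τ ∧ hsh q a b m (nv (S := TT) τ) ∧
      ∀ τ', usd N J (N.dl J i) τ' → hsh q a b m (nv (S := TT) τ') → nv (S := TT) τ' < nv (S := TT) τ → ¬ cnf N (vtt N J (N.dl J i)) τ' τ) = r at hH ⊢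
  change nc (usd N J (N.dl J i)) ^ 2 ≤ _ at hH
  have hC' : nc (fun p : TT n × TT n => usd N J (N.dl J i) p.1 ∧ usd N J (N.dl J i) p.2 ∧ nv (S := TT) p.1 < nv (S := TT) p.2 ∧
      cnf N (vtt N J (N.dl J i)) p.1 p.2) ≤ 4 * J ^ 2 * n ^ 5 * nc (usd N J (N.dl J i)) := hC
  generalize nc (fun p : TT n × TT n => usd N J (N.dl J i) p.1 ∧ usd N J (N.dl J i) p.2 ∧ nv (S := TT) p.1 < nv (S := TT) p.2 ∧
      cnf N (vtt N J (N.dl J i)) p.1 p.2) = x at hH hC'
  generalize nc (usd N J (N.dl J i)) = t at hH hB hpos hC'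
  generalize N.tot (N.dl J i) J = T at hA hB h0
  have hmax : max x t ≤ 4 * J ^ 2 * n ^ 5 * t := by
    refine max_le hC' ?_
    have : 1 ≤ 4 * J ^ 2 * n ^ 5 := Nat.one_le_iff_ne_zero.2 (by positivity)
    exact Nat.le_mul_of_pos_left t this
  have h5 : t ≤ 32 * J ^ 2 * n ^ 5 * r := by
    have h6 : t * t ≤ t * (32 * J ^ 2 * n ^ 5 * r) := by
      calc t * t = t ^ 2 := (pow_two t).symm
        _ ≤ 8 * max x t * r := hH
        _ ≤ 8 * (4 * J ^ 2 * n ^ 5 * t) * r := Nat.mul_le_mul_right _ (Nat.mul_le_mul_left _ hmax)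
        _ = t * (32 * J ^ 2 * n ^ 5 * r) := by ring
    exact Nat.le_of_mul_le_mul_left h6 hpos
  have h7 : μ * n ^ 5 ≤ 4 * J * I * t := by
    have h8 : T * (μ * n ^ 5) ≤ T * (4 * J * I * t) := by
      calc T * (μ * n ^ 5) = μ * (n ^ 5 * T) := by ring
        _ ≤ μ * (t * m0) := Nat.mul_le_mul_left _ hB
        _ = t * (μ * m0) := by ring
        _ ≤ t * (4 * J * I * T) := Nat.mul_le_mul_left _ hA
        _ = T * (4 * J * I * t) := by ring
    exact Nat.le_of_mul_le_mul_left h8 h0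
  have h9 : n ^ 5 * μ ≤ n ^ 5 * (128 * J ^ 3 * I * r) := by
    calc n ^ 5 * μ = μ * n ^ 5 := Nat.mul_comm _ _
      _ ≤ 4 * J * I * t := h7
      _ ≤ 4 * J * I * (32 * J ^ 2 * n ^ 5 * r) := Nat.mul_le_mul_left _ h5
      _ = n ^ 5 * (128 * J ^ 3 * I * r) := by ring
  exact Nat.le_of_mul_le_mul_left h9 hn5

/-- Job SLD. (`0 < n`, so there are parameters.) -/
theorem bst_exists (h : 2 ≤ n) : ∃ p, bst N J I e p := by
  have : Nonempty (Fin n) := ⟨⟨0, by omega⟩⟩
  classical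
  obtain ⟨p0, -, h0⟩ := Finset.exists_max_image (Finset.univ : Finset (PP e n)) (fun p => nc (ind N J I e p)) Finset.univ_nonempty
  obtain ⟨p, hp, h1⟩ := Finset.exists_min_image ((Finset.univ : Finset (PP e n)).filter (fun p => nc (ind N J I e p) = nc (ind N J I e p0)))
    (fun p => nv (S := PP e) p) ⟨p0, by simp⟩
  have hp' : nc (ind N J I e p) = nc (ind N J I e p0) := (Finset.mem_filter.1 hp).2
  refine ⟨p, fun p' => ?_⟩
  have h2 := h0 p' (Finset.mem_univ _)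
  rcases lt_or_eq_of_le h2 with h3 | h3
  · exact Or.inl (by rw [hp']; exact h3)
  · exact Or.inr ⟨by rw [hp']; exact h3, h1 p' (Finset.mem_filter.2 ⟨Finset.mem_univ _, h3⟩)⟩

/-- Job SLD. -/
theorem bst_unique {p' : PP e n} (h : bst N J I e p) (h' : bst N J I e p') : p = p' := by
  have h1 := h p'
  have h2 := h' p
  apply nv_injective (S := PP e)
  omega

/-- Job SLD. -/
theorem sel_main (h : NH N J rk) (hI : (n ^ 2) ^ J < 2 ^ I) (he : I ≤ n ^ e) (hp : bst N J I e p) {μ : ℕ} (F : Fin μ → List (SS n))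
    (hF : ∀ i, ∃ z, N.st z ∧ N.Run (fun _ => False) z (F i))
    (hd : ∀ i i', i ≠ i' → ∀ z ∈ F i, ∀ z' ∈ F i', ∀ v, N.oc z v → ¬ N.oc z' v) :
    μ ≤ 128 * J ^ 3 * I * nc (ind N J I e p) := by
  rcases Nat.eq_zero_or_pos μ with h0 | h0
  · rw [h0]
    exact Nat.zero_le _
  · obtain ⟨p', hp'⟩ := sel_large h hI he h0 F hF hd
    refine hp'.trans (Nat.mul_le_mul_left _ ?_)
    rcases hp p' with h1 | h1
    · exact h1.le
    · exact h1.1.le

/-- Job SLE. The trajectory of a chosen token. (`th_tk`, `tk_run`, `cnt_al`, `run_iff`.) -/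
theorem ind_run (h : NH N J rk) (hτ : ind N J I e p τ) :
    N.st τ.1 ∧ ∃ l, N.Run (fun _ => False) τ.1 l ∧ ∀ z, vtt N J (fun v => DL N J I e (p.1, v)) (τ, z) ↔ z ∈ l := by
  have : Nonempty (Fin n) := ⟨⟨0, lt_of_lt_of_le Nat.zero_lt_two h.two⟩⟩
  have hT := th_tk (th_ss h) (fun v => DL N J I e (p.1, v)) inferInstance
  have hu : N.us J (nv (S := UU)) (n ^ 5) (fun v => DL N J I e (p.1, v)) τ := hτ.1
  refine ⟨hu.1, ?_⟩
  obtain ⟨l, hl, hl'⟩ := tk_run hT (fun z hz => cnt_al hz) hu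
  exact ⟨l, (run_iff.1 hl).1, hl'⟩

/-- Job SLE. Different chosen tokens have no common vertex. -/
theorem ind_disj (hτ : ind N J I e p τ) (hτ' : ind N J I e p τ') (hne : τ ≠ τ') {z z' : SS n} {v : Fin n}
    (hz : vtt N J (fun v => DL N J I e (p.1, v)) (τ, z)) (hz' : vtt N J (fun v => DL N J I e (p.1, v)) (τ', z')) (hv : N.oc z v) : ¬ N.oc z' v := by
  intro hv'
  have hne' : nv (S := TT) τ ≠ nv (S := TT) τ' := fun h => hne (nv_injective (S := TT) h)
  rcases lt_or_gt_of_ne hne' with h1 | h1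
  · exact hτ'.2.2 τ hτ.1 hτ.2.1 h1 ⟨z, z', v, hz, hz', hv, hv'⟩
  · exact hτ.2.2 τ' hτ'.1 hτ'.2.1 h1 ⟨z', z, v, hz', hz, hv', hv⟩

end Pool.Agent.EXA
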