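import Pool.Agent.Lib.MP_0087d5_lc.EXA.Net

/-!
# Tokens

Tokens `T` move through the net; at every state the tokens which arrive there are distributed to the next states proportionally to the numbers `c z` of runs (rounded). `A (τ, z)`: the token `τ` visits `z`.
`kz`, `ky` are injective functions which give the orders of states and tokens; `alv τ`: `τ` is used; `so τ`: its start state.
Jobs TKA (`interval`, `tk_next`), TKB (`vt_fix`), TKC (`tk_pos`, `tk_run`), TKD (`tk_pred`, `tk_num`), TKE (`tk_rnd`).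
-/

namespace Pool.Agent.EXA

open Finset

variable {S V T : Type} [Fintype S] [Fintype T]

/-- The sum of `c` over the next states before `z`. -/
noncomputable def Net.pre (N : Net S V) (c kz : S → ℕ) (y z : S) : ℕ := sm (fun z' => N.mv y z' ∧ kz z' < kz z) c

/-- The number of tokens which visit `y`. -/
noncomputable def num (A : T × S → Prop) (y : S) : ℕ := nc (fun τ : T => A (τ, y))

/-- The number of tokens before `τ` which visit `y`. -/
noncomputable def rnk (ky : T → ℕ) (A : T × S → Prop) (τ : T) (y : S) : ℕ := nc (fun τ' : T => A (τ', y) ∧ ky τ' < ky τ)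

/-- The token `τ` moves from `y` to `z`. -/
def Net.chs (N : Net S V) (c kz : S → ℕ) (ky : T → ℕ) (A : T × S → Prop) (τ : T) (y z : S) : Prop :=
  N.mv y z ∧ N.pre c kz y z * num A y ≤ rnk ky A τ y * c y ∧ rnk ky A τ y * c y < (N.pre c kz y z + c z) * num A y

/-- The operator whose fixed point is the relation `A`. -/
def Net.phi (N : Net S V) (c kz : S → ℕ) (ky : T → ℕ) (alv : T → Prop) (so : T → S) (A : T × S → Prop) (p : T × S) : Prop :=
  (alv p.1 ∧ so p.1 = p.2) ∨ ∃ y, A (p.1, y) ∧ ¬ N.tm y ∧ N.chs c kz ky A p.1 y p.2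

variable {N : Net S V} {c kz : S → ℕ} {ky : T → ℕ} {alv : T → Prop} {so : T → S} {A : T × S → Prop} {D : V → Prop} {τ τ' : T} {y y' z z' : S} {rk : S → ℕ} {j J : ℕ}

/-- The hypotheses: `rk` decreases, `kz`, `ky` are injective, `c` is the number of runs, used tokens start in states with runs, `A` is a fixed point. -/
structure TK (N : Net S V) (c kz : S → ℕ) (ky : T → ℕ) (alv : T → Prop) (so : T → S) (A : T × S → Prop) (rk : S → ℕ) : Prop where
  rkd : ∀ z z', N.mv z z' → rk z' < rk z
  hkz : Function.Injective kz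
  hky : Function.Injective ky
  hc : ∀ z, 0 < c z → ¬ N.tm z → c z = sm (N.mv z) c
  hso : ∀ τ, alv τ → 0 < c (so τ)
  fx : ∀ p, A p ↔ N.phi c kz ky alv so A p

private theorem tka_step {k : S → ℕ} (hk : Function.Injective k) {P : S → Prop} {f : S → ℕ} {z : S} (hz : P z) :
    sm (fun z' => P z' ∧ k z' < k z + 1) f = sm (fun z' => P z' ∧ k z' < k z) f + f z := by
  have e1 : sm (fun z' => P z' ∧ k z' < k z + 1) f = sm (fun z' => (P z' ∧ k z' < k z) ∨ z' = z) f := by
    refine sm_congr (fun y => ⟨fun h => ?_, fun h => ?_⟩) fun _ _ => rfl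
    · rcases Nat.lt_or_ge (k y) (k z) with h1 | h1
      · exact Or.inl ⟨h.1, h1⟩
      · exact Or.inr (hk (by have := h.2; omega))
    · rcases h with h | h
      · exact ⟨h.1, by omega⟩
      · rw [h]
        exact ⟨hz, Nat.lt_succ_self _⟩
  rw [e1, sm_or (fun y h1 h2 => by rw [h2] at h1; exact Nat.lt_irrefl _ h1.2)]
  congr 1
  exact sm_single fun _ => Iff.rfl

/-- Job TKA. Intervals: if `0 < a`, `x < a * Σ f` then there is exactly one element `z` with `P z` and `(sum before z) * a ≤ x < (sum up to z) * a`. (Existence: the element with the least key such that `x < (sum up to z) * a`; the sum before `z` is 0 or the sum up to the element before.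
Uniqueness: if `k z < k z'` then the sum up to `z` is at most the sum before `z'`.) -/
theorem interval {k : S → ℕ} (hk : Function.Injective k) {P : S → Prop} {f : S → ℕ} {a x : ℕ} (hx : x < sm P f * a) :
    ∃! z, P z ∧ sm (fun z' => P z' ∧ k z' < k z) f * a ≤ x ∧ x < (sm (fun z' => P z' ∧ k z' < k z) f + f z) * a := by
  have hb : ∃ n, ∀ z, k z < n := ⟨Finset.univ.sup k + 1, fun z => Nat.lt_succ_of_le (Finset.le_sup (Finset.mem_univ z))⟩
  have hex : ∃ n, x < sm (fun z' => P z' ∧ k z' < n) f * a := by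
    obtain ⟨n, hn⟩ := hb
    refine ⟨n, ?_⟩
    have e : sm (fun z' => P z' ∧ k z' < n) f = sm P f := sm_congr (fun z => ⟨fun h => h.1, fun h => ⟨h, hn z⟩⟩) fun _ _ => rfl
    rw [e]
    exact hx
  classical
  have hn := Nat.find_spec hex
  have hmin : ∀ m, m < Nat.find hex → sm (fun z' => P z' ∧ k z' < m) f * a ≤ x := fun m hm => Nat.le_of_not_lt (Nat.find_min hex hm)
  have mono : ∀ m m', m ≤ m' → sm (fun z' => P z' ∧ k z' < m) f * a ≤ sm (fun z' => P z' ∧ k z' < m') f * a := fun m m' hm =>
    Nat.mul_le_mul_right _ (sm_mono (fun z hz => ⟨hz.1, lt_of_lt_of_le hz.2 hm⟩) fun _ _ => le_rfl)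
  obtain ⟨n, hn1⟩ : ∃ n, Nat.find hex = n + 1 := by
    rcases Nat.eq_zero_or_pos (Nat.find hex) with h0 | h0
    · rw [h0, sm_none (fun z hz => Nat.not_lt_zero _ hz.2), zero_mul] at hn
      exact absurd hn (Nat.not_lt_zero _)
    · exact ⟨Nat.find hex - 1, by omega⟩
  rw [hn1] at hn hmin
  have h1 := hmin n (Nat.lt_succ_self n)
  obtain ⟨z, hz, hkz⟩ : ∃ z, P z ∧ k z = n := by
    by_contra hne
    have e : sm (fun z' => P z' ∧ k z' < n + 1) f = sm (fun z' => P z' ∧ k z' < n) f := by
      refine sm_congr (fun z => ⟨fun h => ⟨h.1, ?_⟩, fun h => ⟨h.1, by omega⟩⟩) fun _ _ => rfl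
      have h2 : k z ≠ n := fun h3 => hne ⟨z, h.1, h3⟩
      have h3 := h.2
      omega
    rw [e] at hn
    omega
  refine ⟨z, ⟨hz, by rw [hkz]; exact h1, ?_⟩, ?_⟩
  · rw [← tka_step hk hz, hkz]
    exact hn
  · rintro y ⟨hy, hy1, hy2⟩
    by_contra hne
    have hk2 : k y ≠ k z := fun h => hne (hk h)
    rcases Nat.lt_or_gt_of_ne hk2 with h3 | h3
    · rw [← tka_step hk hy] at hy2
      have h4 := mono (k y + 1) (k z) h3
      rw [hkz] at h4
      omega
    · have h4 := mono (k z + 1) (k y) h3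
      rw [hkz] at h4
      omega

/-- Job TKA. The ranks of tokens in `A (·, y)` are less than `num A y`. -/
theorem rnk_lt (hky : Function.Injective ky) (h : A (τ, y)) : rnk ky A τ y < num A y := by
  unfold rnk num nc
  rw [sm_split (P := fun τ' : T => A (τ', y)) (fun τ' => ky τ' < ky τ)]
  have h1 : 0 < sm (fun τ' : T => A (τ', y) ∧ ¬ ky τ' < ky τ) (fun _ => 1) := sm_pos.2 ⟨τ, ⟨h, lt_irrefl _⟩, Nat.one_pos⟩
  omega

omit [Fintype S] in
private theorem tka_rnk (h : A (τ, y)) (hk : ky τ < ky τ') : rnk ky A τ y < rnk ky A τ' y := by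
  unfold rnk nc
  rw [sm_split (P := fun τ'' : T => A (τ'', y) ∧ ky τ'' < ky τ') (fun τ'' => ky τ'' < ky τ)]
  have h1 : 0 < sm (fun τ'' : T => (A (τ'', y) ∧ ky τ'' < ky τ') ∧ ¬ ky τ'' < ky τ) (fun _ => 1) :=
    sm_pos.2 ⟨τ, ⟨⟨h, hk⟩, lt_irrefl _⟩, Nat.one_pos⟩
  have h2 : sm (fun τ'' : T => A (τ'', y) ∧ ky τ'' < ky τ) (fun _ => 1) ≤ sm (fun τ'' : T => (A (τ'', y) ∧ ky τ'' < ky τ') ∧ ky τ'' < ky τ) (fun _ => 1) :=
    sm_mono (fun x hx => ⟨⟨hx.1, lt_trans hx.2 hk⟩, hx.2⟩) fun _ _ => le_rfl
  omega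

/-- Job TKA. -/
theorem rnk_inj (hky : Function.Injective ky) (h : A (τ, y)) (h' : A (τ', y)) (he : rnk ky A τ y = rnk ky A τ' y) : τ = τ' := by
  rcases lt_trichotomy (ky τ) (ky τ') with h1 | h1 | h1
  · have := tka_rnk (A := A) h h1
    omega
  · exact hky h1
  · have := tka_rnk (A := A) h' h1
    omega

private theorem tkb_phi {A' : T × S → Prop} (h : ∀ y, N.mv y z → ∀ τ, (A (τ, y) ↔ A' (τ, y))) :
    N.phi c kz ky alv so A (τ, z) ↔ N.phi c kz ky alv so A' (τ, z) := by
  unfold Net.phi
  simp only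
  refine or_congr Iff.rfl (exists_congr fun y => ?_)
  by_cases hm : N.mv y z
  · have hy := h y hm
    have e1 : num A y = num A' y := nc_congr fun τ => hy τ
    have e2 : rnk ky A τ y = rnk ky A' τ y := nc_congr fun τ' => and_congr (hy τ') Iff.rfl
    unfold Net.chs
    rw [e1, e2, hy τ]
  · unfold Net.chs
    simp [hm]

/-- Job TKB. If the ranks are less than `J` then the `J`-th iterate is a fixed point. Claim: if `J ≤ rk z + j` then the iterates number `j` and `j + 1` agree at `(τ, z)` for all `τ` (induction on `j`; `phi` at `(τ, z)` only uses the values at `(τ', y)` with `mv y z`, so `rk z < rk y`; the case `j = 0` does not occur since `rk z < J`). -/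
theorem vt_fix (hrk : ∀ z z', N.mv z z' → rk z' < rk z) (hJ : ∀ z, rk z < J) (p : T × S) :
    (N.phi c kz ky alv so)^[J] (fun _ => False) p ↔ N.phi c kz ky alv so ((N.phi c kz ky alv so)^[J] (fun _ => False)) p := by
  have key : ∀ j z, J ≤ rk z + j → ∀ τ, ((N.phi c kz ky alv so)^[j] (fun _ => False) (τ, z) ↔ (N.phi c kz ky alv so)^[j + 1] (fun _ => False) (τ, z)) := by
    intro j
    induction j with
    | zero =>
      intro z hz
      have := hJ z
      omega
    | succ j ih =>
      intro z hz τ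
      rw [Function.iterate_succ_apply', Function.iterate_succ_apply' (n := j + 1)]
      exact tkb_phi fun y hy τ' => ih y (by have := hrk y z hy; omega) τ'
  obtain ⟨τ, z⟩ := p
  have h1 := key J z (Nat.le_add_left _ _) τ
  rwa [Function.iterate_succ_apply'] at h1

/-- Job TKC. Induction along the moves (`rk` decreases, so strong induction on `m - rk z` with `m` an upper bound of the ranks, or induction on the set of states with larger rank; `S` is finite). If `chs τ y z` then `c z` is positive. -/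
theorem tk_pos (h : TK N c kz ky alv so A rk) (hA : A (τ, z)) : alv τ ∧ 0 < c z := by
  have key : ∀ (n : ℕ) (z : S), (∑ y, rk y) - rk z = n → A (τ, z) → alv τ ∧ 0 < c z := by
    intro n
    induction n using Nat.strong_induction_on with
    | _ n ih =>
      intro z hn hA
      rcases (h.fx (τ, z)).1 hA with ⟨h1, h2⟩ | ⟨y, h1, h2, h3⟩
      · refine ⟨h1, ?_⟩
        have := h.hso τ h1
        have h4 : so τ = z := h2
        rwa [h4] at this
      · have h4 : rk z < rk y := h.rkd y z h3.1
        have h5 : rk y ≤ ∑ y, rk y :=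
          Finset.single_le_sum (f := rk) (fun _ _ => Nat.zero_le _) (Finset.mem_univ y)
        have h6 := ih ((∑ y, rk y) - rk y) (by omega) y rfl h1
        refine ⟨h6.1, ?_⟩
        rcases Nat.eq_zero_or_pos (c z) with h7 | h7
        · exfalso
          obtain ⟨_, h8, h9⟩ := h3
          simp only [h7, add_zero] at h9
          exact absurd h9 (not_lt.2 h8)
        · exact h7
  exact key _ z rfl hA

/-- Job TKA. -/
theorem tk_next (h : TK N c kz ky alv so A rk) (hA : A (τ, y)) (hc : 0 < c y) (ht : ¬ N.tm y) : ∃! z, N.chs c kz ky A τ y z := by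
  have h1 : rnk ky A τ y * c y < sm (N.mv y) c * num A y := by
    rw [← h.hc y hc ht, mul_comm (c y)]
    exact Nat.mul_lt_mul_of_pos_right (rnk_lt h.hky hA) hc
  exact interval h.hkz h1

/-- Job TKC. A state which is reached from a visited state is visited. -/
theorem tk_step (h : TK N c kz ky alv so A rk) (hA : A (τ, y)) (ht : ¬ N.tm y) (hz : N.chs c kz ky A τ y z) : A (τ, z) :=
  (h.fx (τ, z)).2 (Or.inr ⟨y, hA, ht, hz⟩)

/-- Job TKC. The trajectory of a token is a complete run. Strong induction on the rank of `y`: for every visited `y` there is a run `l` from `y` such that all members are visited and for every member `x` which is not final the state `x'` with `chs τ x x'` is a member (`tk_next`, `tk_pos`). For `y = so τ`: conversely all visited states are members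
(induction as in `tk_pos`: a visited state is `so τ` or is chosen from a visited state, which is a member; by uniqueness it is a member). -/
theorem tk_run (h : TK N c kz ky alv so A rk) (hD : ∀ z, 0 < c z → N.al D z) (hτ : alv τ) : ∃ l, N.Run D (so τ) l ∧ ∀ z, A (τ, z) ↔ z ∈ l := by
  have key : ∀ (n : ℕ) (y : S), rk y = n → A (τ, y) → ∃ l, N.Run D y l ∧ (∀ x ∈ l, A (τ, x)) ∧
      ∀ x ∈ l, ¬ N.tm x → ∀ x', N.chs c kz ky A τ x x' → x' ∈ l := by
    intro n
    induction n using Nat.strong_induction_on with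
    | _ n ih =>
      intro y hn hA
      have hc : 0 < c y := (tk_pos h hA).2
      by_cases ht : N.tm y
      · refine ⟨[y], Net.Run.tm (hD y hc) ht, ?_, ?_⟩
        · intro x hx
          rw [List.mem_singleton] at hx
          rw [hx]
          exact hA
        · intro x hx hx2
          rw [List.mem_singleton] at hx
          rw [hx] at hx2
          exact absurd ht hx2
      · obtain ⟨z, hz, huniq⟩ := tk_next h hA hc ht
        have h1 : rk z < n := by
          rw [← hn]
          exact h.rkd y z hz.1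
        obtain ⟨l, hl, hl1, hl2⟩ := ih (rk z) h1 z rfl (tk_step h hA ht hz)
        refine ⟨y :: l, Net.Run.mv (hD y hc) ht hz.1 hl, ?_, ?_⟩
        · intro x hx
          rcases List.mem_cons.1 hx with hx | hx
          · rw [hx]
            exact hA
          · exact hl1 x hx
        · intro x hx hx2 x' hx'
          rcases List.mem_cons.1 hx with hx | hx
          · subst hx
            have h2 : x' = z := huniq x' hx'
            obtain ⟨l', hl'⟩ := run_head hl
            rw [h2, hl']
            exact List.mem_cons_of_mem _ List.mem_cons_self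
          · exact List.mem_cons_of_mem _ (hl2 x hx hx2 x' hx')
  obtain ⟨l, hl, hl1, hl2⟩ := key _ (so τ) rfl ((h.fx (τ, so τ)).2 (Or.inl ⟨hτ, rfl⟩))
  refine ⟨l, hl, fun z => ⟨?_, hl1 z⟩⟩
  have key2 : ∀ (n : ℕ) (z : S), (∑ y, rk y) - rk z = n → A (τ, z) → z ∈ l := by
    intro n
    induction n using Nat.strong_induction_on with
    | _ n ih =>
      intro z hn hA
      rcases (h.fx (τ, z)).1 hA with ⟨h1, h2⟩ | ⟨y, h1, h2, h3⟩
      · obtain ⟨l', hl'⟩ := run_head hl
        have h4 : so τ = z := h2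
        rw [hl', ← h4]
        exact List.mem_cons_self
      · have h4 : rk z < rk y := h.rkd y z h3.1
        have h5 : rk y ≤ ∑ y, rk y :=
          Finset.single_le_sum (f := rk) (fun _ _ => Nat.zero_le _) (Finset.mem_univ y)
        exact hl2 y (ih ((∑ y, rk y) - rk y) (by omega) y rfl h1) h2 z h3
  exact key2 _ z rfl

/-- Job TKD. The predecessor on a trajectory is unique, and the start has none. (From `tk_run` with `D = ∅`: in a run `l` (`run_nodup`, `run_rk`) the members are ordered by decreasing rank; let `y`, `y'` be visited and not final, `y` before `y'` (say `rk y' < rk y`; if the ranks are equal they are the same member).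
The next state `z` of `y` is the member directly after `y`, so `rk y' ≤ rk z`; but `rk z < rk y'`. It may be easier to prove: any two visited states with `rk y' ≤ rk y` satisfy: `y'` is reached from `y`.) -/
theorem tk_pred (h : TK N c kz ky alv so A rk) (hA : A (τ, y)) (ht : ¬ N.tm y) (hz : N.chs c kz ky A τ y z) :
    z ≠ so τ ∧ ∀ y', A (τ, y') → ¬ N.tm y' → N.chs c kz ky A τ y' z → y' = y := by
  classical
  have hal := (tk_pos h hA).1
  obtain ⟨l, hl, hl2⟩ := tk_run (D := fun _ => False) h (fun z _ v _ h3 => h3) hal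
  obtain ⟨e, he, he1, he2⟩ := run_tm hl
  obtain ⟨l', hl'⟩ := run_head hl
  have hrank : ∀ x, x ∈ l → rk x ≤ rk (so τ) := by
    intro x hx
    rw [hl'] at hx
    rcases List.mem_cons.1 hx with h1 | h1
    · rw [h1]
    · rw [hl'] at hl
      exact (run_rk h.rkd hl x h1).le
  have hso2 : ∀ x w, A (τ, x) → N.chs c kz ky A τ x w → w ≠ so τ := by
    intro x w hx hw h1
    have h2 := h.rkd _ _ hw.1
    have h3 := hrank x ((hl2 x).1 hx)
    rw [h1] at h2
    omega
  refine ⟨hso2 y z hA hz, fun y' hA' ht' hz' => ?_⟩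
  have hex : ∀ x, ∃ w, (A (τ, x) ∧ ¬ N.tm x) → N.chs c kz ky A τ x w := by
    intro x
    by_cases hx : A (τ, x) ∧ ¬ N.tm x
    · obtain ⟨w, hw, _⟩ := tk_next h hx.1 (tk_pos h hx.1).2 hx.2
      exact ⟨w, fun _ => hw⟩
    · exact ⟨x, fun h1 => absurd h1 hx⟩
  choose s hs using hex
  have huniq : ∀ x w, A (τ, x) → ¬ N.tm x → N.chs c kz ky A τ x w → s x = w := by
    intro x w hx hxt hw
    exact (tk_next h hx (tk_pos h hx).2 hxt).unique (hs x ⟨hx, hxt⟩) hw
  have hF : ∀ x, x ∈ l.toFinset.erase e ↔ A (τ, x) ∧ ¬ N.tm x := by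
    intro x
    rw [Finset.mem_erase, List.mem_toFinset, ← hl2 x]
    constructor
    · rintro ⟨h1, h2⟩
      exact ⟨h2, fun h3 => h1 (he2 x ((hl2 x).1 h2) h3)⟩
    · rintro ⟨h1, h2⟩
      exact ⟨fun h3 => h2 (h3 ▸ he1), h1⟩
  have hmaps : Set.MapsTo s (l.toFinset.erase e : Finset S) (l.toFinset.erase (so τ) : Finset S) := by
    intro x hx
    have hx2 := (hF x).1 hx
    have hw := hs x hx2
    rw [Finset.mem_coe, Finset.mem_erase, List.mem_toFinset, ← hl2]
    exact ⟨hso2 x _ hx2.1 hw, tk_step h hx2.1 hx2.2 hw⟩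
  have hsurj : Set.SurjOn s (l.toFinset.erase e : Finset S) (l.toFinset.erase (so τ) : Finset S) := by
    intro w hw
    rw [Finset.mem_coe, Finset.mem_erase, List.mem_toFinset, ← hl2] at hw
    rcases (h.fx (τ, w)).1 hw.2 with h1 | ⟨x, hx, hxt, hxw⟩
    · exact absurd h1.2.symm hw.1
    · exact ⟨x, (hF x).2 ⟨hx, hxt⟩, huniq x w hx hxt hxw⟩
  have hcard : (l.toFinset.erase e).card ≤ (l.toFinset.erase (so τ)).card := by
    rw [Finset.card_erase_of_mem (List.mem_toFinset.2 he), Finset.card_erase_of_mem (List.mem_toFinset.2 (by rw [hl']; exact List.mem_cons_self))]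
  have hinj := Finset.injOn_of_surjOn_of_card_le s hmaps hsurj hcard
  refine hinj ((hF y').2 ⟨hA', ht'⟩) ((hF y).2 ⟨hA, ht⟩) ?_
  rw [huniq y' z hA' ht' hz', huniq y z hA ht hz]

/-- The number of tokens which move from `y` to `z`. -/
noncomputable def mvn (N : Net S V) (c kz : S → ℕ) (ky : T → ℕ) (A : T × S → Prop) (y z : S) : ℕ :=
  nc (fun τ : T => A (τ, y) ∧ ¬ N.tm y ∧ N.chs c kz ky A τ y z)

/-- Job TKD. Every visit of `z` is a start or a move to `z` (`TK.fx`), and not both (`tk_pred`). -/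
theorem tk_num (h : TK N c kz ky alv so A rk) (z : S) :
    num A z = nc (fun τ : T => alv τ ∧ so τ = z) + sm (fun _ : S => True) (fun y => mvn N c kz ky A y z) := by
  have e1 : num A z = sm (fun τ : T => (alv τ ∧ so τ = z) ∨ ∃ y, A (τ, y) ∧ ¬ N.tm y ∧ N.chs c kz ky A τ y z) (fun _ => 1) :=
    sm_congr (fun τ => h.fx (τ, z)) fun _ _ => rfl
  rw [e1, sm_or]
  · congr 1
    have e2 : sm (fun τ : T => ∃ y, A (τ, y) ∧ ¬ N.tm y ∧ N.chs c kz ky A τ y z) (fun _ => 1) =
        sm (fun τ : T => ∃ y, A (τ, y) ∧ ¬ N.tm y ∧ N.chs c kz ky A τ y z)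
          (fun τ => sm (fun y => A (τ, y) ∧ ¬ N.tm y ∧ N.chs c kz ky A τ y z) (fun _ => 1)) := by
      refine sm_congr (fun _ => Iff.rfl) fun τ hτ => ?_
      obtain ⟨y, hy⟩ := hτ
      refine (sm_single (f := fun _ => 1) (b := y) fun y' => ⟨fun hy' => ?_, fun hy' => hy' ▸ hy⟩).symm
      exact (tk_pred h hy.1 hy.2.1 hy.2.2).2 y' hy'.1 hy'.2.1 hy'.2.2
    rw [e2]
    unfold mvn nc
    refine sm_comm (Q'' := fun y (τ : T) => A (τ, y) ∧ ¬ N.tm y ∧ N.chs c kz ky A τ y z) fun τ y => ?_
    exact ⟨fun hp => ⟨trivial, hp.2⟩, fun hp => ⟨⟨y, hp.2⟩, hp.2⟩⟩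
  · rintro τ h1 ⟨y, hy⟩
    exact (tk_pred h hy.1 hy.2.1 hy.2.2).1 h1.2.symm

/-- Job TKE. Every token which visits `y`, not final, moves to some state; in the sum over `z` every token is counted once. -/
theorem mvn_zero (h : N.tm y ∨ ¬ N.mv y z) : mvn N c kz ky A y z = 0 := by
  refine nc_zero fun τ hτ => ?_
  rcases h with h | h
  · exact hτ.2.1 h
  · exact h hτ.2.2.1

/-- Job TKE. The number of integers `ρ` with `p * a ≤ ρ * b < (p + q) * a` is at most `q * a / b + 1`: the ranks (`rnk_inj`) of the tokens which move from `y` to `z` are such numbers; if `ρ₁`, `ρ₂` are the least and the largest rank then `(ρ₂ - ρ₁) * c y < c z * num A y` and there are at most `ρ₂ - ρ₁ + 1` of them. -/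
theorem mvn_le (h : TK N c kz ky alv so A rk) : mvn N c kz ky A y z * c y ≤ num A y * c z + c y := by
  classical
  obtain ⟨F, hF⟩ : ∃ F : Finset T, F = Finset.univ.filter (fun τ => A (τ, y) ∧ ¬ N.tm y ∧ N.chs c kz ky A τ y z) := ⟨_, rfl⟩
  have m1 : ∀ τ, τ ∈ F ↔ A (τ, y) ∧ ¬ N.tm y ∧ N.chs c kz ky A τ y z := fun τ => by
    rw [hF, Finset.mem_filter]
    exact ⟨fun h1 => h1.2, fun h1 => ⟨Finset.mem_univ _, h1⟩⟩
  have hM : mvn N c kz ky A y z = (F.image (fun τ => rnk ky A τ y)).card := by
    rw [Finset.card_image_of_injOn, hF]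
    · exact nc_def
    · intro τ hτ τ' hτ' he
      exact rnk_inj h.hky ((m1 τ).1 hτ).1 ((m1 τ').1 hτ').1 he
  rw [hM]
  rcases F.eq_empty_or_nonempty with h0 | h0
  · rw [h0, Finset.image_empty, Finset.card_empty, zero_mul]
    exact Nat.zero_le _
  · have hne : (F.image (fun τ => rnk ky A τ y)).Nonempty := h0.image _
    obtain ⟨R, hR⟩ : ∃ R, R = F.image (fun τ => rnk ky A τ y) := ⟨_, rfl⟩
    rw [← hR] at hne ⊢
    have m2 : ∀ r, r ∈ R → N.pre c kz y z * num A y ≤ r * c y ∧ r * c y < (N.pre c kz y z + c z) * num A y := by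
      intro r hr
      rw [hR, Finset.mem_image] at hr
      obtain ⟨τ, hτ, rfl⟩ := hr
      exact ((m1 τ).1 hτ).2.2.2
    have h1 := m2 _ (R.min'_mem hne)
    have h2 := m2 _ (R.max'_mem hne)
    have h3 : R.card ≤ R.max' hne + 1 - R.min' hne := by
      rw [← Nat.card_Icc]
      refine Finset.card_le_card fun r hr => ?_
      rw [Finset.mem_Icc]
      exact ⟨R.min'_le r hr, R.le_max' r hr⟩
    have h4 : R.min' hne ≤ R.max' hne := R.min'_le _ (R.max'_mem hne)
    obtain ⟨m, hm⟩ : ∃ m, R.max' hne = R.min' hne + m := ⟨R.max' hne - R.min' hne, by omega⟩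
    rw [hm] at h2 h3
    have h5 : R.card ≤ m + 1 := by omega
    have h6 : R.card * c y ≤ (m + 1) * c y := Nat.mul_le_mul_right _ h5
    have h7 := h2.2
    rw [add_mul, add_mul] at h7
    rw [add_mul, one_mul] at h6
    rw [mul_comm (num A y)]
    omega

end Pool.Agent.EXA
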